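import Pool.Agent.Lib.MP_2c0b9b_co.Defs

/-!
# More definitions: relations between levels, gadgets
-/

set_option autoImplicit false

open Finset

namespace Pool.Agent.LS3

/-- A move of colour `a` changes class `a` by `-E` and class `a + 1` by `+E`. -/
def sg (i a : ZMod 3) : ℤ := (if i = a + 1 then 1 else 0) - (if i = a then 1 else 0)

/-- The relation between the levels satisfied by counts of `k`-sets. -/
def Rel {α : Type*} [DecidableEq α] [Fintype α] (t k : ℕ) (d : Finset α → ℤ) : Prop :=
  ∀ s ≤ t, ∀ R : Finset α, R.card ≤ s →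
    ∑ U ∈ (powersetCard s univ).filter (fun U => R ⊆ U), d U =
      ((k - R.card).choose (s - R.card) : ℕ) * d R

section
variable {α : Type*} [DecidableEq α]

/-- All the points used by a gadget. -/
def pt {s t : ℕ} (p : (Fin s → α) × (Fin s → α)) (z : Fin (t + 1) → ZMod 3 → α) :
    (Fin s ⊕ Fin s) ⊕ (Fin (t + 1) × ZMod 3) → α :=
  Sum.elim (Sum.elim p.1 p.2) (fun q => z q.1 q.2)

/-- The set of all the points used by a gadget. -/
def pts {s t : ℕ} (p : (Fin s → α) × (Fin s → α)) (z : Fin (t + 1) → ZMod 3 → α) : Finset α :=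
  univ.image (pt p z)

/-- A block of a gadget. -/
def blk {s t : ℕ} (p : (Fin s → α) × (Fin s → α)) (z : Fin (t + 1) → ZMod 3 → α) (S : Finset α)
    (e : Fin (t + 1) → ZMod 3) (J : Finset (Fin s)) : Finset α :=
  S ∪ univ.image (fun j => z j (e j)) ∪ tr p J

/-- Parity of the number of elements, as a colour. -/
def par {s : ℕ} (J : Finset (Fin s)) : ZMod 3 := if Even J.card then 0 else 1

/-- The effect of a move. -/
def effT {s t : ℕ} (p : (Fin s → α) × (Fin s → α)) (z : Fin (t + 1) → ZMod 3 → α) (S : Finset α)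
    (e : Fin (t + 1) → ZMod 3) (T : Finset α) : ℤ :=
  ∑ J : Finset (Fin s), if T ⊆ blk p z S e J then (-1) ^ J.card else 0

end

end Pool.Agent.LS3
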