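import Pool.Agent.Lib.MP_2c0b9b_co.Pods
import Pool.Agent.Lib.MP_2c0b9b_co.Defs2

/-!
# Correction of the discrepancy
-/

set_option autoImplicit false

open Finset

namespace Pool.Agent.LS3

private theorem sum3 (F : ZMod 3 → ℤ) : ∑ a, F a = F 0 + F 1 + F 2 := Fin.sum_univ_three F

private theorem cases3 : ∀ i : ZMod 3, i = 0 ∨ i = 1 ∨ i = 2 := by decide

private theorem sum_sg (a : ZMod 3) : ∑ i, sg i a = 0 := by
  unfold sg
  rw [Finset.sum_sub_distrib]
  simp

private theorem abs_sg (i a : ZMod 3) : |sg i a| ≤ 1 := by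
  unfold sg
  split_ifs <;> simp

section
variable {α : Type*} [DecidableEq α] [Fintype α] {t k : ℕ}

private theorem rel_add {d d' : Finset α → ℤ} (h : Rel t k d) (h' : Rel t k d') :
    Rel t k (fun T => d T + d' T) := by
  intro s hs R hR
  rw [Finset.sum_add_distrib, h s hs R hR, h' s hs R hR, mul_add]

private theorem rel_mul (c : ℤ) {d : Finset α → ℤ} (h : Rel t k d) :
    Rel t k (fun T => c * d T) := by
  intro s hs R hR
  rw [← Finset.mul_sum, h s hs R hR]
  ring

private theorem rel_sum {ι : Type*} (S : Finset ι) {f : ι → Finset α → ℤ}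
    (h : ∀ i ∈ S, Rel t k (f i)) : Rel t k (fun T => ∑ i ∈ S, f i T) := by
  intro s hs R hR
  rw [Finset.sum_comm, Finset.mul_sum]
  exact Finset.sum_congr rfl fun i hi => h i hi s hs R hR

/-- the changes made by the gadgets of one level -/
private def chg {s : ℕ} (e : (Fin s → α) × (Fin s → α) → ZMod 3 → ℕ → Finset α → ℤ)
    (f : (Fin s → α) × (Fin s → α) → ZMod 3 → ℕ) (i : ZMod 3) (T : Finset α) : ℤ :=
  ∑ p : (Fin s → α) × (Fin s → α), ∑ a : ZMod 3, ∑ g ∈ range (f p a), sg i a * e p a g T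

/-- the discrepancy after the first `n` levels -/
private def cD (d : ZMod 3 → Finset α → ℤ)
    (eff : (s : ℕ) → (Fin s → α) × (Fin s → α) → ZMod 3 → ℕ → Finset α → ℤ)
    (w : (s : ℕ) → (Fin s → α) × (Fin s → α) → ZMod 3 → ℕ) (n : ℕ) (i : ZMod 3)
    (T : Finset α) : ℤ :=
  d i T + ∑ s ∈ range n, chg (eff s) (w s) i T

omit [DecidableEq α] in
private theorem chg_sum {s : ℕ} (e : (Fin s → α) × (Fin s → α) → ZMod 3 → ℕ → Finset α → ℤ)
    (f : (Fin s → α) × (Fin s → α) → ZMod 3 → ℕ) (T : Finset α) : ∑ i, chg e f i T = 0 := by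
  unfold chg
  rw [Finset.sum_comm]
  refine Finset.sum_eq_zero fun p _ => ?_
  rw [Finset.sum_comm]
  refine Finset.sum_eq_zero fun a _ => ?_
  rw [Finset.sum_comm]
  refine Finset.sum_eq_zero fun g _ => ?_
  rw [← Finset.sum_mul, sum_sg, zero_mul]

private theorem chg_rel {s : ℕ} {e : (Fin s → α) × (Fin s → α) → ZMod 3 → ℕ → Finset α → ℤ}
    {f : (Fin s → α) × (Fin s → α) → ZMod 3 → ℕ}
    (h : ∀ p a, ∀ g < f p a, Rel t k (e p a g)) (i : ZMod 3) : Rel t k (chg e f i) := by
  unfold chg
  refine rel_sum _ fun p _ => rel_sum _ fun a _ => rel_sum _ fun g hg => ?_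
  exact rel_mul _ (h p a g (mem_range.1 hg))

omit [DecidableEq α] in
private theorem chg_zero {s : ℕ} {e : (Fin s → α) × (Fin s → α) → ZMod 3 → ℕ → Finset α → ℤ}
    {f : (Fin s → α) × (Fin s → α) → ZMod 3 → ℕ} {T : Finset α}
    (h : ∀ p a, ∀ g < f p a, e p a g T = 0) (i : ZMod 3) : chg e f i T = 0 := by
  unfold chg
  refine Finset.sum_eq_zero fun p _ => Finset.sum_eq_zero fun a _ =>
    Finset.sum_eq_zero fun g hg => ?_
  rw [h p a g (mem_range.1 hg), mul_zero]

omit [DecidableEq α] in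
private theorem chg_abs {s : ℕ} {e : (Fin s → α) × (Fin s → α) → ZMod 3 → ℕ → Finset α → ℤ}
    {f : (Fin s → α) × (Fin s → α) → ZMod 3 → ℕ} {T : Finset α}
    (h : ∀ p a, ∀ g < f p a, |e p a g T| ≤ 1) (i : ZMod 3) :
    |chg e f i T| ≤ ∑ p, ∑ a, (f p a : ℤ) := by
  unfold chg
  refine (Finset.abs_sum_le_sum_abs _ _).trans (Finset.sum_le_sum fun p _ => ?_)
  refine (Finset.abs_sum_le_sum_abs _ _).trans (Finset.sum_le_sum fun a _ => ?_)
  refine (Finset.abs_sum_le_sum_abs _ _).trans ?_
  have h1 : ∑ g ∈ range (f p a), |sg i a * e p a g T| ≤ ∑ _g ∈ range (f p a), (1 : ℤ) := by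
    refine Finset.sum_le_sum fun g hg => ?_
    rw [abs_mul]
    exact mul_le_one₀ (abs_sg i a) (abs_nonneg _) (h p a g (mem_range.1 hg))
  simpa using h1

private theorem chg_pod {s : ℕ} {e : (Fin s → α) × (Fin s → α) → ZMod 3 → ℕ → Finset α → ℤ}
    {f : (Fin s → α) × (Fin s → α) → ZMod 3 → ℕ} {T : Finset α}
    (h : ∀ p a, ∀ g < f p a, e p a g T = pod p T) (i : ZMod 3) :
    chg e f i T = ∑ p, (∑ a, (f p a : ℤ) * sg i a) * pod p T := by
  unfold chg
  refine Finset.sum_congr rfl fun p _ => ?_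
  rw [Finset.sum_mul]
  refine Finset.sum_congr rfl fun a _ => ?_
  rw [Finset.sum_congr rfl fun g hg => by rw [h p a g (mem_range.1 hg)],
    Finset.sum_const, card_range, nsmul_eq_mul, mul_assoc]

/-- one level -/
private theorem level (t k v : ℕ) (hv : Fintype.card α = v) {s : ℕ} (hs : s ≤ t)
    (d : ZMod 3 → Finset α → ℤ)
    (hsum : ∀ T : Finset α, T.card ≤ t → ∑ i, d i T = 0)
    (hrel : ∀ i, Rel t k (d i))
    (hz : ∀ i, ∀ T : Finset α, T.card < s → d i T = 0)
    (hbd : ∀ i, ∀ T : Finset α, T.card ≤ t → |d i T| ≤ dl t v s)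
    (e : (Fin s → α) × (Fin s → α) → ZMod 3 → ℕ → Finset α → ℤ)
    (he0 : ∀ p, Oct p → ∀ a, ∀ g < gd t v s, ∀ T, T.card < s → e p a g T = 0)
    (he1 : ∀ p, Oct p → ∀ a, ∀ g < gd t v s, ∀ T, T.card = s → e p a g T = pod p T)
    (he2 : ∀ p, Oct p → ∀ a, ∀ g < gd t v s, ∀ T, |e p a g T| ≤ 1)
    (her : ∀ p, Oct p → ∀ a, ∀ g < gd t v s, Rel t k (e p a g)) :
    ∃ f : (Fin s → α) × (Fin s → α) → ZMod 3 → ℕ,
      (∀ p a, f p a ≤ gd t v s) ∧ (∀ p a, ¬ Oct p → f p a = 0) ∧
      (∀ i, Rel t k (chg e f i)) ∧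
      (∀ i, ∀ T : Finset α, T.card < s + 1 → d i T + chg e f i T = 0) ∧
      ∀ i, ∀ T : Finset α, T.card ≤ t → |d i T + chg e f i T| ≤ dl t v (s + 1) := by
  -- decomposition into pods
  have hnull : ∀ i, ∀ R ⊆ (univ : Finset α), R.card < s →
      ∑ U ∈ (powersetCard s univ).filter (fun U => R ⊆ U), d i U = 0 := by
    intro i R _ hR
    rw [hrel i s hs R hR.le, hz i R hR, mul_zero]
  obtain ⟨c0, h01, h02, h03⟩ := pods s univ (d 0) (hnull 0)
  obtain ⟨c1, h11, h12, h13⟩ := pods s univ (d 1) (hnull 1)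
  have hcard : ((powersetCard s (univ : Finset α)).card : ℤ) = v.choose s := by
    rw [card_powersetCard, card_univ, hv]
  have hsz : ∀ i, ∑ U ∈ powersetCard s (univ : Finset α), |d i U| ≤ v.choose s * dl t v s := by
    intro i
    have h1 : ∑ U ∈ powersetCard s (univ : Finset α), |d i U| ≤
        ∑ _U ∈ powersetCard s (univ : Finset α), (dl t v s : ℤ) := by
      refine Finset.sum_le_sum fun U hU => hbd i U ?_
      rw [(mem_powersetCard.1 hU).2]
      exact hs
    rwa [Finset.sum_const, nsmul_eq_mul, hcard] at h1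
  have hK : (0 : ℤ) ≤ K s := Int.natCast_nonneg _
  have hb0 : ∑ p, |c0 p| ≤ K s * (v.choose s * dl t v s) :=
    h03.trans (mul_le_mul_of_nonneg_left (hsz 0) hK)
  have hb1 : ∑ p, |c1 p| ≤ K s * (v.choose s * dl t v s) :=
    h13.trans (mul_le_mul_of_nonneg_left (hsz 1) hK)
  -- numbers of gadgets
  let W : (Fin s → α) × (Fin s → α) → ZMod 3 → ℤ := fun p a =>
    if a = 2 then |c0 p| + |c1 p| else if a = 0 then |c0 p| + |c1 p| + c0 p
    else |c0 p| + |c1 p| + c0 p + c1 p
  have W0 : ∀ p, W p 0 = |c0 p| + |c1 p| + c0 p := fun p => by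
    simp only [W]
    rw [if_neg (by decide)]
    exact if_pos trivial
  have W1 : ∀ p, W p 1 = |c0 p| + |c1 p| + c0 p + c1 p := fun p => by
    simp only [W]
    rw [if_neg (by decide), if_neg (by decide)]
  have W2 : ∀ p, W p 2 = |c0 p| + |c1 p| := fun p => by
    simp only [W]
    exact if_pos trivial
  have hWnn : ∀ p a, 0 ≤ W p a := by
    intro p a
    have h1 := neg_abs_le (c0 p)
    have h2 := neg_abs_le (c1 p)
    have h3 := abs_nonneg (c0 p)
    have h4 := abs_nonneg (c1 p)
    rcases cases3 a with rfl | rfl | rfl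
    · rw [W0]; omega
    · rw [W1]; omega
    · rw [W2]; omega
  have hWle : ∀ p a, W p a ≤ 2 * |c0 p| + 2 * |c1 p| := by
    intro p a
    have h1 := le_abs_self (c0 p)
    have h2 := le_abs_self (c1 p)
    have h3 := abs_nonneg (c0 p)
    have h4 := abs_nonneg (c1 p)
    rcases cases3 a with rfl | rfl | rfl
    · rw [W0]; omega
    · rw [W1]; omega
    · rw [W2]; omega
  have hWoct : ∀ p a, ¬ Oct p → W p a = 0 := by
    intro p a hp
    have h1 : c0 p = 0 := by
      by_contra h
      exact hp (h01 p h).1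
    have h2 : c1 p = 0 := by
      by_contra h
      exact hp (h11 p h).1
    rcases cases3 a with rfl | rfl | rfl
    · rw [W0, h1, h2]; simp
    · rw [W1, h1, h2]; simp
    · rw [W2, h1, h2]; simp
  let f : (Fin s → α) × (Fin s → α) → ZMod 3 → ℕ := fun p a => (W p a).toNat
  have hf : ∀ p a, (f p a : ℤ) = W p a := fun p a => Int.toNat_of_nonneg (hWnn p a)
  have hfgd : ∀ p a, f p a ≤ gd t v s := by
    intro p a
    have h1 : |c0 p| ≤ ∑ q, |c0 q| :=
      Finset.single_le_sum (f := fun q => |c0 q|) (fun q _ => abs_nonneg _) (mem_univ p)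
    have h2 : |c1 p| ≤ ∑ q, |c1 q| :=
      Finset.single_le_sum (f := fun q => |c1 q|) (fun q _ => abs_nonneg _) (mem_univ p)
    have h3 := hWle p a
    have h4 : (gd t v s : ℤ) = 4 * (K s * (v.choose s * dl t v s)) := by
      unfold gd
      push_cast
      ring
    have h5 : (f p a : ℤ) ≤ gd t v s := by
      rw [hf, h4]
      linarith
    exact_mod_cast h5
  have hfoct : ∀ p a, ¬ Oct p → f p a = 0 := by
    intro p a hp
    have := hf p a
    rw [hWoct p a hp] at this
    exact_mod_cast this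
  have hoct : ∀ p a, ∀ g < f p a, Oct p := by
    intro p a g hg
    by_contra hp
    rw [hfoct p a hp] at hg
    exact absurd hg (Nat.not_lt_zero _)
  refine ⟨f, hfgd, hfoct, ?_, ?_, ?_⟩
  · intro i
    exact chg_rel (fun p a g hg => her p (hoct p a g hg) a g (hg.trans_le (hfgd p a))) i
  · intro i T hT
    rcases Nat.lt_or_eq_of_le (Nat.le_of_lt_succ hT) with h1 | h1
    · rw [hz i T h1, chg_zero (fun p a g hg => he0 p (hoct p a g hg) a g
        (hg.trans_le (hfgd p a)) T h1) i, add_zero]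
    · rw [chg_pod (fun p a g hg => he1 p (hoct p a g hg) a g (hg.trans_le (hfgd p a)) T h1) i]
      have hTm : T ∈ powersetCard s (univ : Finset α) := mem_powersetCard.2 ⟨subset_univ _, h1⟩
      have e0 := h02 T hTm
      have e1 := h12 T hTm
      have e2 := hsum T (by omega)
      rw [sum3] at e2
      have s00 : sg 0 0 = -1 := by decide
      have s01 : sg 0 1 = 0 := by decide
      have s02 : sg 0 2 = 1 := by decide
      have s10 : sg 1 0 = 1 := by decide
      have s11 : sg 1 1 = -1 := by decide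
      have s12 : sg 1 2 = 0 := by decide
      have s20 : sg 2 0 = 0 := by decide
      have s21 : sg 2 1 = 1 := by decide
      have s22 : sg 2 2 = -1 := by decide
      rcases cases3 i with rfl | rfl | rfl
      · have h2 : ∀ p, (∑ a, (f p a : ℤ) * sg 0 a) * pod p T = -(c0 p * pod p T) := by
          intro p
          rw [sum3, hf, hf, hf, W0, W1, W2, s00, s01, s02]
          ring
        rw [Finset.sum_congr rfl fun p _ => h2 p, Finset.sum_neg_distrib, ← e0]
        ring
      · have h2 : ∀ p, (∑ a, (f p a : ℤ) * sg 1 a) * pod p T = -(c1 p * pod p T) := by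
          intro p
          rw [sum3, hf, hf, hf, W0, W1, W2, s10, s11, s12]
          ring
        rw [Finset.sum_congr rfl fun p _ => h2 p, Finset.sum_neg_distrib, ← e1]
        ring
      · have h2 : ∀ p, (∑ a, (f p a : ℤ) * sg 2 a) * pod p T =
            c0 p * pod p T + c1 p * pod p T := by
          intro p
          rw [sum3, hf, hf, hf, W0, W1, W2, s20, s21, s22]
          ring
        rw [Finset.sum_congr rfl fun p _ => h2 p, Finset.sum_add_distrib, ← e0, ← e1]
        linarith
  · intro i T hT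
    have h1 := chg_abs (T := T) (fun p a g hg => he2 p (hoct p a g hg) a g
      (hg.trans_le (hfgd p a)) T) i
    have h2 : ∑ p, ∑ a, (f p a : ℤ) ≤ 5 * (∑ p, |c0 p|) + 5 * ∑ p, |c1 p| := by
      rw [Finset.mul_sum, Finset.mul_sum, ← Finset.sum_add_distrib]
      refine Finset.sum_le_sum fun p _ => ?_
      rw [sum3, hf, hf, hf, W0, W1, W2]
      have h1 := le_abs_self (c0 p)
      have h2 := le_abs_self (c1 p)
      have h3 := abs_nonneg (c0 p)
      have h4 := abs_nonneg (c1 p)
      omega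
    have h3 := hbd i T hT
    have h4 : (dl t v (s + 1) : ℤ) = dl t v s + 10 * (K s * (v.choose s * dl t v s)) := by
      rw [dl]
      push_cast
      ring
    rw [h4]
    refine (abs_add_le _ _).trans ?_
    linarith

end

theorem correct {α : Type*} [DecidableEq α] [Fintype α] (t k v : ℕ) (hv : Fintype.card α = v)
    (d : ZMod 3 → Finset α → ℤ)
    (hsum : ∀ T : Finset α, T.card ≤ t → ∑ i, d i T = 0)
    (hrel : ∀ i, Rel t k (d i))
    (hbd : ∀ i, ∀ T : Finset α, T.card ≤ t → |d i T| ≤ dl t v 0)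
    (eff : (s : ℕ) → (Fin s → α) × (Fin s → α) → ZMod 3 → ℕ → Finset α → ℤ)
    (heff0 : ∀ s ≤ t, ∀ p, Oct p → ∀ a, ∀ g < gd t v s, ∀ T, T.card < s → eff s p a g T = 0)
    (heff1 : ∀ s ≤ t, ∀ p, Oct p → ∀ a, ∀ g < gd t v s, ∀ T, T.card = s →
      eff s p a g T = pod p T)
    (heff2 : ∀ s ≤ t, ∀ p, Oct p → ∀ a, ∀ g < gd t v s, ∀ T, |eff s p a g T| ≤ 1)
    (heffr : ∀ s ≤ t, ∀ p, Oct p → ∀ a, ∀ g < gd t v s, Rel t k (eff s p a g)) :
    ∃ w : (s : ℕ) → (Fin s → α) × (Fin s → α) → ZMod 3 → ℕ,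
      (∀ s p a, w s p a ≤ gd t v s) ∧ (∀ s p a, ¬ Oct p → w s p a = 0) ∧
      ∀ i, ∀ T : Finset α, T.card ≤ t →
        d i T + ∑ s ∈ range (t + 1), ∑ p : (Fin s → α) × (Fin s → α), ∑ a : ZMod 3,
          ∑ g ∈ range (w s p a), sg i a * eff s p a g T = 0 := by
  have claim : ∀ n ≤ t + 1, ∃ w : (s : ℕ) → (Fin s → α) × (Fin s → α) → ZMod 3 → ℕ,
      (∀ s p a, w s p a ≤ gd t v s) ∧ (∀ s p a, ¬ Oct p → w s p a = 0) ∧
      (∀ T : Finset α, T.card ≤ t → ∑ i, cD d eff w n i T = 0) ∧
      (∀ i, Rel t k (cD d eff w n i)) ∧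
      (∀ i, ∀ T : Finset α, T.card < n → cD d eff w n i T = 0) ∧
      ∀ i, ∀ T : Finset α, T.card ≤ t → |cD d eff w n i T| ≤ dl t v n := by
    intro n
    induction n with
    | zero =>
      intro _
      have e : ∀ i T, cD d eff (fun _ _ _ => 0) 0 i T = d i T := by
        intro i T
        unfold cD
        simp
      refine ⟨fun _ _ _ => 0, fun _ _ _ => Nat.zero_le _, fun _ _ _ _ => rfl, ?_, ?_, ?_, ?_⟩
      · intro T hT
        simp only [e]
        exact hsum T hT
      · intro i
        have : cD d eff (fun _ _ _ => 0) 0 i = d i := funext fun T => e i T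
        rw [this]
        exact hrel i
      · intro i T hT
        exact absurd hT (Nat.not_lt_zero _)
      · intro i T hT
        rw [e]
        exact hbd i T hT
    | succ s ih =>
      intro hs
      obtain ⟨w, hw1, hw2, hw3, hw4, hw5, hw6⟩ := ih (by omega)
      have hst : s ≤ t := by omega
      obtain ⟨f, hf1, hf2, hf3, hf4, hf5⟩ := level t k v hv hst (cD d eff w s) hw3 hw4 hw5 hw6
        (eff s) (heff0 s hst) (heff1 s hst) (heff2 s hst) (heffr s hst)
      have hstep : ∀ i T, cD d eff (Function.update w s f) (s + 1) i T =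
          cD d eff w s i T + chg (eff s) f i T := by
        intro i T
        unfold cD
        rw [Finset.sum_range_succ, Function.update_self, ← add_assoc]
        congr 2
        refine Finset.sum_congr rfl fun s' hs' => ?_
        rw [mem_range] at hs'
        rw [Function.update_of_ne (by omega)]
      refine ⟨Function.update w s f, ?_, ?_, ?_, ?_, ?_, ?_⟩
      · intro s'
        by_cases h : s' = s
        · subst h
          rw [Function.update_self]
          exact hf1
        · rw [Function.update_of_ne h]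
          exact hw1 s'
      · intro s'
        by_cases h : s' = s
        · subst h
          rw [Function.update_self]
          exact hf2
        · rw [Function.update_of_ne h]
          exact hw2 s'
      · intro T hT
        simp only [hstep]
        rw [Finset.sum_add_distrib, hw3 T hT, chg_sum, add_zero]
      · intro i
        have : cD d eff (Function.update w s f) (s + 1) i =
            fun T => cD d eff w s i T + chg (eff s) f i T := funext fun T => hstep i T
        rw [this]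
        exact rel_add (hw4 i) (hf3 i)
      · intro i T hT
        rw [hstep]
        exact hf4 i T hT
      · intro i T hT
        rw [hstep]
        exact hf5 i T hT
  obtain ⟨w, h1, h2, _, _, h5, _⟩ := claim (t + 1) le_rfl
  exact ⟨w, h1, h2, fun i T hT => h5 i T (Nat.lt_succ_of_le hT)⟩

end Pool.Agent.LS3
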