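import Pool.Agent.Lib.MP_2c0b9b_co.Defs2

/-!
# Properties of one gadget
-/

set_option autoImplicit false

open Finset

namespace Pool.Agent.LS3

section
variable {α : Type*} [DecidableEq α]

/-! ### Membership in a block -/

theorem gad_mem_blk {s t : ℕ} (p : (Fin s → α) × (Fin s → α)) (z : Fin (t + 1) → ZMod 3 → α)
    (S : Finset α) (e : Fin (t + 1) → ZMod 3) (J : Finset (Fin s)) (a : α) :
    a ∈ blk p z S e J ↔ a ∈ S ∨ (∃ j, z j (e j) = a) ∨
      ∃ i, (if i ∈ J then p.2 i else p.1 i) = a := by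
  simp only [blk, tr, mem_union, mem_image, mem_univ, true_and]
  tauto

theorem gad_not_mem {s t : ℕ} (p : (Fin s → α) × (Fin s → α)) (z : Fin (t + 1) → ZMod 3 → α)
    {S : Finset α} (hS : Disjoint S (pts p z)) (x : (Fin s ⊕ Fin s) ⊕ (Fin (t + 1) × ZMod 3)) :
    pt p z x ∉ S := by
  intro h
  exact Finset.disjoint_left.mp hS h (mem_image_of_mem _ (mem_univ x))

theorem gad_mem_fst {s t : ℕ} (p : (Fin s → α) × (Fin s → α)) (z : Fin (t + 1) → ZMod 3 → α)
    (hp : Function.Injective (pt p z)) {S : Finset α} (hS : Disjoint S (pts p z))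
    (e : Fin (t + 1) → ZMod 3) (J : Finset (Fin s)) (i : Fin s) :
    p.1 i ∈ blk p z S e J ↔ i ∉ J := by
  rw [gad_mem_blk]
  constructor
  · rintro (h | ⟨j, h⟩ | ⟨i', h⟩)
    · exact absurd h (gad_not_mem p z hS (Sum.inl (Sum.inl i)))
    · have := @hp (Sum.inr (j, e j)) (Sum.inl (Sum.inl i)) h
      simp at this
    · split_ifs at h with h1
      · have := @hp (Sum.inl (Sum.inr i')) (Sum.inl (Sum.inl i)) h
        simp at this
      · have := @hp (Sum.inl (Sum.inl i')) (Sum.inl (Sum.inl i)) h
        simp only [Sum.inl.injEq] at this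
        rwa [← this]
  · intro h
    exact Or.inr (Or.inr ⟨i, if_neg h⟩)

theorem gad_mem_snd {s t : ℕ} (p : (Fin s → α) × (Fin s → α)) (z : Fin (t + 1) → ZMod 3 → α)
    (hp : Function.Injective (pt p z)) {S : Finset α} (hS : Disjoint S (pts p z))
    (e : Fin (t + 1) → ZMod 3) (J : Finset (Fin s)) (i : Fin s) :
    p.2 i ∈ blk p z S e J ↔ i ∈ J := by
  rw [gad_mem_blk]
  constructor
  · rintro (h | ⟨j, h⟩ | ⟨i', h⟩)
    · exact absurd h (gad_not_mem p z hS (Sum.inl (Sum.inr i)))
    · have := @hp (Sum.inr (j, e j)) (Sum.inl (Sum.inr i)) h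
      simp at this
    · split_ifs at h with h1
      · have := @hp (Sum.inl (Sum.inr i')) (Sum.inl (Sum.inr i)) h
        simp only [Sum.inl.injEq, Sum.inr.injEq] at this
        rwa [← this]
      · have := @hp (Sum.inl (Sum.inl i')) (Sum.inl (Sum.inr i)) h
        simp at this
  · intro h
    exact Or.inr (Or.inr ⟨i, if_pos h⟩)

theorem gad_mem_z {s t : ℕ} (p : (Fin s → α) × (Fin s → α)) (z : Fin (t + 1) → ZMod 3 → α)
    (hp : Function.Injective (pt p z)) {S : Finset α} (hS : Disjoint S (pts p z))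
    (e : Fin (t + 1) → ZMod 3) (J : Finset (Fin s)) (j : Fin (t + 1)) (x : ZMod 3) :
    z j x ∈ blk p z S e J ↔ e j = x := by
  rw [gad_mem_blk]
  constructor
  · rintro (h | ⟨j', h⟩ | ⟨i', h⟩)
    · exact absurd h (gad_not_mem p z hS (Sum.inr (j, x)))
    · have := @hp (Sum.inr (j', e j')) (Sum.inr (j, x)) h
      simp only [Sum.inr.injEq, Prod.mk.injEq] at this
      obtain ⟨rfl, h2⟩ := this
      exact h2
    · split_ifs at h with h1
      · have := @hp (Sum.inl (Sum.inr i')) (Sum.inr (j, x)) h
        simp at this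
      · have := @hp (Sum.inl (Sum.inl i')) (Sum.inr (j, x)) h
        simp at this
  · rintro rfl
    exact Or.inr (Or.inl ⟨j, rfl⟩)

theorem gad_mem_other {s t : ℕ} (p : (Fin s → α) × (Fin s → α)) (z : Fin (t + 1) → ZMod 3 → α)
    (S : Finset α) (e : Fin (t + 1) → ZMod 3) (J : Finset (Fin s)) {a : α}
    (ha : a ∉ pts p z) : a ∈ blk p z S e J ↔ a ∈ S := by
  rw [gad_mem_blk]
  constructor
  · rintro (h | ⟨j, h⟩ | ⟨i', h⟩)
    · exact h
    · exact absurd (mem_image.mpr ⟨Sum.inr (j, e j), mem_univ _, h⟩) ha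
    · split_ifs at h with h1
      · exact absurd (mem_image.mpr ⟨Sum.inl (Sum.inr i'), mem_univ _, h⟩) ha
      · exact absurd (mem_image.mpr ⟨Sum.inl (Sum.inl i'), mem_univ _, h⟩) ha
  · exact Or.inl

theorem blk_inj {s t : ℕ} (p : (Fin s → α) × (Fin s → α)) (z : Fin (t + 1) → ZMod 3 → α)
    (hp : Function.Injective (pt p z)) {S S' : Finset α} (hS : Disjoint S (pts p z))
    (hS' : Disjoint S' (pts p z)) {e e' : Fin (t + 1) → ZMod 3} {J J' : Finset (Fin s)}
    (h : blk p z S e J = blk p z S' e' J') : S = S' ∧ e = e' ∧ J = J' := by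
  refine ⟨?_, ?_, ?_⟩
  · ext a
    by_cases ha : a ∈ pts p z
    · exact ⟨fun h1 => absurd ha (Finset.disjoint_left.mp hS h1),
        fun h1 => absurd ha (Finset.disjoint_left.mp hS' h1)⟩
    · rw [← gad_mem_other p z S e J ha, h, gad_mem_other p z S' e' J' ha]
  · funext j
    have h1 := (gad_mem_z p z hp hS e J j (e j)).mpr rfl
    rw [h, gad_mem_z p z hp hS'] at h1
    exact h1.symm
  · ext i
    rw [← gad_mem_snd p z hp hS e J i, h, gad_mem_snd p z hp hS']

theorem gad_tr_inj {s t : ℕ} (p : (Fin s → α) × (Fin s → α)) (z : Fin (t + 1) → ZMod 3 → α)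
    (hp : Function.Injective (pt p z)) (J : Finset (Fin s)) :
    Function.Injective (fun i => if i ∈ J then p.2 i else p.1 i) := by
  intro i i' h
  simp only at h
  split_ifs at h with h1 h2 h2
  · have := @hp (Sum.inl (Sum.inr i)) (Sum.inl (Sum.inr i')) h
    simpa using this
  · have := @hp (Sum.inl (Sum.inr i)) (Sum.inl (Sum.inl i')) h
    simp at this
  · have := @hp (Sum.inl (Sum.inl i)) (Sum.inl (Sum.inr i')) h
    simp at this
  · have := @hp (Sum.inl (Sum.inl i)) (Sum.inl (Sum.inl i')) h
    simpa using this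

theorem gad_tr_card {s t : ℕ} (p : (Fin s → α) × (Fin s → α)) (z : Fin (t + 1) → ZMod 3 → α)
    (hp : Function.Injective (pt p z)) (J : Finset (Fin s)) : (tr p J).card = s := by
  unfold tr
  rw [card_image_of_injective _ (gad_tr_inj p z hp J), card_univ, Fintype.card_fin]

theorem gad_mem_tr {s : ℕ} (p : (Fin s → α) × (Fin s → α)) (J : Finset (Fin s)) (a : α) :
    a ∈ tr p J ↔ ∃ i, (if i ∈ J then p.2 i else p.1 i) = a := by
  simp [tr]

theorem gad_tr_subset {s t : ℕ} (p : (Fin s → α) × (Fin s → α)) (z : Fin (t + 1) → ZMod 3 → α)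
    (S : Finset α) (e : Fin (t + 1) → ZMod 3) (J : Finset (Fin s)) :
    tr p J ⊆ blk p z S e J := subset_union_right

theorem blk_card {s t : ℕ} (p : (Fin s → α) × (Fin s → α)) (z : Fin (t + 1) → ZMod 3 → α)
    (hp : Function.Injective (pt p z)) {S : Finset α} (hS : Disjoint S (pts p z))
    (e : Fin (t + 1) → ZMod 3) (J : Finset (Fin s)) :
    (blk p z S e J).card = S.card + (t + 1) + s := by
  have hzinj : Function.Injective (fun j => z j (e j)) := by
    intro j j' h
    have := @hp (Sum.inr (j, e j)) (Sum.inr (j', e j')) h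
    simp only [Sum.inr.injEq, Prod.mk.injEq] at this
    exact this.1
  have h1 : Disjoint S (univ.image (fun j => z j (e j))) := by
    rw [Finset.disjoint_left]
    intro a ha hb
    obtain ⟨j, -, rfl⟩ := mem_image.mp hb
    exact gad_not_mem p z hS (Sum.inr (j, e j)) ha
  have h2 : Disjoint (S ∪ univ.image (fun j => z j (e j))) (tr p J) := by
    rw [Finset.disjoint_left]
    intro a ha hb
    obtain ⟨i, hi⟩ := (gad_mem_tr p J a).mp hb
    rcases mem_union.mp ha with ha | ha
    · subst hi
      split_ifs at ha with h3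
      · exact gad_not_mem p z hS (Sum.inl (Sum.inr i)) ha
      · exact gad_not_mem p z hS (Sum.inl (Sum.inl i)) ha
    · obtain ⟨j, -, hj⟩ := mem_image.mp ha
      rw [← hj] at hi
      split_ifs at hi with h3
      · have := @hp (Sum.inl (Sum.inr i)) (Sum.inr (j, e j)) hi
        simp at this
      · have := @hp (Sum.inl (Sum.inl i)) (Sum.inr (j, e j)) hi
        simp at this
  unfold blk
  rw [card_union_of_disjoint h2, card_union_of_disjoint h1, gad_tr_card p z hp J,
    card_image_of_injective _ hzinj, card_univ, Fintype.card_fin]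

/-! ### Balance of the gadget -/

theorem gad_exists_free {s t : ℕ} (p : (Fin s → α) × (Fin s → α))
    (z : Fin (t + 1) → ZMod 3 → α) (hp : Function.Injective (pt p z)) (T : Finset α)
    (hT : T.card ≤ t) : ∃ j₀, ∀ x, z j₀ x ∉ T := by
  by_contra hcon
  push Not at hcon
  choose f hf using hcon
  have hinj : Function.Injective (fun j => z j (f j)) := by
    intro j j' h
    have := @hp (Sum.inr (j, f j)) (Sum.inr (j', f j')) h
    simp only [Sum.inr.injEq, Prod.mk.injEq] at this
    exact this.1
  have h1 : (univ.image (fun j => z j (f j))).card ≤ T.card := by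
    apply card_le_card
    intro a ha
    obtain ⟨j, -, rfl⟩ := mem_image.mp ha
    exact hf j
  rw [card_image_of_injective _ hinj, card_univ, Fintype.card_fin] at h1
  omega

theorem gadget_bal {s t : ℕ} (p : (Fin s → α) × (Fin s → α)) (z : Fin (t + 1) → ZMod 3 → α)
    (hp : Function.Injective (pt p z)) {S : Finset α} (hS : Disjoint S (pts p z))
    (T : Finset α) (hT : T.card ≤ t) (i : ZMod 3) :
    3 * (univ.filter (fun q : (Fin (t + 1) → ZMod 3) × Finset (Fin s) =>
      T ⊆ blk p z S q.1 q.2 ∧ ∑ j, q.1 j + par q.2 = i)).card =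
    (univ.filter (fun q : (Fin (t + 1) → ZMod 3) × Finset (Fin s) =>
      T ⊆ blk p z S q.1 q.2)).card := by
  obtain ⟨j₀, hj₀⟩ := gad_exists_free p z hp T hT
  -- the number of pairs with a given colour
  let N : ZMod 3 → ℕ := fun i => (univ.filter
    (fun q : (Fin (t + 1) → ZMod 3) × Finset (Fin s) =>
      T ⊆ blk p z S q.1 q.2 ∧ ∑ j, q.1 j + par q.2 = i)).card
  have hsub : ∀ (e : Fin (t + 1) → ZMod 3) (J : Finset (Fin s)) (c : ZMod 3),
      T ⊆ blk p z S e J → T ⊆ blk p z S (Function.update e j₀ c) J := by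
    intro e J c h a ha
    have h1 := h ha
    rw [gad_mem_blk] at h1 ⊢
    rcases h1 with h1 | ⟨j, h1⟩ | h1
    · exact Or.inl h1
    · refine Or.inr (Or.inl ⟨j, ?_⟩)
      by_cases hj : j = j₀
      · subst hj
        exact absurd (h1 ▸ ha) (hj₀ _)
      · rw [Function.update_of_ne hj]
        exact h1
    · exact Or.inr (Or.inr h1)
  have hsum : ∀ (e : Fin (t + 1) → ZMod 3) (c : ZMod 3),
      ∑ j, Function.update e j₀ c j = (∑ j, e j) - e j₀ + c := by
    intro e c
    rw [Finset.sum_update_of_mem (mem_univ j₀), ← Finset.sum_sdiff (subset_univ {j₀}) (f := e),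
      Finset.sum_singleton]
    ring
  have hstep : ∀ i, N i = N (i + 1) := by
    intro i
    refine Finset.card_bij' (fun q _ => (Function.update q.1 j₀ (q.1 j₀ + 1), q.2))
      (fun q _ => (Function.update q.1 j₀ (q.1 j₀ - 1), q.2)) ?_ ?_ ?_ ?_
    · rintro ⟨e, J⟩ hq
      simp only [mem_filter, mem_univ, true_and] at hq ⊢
      refine ⟨hsub e J _ hq.1, ?_⟩
      rw [hsum, ← hq.2]
      ring
    · rintro ⟨e, J⟩ hq
      simp only [mem_filter, mem_univ, true_and] at hq ⊢
      refine ⟨hsub e J _ hq.1, ?_⟩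
      rw [hsum]
      linear_combination hq.2
    · rintro ⟨e, J⟩ hq
      simp
    · rintro ⟨e, J⟩ hq
      simp
  have htot : (univ.filter (fun q : (Fin (t + 1) → ZMod 3) × Finset (Fin s) =>
      T ⊆ blk p z S q.1 q.2)).card = ∑ i : ZMod 3, N i := by
    rw [Finset.card_eq_sum_card_fiberwise
      (f := fun q : (Fin (t + 1) → ZMod 3) × Finset (Fin s) => ∑ j, q.1 j + par q.2)
      (t := univ) (fun _ _ => mem_univ _)]
    refine Finset.sum_congr rfl fun i _ => ?_
    simp only [N]
    rw [Finset.filter_filter]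
  have hall : ∀ i, N i = N 0 := by
    have h0 := hstep 0
    have h1 := hstep 1
    intro i
    fin_cases i
    · rfl
    · exact h0.symm
    · exact (h0.trans h1).symm
  change 3 * N i = _
  rw [htot, hall i, Finset.sum_congr rfl fun i _ => hall i, Finset.sum_const, card_univ,
    ZMod.card, smul_eq_mul]

/-! ### The effect of a move -/

theorem gad_flip {s t : ℕ} (p : (Fin s → α) × (Fin s → α)) (z : Fin (t + 1) → ZMod 3 → α)
    (S : Finset α) (e : Fin (t + 1) → ZMod 3) (T : Finset α) (i : Fin s)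
    (h1 : p.1 i ∉ T) (h2 : p.2 i ∉ T) (J : Finset (Fin s)) (h : T ⊆ blk p z S e J) :
    T ⊆ blk p z S e (symmDiff J {i}) := by
  intro a ha
  have h3 := h ha
  rw [gad_mem_blk] at h3 ⊢
  rcases h3 with h3 | h3 | ⟨i', h3⟩
  · exact Or.inl h3
  · exact Or.inr (Or.inl h3)
  · refine Or.inr (Or.inr ⟨i', ?_⟩)
    have hne : i' ≠ i := by
      rintro rfl
      split_ifs at h3 with h4
      · exact h2 (h3 ▸ ha)
      · exact h1 (h3 ▸ ha)
    have hiff : i' ∈ symmDiff J {i} ↔ i' ∈ J := by
      rw [Finset.mem_symmDiff, Finset.mem_singleton]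
      tauto
    simp only [hiff]
    exact h3

theorem gad_pow_flip {s : ℕ} (J : Finset (Fin s)) (i : Fin s) :
    ((-1 : ℤ)) ^ (symmDiff J {i}).card = - (-1) ^ J.card := by
  by_cases hi : i ∈ J
  · have h1 : symmDiff J {i} = J.erase i := by
      ext x
      rw [Finset.mem_symmDiff, Finset.mem_singleton, Finset.mem_erase]
      constructor
      · rintro (⟨h1, h2⟩ | ⟨h1, h2⟩)
        · exact ⟨h2, h1⟩
        · subst h1; exact absurd hi h2
      · rintro ⟨h1, h2⟩
        exact Or.inl ⟨h2, h1⟩
    have h2 : J.card = (J.erase i).card + 1 := (card_erase_add_one hi).symm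
    rw [h1, h2, pow_succ]
    ring
  · have h1 : symmDiff J {i} = insert i J := by
      ext x
      rw [Finset.mem_symmDiff, Finset.mem_singleton, Finset.mem_insert]
      constructor
      · rintro (⟨h1, h2⟩ | ⟨h1, h2⟩)
        · exact Or.inr h1
        · exact Or.inl h1
      · rintro (h1 | h1)
        · subst h1; exact Or.inr ⟨rfl, hi⟩
        · refine Or.inl ⟨h1, ?_⟩
          rintro rfl
          exact hi h1
    rw [h1, card_insert_of_notMem hi, pow_succ]
    ring

theorem gad_miss {s t : ℕ} (p : (Fin s → α) × (Fin s → α)) (z : Fin (t + 1) → ZMod 3 → α)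
    (S : Finset α) (e : Fin (t + 1) → ZMod 3) (T : Finset α) (i : Fin s)
    (h1 : p.1 i ∉ T) (h2 : p.2 i ∉ T) : effT p z S e T = 0 := by
  have hinv : ∀ J : Finset (Fin s), symmDiff (symmDiff J {i}) {i} = J := fun J =>
    symmDiff_symmDiff_cancel_right _ _
  have hiff : ∀ J, T ⊆ blk p z S e (symmDiff J {i}) ↔ T ⊆ blk p z S e J := by
    intro J
    constructor
    · intro h
      have := gad_flip p z S e T i h1 h2 _ h
      rwa [hinv] at this
    · exact gad_flip p z S e T i h1 h2 J
  have key : effT p z S e T = - effT p z S e T := by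
    have h3 : effT p z S e T = ∑ J : Finset (Fin s),
        if T ⊆ blk p z S e (symmDiff J {i}) then (-1 : ℤ) ^ (symmDiff J {i}).card else 0 :=
      (Equiv.sum_comp (Function.Involutive.toPerm (fun J : Finset (Fin s) => symmDiff J {i})
        hinv) (fun J => if T ⊆ blk p z S e J then (-1 : ℤ) ^ J.card else 0)).symm
    refine h3.trans ?_
    unfold effT
    rw [← Finset.sum_neg_distrib]
    refine Finset.sum_congr rfl fun J _ => ?_
    simp only [hiff, gad_pow_flip]
    split_ifs <;> simp
  omega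

theorem gad_exists_miss {s t : ℕ} (p : (Fin s → α) × (Fin s → α))
    (z : Fin (t + 1) → ZMod 3 → α) (hp : Function.Injective (pt p z)) (T : Finset α)
    (hT : T.card < s) : ∃ i, p.1 i ∉ T ∧ p.2 i ∉ T := by
  by_contra hcon
  push Not at hcon
  let J : Finset (Fin s) := univ.filter fun i => p.2 i ∈ T
  have h1 : tr p J ⊆ T := by
    intro a ha
    obtain ⟨i, hi⟩ := (gad_mem_tr p J a).mp ha
    split_ifs at hi with h2
    · rw [← hi]
      exact (mem_filter.mp h2).2
    · rw [← hi]
      by_contra h3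
      exact h2 (mem_filter.mpr ⟨mem_univ _, hcon i h3⟩)
  have h2 := card_le_card h1
  rw [gad_tr_card p z hp] at h2
  omega

theorem effT_zero {s t : ℕ} (p : (Fin s → α) × (Fin s → α)) (z : Fin (t + 1) → ZMod 3 → α)
    (hp : Function.Injective (pt p z)) {S : Finset α} (hS : Disjoint S (pts p z))
    (e : Fin (t + 1) → ZMod 3) (T : Finset α) (hT : T.card < s) : effT p z S e T = 0 := by
  obtain ⟨i, h1, h2⟩ := gad_exists_miss p z hp T hT
  exact gad_miss p z S e T i h1 h2

theorem gad_mem_tr_fst {s t : ℕ} (p : (Fin s → α) × (Fin s → α)) (z : Fin (t + 1) → ZMod 3 → α)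
    (hp : Function.Injective (pt p z)) (J : Finset (Fin s)) (i : Fin s) :
    (if i ∈ J then p.2 i else p.1 i) ∈ tr p J := (gad_mem_tr p J _).mpr ⟨i, rfl⟩

/-- If `T` meets every pair and lies in the block `J`, then the transversal of `J` is in `T`. -/
theorem gad_tr_le {s t : ℕ} (p : (Fin s → α) × (Fin s → α)) (z : Fin (t + 1) → ZMod 3 → α)
    (hp : Function.Injective (pt p z)) {S : Finset α} (hS : Disjoint S (pts p z))
    (e : Fin (t + 1) → ZMod 3) (T : Finset α) (hall : ∀ i, p.1 i ∉ T → p.2 i ∈ T)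
    (J : Finset (Fin s)) (h : T ⊆ blk p z S e J) : tr p J ⊆ T := by
  intro a ha
  obtain ⟨i, hi⟩ := (gad_mem_tr p J a).mp ha
  split_ifs at hi with h2
  · rw [← hi]
    apply hall
    intro h3
    exact ((gad_mem_fst p z hp hS e J i).mp (h h3)) h2
  · rw [← hi]
    by_contra h3
    exact h2 ((gad_mem_snd p z hp hS e J i).mp (h (hall i h3)))

theorem effT_pod {s t : ℕ} (p : (Fin s → α) × (Fin s → α)) (z : Fin (t + 1) → ZMod 3 → α)
    (hp : Function.Injective (pt p z)) {S : Finset α} (hS : Disjoint S (pts p z))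
    (e : Fin (t + 1) → ZMod 3) (T : Finset α) (hT : T.card = s) :
    effT p z S e T = pod p T := by
  by_cases hall : ∀ i, p.1 i ∉ T → p.2 i ∈ T
  · unfold effT pod
    refine Finset.sum_congr rfl fun J _ => ?_
    have hiff : T ⊆ blk p z S e J ↔ tr p J = T := by
      constructor
      · intro h
        exact Finset.eq_of_subset_of_card_le (gad_tr_le p z hp hS e T hall J h)
          (by rw [gad_tr_card p z hp, hT])
      · intro h
        rw [← h]
        exact gad_tr_subset p z S e J
    simp only [hiff]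
  · push Not at hall
    obtain ⟨i, h1, h2⟩ := hall
    rw [gad_miss p z S e T i h1 h2]
    unfold pod
    symm
    refine Finset.sum_eq_zero fun J _ => ?_
    rw [if_neg]
    intro h
    have h3 := gad_mem_tr_fst p z hp J i
    rw [h] at h3
    split_ifs at h3
    · exact h2 h3
    · exact h1 h3

theorem effT_abs {s t : ℕ} (p : (Fin s → α) × (Fin s → α)) (z : Fin (t + 1) → ZMod 3 → α)
    (hp : Function.Injective (pt p z)) {S : Finset α} (hS : Disjoint S (pts p z))
    (e : Fin (t + 1) → ZMod 3) (T : Finset α) : |effT p z S e T| ≤ 1 := by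
  by_cases hall : ∀ i, p.1 i ∉ T → p.2 i ∈ T
  · let J₀ : Finset (Fin s) := univ.filter fun i => p.2 i ∈ T
    have huniq : ∀ J, T ⊆ blk p z S e J → J = J₀ := by
      intro J h
      ext i
      simp only [J₀, mem_filter, mem_univ, true_and]
      constructor
      · intro hi
        apply hall
        intro h3
        exact ((gad_mem_fst p z hp hS e J i).mp (h h3)) hi
      · intro hi
        exact (gad_mem_snd p z hp hS e J i).mp (h hi)
    unfold effT
    rw [Finset.sum_eq_single J₀]
    · split_ifs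
      · rw [abs_pow, abs_neg, abs_one, one_pow]
      · simp
    · intro J _ hJ
      rw [if_neg]
      intro h
      exact hJ (huniq J h)
    · intro h
      exact absurd (mem_univ _) h
  · push Not at hall
    obtain ⟨i, h1, h2⟩ := hall
    rw [gad_miss p z S e T i h1 h2]
    simp

theorem gad_count [Fintype α] (R B : Finset α) (hR : R ⊆ B) (m : ℕ) (hm : R.card ≤ m) :
    (((powersetCard m univ).filter (fun U => R ⊆ U)).filter (fun U => U ⊆ B)).card =
      (B.card - R.card).choose (m - R.card) := by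
  have h1 : (B.card - R.card).choose (m - R.card) = (powersetCard (m - R.card) (B \ R)).card := by
    rw [card_powersetCard, card_sdiff_of_subset hR]
  rw [h1]
  refine Finset.card_bij' (fun U _ => U \ R) (fun V _ => V ∪ R) ?_ ?_ ?_ ?_
  · intro U hU
    simp only [mem_filter, mem_powersetCard, subset_univ, true_and] at hU
    obtain ⟨⟨h2, h3⟩, h4⟩ := hU
    rw [mem_powersetCard]
    refine ⟨sdiff_subset_sdiff h4 (Subset.refl _), ?_⟩
    rw [card_sdiff_of_subset h3, h2]
  · intro V hV
    rw [mem_powersetCard] at hV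
    obtain ⟨h2, h3⟩ := hV
    simp only [mem_filter, mem_powersetCard, subset_univ, true_and]
    have h4 : Disjoint V R := by
      rw [Finset.disjoint_left]
      intro a ha hb
      exact (mem_sdiff.mp (h2 ha)).2 hb
    refine ⟨⟨?_, subset_union_right⟩, ?_⟩
    · rw [card_union_of_disjoint h4, h3]
      omega
    · exact union_subset (h2.trans sdiff_subset) hR
  · intro U hU
    simp only [mem_filter, mem_powersetCard, subset_univ, true_and] at hU
    exact sdiff_union_of_subset hU.1.2
  · intro V hV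
    rw [mem_powersetCard] at hV
    have h4 : Disjoint V R := by
      rw [Finset.disjoint_left]
      intro a ha hb
      exact (mem_sdiff.mp (hV.1 ha)).2 hb
    exact union_sdiff_cancel_right h4

theorem effT_rel {s t : ℕ} [Fintype α] (p : (Fin s → α) × (Fin s → α))
    (z : Fin (t + 1) → ZMod 3 → α)
    (hp : Function.Injective (pt p z)) {S : Finset α} (hS : Disjoint S (pts p z))
    (e : Fin (t + 1) → ZMod 3) (k : ℕ) (hk : S.card + (t + 1) + s = k) :
    Rel t k (effT p z S e) := by
  intro s' hs' R hR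
  unfold effT
  rw [Finset.sum_comm, Finset.mul_sum]
  refine Finset.sum_congr rfl fun J _ => ?_
  rw [← Finset.sum_filter, Finset.sum_const, nsmul_eq_mul]
  have hcard : (blk p z S e J).card = k := by rw [blk_card p z hp hS, hk]
  by_cases h : R ⊆ blk p z S e J
  · rw [if_pos h, gad_count R _ h s' hR, hcard]
  · rw [if_neg h, mul_zero]
    have h2 : (((powersetCard s' univ).filter (fun U => R ⊆ U)).filter
        (fun U => U ⊆ blk p z S e J)) = ∅ := by
      rw [Finset.eq_empty_iff_forall_notMem]
      intro U hU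
      simp only [mem_filter] at hU
      exact h (hU.1.2.trans hU.2)
    rw [h2]
    simp

end

end Pool.Agent.LS3
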