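import Pool.Agent.Lib.MP_2c0b9b_co.Defs

/-!
# Greedy choice of disjoint gadgets
-/

set_option autoImplicit false

open Finset

namespace Pool.Agent.LS3

theorem greedy {ι β γ : Type*} [Nonempty β] [DecidableEq ι] [DecidableEq β] [DecidableEq γ]
    (I : Finset ι)
    (opt : ι → Finset β) (bl : ι → β → Finset γ) (b : ℕ)
    (hb : ∀ i ∈ I, ∀ o ∈ opt i, (bl i o).card ≤ b)
    (hinj : ∀ i ∈ I, ∀ c : γ, ((opt i).filter (fun o => c ∈ bl i o)).card ≤ 1)
    (hcard : ∀ i ∈ I, b * I.card < (opt i).card) :
    ∃ g : ι → β, (∀ i ∈ I, g i ∈ opt i) ∧
      ∀ i ∈ I, ∀ j ∈ I, i ≠ j → Disjoint (bl i (g i)) (bl j (g j)) := by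
  have key : ∀ (N : ℕ) (I : Finset ι), I.card ≤ N →
      (∀ i ∈ I, ∀ o ∈ opt i, (bl i o).card ≤ b) →
      (∀ i ∈ I, ∀ c : γ, ((opt i).filter (fun o => c ∈ bl i o)).card ≤ 1) →
      (∀ i ∈ I, b * N < (opt i).card) →
      ∃ g : ι → β, (∀ i ∈ I, g i ∈ opt i) ∧
        ∀ i ∈ I, ∀ j ∈ I, i ≠ j → Disjoint (bl i (g i)) (bl j (g j)) := by
    intro N I
    induction I using Finset.induction_on with
    | empty =>
      intro _ _ _ _
      exact ⟨fun _ => Classical.arbitrary β, by simp, by simp⟩
    | insert i I hi ih =>
      intro hN hb hinj hcard
      obtain ⟨g, hg, hd⟩ := ih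
        (le_trans (Finset.card_le_card (Finset.subset_insert i I)) hN)
        (fun j hj => hb j (Finset.mem_insert_of_mem hj))
        (fun j hj => hinj j (Finset.mem_insert_of_mem hj))
        (fun j hj => hcard j (Finset.mem_insert_of_mem hj))
      have hI : i ∈ insert i I := Finset.mem_insert_self i I
      set U : Finset γ := I.biUnion (fun j => bl j (g j)) with hU
      have hUc : U.card ≤ b * N := by
        have h1 : U.card ≤ I.card * b := by
          rw [hU]
          apply Finset.card_biUnion_le_card_mul
          intro j hj
          exact hb j (Finset.mem_insert_of_mem hj) (g j) (hg j hj)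
        have h2 : I.card ≤ N :=
          le_trans (Finset.card_le_card (Finset.subset_insert i I)) hN
        calc U.card ≤ I.card * b := h1
          _ ≤ N * b := Nat.mul_le_mul_right b h2
          _ = b * N := Nat.mul_comm N b
      set Bad : Finset β := U.biUnion (fun c => (opt i).filter (fun o => c ∈ bl i o)) with hBad
      have hBadc : Bad.card ≤ b * N := by
        have h1 : Bad.card ≤ U.card * 1 := by
          rw [hBad]
          apply Finset.card_biUnion_le_card_mul
          intro c _
          exact hinj i hI c
        omega
      have hex : ∃ o ∈ opt i, o ∉ Bad := by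
        apply Finset.exists_mem_notMem_of_card_lt_card
        exact lt_of_le_of_lt hBadc (hcard i hI)
      obtain ⟨o, ho, hoB⟩ := hex
      have hdisj : ∀ j ∈ I, Disjoint (bl i o) (bl j (g j)) := by
        intro j hj
        rw [Finset.disjoint_left]
        intro c hc hc'
        apply hoB
        rw [hBad, Finset.mem_biUnion]
        refine ⟨c, ?_, ?_⟩
        · rw [hU, Finset.mem_biUnion]
          exact ⟨j, hj, hc'⟩
        · exact Finset.mem_filter.mpr ⟨ho, hc⟩
      refine ⟨fun j => if j = i then o else g j, ?_, ?_⟩
      · intro j hj
        rcases Finset.mem_insert.mp hj with h | h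
        · subst h; simpa using ho
        · have hne : j ≠ i := fun hh => hi (hh ▸ h)
          simp only [hne, if_false]
          exact hg j h
      · intro j hj k hk hjk
        rcases Finset.mem_insert.mp hj with h | h
        · subst h
          rcases Finset.mem_insert.mp hk with h' | h'
          · exact absurd h'.symm hjk
          · have hne : k ≠ j := fun hh => hi (hh ▸ h')
            simp only [if_true, hne, if_false]
            exact hdisj k h'
        · have hne : j ≠ i := fun hh => hi (hh ▸ h)
          rcases Finset.mem_insert.mp hk with h' | h'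
          · subst h'
            simp only [if_true, hne, if_false]
            exact (hdisj j h).symm
          · have hne' : k ≠ i := fun hh => hi (hh ▸ h')
            simp only [hne, hne', if_false]
            exact hd j h k h' hjk
  exact key I.card I le_rfl hb hinj hcard

end Pool.Agent.LS3
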