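import Pool.Agent.Lib.MP_2c0b9b_co.Defs

/-!
# Rounding
-/

set_option autoImplicit false

open Finset

namespace Pool.Agent.LS3

/-- A nontrivial relation supported on a large finite set. -/
private theorem round_exists_rel {Ω ι : Type*} [DecidableEq Ω] (R : Finset Ω) (I : Finset ι)
    (a : Ω → ι → ℝ) (hc : I.card < R.card) :
    ∃ l : Ω → ℝ, (∀ B, B ∉ R → l B = 0) ∧ (∃ B ∈ R, l B ≠ 0) ∧
      ∀ T ∈ I, ∑ B ∈ R, l B * a B T = 0 := by
  classical
  let L : (R → ℝ) →ₗ[ℝ] (I → ℝ) :=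
    { toFun := fun l T => ∑ B : R, l B * a B.1 T.1
      map_add' := by
        intro x y
        funext T
        simp [add_mul, Finset.sum_add_distrib]
      map_smul' := by
        intro c x
        funext T
        simp [Finset.mul_sum, mul_assoc] }
  have hker : LinearMap.ker L ≠ ⊥ := by
    apply LinearMap.ker_ne_bot_of_finrank_lt
    simpa using hc
  obtain ⟨l, hl, hl0⟩ := Submodule.exists_mem_ne_zero_of_ne_bot hker
  refine ⟨fun B => if h : B ∈ R then l ⟨B, h⟩ else 0, ?_, ?_, ?_⟩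
  · intro B hB
    simp [hB]
  · by_contra hcon
    push Not at hcon
    apply hl0
    funext B
    have := hcon B.1 B.2
    simpa [B.2] using this
  · intro T hT
    have h1 : L l = 0 := hl
    have h2 := congrFun h1 ⟨T, hT⟩
    have h3 : ∑ B : R, l B * a B.1 T = 0 := h2
    rw [← Finset.sum_attach]
    rw [← h3]
    refine Finset.sum_congr rfl fun B _ => ?_
    simp [B.2]

theorem rounding {Ω ι : Type*} [DecidableEq Ω] (S : Finset Ω) (I : Finset ι) (a : Ω → ι → ℝ)
    (ha : ∀ B ∈ S, ∀ T ∈ I, |a B T| ≤ 1) (x : Ω → ℝ) (hx : ∀ B ∈ S, 0 ≤ x B ∧ x B ≤ 1) :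
    ∃ Y ⊆ S, ∀ T ∈ I, |∑ B ∈ Y, a B T - ∑ B ∈ S, x B * a B T| ≤ I.card := by
  classical
  let P : (Ω → ℝ) → Prop := fun y => (∀ B ∈ S, 0 ≤ y B ∧ y B ≤ 1) ∧
    ∀ T ∈ I, ∑ B ∈ S, y B * a B T = ∑ B ∈ S, x B * a B T
  let fr : (Ω → ℝ) → Finset Ω := fun y => S.filter fun B => y B ≠ 0 ∧ y B ≠ 1
  have hex : ∃ n, ∃ y, P y ∧ (fr y).card = n := ⟨_, x, ⟨hx, fun _ _ => rfl⟩, rfl⟩
  obtain ⟨y, hPy, hyc⟩ := Nat.find_spec hex
  have hmin : ∀ z, P z → (fr y).card ≤ (fr z).card := by
    intro z hz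
    rw [hyc]
    exact Nat.find_min' hex ⟨z, hz, rfl⟩
  have hcard : (fr y).card ≤ I.card := by
    by_contra hcon
    push Not at hcon
    obtain ⟨l, hl0, ⟨B₀, hB₀, hlB₀⟩, hrel⟩ := round_exists_rel (fr y) I a hcon
    have hfrS : fr y ⊆ S := Finset.filter_subset _ _
    have hint : ∀ B ∈ fr y, 0 < y B ∧ y B < 1 := by
      intro B hB
      have h1 := hPy.1 B (hfrS hB)
      have h2 := (Finset.mem_filter.mp hB).2
      exact ⟨lt_of_le_of_ne h1.1 (Ne.symm h2.1), lt_of_le_of_ne h1.2 h2.2⟩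
    let c : Ω → ℝ := fun B => if 0 < l B then (1 - y B) / l B else y B / (-l B)
    obtain ⟨B₁, hB₁, hB₁min⟩ := Finset.exists_min_image ((fr y).filter fun B => l B ≠ 0) c
      ⟨B₀, Finset.mem_filter.mpr ⟨hB₀, hlB₀⟩⟩
    rw [Finset.mem_filter] at hB₁
    have hcpos : 0 < c B₁ := by
      have h1 := hint B₁ hB₁.1
      simp only [c]
      split_ifs with h
      · exact div_pos (by linarith) h
      · have h2 : l B₁ < 0 := lt_of_le_of_ne (not_lt.mp h) hB₁.2
        exact div_pos h1.1 (by linarith)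
    let z : Ω → ℝ := fun B => y B + c B₁ * l B
    have hzsum : ∀ T ∈ I, ∑ B ∈ S, z B * a B T = ∑ B ∈ S, x B * a B T := by
      intro T hT
      rw [← hPy.2 T hT]
      have h1 : ∑ B ∈ S, l B * a B T = 0 := by
        rw [← hrel T hT]
        symm
        apply Finset.sum_subset hfrS
        intro B _ hB
        rw [hl0 B hB, zero_mul]
      have h2 : ∑ B ∈ S, z B * a B T = ∑ B ∈ S, y B * a B T + c B₁ * ∑ B ∈ S, l B * a B T := by
        rw [Finset.mul_sum, ← Finset.sum_add_distrib]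
        refine Finset.sum_congr rfl fun B _ => ?_
        simp only [z]
        ring
      rw [h2, h1, mul_zero, add_zero]
    have hzout : ∀ B, B ∉ fr y → z B = y B := by
      intro B hB
      simp only [z]
      rw [hl0 B hB, mul_zero, add_zero]
    have hzbd : ∀ B ∈ S, 0 ≤ z B ∧ z B ≤ 1 := by
      intro B hB
      by_cases hBf : B ∈ fr y
      · have h1 := hint B hBf
        by_cases hlB : l B = 0
        · simp only [z, hlB, mul_zero, add_zero]
          exact ⟨h1.1.le, h1.2.le⟩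
        · have h2 := hB₁min B (Finset.mem_filter.mpr ⟨hBf, hlB⟩)
          have h3 : c B = if 0 < l B then (1 - y B) / l B else y B / (-l B) := rfl
          rw [h3] at h2
          simp only [z]
          split_ifs at h2 with h
          · rw [le_div_iff₀ h] at h2
            have : 0 < c B₁ * l B := mul_pos hcpos h
            constructor <;> linarith
          · have h4 : l B < 0 := lt_of_le_of_ne (not_lt.mp h) hlB
            rw [le_div_iff₀ (by linarith)] at h2
            have : c B₁ * l B < 0 := mul_neg_of_pos_of_neg hcpos h4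
            constructor <;> linarith
      · rw [hzout B hBf]
        exact hPy.1 B hB
    have hzfr : fr z ⊂ fr y := by
      rw [Finset.ssubset_iff_of_subset]
      · refine ⟨B₁, hB₁.1, ?_⟩
        intro hB
        have h2 := (Finset.mem_filter.mp hB).2
        have h3 : c B₁ = if 0 < l B₁ then (1 - y B₁) / l B₁ else y B₁ / (-l B₁) := rfl
        have h4 : z B₁ = y B₁ + c B₁ * l B₁ := rfl
        by_cases h : 0 < l B₁
        · rw [if_pos h] at h3
          rw [h3, div_mul_cancel₀ _ h.ne'] at h4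
          exact h2.2 (by rw [h4]; ring)
        · rw [if_neg h] at h3
          have h5 : l B₁ ≠ 0 := hB₁.2
          apply h2.1
          rw [h4, h3]
          field_simp
          ring
      · intro B hB
        by_contra hBf
        have h1 := Finset.mem_filter.mp hB
        rw [hzout B hBf] at h1
        exact hBf (Finset.mem_filter.mpr h1)
    have h1 := hmin z ⟨hzbd, hzsum⟩
    have h2 := Finset.card_lt_card hzfr
    omega
  refine ⟨S.filter fun B => y B = 1, Finset.filter_subset _ _, ?_⟩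
  intro T hT
  rw [← hPy.2 T hT]
  have h1 : ∑ B ∈ S, y B * a B T = ∑ B ∈ S.filter (fun B => y B = 1), a B T +
      ∑ B ∈ fr y, y B * a B T := by
    rw [Finset.sum_filter, Finset.sum_filter, ← Finset.sum_add_distrib]
    refine Finset.sum_congr rfl fun B _ => ?_
    by_cases h : y B = 1
    · simp [h]
    · by_cases h0 : y B = 0
      · simp [h0]
      · simp [h, h0]
  rw [h1]
  have h2 : ∑ B ∈ S.filter (fun B => y B = 1), a B T -
      (∑ B ∈ S.filter (fun B => y B = 1), a B T + ∑ B ∈ fr y, y B * a B T) =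
      -∑ B ∈ fr y, y B * a B T := by ring
  rw [h2, abs_neg]
  calc |∑ B ∈ fr y, y B * a B T| ≤ ∑ B ∈ fr y, |y B * a B T| := Finset.abs_sum_le_sum_abs _ _
    _ ≤ ∑ _B ∈ fr y, (1 : ℝ) := by
        refine Finset.sum_le_sum fun B hB => ?_
        have hBS : B ∈ S := Finset.filter_subset _ _ hB
        have h3 := hPy.1 B hBS
        rw [abs_mul, abs_of_nonneg h3.1]
        exact mul_le_one₀ h3.2 (abs_nonneg _) (ha B hBS T hT)
    _ = ((fr y).card : ℝ) := by simp
    _ ≤ I.card := by exact_mod_cast hcard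

theorem rounding3 {Ω ι : Type*} [DecidableEq Ω] (S : Finset Ω) (I : Finset ι) (a : Ω → ι → ℝ)
    (ha : ∀ B ∈ S, ∀ T ∈ I, |a B T| ≤ 1) :
    ∃ χ : Ω → ZMod 3, ∀ T ∈ I, ∀ i : ZMod 3,
      |∑ B ∈ S.filter (fun B => χ B = i), a B T - (∑ B ∈ S, a B T) / 3| ≤ 3 / 2 * I.card := by
  classical
  obtain ⟨Y0, hY0, h0⟩ := rounding S I a ha (fun _ => 1 / 3) (fun _ _ => by norm_num)
  obtain ⟨Y1, hY1, h1⟩ := rounding (S \ Y0) I a
    (fun B hB => ha B (Finset.sdiff_subset hB)) (fun _ => 1 / 2) (fun _ _ => by norm_num)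
  refine ⟨fun B => if B ∈ Y0 then 0 else if B ∈ Y1 then 1 else 2, ?_⟩
  intro T hT i
  have e0 : ∑ B ∈ S, (1 / 3 : ℝ) * a B T = (∑ B ∈ S, a B T) / 3 := by
    rw [← Finset.mul_sum]; ring
  have e1 : ∑ B ∈ S \ Y0, (1 / 2 : ℝ) * a B T = (∑ B ∈ S \ Y0, a B T) / 2 := by
    rw [← Finset.mul_sum]; ring
  have k0 := h0 T hT
  have k1 := h1 T hT
  rw [e0] at k0
  rw [e1] at k1
  have s1 : ∑ B ∈ S \ Y0, a B T + ∑ B ∈ Y0, a B T = ∑ B ∈ S, a B T :=
    Finset.sum_sdiff hY0
  have s2 : ∑ B ∈ (S \ Y0) \ Y1, a B T + ∑ B ∈ Y1, a B T = ∑ B ∈ S \ Y0, a B T :=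
    Finset.sum_sdiff hY1
  have hcard : (0 : ℝ) ≤ I.card := by positivity
  have d01 : (0 : ZMod 3) ≠ 1 := by decide
  have d02 : (0 : ZMod 3) ≠ 2 := by decide
  have d12 : (1 : ZMod 3) ≠ 2 := by decide
  have f0 : S.filter (fun B => (if B ∈ Y0 then (0 : ZMod 3) else if B ∈ Y1 then 1 else 2) = 0) =
      Y0 := by
    ext B
    rw [Finset.mem_filter]
    constructor
    · rintro ⟨-, hB⟩
      by_contra hn
      rw [if_neg hn] at hB
      split_ifs at hB
      · exact d01 hB.symm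
      · exact d02 hB.symm
    · intro hB
      exact ⟨hY0 hB, by rw [if_pos hB]⟩
  have f1 : S.filter (fun B => (if B ∈ Y0 then (0 : ZMod 3) else if B ∈ Y1 then 1 else 2) = 1) =
      Y1 := by
    ext B
    rw [Finset.mem_filter]
    constructor
    · rintro ⟨-, hB⟩
      split_ifs at hB with h2 h3
      · exact absurd hB d01
      · exact h3
      · exact absurd hB.symm d12
    · intro hB
      have h2 := Finset.mem_sdiff.mp (hY1 hB)
      exact ⟨h2.1, by rw [if_neg h2.2, if_pos hB]⟩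
  have f2 : S.filter (fun B => (if B ∈ Y0 then (0 : ZMod 3) else if B ∈ Y1 then 1 else 2) = 2) =
      (S \ Y0) \ Y1 := by
    ext B
    rw [Finset.mem_filter, Finset.mem_sdiff, Finset.mem_sdiff]
    constructor
    · rintro ⟨hS, hB⟩
      split_ifs at hB with h2 h3
      · exact absurd hB d02
      · exact absurd hB d12
      · exact ⟨⟨hS, h2⟩, h3⟩
    · rintro ⟨⟨hS, h2⟩, h3⟩
      exact ⟨hS, by rw [if_neg h2, if_neg h3]⟩
  have hi : i = 0 ∨ i = 1 ∨ i = 2 := by
    revert i; decide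
  rw [abs_le] at k0 k1
  rcases hi with rfl | rfl | rfl
  · rw [f0, abs_le]
    constructor <;> linarith
  · rw [f1, abs_le]
    constructor <;> linarith
  · rw [f2, abs_le]
    constructor <;> linarith

end Pool.Agent.LS3
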