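import Pool.Agent.Lib.MP_2c0b9b_co.Calc1
import Pool.Agent.Lib.MP_2c0b9b_co.Round
import Pool.Agent.Lib.MP_2c0b9b_co.Greedy
import Pool.Agent.Lib.MP_2c0b9b_co.Correct
import Pool.Agent.Lib.MP_2c0b9b_co.Gadget

/-!
# The absorption theorem
-/

set_option autoImplicit false

open Finset

namespace Pool.Agent.LS3

section

variable {α : Type*} [DecidableEq α] [Fintype α]

theorem ab_between (s : ℕ) (R B : Finset α) (hRs : R.card ≤ s) :
    ((powersetCard s (univ : Finset α)).filter (fun U => R ⊆ U ∧ U ⊆ B)).card =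
      if R ⊆ B then (B.card - R.card).choose (s - R.card) else 0 := by
  split_ifs with h
  · rw [← card_filter_powersetCard_subset R B s h hRs]
    congr 1
    ext U
    simp only [mem_filter, mem_powersetCard, subset_univ, true_and]
    tauto
  · rw [card_eq_zero, filter_eq_empty_iff]
    rintro U - ⟨h1, h2⟩
    exact h (h1.trans h2)

theorem ab_rel_count (t k : ℕ) (C : Finset (Finset α)) (hC : ∀ B ∈ C, B.card = k) :
    Rel t k (fun T => ((C.filter (fun B => T ⊆ B)).card : ℤ)) := by
  intro s _ R hR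
  have h1 : ∑ U ∈ (powersetCard s univ).filter (fun U => R ⊆ U),
      (C.filter (fun B => U ⊆ B)).card =
      ∑ B ∈ C, ((powersetCard s (univ : Finset α)).filter (fun U => R ⊆ U ∧ U ⊆ B)).card := by
    have e1 : ∀ U : Finset α, (C.filter (fun B => U ⊆ B)).card =
        ∑ B ∈ C, if U ⊆ B then 1 else 0 := fun U => card_filter _ _
    simp only [e1]
    rw [sum_comm]
    refine sum_congr rfl fun B _ => ?_
    rw [← card_filter, filter_filter]
  have h2 : ∑ B ∈ C, ((powersetCard s (univ : Finset α)).filter (fun U => R ⊆ U ∧ U ⊆ B)).card =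
      (k - R.card).choose (s - R.card) * (C.filter (fun B => R ⊆ B)).card := by
    rw [card_filter, mul_sum]
    refine sum_congr rfl fun B hB => ?_
    rw [ab_between s R B hR, hC B hB]
    split_ifs <;> simp
  have h3 := h1.trans h2
  simp only
  exact_mod_cast h3

theorem ab_rel_sub (t k : ℕ) (d d' : Finset α → ℤ) (h : Rel t k d) (h' : Rel t k d') :
    Rel t k (fun T => d T - d' T) := by
  intro s hs R hR
  simp only [sum_sub_distrib]
  rw [h s hs R hR, h' s hs R hR]
  ring

theorem ab_rel_tau (t k v : ℕ) (hv : Fintype.card α = v) (hkt : t ≤ k)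
    (hdiv : ∀ i ≤ t, 3 ∣ (v - i).choose (k - i)) :
    Rel t k (fun T : Finset α => (((v - T.card).choose (k - T.card) / 3 : ℕ) : ℤ)) := by
  intro s hs R hR
  have h1 : ∑ U ∈ (powersetCard s (univ : Finset α)).filter (fun U => R ⊆ U),
      ((v - U.card).choose (k - U.card) / 3 : ℕ) =
      (v - R.card).choose (s - R.card) * ((v - s).choose (k - s) / 3) := by
    rw [sum_congr rfl (g := fun _ => (v - s).choose (k - s) / 3)]
    · rw [sum_const, card_filter_powersetCard_subset R univ s (subset_univ _) hR, card_univ, hv,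
        smul_eq_mul]
    · intro U hU
      rw [(mem_powersetCard.1 (mem_filter.1 hU).1).2]
  have h2 : (v - R.card).choose (s - R.card) * ((v - s).choose (k - s) / 3) =
      (k - R.card).choose (s - R.card) * ((v - R.card).choose (k - R.card) / 3) := by
    have h3 := Nat.mul_div_cancel' (hdiv s hs)
    have h4 := Nat.mul_div_cancel' (hdiv R.card (hR.trans hs))
    have h5 := Nat.choose_mul (n := v - R.card) (k := k - R.card) (s := s - R.card) (by omega)
    have e1 : v - R.card - (s - R.card) = v - s := by omega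
    have e2 : k - R.card - (s - R.card) = k - s := by omega
    rw [e1, e2] at h5
    have : 3 * ((v - R.card).choose (s - R.card) * ((v - s).choose (k - s) / 3)) =
        3 * ((k - R.card).choose (s - R.card) * ((v - R.card).choose (k - R.card) / 3)) := by
      calc 3 * ((v - R.card).choose (s - R.card) * ((v - s).choose (k - s) / 3))
          = (v - R.card).choose (s - R.card) * (3 * ((v - s).choose (k - s) / 3)) := by ring
        _ = (k - R.card).choose (s - R.card) *
            (3 * ((v - R.card).choose (k - R.card) / 3)) := by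
            rw [h3, h4, ← h5]; ring
        _ = _ := by ring
    omega
  have h3 := h1.trans h2
  simp only
  exact_mod_cast h3

theorem ab_exists_z {s t : ℕ} (p : (Fin s → α) × (Fin s → α)) (hp : Oct p)
    (hcard : 2 * s + 3 * (t + 1) ≤ Fintype.card α) :
    ∃ z : Fin (t + 1) → ZMod 3 → α, Function.Injective (pt p z) := by
  classical
  set A : Finset α := univ.image (Sum.elim p.1 p.2) with hA
  have hAc : A.card = 2 * s := by
    rw [hA, card_image_of_injective _ hp, card_univ, Fintype.card_sum, Fintype.card_fin]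
    ring
  have h1 : Fintype.card (Fin (t + 1) × ZMod 3) ≤ Fintype.card {x : α // x ∉ A} := by
    rw [Fintype.card_prod, Fintype.card_fin, ZMod.card, Fintype.card_subtype_compl,
      Fintype.card_coe, hAc]
    omega
  obtain ⟨f⟩ := Function.Embedding.nonempty_of_card_le h1
  refine ⟨fun j e => (f (j, e) : α), ?_⟩
  unfold pt
  apply Function.Injective.sumElim hp
  · intro q q' h
    have : f (q.1, q.2) = f (q'.1, q'.2) := Subtype.ext h
    exact f.injective this
  · intro a b h
    apply (f (b.1, b.2)).2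
    exact mem_image.2 ⟨a, mem_univ _, h⟩

omit [Fintype α] in
theorem ab_pts_card {s t : ℕ} (p : (Fin s → α) × (Fin s → α))
    (z : Fin (t + 1) → ZMod 3 → α) (hp : Function.Injective (pt p z)) :
    (pts p z).card = 2 * s + 3 * (t + 1) := by
  unfold pts
  rw [card_image_of_injective _ hp, card_univ, Fintype.card_sum, Fintype.card_sum,
    Fintype.card_prod, Fintype.card_fin, Fintype.card_fin, ZMod.card]
  ring

/-- The colour of a block of a gadget, when the moves `a` with `act a` are made. -/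
def colA {s t : ℕ} (act : ZMod 3 → Prop) [DecidablePred act]
    (q : (Fin (t + 1) → ZMod 3) × Finset (Fin s)) : ZMod 3 :=
  if q.1 = Pi.single 0 (∑ j, q.1 j) ∧ act (∑ j, q.1 j) then ∑ j, q.1 j + 1 - par q.2
  else ∑ j, q.1 j + par q.2

theorem ab_par_sg {s : ℕ} (J : Finset (Fin s)) (a i : ZMod 3) :
    ((if a + 1 - par J = i then (1 : ℤ) else 0) - (if a + par J = i then 1 else 0)) =
      (-1) ^ J.card * sg i a := by
  unfold par sg
  rcases Nat.even_or_odd J.card with h | h
  · rw [if_pos h, h.neg_one_pow]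
    have e1 : (a + 1 - 0 = i) ↔ (i = a + 1) := by constructor <;> intro h <;> simp_all
    have e2 : (a + 0 = i) ↔ (i = a) := by constructor <;> intro h <;> simp_all
    simp only [e1, e2]
    ring
  · rw [if_neg (Nat.not_even_iff_odd.2 h), h.neg_one_pow]
    have e1 : (a + 1 - 1 = i) ↔ (i = a) := by constructor <;> intro h <;> simp_all
    have e2 : (a + 1 = i) ↔ (i = a + 1) := by constructor <;> intro h <;> simp_all
    simp only [e1, e2]
    ring

omit [Fintype α] in
theorem ab_swap {s t : ℕ} (p : (Fin s → α) × (Fin s → α))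
    (z : Fin (t + 1) → ZMod 3 → α) (S : Finset α) (act : ZMod 3 → Prop) [DecidablePred act]
    (T : Finset α) (i : ZMod 3) :
    (((univ : Finset ((Fin (t + 1) → ZMod 3) × Finset (Fin s))).filter (fun q =>
      T ⊆ blk p z S q.1 q.2 ∧ colA act q = i)).card : ℤ) =
    ((univ : Finset ((Fin (t + 1) → ZMod 3) × Finset (Fin s))).filter (fun q =>
      T ⊆ blk p z S q.1 q.2 ∧ ∑ j, q.1 j + par q.2 = i)).card +
    ∑ a : ZMod 3, if act a then sg i a * effT p z S (Pi.single 0 a) T else 0 := by
  have h0 : ∀ (f : (Fin (t + 1) → ZMod 3) × Finset (Fin s) → Prop) [DecidablePred f],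
      (((univ : Finset ((Fin (t + 1) → ZMod 3) × Finset (Fin s))).filter (fun q =>
        T ⊆ blk p z S q.1 q.2 ∧ f q)).card : ℤ) =
      ∑ e : Fin (t + 1) → ZMod 3, ∑ J : Finset (Fin s),
        (if T ⊆ blk p z S e J then 1 else 0) * (if f (e, J) then (1 : ℤ) else 0) := by
    intro f _
    rw [card_filter]
    push_cast
    rw [← univ_product_univ, sum_product]
    refine sum_congr rfl fun e _ => sum_congr rfl fun J _ => ?_
    by_cases h1 : T ⊆ blk p z S e J <;> by_cases h2 : f (e, J) <;> simp [h1, h2]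
  rw [h0 (fun q => colA act q = i), h0 (fun q => ∑ j, q.1 j + par q.2 = i)]
  rw [← sub_eq_iff_eq_add']
  rw [← sum_sub_distrib]
  set g : (Fin (t + 1) → ZMod 3) → ℤ := fun e => ∑ J : Finset (Fin s),
        (if T ⊆ blk p z S e J then 1 else 0) * (if colA act (e, J) = i then (1 : ℤ) else 0) -
      ∑ J : Finset (Fin s),
        (if T ⊆ blk p z S e J then 1 else 0) *
          (if ∑ j, e j + par J = i then (1 : ℤ) else 0) with hg
  change ∑ e, g e = _
  have hinj : Function.Injective (fun a : ZMod 3 => (Pi.single 0 a : Fin (t + 1) → ZMod 3)) :=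
    fun a b h => by simpa using congrFun h 0
  have hsum : ∀ a : ZMod 3, ∑ j, (Pi.single 0 a : Fin (t + 1) → ZMod 3) j = a := by
    intro a
    rw [Finset.sum_pi_single']
    simp
  have hg0 : ∀ e ∉ univ.image (fun a : ZMod 3 => (Pi.single 0 a : Fin (t + 1) → ZMod 3)),
      g e = 0 := by
    intro e he
    have hne : ¬ (e = Pi.single 0 (∑ j, e j)) := by
      intro h
      exact he (mem_image.2 ⟨∑ j, e j, mem_univ _, h.symm⟩)
    simp only [hg]
    rw [← sum_sub_distrib]
    refine sum_eq_zero fun J _ => ?_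
    have : colA act (e, J) = ∑ j, e j + par J := by
      unfold colA
      rw [if_neg]
      rintro ⟨h, -⟩
      exact hne h
    rw [this]
    ring
  rw [← sum_subset (subset_univ (univ.image (fun a : ZMod 3 =>
    (Pi.single 0 a : Fin (t + 1) → ZMod 3)))) (fun e _ he => hg0 e he)]
  rw [sum_image (fun a _ b _ h => hinj h)]
  refine sum_congr rfl fun a _ => ?_
  simp only [hg]
  rw [← sum_sub_distrib]
  split_ifs with ha
  · unfold effT
    rw [mul_sum]
    refine sum_congr rfl fun J _ => ?_
    have hc : colA act ((Pi.single 0 a : Fin (t + 1) → ZMod 3), J) = a + 1 - par J := by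
      unfold colA
      simp only
      rw [hsum a, if_pos ⟨rfl, ha⟩]
    rw [hc, hsum a]
    rw [← mul_sub, ab_par_sg]
    split_ifs <;> ring
  · refine sum_eq_zero fun J _ => ?_
    have hc : colA act ((Pi.single 0 a : Fin (t + 1) → ZMod 3), J) = a + par J := by
      unfold colA
      simp only
      rw [hsum a, if_neg]
      rintro ⟨-, h⟩
      exact ha h
    rw [hc, hsum a]
    ring

end

/-- An abstract counting lemma: a family `P` is split into the image of an injective family
`F` of blocks indexed by `J` and the rest, which is coloured by `χ₁`. -/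
theorem ab_split {β γ : Type*} [DecidableEq β] [DecidableEq γ] (P : Finset β) (J : Finset γ)
    (F : γ → β) (hF : ∀ x ∈ J, F x ∈ P) (hinj : Set.InjOn F J) (χ₁ : β → ZMod 3)
    (col : γ → ZMod 3) :
    ∃ χ : β → ZMod 3, ∀ (Q : β → Prop) [DecidablePred Q] (i : ZMod 3),
      (P.filter (fun B => Q B ∧ χ B = i)).card =
        ((P \ J.image F).filter (fun B => Q B ∧ χ₁ B = i)).card +
        (J.filter (fun x => Q (F x) ∧ col x = i)).card := by
  classical
  obtain ⟨χ, h1, h2⟩ : ∃ χ : β → ZMod 3, (∀ x ∈ J, χ (F x) = col x) ∧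
      (∀ B ∈ P \ J.image F, χ B = χ₁ B) := by
    refine ⟨fun B => if h : ∃ x ∈ J, F x = B then col h.choose else χ₁ B, ?_, ?_⟩
    · intro x hx
      have h : ∃ y ∈ J, F y = F x := ⟨x, hx, rfl⟩
      simp only
      rw [dif_pos h]
      congr 1
      exact hinj h.choose_spec.1 hx h.choose_spec.2
    · intro B hB
      simp only
      rw [dif_neg]
      rintro ⟨x, hx, rfl⟩
      exact (mem_sdiff.1 hB).2 (mem_image_of_mem _ hx)
  refine ⟨χ, ?_⟩
  intro Q _ i
  have hsub : J.image F ⊆ P := by
    intro B hB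
    obtain ⟨x, hx, rfl⟩ := mem_image.1 hB
    exact hF x hx
  have e0 : P.filter (fun B => Q B ∧ χ B = i) =
      (P \ J.image F).filter (fun B => Q B ∧ χ B = i) ∪
      (J.image F).filter (fun B => Q B ∧ χ B = i) := by
    rw [← filter_union, sdiff_union_of_subset hsub]
  rw [e0, card_union_of_disjoint (disjoint_filter_filter sdiff_disjoint)]
  congr 1
  · congr 1
    apply filter_congr
    intro B hB
    rw [h2 B hB]
  · rw [filter_image, card_image_of_injOn]
    · congr 1
      apply filter_congr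
      intro x hx
      rw [h1 x hx]
    · intro x hx y hy hxy
      exact hinj (mem_filter.1 hx).1 (mem_filter.1 hy).1 hxy

/-- Sets with at most `t` points. -/
theorem ab_small_card (t v : ℕ) :
    ((univ : Finset (Finset (Fin v))).filter (fun T => T.card ≤ t)).card ≤ (v + 1) ^ t := by
  classical
  have h1 : (univ : Finset (Finset (Fin v))).filter (fun T => T.card ≤ t) ⊆
      (univ : Finset (Fin t → Option (Fin v))).image
        (fun f => univ.filter (fun x => ∃ i, f i = some x)) := by
    intro T hT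
    have hT' := (mem_filter.1 hT).2
    obtain ⟨f⟩ : Nonempty ({x // x ∈ T} ↪ Fin t) := by
      apply Function.Embedding.nonempty_of_card_le
      rw [Fintype.card_coe, Fintype.card_fin]
      exact hT'
    refine mem_image.2 ⟨fun i => if h : ∃ x : {x // x ∈ T}, f x = i then
      some (h.choose : Fin v) else none, mem_univ _, ?_⟩
    ext x
    simp only [mem_filter, mem_univ, true_and]
    constructor
    · rintro ⟨i, hi⟩
      split_ifs at hi with h
      rw [← Option.some.inj hi]
      exact h.choose.2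
    · intro hx
      refine ⟨f ⟨x, hx⟩, ?_⟩
      have h : ∃ y : {x // x ∈ T}, f y = f ⟨x, hx⟩ := ⟨_, rfl⟩
      rw [dif_pos h]
      have := f.injective h.choose_spec
      rw [this]
  calc _ ≤ _ := card_le_card h1
    _ ≤ _ := card_image_le
    _ = (v + 1) ^ t := by
      rw [card_univ, Fintype.card_fun, Fintype.card_option, Fintype.card_fin, Fintype.card_fin]

theorem ab_cost_pos (t v : ℕ) : 0 < cost t v := by
  unfold cost
  apply Nat.mul_pos (by positivity)
  apply sum_pos'
  · intro i _
    exact Nat.zero_le _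
  · refine ⟨0, mem_range.2 (by omega), ?_⟩
    unfold gd dl K
    simp

/-- The index type of the gadgets. -/
abbrev Idx (v : ℕ) : Type := (s : ℕ) × (((Fin s → Fin v) × (Fin s → Fin v)) × ℕ)

/-- The index type of the blocks of all gadgets. -/
abbrev BIdx (t v : ℕ) : Type := (x : Idx v) × ((Fin (t + 1) → ZMod 3) × Finset (Fin x.1))

open Classical in
/-- The set of all gadgets. -/
noncomputable def gI (t v : ℕ) : Finset (Idx v) :=
  (range (t + 1)).sigma (fun s =>
    ((univ : Finset ((Fin s → Fin v) × (Fin s → Fin v))).filter Oct) ×ˢ range (gd t v s))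

theorem mem_gI {t v : ℕ} {x : Idx v} :
    x ∈ gI t v ↔ x.1 ≤ t ∧ Oct x.2.1 ∧ x.2.2 < gd t v x.1 := by
  unfold gI
  simp only [mem_sigma, mem_range, mem_product, mem_filter, mem_univ, true_and]
  rw [Nat.lt_succ_iff]

theorem gI_card (t v : ℕ) : 3 ^ (t + 1) * 2 ^ t * (gI t v).card ≤ cost t v := by
  classical
  unfold cost gI
  apply Nat.mul_le_mul_left
  rw [card_sigma]
  apply sum_le_sum
  intro s _
  rw [card_product, card_range]
  apply Nat.mul_le_mul_right
  refine (card_filter_le _ _).trans ?_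
  rw [card_univ, Fintype.card_prod, Fintype.card_fun, Fintype.card_fin, Fintype.card_fin]
  rw [two_mul, pow_add]

/-- Choice of all the gadgets. -/
theorem ab_choose (t k v : ℕ)
    (hbig : ∀ s ≤ t, cost t v < (v - 2 * s - 3 * (t + 1)).choose (k - s - (t + 1))) :
    2 * t + 1 < k ∧
    ∃ (z : (s : ℕ) → (Fin s → Fin v) × (Fin s → Fin v) → Fin (t + 1) → ZMod 3 → Fin v)
      (S : Idx v → Finset (Fin v)),
      (∀ x ∈ gI t v, Function.Injective (pt x.2.1 (z x.1 x.2.1)) ∧
        (S x).card = k - x.1 - (t + 1) ∧ Disjoint (S x) (pts x.2.1 (z x.1 x.2.1))) ∧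
      (∀ x ∈ gI t v, ∀ y ∈ gI t v, x ≠ y → ∀ e J e' J',
        blk x.2.1 (z x.1 x.2.1) (S x) e J ≠ blk y.2.1 (z y.1 y.2.1) (S y) e' J') := by
  classical
  have hpos := ab_cost_pos t v
  have hk : 2 * t + 1 < k := by
    by_contra hcon
    have h := hbig t le_rfl
    have : k - t - (t + 1) = 0 := by omega
    rw [this, Nat.choose_zero_right] at h
    omega
  have hv : ∀ s ≤ t, 2 * s + 3 * (t + 1) ≤ v := by
    intro s hs
    by_contra hcon
    have h := hbig s hs
    have h1 : v - 2 * s - 3 * (t + 1) = 0 := by omega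
    rw [h1, Nat.choose_eq_zero_of_lt (by omega)] at h
    omega
  have hv0 : 0 < v := by have := hv 0 (Nat.zero_le _); omega
  have : Nonempty (Fin v) := ⟨⟨0, hv0⟩⟩
  refine ⟨hk, ?_⟩
  have hz : ∀ (s : ℕ) (p : (Fin s → Fin v) × (Fin s → Fin v)),
      ∃ z : Fin (t + 1) → ZMod 3 → Fin v, s ≤ t → Oct p → Function.Injective (pt p z) := by
    intro s p
    by_cases h : s ≤ t ∧ Oct p
    · obtain ⟨z, hz⟩ := ab_exists_z (t := t) p h.2 (by rw [Fintype.card_fin]; exact hv s h.1)
      exact ⟨z, fun _ _ => hz⟩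
    · exact ⟨fun _ _ => Classical.arbitrary _, fun h1 h2 => absurd ⟨h1, h2⟩ h⟩
  choose z hz using hz
  have hzx : ∀ x ∈ gI t v, Function.Injective (pt x.2.1 (z x.1 x.2.1)) := by
    intro x hx
    rw [mem_gI] at hx
    exact hz _ _ hx.1 hx.2.1
  obtain ⟨S, hS1, hS2⟩ := greedy (gI t v)
    (fun x => powersetCard (k - x.1 - (t + 1)) (univ \ pts x.2.1 (z x.1 x.2.1)))
    (fun x S => (univ : Finset ((Fin (t + 1) → ZMod 3) × Finset (Fin x.1))).image
      (fun q => blk x.2.1 (z x.1 x.2.1) S q.1 q.2)) (3 ^ (t + 1) * 2 ^ t)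
    (by
      intro x hx S _
      rw [mem_gI] at hx
      refine card_image_le.trans ?_
      rw [card_univ, Fintype.card_prod, Fintype.card_fun, ZMod.card, Fintype.card_fin,
        Fintype.card_finset, Fintype.card_fin]
      exact Nat.mul_le_mul_left _ (Nat.pow_le_pow_right (by norm_num) hx.1))
    (by
      intro x hx c
      rw [card_le_one]
      intro S hS S' hS'
      rw [mem_filter, mem_powersetCard, mem_image] at hS hS'
      obtain ⟨⟨h1, -⟩, q, -, hq⟩ := hS
      obtain ⟨⟨h1', -⟩, q', -, hq'⟩ := hS'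
      exact (blk_inj _ _ (hzx x hx) (disjoint_of_subset_left h1 sdiff_disjoint)
        (disjoint_of_subset_left h1' sdiff_disjoint) (hq.trans hq'.symm)).1)
    (by
      intro x hx
      have hx' := mem_gI.1 hx
      refine lt_of_le_of_lt (gI_card t v) ?_
      rw [card_powersetCard, card_sdiff_of_subset (subset_univ _), card_univ, Fintype.card_fin,
        ab_pts_card _ _ (hzx x hx), ← Nat.sub_sub]
      exact hbig _ hx'.1)
  refine ⟨z, S, fun x hx => ⟨hzx x hx, ?_, ?_⟩, fun x hx y hy hxy e J e' J' h => ?_⟩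
  · exact (mem_powersetCard.1 (hS1 x hx)).2
  · exact disjoint_of_subset_left (mem_powersetCard.1 (hS1 x hx)).1 sdiff_disjoint
  · have hd := hS2 x hx y hy hxy
    rw [disjoint_left] at hd
    exact hd (mem_image.2 ⟨(e, J), mem_univ _, rfl⟩)
      (mem_image.2 ⟨(e', J'), mem_univ _, h.symm⟩)

/-- Splitting the count over the blocks of the gadgets. -/
theorem ab_sigma_card {t v : ℕ} (I : Finset (Idx v)) (R : BIdx t v → Prop) [DecidablePred R] :
    ((I.sigma (fun _ => (univ : Finset ((Fin (t + 1) → ZMod 3) × Finset (Fin _)))) :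
      Finset (BIdx t v)).filter R).card =
      ∑ x ∈ I, ((univ : Finset ((Fin (t + 1) → ZMod 3) × Finset (Fin x.1))).filter
        (fun q => R ⟨x, q⟩)).card := by
  rw [card_filter, sum_sigma]
  refine sum_congr rfl fun x _ => ?_
  rw [card_filter]

theorem ab_sum_moves {t v : ℕ} (w : (s : ℕ) → (Fin s → Fin v) × (Fin s → Fin v) → ZMod 3 → ℕ)
    (hw1 : ∀ s p a, w s p a ≤ gd t v s) (hw2 : ∀ s p a, ¬ Oct p → w s p a = 0)
    (h : (s : ℕ) → (Fin s → Fin v) × (Fin s → Fin v) → ZMod 3 → ℕ → ℤ) :
    ∑ x ∈ gI t v, ∑ a : ZMod 3, (if x.2.2 < w x.1 x.2.1 a then h x.1 x.2.1 a x.2.2 else 0) =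
      ∑ s ∈ range (t + 1), ∑ p : (Fin s → Fin v) × (Fin s → Fin v), ∑ a : ZMod 3,
          ∑ g ∈ range (w s p a), h s p a g := by
  classical
  unfold gI
  rw [sum_sigma]
  refine sum_congr rfl fun s _ => ?_
  rw [sum_product, sum_filter]
  refine sum_congr rfl fun p _ => ?_
  split_ifs with hp
  · rw [sum_comm]
    refine sum_congr rfl fun a _ => ?_
    simp only
    rw [← sum_filter]
    congr 1
    ext g
    simp only [mem_filter, mem_range]
    have := hw1 s p a
    constructor
    · exact fun h => h.2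
    · exact fun h => ⟨by omega, h⟩
  · symm
    refine sum_eq_zero fun a _ => ?_
    rw [hw2 s p a hp, range_zero, sum_empty]

theorem absorb (t k v : ℕ) (_hkv : k ≤ v) (hdiv : ∀ i ≤ t, 3 ∣ (v - i).choose (k - i))
    (hbig : ∀ s ≤ t, cost t v < (v - 2 * s - 3 * (t + 1)).choose (k - s - (t + 1))) :
    G (t + 1) k v := by
  classical
  obtain ⟨hk, z, S, hS, hne⟩ := ab_choose t k v hbig
  set P : Finset (Finset (Fin v)) := powersetCard k univ with hP
  set J : Finset (BIdx t v) := (gI t v).sigma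
    (fun x => (univ : Finset ((Fin (t + 1) → ZMod 3) × Finset (Fin x.1)))) with hJ
  set F : BIdx t v → Finset (Fin v) :=
    fun y => blk y.1.2.1 (z y.1.1 y.1.2.1) (S y.1) y.2.1 y.2.2 with hF
  have hFP : ∀ y ∈ J, F y ∈ P := by
    intro y hy
    have hx : y.1 ∈ gI t v := (mem_sigma.1 hy).1
    have hx' := mem_gI.1 hx
    obtain ⟨h1, h2, h3⟩ := hS y.1 hx
    rw [hP, mem_powersetCard]
    refine ⟨subset_univ _, ?_⟩
    simp only [hF]
    rw [blk_card _ _ h1 h3, h2]
    have := hx'.1
    omega
  have hFinj : Set.InjOn F J := by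
    rintro ⟨x, q⟩ hy ⟨x', q'⟩ hy' h
    have hx : x ∈ gI t v := (mem_sigma.1 (mem_coe.1 hy)).1
    have hx' : x' ∈ gI t v := (mem_sigma.1 (mem_coe.1 hy')).1
    by_cases hxx : x = x'
    · subst hxx
      obtain ⟨h1, h2, h3⟩ := hS x hx
      have := blk_inj _ _ h1 h3 h3 h
      obtain ⟨q1, q2⟩ := q
      obtain ⟨q1', q2'⟩ := q'
      simp only at this
      obtain ⟨-, rfl, rfl⟩ := this
      rfl
    · exact absurd h (hne x hx x' hx' hxx _ _ _ _)
  -- rounding
  set S₀ : Finset (Finset (Fin v)) := P \ J.image F with hS₀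
  set IT : Finset (Finset (Fin v)) := univ.filter (fun T => T.card ≤ t) with hIT
  obtain ⟨χ₁, hχ₁⟩ := rounding3 S₀ IT (fun B T => if T ⊆ B then (1 : ℝ) else 0) (by
    intro B _ T _
    split_ifs <;> simp)
  -- base colouring
  obtain ⟨χ₀, hχ₀⟩ := ab_split P J F hFP hFinj χ₁ (fun y => ∑ j, y.2.1 j + par y.2.2)
  have hPT : ∀ T : Finset (Fin v), T.card ≤ t →
      (P.filter (fun B => T ⊆ B)).card = (v - T.card).choose (k - T.card) := by
    intro T hT
    rw [hP, card_filter_powersetCard_subset T univ k (subset_univ _) (by omega), card_univ,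
      Fintype.card_fin]
  set d : ZMod 3 → Finset (Fin v) → ℤ := fun i T =>
    (((P.filter (fun B => χ₀ B = i)).filter (fun B => T ⊆ B)).card : ℤ) -
      (((v - T.card).choose (k - T.card) / 3 : ℕ) : ℤ) with hd
  have hrel : ∀ i, Rel t k (d i) := by
    intro i
    apply ab_rel_sub
    · apply ab_rel_count
      intro B hB
      exact (mem_powersetCard.1 (mem_filter.1 hB).1).2
    · exact ab_rel_tau t k v (Fintype.card_fin v) (by omega) hdiv
  have hff : ∀ (i : ZMod 3) (T : Finset (Fin v)),
      (P.filter (fun B => χ₀ B = i)).filter (fun B => T ⊆ B) =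
        P.filter (fun B => T ⊆ B ∧ χ₀ B = i) := by
    intro i T
    rw [filter_filter]
    apply filter_congr
    intro B _
    exact and_comm
  have hfib : ∀ (T : Finset (Fin v)),
      ∑ i, (P.filter (fun B => T ⊆ B ∧ χ₀ B = i)).card = (P.filter (fun B => T ⊆ B)).card := by
    intro T
    rw [card_eq_sum_card_fiberwise (f := χ₀) (t := univ) (fun _ _ => mem_coe.2 (mem_univ _))]
    refine sum_congr rfl fun i _ => ?_
    rw [filter_filter]
  have hsum : ∀ T : Finset (Fin v), T.card ≤ t → ∑ i, d i T = 0 := by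
    intro T hT
    simp only [hd, sum_sub_distrib, hff]
    rw [← Nat.cast_sum, hfib T, hPT T hT, sum_const, card_univ, ZMod.card, nsmul_eq_mul]
    have := Nat.mul_div_cancel' (hdiv T.card hT)
    omega
  have hbd : ∀ i, ∀ T : Finset (Fin v), T.card ≤ t → |d i T| ≤ dl t v 0 := by
    intro i T hT
    -- the gadgets are balanced
    have hG : ∀ i : ZMod 3, 3 * (J.filter (fun y => T ⊆ F y ∧
        ∑ j, y.2.1 j + par y.2.2 = i)).card = (J.filter (fun y => T ⊆ F y)).card := by
      intro i
      rw [hJ, ab_sigma_card, ab_sigma_card, mul_sum]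
      refine sum_congr rfl fun x hx => ?_
      obtain ⟨h1, h2, h3⟩ := hS x hx
      exact gadget_bal _ _ h1 h3 T hT i
    have hGs : ∑ i : ZMod 3, (J.filter (fun y => T ⊆ F y ∧
        ∑ j, y.2.1 j + par y.2.2 = i)).card = (J.filter (fun y => T ⊆ F y)).card := by
      rw [card_eq_sum_card_fiberwise (f := fun y : BIdx t v => ∑ j, y.2.1 j + par y.2.2)
        (t := univ) (fun _ _ => mem_coe.2 (mem_univ _))]
      refine sum_congr rfl fun i _ => ?_
      rw [filter_filter]
    have hSs : ∑ i : ZMod 3, (S₀.filter (fun B => T ⊆ B ∧ χ₁ B = i)).card =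
        (S₀.filter (fun B => T ⊆ B)).card := by
      rw [card_eq_sum_card_fiberwise (f := χ₁) (t := univ) (fun _ _ => mem_coe.2 (mem_univ _))]
      refine sum_congr rfl fun i _ => ?_
      rw [filter_filter]
    have hN : (P.filter (fun B => T ⊆ B)).card =
        (S₀.filter (fun B => T ⊆ B)).card + (J.filter (fun y => T ⊆ F y)).card := by
      rw [← hfib T, ← hSs, ← hGs, ← sum_add_distrib]
      exact sum_congr rfl fun i _ => hχ₀ _ i
    have h1 := hχ₀ (fun B => T ⊆ B) i
    rw [← hS₀] at h1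
    have h2 := hχ₁ T (mem_filter.2 ⟨mem_univ _, hT⟩) i
    rw [sum_boole, sum_boole, filter_filter] at h2
    have h3 : (S₀.filter (fun B => χ₁ B = i ∧ T ⊆ B)) = S₀.filter (fun B => T ⊆ B ∧ χ₁ B = i) := by
      apply filter_congr
      intro B _
      exact and_comm
    rw [h3] at h2
    have h4 : 3 * d i T = 3 * ((S₀.filter (fun B => T ⊆ B ∧ χ₁ B = i)).card : ℤ) -
        (S₀.filter (fun B => T ⊆ B)).card := by
      simp only [hd, hff]
      have h5 := Nat.mul_div_cancel' (hdiv T.card hT)
      have h6 := hPT T hT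
      have h7 := hG i
      omega
    have h8 : ((IT.card : ℕ) : ℝ) ≤ ((v + 1 : ℕ) : ℝ) ^ t := by
      exact_mod_cast ab_small_card t v
    have h9 : |(d i T : ℝ)| ≤ 2 * ((v + 1 : ℕ) : ℝ) ^ t := by
      have h4' : 3 * (d i T : ℝ) = 3 * ((S₀.filter (fun B => T ⊆ B ∧ χ₁ B = i)).card : ℝ) -
        (S₀.filter (fun B => T ⊆ B)).card := by exact_mod_cast h4
      have h10 : (0 : ℝ) ≤ ((v + 1 : ℕ) : ℝ) ^ t := by positivity
      rw [abs_le] at h2 ⊢
      constructor <;> linarith [h2.1, h2.2]
    unfold dl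
    have : ((|d i T| : ℤ) : ℝ) ≤ ((2 * (v + 1) ^ t : ℕ) : ℝ) := by
      push_cast at h9 ⊢
      exact h9
    exact_mod_cast this
  obtain ⟨w, hw1, hw2, hw3⟩ := correct t k v (Fintype.card_fin v) d hsum hrel hbd
    (fun s p a g => effT p (z s p) (S ⟨s, (p, g)⟩) (Pi.single 0 a))
    (by
      intro s hs p hp a g hg T hT
      obtain ⟨h1, h2, h3⟩ := hS ⟨s, (p, g)⟩ (mem_gI.2 ⟨hs, hp, hg⟩)
      exact effT_zero _ _ h1 h3 _ T hT)
    (by
      intro s hs p hp a g hg T hT
      obtain ⟨h1, h2, h3⟩ := hS ⟨s, (p, g)⟩ (mem_gI.2 ⟨hs, hp, hg⟩)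
      exact effT_pod _ _ h1 h3 _ T hT)
    (by
      intro s hs p hp a g hg T
      obtain ⟨h1, h2, h3⟩ := hS ⟨s, (p, g)⟩ (mem_gI.2 ⟨hs, hp, hg⟩)
      exact effT_abs _ _ h1 h3 _ T)
    (by
      intro s hs p hp a g hg
      obtain ⟨h1, h2, h3⟩ := hS ⟨s, (p, g)⟩ (mem_gI.2 ⟨hs, hp, hg⟩)
      apply effT_rel _ _ h1 h3
      rw [h2]
      simp only
      omega)
  -- the final colouring
  obtain ⟨χ, hχ⟩ := ab_split P J F hFP hFinj χ₁
    (fun y => colA (fun a => y.1.2.2 < w y.1.1 y.1.2.1 a) y.2)
  have hmain : ∀ (T : Finset (Fin v)), T.card ≤ t → ∀ i : ZMod 3,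
      3 * (P.filter (fun B => T ⊆ B ∧ χ B = i)).card = (P.filter (fun B => T ⊆ B)).card := by
    intro T hT i
    have h1 := hχ (fun B => T ⊆ B) i
    have h2 := hχ₀ (fun B => T ⊆ B) i
    have h3 : ((J.filter (fun y => T ⊆ F y ∧
        colA (fun a => y.1.2.2 < w y.1.1 y.1.2.1 a) y.2 = i)).card : ℤ) =
        (J.filter (fun y => T ⊆ F y ∧ ∑ j, y.2.1 j + par y.2.2 = i)).card +
        ∑ s ∈ range (t + 1), ∑ p : (Fin s → Fin v) × (Fin s → Fin v), ∑ a : ZMod 3,
          ∑ g ∈ range (w s p a), sg i a * effT p (z s p) (S ⟨s, (p, g)⟩) (Pi.single 0 a) T := by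
      rw [hJ, ab_sigma_card, ab_sigma_card, ← ab_sum_moves w hw1 hw2]
      push_cast
      rw [← sum_add_distrib]
      refine sum_congr rfl fun x hx => ?_
      exact ab_swap x.2.1 (z x.1 x.2.1) (S x) (fun a => x.2.2 < w x.1 x.2.1 a) T i
    have h4 := hw3 i T hT
    have h5 := Nat.mul_div_cancel' (hdiv T.card hT)
    have h6 := hPT T hT
    simp only [hd, hff] at h4
    omega
  have hgood : Good (t + 1) P := ⟨χ, fun T hT i => hmain T (by omega) i⟩
  have := (good_powersetCard_iff (univ : Finset (Fin v))).1 hgood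
  rwa [card_univ, Fintype.card_fin] at this

end Pool.Agent.LS3
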