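import Pool.Agent.Lib.MP_2c0b9b_co.Calc1

/-!
# Large sets on 83 points
-/

set_option autoImplicit false

open Finset

namespace Pool.Agent.LS3

namespace B83

section General

variable {α : Type*} [Fintype α] [DecidableEq α]

/-- The relation of being in one orbit, on the `k`-subsets. -/
def orb (H : Subgroup (Equiv.Perm α)) (k : ℕ) : Setoid {B : Finset α // B.card = k} where
  r x y := ∃ σ ∈ H, x.1.image σ = y.1
  iseqv := by
    refine ⟨fun x => ⟨1, H.one_mem, by simp⟩, ?_, ?_⟩
    · rintro x y ⟨σ, hσ, h⟩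
      refine ⟨σ⁻¹, H.inv_mem hσ, ?_⟩
      rw [← h, Finset.image_image]
      have : (⇑σ⁻¹ ∘ ⇑σ) = id := by
        funext a
        simp
      rw [this, Finset.image_id]
    · rintro x y z ⟨σ, hσ, h⟩ ⟨τ, hτ, h'⟩
      refine ⟨τ * σ, H.mul_mem hτ hσ, ?_⟩
      rw [← h', ← h, Finset.image_image]
      rfl

open Classical in
theorem card_fibre (H : Subgroup (Equiv.Perm α)) (k : ℕ)
    (hfree : ∀ σ ∈ H, ∀ B : Finset α, B.card = k → B.image σ = B → σ = 1)
    (q : Quotient (orb H k)) :
    (univ.filter (fun x : {B : Finset α // B.card = k} => Quotient.mk (orb H k) x = q)).card =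
      Nat.card H := by
  induction q using Quotient.inductionOn with
  | h x₀ =>
  have hcard : ∀ σ : Equiv.Perm α, (x₀.1.image σ).card = k := fun σ => by
    rw [Finset.card_image_of_injective _ σ.injective, x₀.2]
  rw [Nat.card_eq_fintype_card, ← Finset.card_univ]
  symm
  refine Finset.card_bij (fun σ _ => ⟨x₀.1.image (σ : Equiv.Perm α), hcard σ⟩) ?_ ?_ ?_
  · intro σ _
    rw [Finset.mem_filter]
    refine ⟨Finset.mem_univ _, ?_⟩
    exact (Quotient.sound (s := orb H k) ⟨(σ : Equiv.Perm α), σ.2, rfl⟩).symm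
  · intro σ _ τ _ h
    have h1 : x₀.1.image (σ : Equiv.Perm α) = x₀.1.image (τ : Equiv.Perm α) :=
      congrArg Subtype.val h
    have h2 : x₀.1.image (((τ : Equiv.Perm α)⁻¹ * (σ : Equiv.Perm α) : Equiv.Perm α)) = x₀.1 := by
      have h3 := congrArg (fun S => S.image ((τ : Equiv.Perm α)⁻¹ : Equiv.Perm α)) h1
      simp only [Finset.image_image] at h3
      have h4 : (⇑((τ : Equiv.Perm α)⁻¹) ∘ ⇑(τ : Equiv.Perm α)) = id := by
        funext a
        simp
      rw [h4, Finset.image_id] at h3
      exact h3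
    have h5 := hfree _ (H.mul_mem (H.inv_mem τ.2) σ.2) _ x₀.2 h2
    apply Subtype.ext
    rw [inv_mul_eq_one] at h5
    exact h5.symm
  · intro y hy
    rw [Finset.mem_filter] at hy
    obtain ⟨σ, hσ, h⟩ := (orb H k).symm (Quotient.exact hy.2)
    exact ⟨⟨σ, hσ⟩, Finset.mem_univ _, Subtype.ext h⟩

theorem general (H : Subgroup (Equiv.Perm α)) (k : ℕ)
    (h3 : 3 ∣ (Fintype.card α).choose k) (hH : ¬ 3 ∣ Nat.card H)
    (hfree : ∀ σ ∈ H, ∀ B : Finset α, B.card = k → B.image σ = B → σ = 1)
    (hhom : ∀ T T' : Finset α, T.card < 3 → T.card = T'.card → ∃ σ ∈ H, T.image σ = T') :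
    Good 3 (powersetCard k (univ : Finset α)) := by
  classical
  -- number of orbits
  have hX : Fintype.card {B : Finset α // B.card = k} =
      Fintype.card (Quotient (orb H k)) * Nat.card H := by
    rw [← Finset.card_univ, Finset.card_eq_sum_card_fiberwise
      (f := fun x => Quotient.mk (orb H k) x) (t := univ) (fun _ _ => Finset.mem_univ _),
      Finset.sum_congr rfl (fun q _ => card_fibre H k hfree q), Finset.sum_const,
      Finset.card_univ, smul_eq_mul]
  have hdiv : 3 ∣ Fintype.card (Quotient (orb H k)) := by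
    rw [Fintype.card_finset_len] at hX
    rw [hX] at h3
    exact (Nat.prime_three.dvd_mul.1 h3).resolve_right hH
  obtain ⟨m, hm⟩ := hdiv
  have e : Quotient (orb H k) ≃ Fin 3 × Fin m :=
    Fintype.equivOfCardEq (by rw [hm]; simp)
  let c : Quotient (orb H k) → ZMod 3 := fun q => (e q).1
  have hc : ∀ i : ZMod 3, (univ.filter (fun q => c q = i)).card = m := by
    intro i
    have : (univ.filter (fun q => c q = i)).card =
        (univ : Finset (Fin m)).card := by
      refine Finset.card_bij (fun q _ => (e q).2) (fun _ _ => Finset.mem_univ _) ?_ ?_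
      · intro q hq q' hq' h
        rw [Finset.mem_filter] at hq hq'
        apply e.injective
        refine Prod.ext ?_ h
        have h1 : (e q).1 = i := hq.2
        have h2 : (e q').1 = i := hq'.2
        rw [h1, h2]
      · intro j _
        refine ⟨e.symm ((i : Fin 3), j), ?_, ?_⟩
        · rw [Finset.mem_filter]
          refine ⟨Finset.mem_univ _, ?_⟩
          show (e (e.symm ((i : Fin 3), j))).1 = i
          rw [e.apply_symm_apply]
        · rw [e.apply_symm_apply]
    rw [this, Finset.card_univ, Fintype.card_fin]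
  let χ : Finset α → ZMod 3 := fun B =>
    if h : B.card = k then c (Quotient.mk (orb H k) ⟨B, h⟩) else 0
  have hχ : ∀ x : {B : Finset α // B.card = k}, χ x.1 = c (Quotient.mk (orb H k) x) := by
    intro x
    show (if h : x.1.card = k then c (Quotient.mk (orb H k) ⟨x.1, h⟩) else 0) = _
    rw [dif_pos x.2]
  set F := powersetCard k (univ : Finset α) with hF
  have hmF : ∀ B, B ∈ F ↔ B.card = k := by
    intro B
    rw [hF, Finset.mem_powersetCard]
    exact ⟨fun h => h.2, fun h => ⟨Finset.subset_univ _, h⟩⟩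
  -- sizes of the classes
  have hM : ∀ i, (F.filter (fun B => χ B = i)).card = m * Nat.card H := by
    intro i
    have h1 : (F.filter (fun B => χ B = i)).card =
        (univ.filter (fun x : {B : Finset α // B.card = k} =>
          c (Quotient.mk (orb H k) x) = i)).card := by
      symm
      refine Finset.card_bij (fun x _ => x.1) ?_ ?_ ?_
      · intro x hx
        rw [Finset.mem_filter] at hx
        rw [Finset.mem_filter, hmF, hχ]
        exact ⟨x.2, hx.2⟩
      · intro x _ y _ h
        exact Subtype.ext h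
      · intro B hB
        rw [Finset.mem_filter, hmF] at hB
        refine ⟨⟨B, hB.1⟩, ?_, rfl⟩
        rw [Finset.mem_filter]
        refine ⟨Finset.mem_univ _, ?_⟩
        rw [← hχ]
        exact hB.2
    rw [h1, Finset.card_eq_sum_card_fiberwise (f := fun x => Quotient.mk (orb H k) x)
      (t := univ.filter (fun q => c q = i))]
    · rw [Finset.sum_congr rfl (g := fun _ => Nat.card H), Finset.sum_const, hc, smul_eq_mul]
      intro q hq
      rw [Finset.mem_filter] at hq
      rw [← card_fibre H k hfree q, Finset.filter_filter]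
      congr 1
      ext x
      rw [Finset.mem_filter, Finset.mem_filter]
      constructor
      · rintro ⟨a1, _, a3⟩
        exact ⟨a1, a3⟩
      · rintro ⟨a1, a2⟩
        exact ⟨a1, by rw [a2]; exact hq.2, a2⟩
    · intro x hx
      rw [Finset.mem_coe, Finset.mem_filter] at hx ⊢
      exact ⟨Finset.mem_univ _, hx.2⟩
  -- invariance
  have hinv : ∀ σ ∈ H, ∀ B : Finset α, B ∈ F → χ (B.image σ) = χ B := by
    intro σ hσ B hB
    rw [hmF] at hB
    have hB' : (B.image σ).card = k := by
      rw [Finset.card_image_of_injective _ σ.injective, hB]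
    rw [show χ B = c (Quotient.mk (orb H k) ⟨B, hB⟩) from hχ ⟨B, hB⟩,
      show χ (B.image σ) = c (Quotient.mk (orb H k) ⟨B.image σ, hB'⟩) from hχ ⟨_, hB'⟩]
    congr 1
    exact (Quotient.sound (s := orb H k) ⟨σ, hσ, rfl⟩).symm
  have hle : ∀ σ ∈ H, ∀ T : Finset α, ∀ i,
      (F.filter (fun B => T ⊆ B ∧ χ B = i)).card ≤
      (F.filter (fun B => T.image σ ⊆ B ∧ χ B = i)).card := by
    intro σ hσ T i
    refine Finset.card_le_card_of_injOn (fun B => B.image σ) ?_ ?_
    · intro B hB
      rw [Finset.mem_coe, Finset.mem_filter] at hB ⊢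
      refine ⟨?_, Finset.image_subset_image hB.2.1, ?_⟩
      · rw [hmF, Finset.card_image_of_injective _ σ.injective, ← hmF]
        exact hB.1
      · rw [hinv σ hσ B hB.1]
        exact hB.2.2
    · intro B _ B' _ h
      exact Finset.image_injective σ.injective h
  have heq : ∀ T T' : Finset α, T.card < 3 → T.card = T'.card → ∀ i,
      (F.filter (fun B => T ⊆ B ∧ χ B = i)).card =
      (F.filter (fun B => T' ⊆ B ∧ χ B = i)).card := by
    intro T T' hT hTT' i
    apply le_antisymm
    · obtain ⟨σ, hσ, h⟩ := hhom T T' hT hTT'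
      have := hle σ hσ T i
      rwa [h] at this
    · obtain ⟨σ, hσ, h⟩ := hhom T' T (by omega) hTT'.symm
      have := hle σ hσ T' i
      rwa [h] at this
  -- double counting
  have hdc : ∀ s i, ∑ T ∈ powersetCard s (univ : Finset α),
      (F.filter (fun B => T ⊆ B ∧ χ B = i)).card = k.choose s * (m * Nat.card H) := by
    intro s i
    rw [← hM i]
    have h1 : ∀ T : Finset α, (F.filter (fun B => T ⊆ B ∧ χ B = i)).card =
        ∑ B ∈ F.filter (fun B => χ B = i), if T ⊆ B then 1 else 0 := by
      intro T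
      rw [← Finset.sum_filter, Finset.filter_filter, Finset.card_eq_sum_ones]
      refine Finset.sum_congr ?_ fun _ _ => rfl
      ext B
      simp only [Finset.mem_filter]
      tauto
    rw [Finset.sum_congr rfl fun T _ => h1 T, Finset.sum_comm]
    rw [Finset.sum_congr rfl (g := fun _ => k.choose s), Finset.sum_const, smul_eq_mul, mul_comm]
    intro B hB
    rw [Finset.mem_filter, hmF] at hB
    rw [← Finset.sum_filter, ← Finset.card_eq_sum_ones, ← hB.1, ← Finset.card_powersetCard]
    congr 1
    ext T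
    rw [Finset.mem_filter, Finset.mem_powersetCard, Finset.mem_powersetCard]
    constructor
    · rintro ⟨⟨_, a2⟩, a3⟩
      exact ⟨a3, a2⟩
    · rintro ⟨a1, a2⟩
      exact ⟨⟨Finset.subset_univ _, a2⟩, a1⟩
  refine ⟨χ, ?_⟩
  intro T hT i
  have key : ∀ j, (Fintype.card α).choose T.card *
      (F.filter (fun B => T ⊆ B ∧ χ B = j)).card = k.choose T.card * (m * Nat.card H) := by
    intro j
    rw [← hdc T.card j, Finset.sum_congr rfl (g := fun _ =>
      (F.filter (fun B => T ⊆ B ∧ χ B = j)).card), Finset.sum_const, Finset.card_powersetCard,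
      Finset.card_univ, smul_eq_mul]
    intro T' hT'
    rw [Finset.mem_powersetCard] at hT'
    exact heq T' T (by omega) hT'.2 j
  have hpos : 0 < (Fintype.card α).choose T.card :=
    Nat.choose_pos (Finset.card_le_univ T)
  have hall : ∀ j, (F.filter (fun B => T ⊆ B ∧ χ B = j)).card =
      (F.filter (fun B => T ⊆ B ∧ χ B = i)).card := by
    intro j
    exact Nat.eq_of_mul_eq_mul_left hpos ((key j).trans (key i).symm)
  rw [Finset.card_eq_sum_card_fiberwise (f := χ) (t := (univ : Finset (ZMod 3)))
    (fun _ _ => Finset.mem_univ _) (s := F.filter (fun B => T ⊆ B))]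
  rw [Finset.sum_congr rfl (g := fun _ => (F.filter (fun B => T ⊆ B ∧ χ B = i)).card)]
  · rw [Finset.sum_const, Finset.card_univ, ZMod.card, smul_eq_mul]
  · intro j _
    rw [← hall j, Finset.filter_filter]

end General

section Specific

theorem fact83 : Fact (Nat.Prime 83) := ⟨by norm_num⟩

theorem fact41 : Fact (Nat.Prime 41) := ⟨by norm_num⟩

theorem fact3 : Fact (Nat.Prime 3) := ⟨by norm_num⟩

attribute [local instance] fact83 fact41 fact3

/-- The group of maps `x ↦ a x + b` with `a` a nonzero square. -/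
def H83 : Subgroup (Equiv.Perm (ZMod 83)) where
  carrier := {σ | ∃ a b : ZMod 83, a ^ 41 = 1 ∧ ∀ x, σ x = a * x + b}
  mul_mem' := by
    rintro σ τ ⟨a, b, ha, h⟩ ⟨a', b', ha', h'⟩
    refine ⟨a * a', a * b' + b, by rw [mul_pow, ha, ha', one_mul], fun x => ?_⟩
    rw [Equiv.Perm.mul_apply, h, h']
    ring
  one_mem' := ⟨1, 0, one_pow _, fun x => by simp⟩
  inv_mem' := by
    rintro σ ⟨a, b, ha, h⟩
    have h40 : a * a ^ 40 = 1 := by rw [← pow_succ', ha]
    refine ⟨a ^ 40, -(a ^ 40 * b), ?_, fun y => ?_⟩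
    · rw [← pow_mul, mul_comm, pow_mul, ha, one_pow]
    · rw [Equiv.Perm.inv_eq_iff_eq, h]
      linear_combination (b - y) * h40

/-- The map `x ↦ a x + b`. -/
def aff (a b : ZMod 83) (ha : a ^ 41 = 1) : Equiv.Perm (ZMod 83) where
  toFun x := a * x + b
  invFun y := a ^ 40 * (y - b)
  left_inv x := by
    have h40 : a * a ^ 40 = 1 := by rw [← pow_succ', ha]
    linear_combination x * h40
  right_inv y := by
    have h40 : a * a ^ 40 = 1 := by rw [← pow_succ', ha]
    linear_combination (y - b) * h40

theorem aff_mem (a b : ZMod 83) (ha : a ^ 41 = 1) : aff a b ha ∈ H83 := ⟨a, b, ha, fun _ => rfl⟩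

theorem pow_apply' (σ : Equiv.Perm (ZMod 83)) (a b : ZMod 83) (h : ∀ x, σ x = a * x + b) (n : ℕ)
    (x : ZMod 83) : (σ ^ n) x = a ^ n * x + (∑ i ∈ range n, a ^ i) * b := by
  induction n with
  | zero => simp
  | succ n ih =>
    rw [pow_succ', Equiv.Perm.mul_apply, ih, h, Finset.sum_range_succ']
    have : ∑ k ∈ range n, a ^ (k + 1) = a * ∑ k ∈ range n, a ^ k := by
      rw [Finset.mul_sum]
      exact Finset.sum_congr rfl fun k _ => by rw [pow_succ']
    rw [this]
    ring

theorem card_not_dvd : ¬ 3 ∣ Nat.card H83 := by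
  intro h
  obtain ⟨⟨σ, hσ⟩, hord⟩ := exists_prime_orderOf_dvd_card' 3 h
  have h3 : (⟨σ, hσ⟩ : H83) ^ 3 = 1 := by rw [← hord]; exact pow_orderOf_eq_one _
  have h3' : σ ^ 3 = 1 := congrArg Subtype.val h3
  obtain ⟨a, b, ha, hab⟩ := hσ
  have e : ∀ x, a ^ 3 * x + (∑ i ∈ range 3, a ^ i) * b = x := by
    intro x
    rw [← pow_apply' σ a b hab, h3']
    rfl
  have e0 := e 0
  have e1 := e 1
  rw [mul_zero, zero_add] at e0
  rw [e0, mul_one, add_zero] at e1
  have a2 : a ^ 2 = 1 := by
    calc a ^ 2 = (a ^ 3) ^ 13 * a ^ 2 := by rw [e1, one_pow, one_mul]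
      _ = a ^ 41 := by rw [← pow_mul, ← pow_add]
      _ = 1 := ha
  have a1 : a = 1 := by
    calc a = a ^ 2 * a := by rw [a2, one_mul]
      _ = a ^ 3 := by rw [← pow_succ]
      _ = 1 := e1
  rw [a1] at e0
  simp only [one_pow, Finset.sum_const, Finset.card_range, nsmul_eq_mul, mul_one] at e0
  have hb : b = 0 := by
    rcases mul_eq_zero.1 e0 with h0 | h0
    · exact absurd h0 (by decide)
    · exact h0
  have hσ1 : σ = 1 := by
    ext x
    rw [hab, a1, hb]
    simp
  have : orderOf (⟨σ, ⟨a, b, ha, hab⟩⟩ : H83) = 1 := by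
    rw [orderOf_eq_one_iff]
    exact Subtype.ext hσ1
  rw [hord] at this
  omega

theorem free83 (k : ℕ) (h1 : 27 ≤ k) (h2 : k ≤ 29) : ∀ σ ∈ H83, ∀ B : Finset (ZMod 83),
    B.card = k → B.image σ = B → σ = 1 := by
  classical
  intro σ hσ B hB hσB
  obtain ⟨a, b, ha, hab⟩ := hσ
  have hmem : ∀ x : B, σ x.1 ∈ B := fun x => by
    have hx : σ x.1 ∈ B.image σ := Finset.mem_image_of_mem _ x.2
    exact hσB.le hx
  let f : Function.End B := fun x => ⟨σ x.1, hmem x⟩
  have hf : ∀ n (x : B), ((f ^ n) x).1 = (σ ^ n) x.1 := by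
    intro n
    induction n with
    | zero => intro x; rfl
    | succ n ih =>
      intro x
      rw [pow_succ', pow_succ', Equiv.Perm.mul_apply, ← ih x]
      rfl
  have hcard : Fintype.card B = k := by rw [Fintype.card_coe, hB]
  by_cases ha1 : a = 1
  · by_cases hb : b = 0
    · ext x
      rw [hab, ha1, hb]
      simp
    · exfalso
      have h83 : f ^ 83 ^ 1 = 1 := by
        funext x
        apply Subtype.ext
        rw [hf, pow_one, pow_apply' σ a b hab, ha1]
        simp only [one_pow, Finset.sum_const, Finset.card_range, nsmul_eq_mul, mul_one, one_mul]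
        have : ((83 : ℕ) : ZMod 83) = 0 := by decide
        rw [this, zero_mul, add_zero]
        rfl
      have hmod := Equiv.Perm.card_fixedPoints_modEq h83
      have hempty : Fintype.card f.fixedPoints = 0 := by
        rw [Fintype.card_eq_zero_iff]
        refine ⟨fun x => ?_⟩
        have hx : (f x.1).1 = x.1.1 := congrArg Subtype.val x.2
        have hx' : σ x.1.1 = x.1.1 := hx
        rw [hab, ha1, one_mul] at hx'
        exact hb (by simpa using hx')
      rw [hempty, hcard] at hmod
      have : 83 ∣ k := (Nat.modEq_zero_iff_dvd).1 hmod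
      omega
  · exfalso
    have h41 : f ^ 41 ^ 1 = 1 := by
      funext x
      apply Subtype.ext
      rw [hf, pow_one, pow_apply' σ a b hab, ha]
      have hg := geom_sum_mul a 41
      rw [ha, sub_self] at hg
      have hz : ∑ i ∈ range 41, a ^ i = 0 := by
        rcases mul_eq_zero.1 hg with h0 | h0
        · exact h0
        · exact absurd (sub_eq_zero.1 h0) ha1
      rw [hz, zero_mul, add_zero, one_mul]
      rfl
    have hmod := Equiv.Perm.card_fixedPoints_modEq h41
    have hle : Fintype.card f.fixedPoints ≤ 1 := by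
      rw [Fintype.card_le_one_iff]
      intro x y
      have hx : σ x.1.1 = x.1.1 := congrArg Subtype.val x.2
      have hy : σ y.1.1 = y.1.1 := congrArg Subtype.val y.2
      rw [hab] at hx hy
      apply Subtype.ext
      apply Subtype.ext
      have h0 : (a - 1) * (x.1.1 - y.1.1) = 0 := by linear_combination hx - hy
      rcases mul_eq_zero.1 h0 with h | h
      · exact absurd (sub_eq_zero.1 h) ha1
      · exact sub_eq_zero.1 h
    rw [hcard] at hmod
    have h5 : k % 41 = Fintype.card f.fixedPoints % 41 := hmod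
    interval_cases k <;> omega

theorem hom83 : ∀ T T' : Finset (ZMod 83), T.card < 3 → T.card = T'.card →
    ∃ σ ∈ H83, T.image σ = T' := by
  intro T T' hT hTT'
  have hcases : T.card = 0 ∨ T.card = 1 ∨ T.card = 2 := by omega
  rcases hcases with h0 | h0 | h0
  · refine ⟨1, H83.one_mem, ?_⟩
    rw [Finset.card_eq_zero] at h0
    rw [h0, Finset.card_empty] at hTT'
    rw [Finset.card_eq_zero.1 hTT'.symm, h0, Finset.image_empty]
  · obtain ⟨x, rfl⟩ := Finset.card_eq_one.1 h0
    obtain ⟨y, rfl⟩ := Finset.card_eq_one.1 (hTT'.symm.trans h0)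
    refine ⟨aff 1 (y - x) (one_pow _), aff_mem _ _ _, ?_⟩
    rw [Finset.image_singleton]
    congr 1
    show 1 * x + (y - x) = y
    ring
  · obtain ⟨x, y, hxy, rfl⟩ := Finset.card_eq_two.1 h0
    obtain ⟨x', y', hxy', rfl⟩ := Finset.card_eq_two.1 (hTT'.symm.trans h0)
    have hd : x - y ≠ 0 := sub_ne_zero.2 hxy
    have hd' : x' - y' ≠ 0 := sub_ne_zero.2 hxy'
    obtain ⟨c, hc⟩ : ∃ c, c * (x - y) = x' - y' := ⟨(x' - y') / (x - y), div_mul_cancel₀ _ hd⟩
    have hc0 : c ≠ 0 := by
      rintro rfl
      rw [zero_mul] at hc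
      exact hd' hc.symm
    have h82 : c ^ 82 = 1 := ZMod.pow_card_sub_one_eq_one hc0
    have hsq : (c ^ 41 - 1) * (c ^ 41 + 1) = 0 := by
      have : c ^ 82 = c ^ 41 * c ^ 41 := by rw [← pow_add]
      rw [this] at h82
      linear_combination h82
    rcases mul_eq_zero.1 hsq with h | h
    · have h1 : c ^ 41 = 1 := sub_eq_zero.1 h
      refine ⟨aff c (x' - c * x) h1, aff_mem _ _ _, ?_⟩
      rw [Finset.image_insert, Finset.image_singleton]
      have e1 : aff c (x' - c * x) h1 x = x' := by
        show c * x + (x' - c * x) = x'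
        ring
      have e2 : aff c (x' - c * x) h1 y = y' := by
        show c * y + (x' - c * x) = y'
        linear_combination -hc
      rw [e1, e2]
    · have h1 : (-c) ^ 41 = 1 := by
        have : (-c) ^ 41 = - c ^ 41 := Odd.neg_pow (by decide) c
        rw [this]
        linear_combination -h
      refine ⟨aff (-c) (y' + c * x) h1, aff_mem _ _ _, ?_⟩
      rw [Finset.image_insert, Finset.image_singleton]
      have e1 : aff (-c) (y' + c * x) h1 x = y' := by
        show -c * x + (y' + c * x) = y'
        ring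
      have e2 : aff (-c) (y' + c * x) h1 y = x' := by
        show -c * y + (y' + c * x) = x'
        linear_combination hc
      rw [e1, e2, Finset.pair_comm]

theorem choose_dvd (k : ℕ) (h1 : 27 ≤ k) (h2 : k ≤ 29) : 3 ∣ (83).choose k := by
  rw [Nat.choose_eq_factorial_div_factorial (by omega)]
  interval_cases k <;> decide +kernel

end Specific

end B83

theorem base83 (k : ℕ) (h1 : 27 ≤ k) (h2 : k ≤ 29) : G 3 k 83 := by
  have h := B83.general B83.H83 k (by rw [ZMod.card]; exact B83.choose_dvd k h1 h2)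
    B83.card_not_dvd (B83.free83 k h1 h2) B83.hom83
  rw [good_powersetCard_iff, Finset.card_univ, ZMod.card] at h
  exact h

end Pool.Agent.LS3
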