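import Pool.Agent.Lib.MP_2c0b9b_co.Defs

/-!
# Small explicit large sets
-/

set_option autoImplicit false

open Finset

namespace Pool.Agent.LS3

private theorem bal_out {k v : ℕ} {χ : Finset ℕ → ZMod 3} {T : Finset ℕ}
    (hT : ¬ T ⊆ range v) (i : ZMod 3) :
    3 * ((powersetCard k (range v)).filter (fun B => T ⊆ B ∧ χ B = i)).card =
      ((powersetCard k (range v)).filter (fun B => T ⊆ B)).card := by
  have h : ∀ B ∈ powersetCard k (range v), ¬ T ⊆ B := fun B hB hTB =>
    hT (hTB.trans (mem_powersetCard.1 hB).1)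
  rw [filter_false_of_mem fun B hB => h B hB, filter_false_of_mem fun B hB h' => h B hB h'.1]
  rfl

theorem base_1_3 : G 1 1 3 := by
  refine ⟨fun B => if B = {0} then 0 else if B = {1} then 1 else 2, fun T hT => ?_⟩
  have h : T = ∅ := card_eq_zero.1 (by omega)
  subst h
  decide

theorem base_2_4 : G 2 2 4 := by
  refine ⟨fun B => if B = {0, 1} ∨ B = {2, 3} then 0 else if B = {0, 2} ∨ B = {1, 3} then 1
    else 2, fun T hT => ?_⟩
  by_cases h : T ⊆ range 4
  · have key : ∀ T ∈ (range 4).powerset, T.card < 2 → ∀ i : ZMod 3,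
        3 * ((powersetCard 2 (range 4)).filter (fun B => T ⊆ B ∧
          (if B = {0, 1} ∨ B = {2, 3} then 0 else if B = {0, 2} ∨ B = {1, 3} then 1
            else 2 : ZMod 3) = i)).card =
          ((powersetCard 2 (range 4)).filter (fun B => T ⊆ B)).card := by
      decide
    exact key T (mem_powerset.2 h) hT
  · exact fun i => bal_out h i

/-! ### eleven points -/

/-- the set coded by a number -/
private def dc (m : ℕ) : Finset ℕ := (range 11).filter (fun x => m.testBit x = true)

private theorem dc_inj {m m' : ℕ} (h : m < 2048) (h' : m' < 2048) (e : dc m = dc m') : m = m' := by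
  refine Nat.eq_of_testBit_eq fun i => ?_
  by_cases hi : i < 11
  · have h1 : i ∈ dc m ↔ i ∈ dc m' := by rw [e]
    unfold dc at h1
    rw [mem_filter, mem_filter, mem_range] at h1
    rw [Bool.eq_iff_iff]
    simpa [hi] using h1
  · have h2 : 2048 ≤ 2 ^ i := by
      have : (2 : ℕ) ^ 11 ≤ 2 ^ i := Nat.pow_le_pow_right (by norm_num) (by omega)
      simpa using this
    rw [Nat.testBit_lt_two_pow (h.trans_le h2), Nat.testBit_lt_two_pow (h'.trans_le h2)]

/-- number of elements of the coded set -/
private def popc (m : ℕ) : ℕ := (List.range 11).countP (fun x => m.testBit x)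

private theorem card_dc (m : ℕ) : (dc m).card = popc m := by
  change ((List.range 11).filter (fun x => decide (m.testBit x = true))).length = _
  unfold popc
  rw [List.countP_eq_length_filter]
  simp

private def srt : List ℕ → Bool
  | [] => true
  | [_] => true
  | a :: b :: l => decide (a / 4 < b / 4) && srt (b :: l)

private theorem srt_pairwise (l : List ℕ) (h : srt l = true) :
    l.Pairwise (fun a b => a / 4 < b / 4) := by
  induction l with
  | nil => exact List.Pairwise.nil
  | cons a l ih =>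
    cases l with
    | nil => exact List.pairwise_singleton _ _
    | cons b l =>
      rw [srt, Bool.and_eq_true] at h
      have h2 := ih h.2
      have h1 : a / 4 < b / 4 := of_decide_eq_true h.1
      refine List.Pairwise.cons ?_ h2
      intro c hc
      rcases List.mem_cons.1 hc with rfl | hc
      · exact h1
      · exact h1.trans (List.rel_of_pairwise_cons h2 hc)

/-- the counts of the three colours agree -/
private def tst (P : List ℕ) (q : ℕ → Bool) : Bool :=
  (3 * P.countP (fun n => q (n / 4) && n % 4 == 0) == P.countP (fun n => q (n / 4))) &&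
  ((3 * P.countP (fun n => q (n / 4) && n % 4 == 1) == P.countP (fun n => q (n / 4))) &&
  (3 * P.countP (fun n => q (n / 4) && n % 4 == 2) == P.countP (fun n => q (n / 4))))

private def chk (k : ℕ) (P : List ℕ) : Bool :=
  srt P && (P.all (fun n => decide (n / 4 < 2048) && (decide (n % 4 < 3) && popc (n / 4) == k)) &&
    (P.length == Nat.choose 11 k && (tst P (fun _ => true) &&
      (List.range 11).all (fun x => (List.range (x + 1)).all (fun y =>
        tst P (fun m => m.testBit x && m.testBit y))))))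

private theorem chk_good (k : ℕ) (P : List ℕ) (h : chk k P = true) : G 3 k 11 := by
  unfold chk at h
  simp only [Bool.and_eq_true, List.all_eq_true, decide_eq_true_eq, beq_iff_eq,
    List.mem_range] at h
  obtain ⟨h1, h2, h3, h4, h5⟩ := h
  have hpw := srt_pairwise P h1
  have hinj : ∀ n ∈ P, ∀ n' ∈ P, dc (n / 4) = dc (n' / 4) → n / 4 = n' / 4 :=
    fun n hn n' hn' e => dc_inj (h2 n hn).1 (h2 n' hn').1 e
  have hnd : (P.map fun n => dc (n / 4)).Nodup := by
    rw [List.Nodup, List.pairwise_map]
    refine List.Pairwise.imp_of_mem ?_ hpw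
    intro a b ha hb hab e
    have := hinj a ha b hb e
    omega
  have hinj2 : ∀ n ∈ P, ∀ n' ∈ P, dc (n / 4) = dc (n' / 4) → n = n' := by
    intro n hn n' hn' e
    have hP := List.inj_on_of_nodup_map hnd
    exact hP hn hn' e
  -- the family
  have hF : powersetCard k (range 11) = (P.map fun n => dc (n / 4)).toFinset := by
    refine (eq_of_subset_of_card_le ?_ ?_).symm
    · intro B hB
      rw [List.mem_toFinset, List.mem_map] at hB
      obtain ⟨n, hn, rfl⟩ := hB
      rw [mem_powersetCard]
      exact ⟨filter_subset _ _, by rw [card_dc]; exact (h2 n hn).2.2⟩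
    · rw [card_powersetCard, card_range, List.toFinset_card_of_nodup hnd, List.length_map, h3]
  have hcount : ∀ (p : Finset ℕ → Prop) [DecidablePred p] (q : ℕ → Bool),
      (∀ n ∈ P, q n = true ↔ p (dc (n / 4))) →
      ((powersetCard k (range 11)).filter p).card = P.countP q := by
    intro p _ q hq
    have e : (P.map fun n => dc (n / 4)).toFinset.filter p =
        ((P.map fun n => dc (n / 4)).filter (fun B => decide (p B))).toFinset := by
      ext B
      simp
    rw [hF, e, List.toFinset_card_of_nodup (hnd.filter _), List.filter_map,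
      List.length_map, ← List.countP_eq_length_filter]
    refine List.countP_congr fun n hn => ?_
    rw [hq n hn]
    simp
  -- the colouring
  let χ : Finset ℕ → ZMod 3 := fun B =>
    if B ∈ (P.filter (fun n => n % 4 == 0)).map (fun n => dc (n / 4)) then 0
    else if B ∈ (P.filter (fun n => n % 4 == 1)).map (fun n => dc (n / 4)) then 1 else 2
  have hmem : ∀ n ∈ P, ∀ c, dc (n / 4) ∈ (P.filter (fun n => n % 4 == c)).map
      (fun n => dc (n / 4)) ↔ n % 4 = c := by
    intro n hn c
    rw [List.mem_map]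
    constructor
    · rintro ⟨n', hn', e⟩
      rw [List.mem_filter] at hn'
      have := hinj2 n' hn'.1 n hn e
      rw [← this]
      simpa using hn'.2
    · intro hc
      exact ⟨n, List.mem_filter.2 ⟨hn, by simpa using hc⟩, rfl⟩
  have hχ : ∀ n ∈ P, χ (dc (n / 4)) = ((n % 4 : ℕ) : ZMod 3) := by
    intro n hn
    have h6 := (h2 n hn).2.1
    simp only [χ, hmem n hn]
    split_ifs with h7 h8
    · rw [h7]; rfl
    · rw [h8]; rfl
    · have : n % 4 = 2 := by omega
      rw [this]; rfl
  have htst : ∀ (T : Finset ℕ) (q : ℕ → Bool), (∀ m, q m = true ↔ T ⊆ dc m) →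
      tst P q = true → ∀ i : ZMod 3,
      3 * ((powersetCard k (range 11)).filter (fun B => T ⊆ B ∧ χ B = i)).card =
        ((powersetCard k (range 11)).filter (fun B => T ⊆ B)).card := by
    intro T q hq ht i
    unfold tst at ht
    simp only [Bool.and_eq_true, beq_iff_eq] at ht
    rw [hcount (fun B => T ⊆ B) (fun n => q (n / 4)) (fun n _ => hq _)]
    have hi : ∀ (c : ℕ), ((c : ℕ) : ZMod 3) = i → c < 3 →
        ((powersetCard k (range 11)).filter (fun B => T ⊆ B ∧ χ B = i)).card =
        P.countP (fun n => q (n / 4) && n % 4 == c) := by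
      intro c hc hc3
      refine hcount _ _ fun n hn => ?_
      rw [Bool.and_eq_true, hq, hχ n hn, beq_iff_eq, ← hc]
      refine and_congr_right fun _ => ?_
      have h6 := (h2 n hn).2.1
      rw [ZMod.natCast_eq_natCast_iff', Nat.mod_eq_of_lt h6, Nat.mod_eq_of_lt hc3]
    have h3 : ∀ i : ZMod 3, i = 0 ∨ i = 1 ∨ i = 2 := by decide
    rcases h3 i with rfl | rfl | rfl
    · rw [hi 0 rfl (by omega)]; exact ht.1
    · rw [hi 1 rfl (by omega)]; exact ht.2.1
    · rw [hi 2 rfl (by omega)]; exact ht.2.2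
  refine ⟨χ, fun T hT => ?_⟩
  by_cases hT11 : T ⊆ range 11
  · have hx : ∀ x m, x < 11 → (x ∈ dc m ↔ m.testBit x = true) := by
      intro x m hx
      unfold dc
      rw [mem_filter, mem_range]
      exact and_iff_right hx
    have hpair : ∀ x < 11, ∀ y ≤ x, ∀ i : ZMod 3,
        3 * ((powersetCard k (range 11)).filter (fun B => ({x, y} : Finset ℕ) ⊆ B ∧
          χ B = i)).card =
        ((powersetCard k (range 11)).filter (fun B => ({x, y} : Finset ℕ) ⊆ B)).card := by
      intro x hx11 y hy
      refine htst {x, y} _ (fun m => ?_) (h5 x hx11 y (by omega))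
      rw [Bool.and_eq_true, insert_subset_iff, singleton_subset_iff, hx x m hx11,
        hx y m (by omega)]
    rcases Nat.eq_zero_or_pos T.card with h0 | h0
    · rw [card_eq_zero] at h0
      subst h0
      exact htst ∅ _ (fun m => by simp) h4
    · rcases Nat.lt_or_ge T.card 2 with h6 | h6
      · obtain ⟨x, rfl⟩ := card_eq_one.1 (by omega : T.card = 1)
        rw [singleton_subset_iff, mem_range] at hT11
        have h7 := hpair x hT11 x le_rfl
        rw [pair_eq_singleton] at h7
        exact h7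
      · obtain ⟨x, y, hxy, rfl⟩ := card_eq_two.1 (by omega : T.card = 2)
        rw [insert_subset_iff, singleton_subset_iff, mem_range, mem_range] at hT11
        rcases Nat.le_total y x with h7 | h7
        · exact hpair x hT11.1 y h7
        · rw [pair_comm]
          exact hpair y hT11.2 x h7
  · exact fun i => bal_out hT11 i

private def l3 : List ℕ :=
  [28, 45, 54, 56, 78, 84, 89, 101, 106, 112, 141, 149, 154, 166, 168, 177, 198, 201, 210, 224,
    268, 277, 281, 292, 297, 306, 326, 330, 336, 353, 388, 394, 401, 418, 448, 526, 534, 536,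
    548, 553, 561, 580, 584, 593, 610, 645, 650, 658, 672, 705, 773, 776, 786, 801, 834, 896,
    1037, 1046, 1050, 1060, 1066, 1072, 1092, 1096, 1105, 1121, 1156, 1160, 1168, 1185, 1218,
    1285, 1289, 1298, 1314, 1344, 1409, 1542, 1545, 1552, 1570, 1601, 1666, 1792, 2062, 2068,
    2073, 2085, 2090, 2098, 2117, 2120, 2130, 2144, 2182, 2184, 2192, 2209, 2241, 2310, 2312,
    2320, 2336, 2369, 2434, 2564, 2569, 2577, 2594, 2626, 2688, 2817, 3077, 3082, 3089, 3104,
    3138, 3201, 3330, 3584, 4108, 4117, 4122, 4134, 4136, 4145, 4165, 4169, 4178, 4194, 4228,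
    4233, 4240, 4258, 4288, 4358, 4362, 4368, 4384, 4417, 4481, 4613, 4618, 4624, 4640, 4672,
    4737, 4866, 5126, 5128, 5137, 5153, 5186, 5250, 5376, 5633, 6148, 6153, 6162, 6177, 6208,
    6274, 6401, 6658, 7168]

theorem base_3_11 : G 3 3 11 := chk_good 3 l3 (by decide +kernel)

private def l4 : List ℕ :=
  [62, 93, 108, 118, 122, 157, 173, 182, 185, 206, 212, 216, 228, 234, 242, 285, 301, 308, 313,
    332, 340, 345, 356, 362, 369, 398, 404, 410, 421, 424, 432, 452, 456, 466, 482, 540, 557,
    565, 569, 588, 598, 601, 613, 616, 625, 654, 661, 664, 678, 680, 689, 709, 712, 722, 737,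
    782, 790, 794, 806, 808, 818, 837, 841, 848, 864, 901, 904, 912, 930, 962, 1052, 1068, 1077,
    1080, 1101, 1110, 1113, 1126, 1129, 1137, 1166, 1174, 1176, 1190, 1194, 1201, 1220, 1225,
    1232, 1249, 1292, 1301, 1306, 1318, 1321, 1328, 1350, 1354, 1360, 1377, 1413, 1417, 1424,
    1442, 1473, 1550, 1556, 1562, 1572, 1578, 1586, 1605, 1610, 1616, 1634, 1668, 1673, 1681,
    1696, 1728, 1797, 1801, 1808, 1824, 1858, 1922, 2078, 2094, 2100, 2104, 2124, 2132, 2136,
    2148, 2153, 2160, 2189, 2198, 2201, 2213, 2218, 2225, 2246, 2250, 2257, 2273, 2317, 2326,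
    2330, 2342, 2346, 2352, 2373, 2378, 2386, 2401, 2436, 2440, 2449, 2464, 2497, 2572, 2580,
    2584, 2598, 2601, 2610, 2630, 2634, 2641, 2656, 2692, 2698, 2706, 2720, 2753, 2821, 2825,
    2833, 2848, 2882, 2945, 3084, 3093, 3098, 3109, 3112, 3122, 3141, 3144, 3154, 3170, 3204,
    3209, 3218, 3232, 3266, 3334, 3336, 3345, 3361, 3392, 3456, 3589, 3593, 3601, 3616, 3648,
    3714, 3842, 4126, 4141, 4148, 4154, 4173, 4181, 4186, 4198, 4200, 4208, 4237, 4245, 4248,
    4260, 4264, 4272, 4294, 4296, 4305, 4320, 4364, 4373, 4377, 4388, 4394, 4401, 4422, 4425,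
    4434, 4449, 4486, 4490, 4498, 4513, 4545, 4620, 4628, 4633, 4645, 4650, 4658, 4678, 4682,
    4690, 4704, 4740, 4745, 4754, 4770, 4801, 4870, 4872, 4880, 4897, 4928, 4993, 5134, 5142,
    5144, 5156, 5160, 5168, 5189, 5194, 5201, 5218, 5253, 5258, 5266, 5281, 5312, 5380, 5384,
    5394, 5410, 5440, 5505, 5636, 5641, 5649, 5665, 5696, 5762, 5889, 6158, 6165, 6168, 6181,
    6185, 6194, 6213, 6217, 6224, 6242, 6276, 6281, 6288, 6306, 6338, 6404, 6408, 6417, 6434,
    6464, 6530, 6662, 6666, 6672, 6689, 6721, 6784, 6912, 7174, 7177, 7185, 7201, 7232, 7296,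
    7426, 7682]

theorem base_4_11 : G 3 4 11 := chk_good 4 l4 (by decide +kernel)

private def l5 : List ℕ :=
  [126, 188, 220, 237, 246, 250, 317, 348, 366, 372, 376, 412, 429, 437, 440, 461, 468, 473,
    486, 490, 498, 573, 604, 620, 629, 633, 668, 685, 693, 696, 718, 726, 730, 741, 744, 752,
    798, 812, 822, 824, 845, 854, 857, 868, 873, 880, 910, 918, 921, 933, 936, 945, 965, 970,
    978, 994, 1086, 1117, 1132, 1141, 1145, 1182, 1197, 1206, 1208, 1230, 1237, 1240, 1254,
    1257, 1265, 1310, 1324, 1332, 1336, 1356, 1366, 1369, 1381, 1385, 1392, 1420, 1428, 1434,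
    1446, 1450, 1458, 1476, 1481, 1488, 1504, 1565, 1582, 1589, 1594, 1614, 1620, 1624, 1638,
    1642, 1648, 1678, 1684, 1689, 1701, 1706, 1713, 1732, 1736, 1745, 1760, 1804, 1812, 1818,
    1830, 1834, 1841, 1861, 1865, 1872, 1889, 1925, 1929, 1938, 1954, 1986, 2110, 2140, 2157,
    2164, 2170, 2205, 2221, 2230, 2233, 2254, 2262, 2264, 2278, 2281, 2289, 2333, 2350, 2357,
    2362, 2380, 2390, 2393, 2404, 2410, 2416, 2445, 2452, 2458, 2468, 2473, 2480, 2500, 2506,
    2513, 2529, 2588, 2606, 2614, 2618, 2637, 2646, 2648, 2660, 2664, 2672, 2702, 2710, 2712,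
    2726, 2730, 2737, 2757, 2761, 2769, 2784, 2829, 2837, 2840, 2853, 2856, 2866, 2885, 2890,
    2898, 2914, 2948, 2952, 2961, 2976, 3008, 3101, 3118, 3125, 3129, 3148, 3157, 3162, 3172,
    3177, 3186, 3212, 3221, 3226, 3236, 3240, 3248, 3270, 3274, 3282, 3296, 3341, 3349, 3354,
    3366, 3368, 3377, 3398, 3401, 3410, 3425, 3462, 3464, 3472, 3489, 3520, 3596, 3604, 3608,
    3620, 3624, 3634, 3653, 3658, 3666, 3681, 3716, 3721, 3729, 3744, 3777, 3844, 3849, 3857,
    3874, 3906, 3970, 4158, 4188, 4204, 4213, 4218, 4253, 4268, 4278, 4280, 4300, 4309, 4313,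
    4325, 4328, 4338, 4381, 4396, 4404, 4409, 4428, 4437, 4441, 4454, 4458, 4465, 4494, 4500,
    4506, 4517, 4522, 4528, 4550, 4554, 4561, 4577, 4638, 4653, 4660, 4665, 4686, 4693, 4698,
    4710, 4713, 4722, 4750, 4756, 4760, 4772, 4778, 4785, 4804, 4808, 4818, 4832, 4877, 4886,
    4889, 4902, 4904, 4914, 4934, 4936, 4945, 4960, 4996, 5000, 5010, 5025, 5057, 5150, 5164,
    5173, 5176, 5197, 5205, 5210, 5222, 5226, 5234, 5261, 5270, 5273, 5284, 5290, 5296, 5317,
    5320, 5328, 5344, 5388, 5398, 5402, 5413, 5418, 5424, 5446, 5450, 5458, 5473, 5509, 5513,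
    5521, 5537, 5568, 5645, 5654, 5657, 5668, 5673, 5680, 5700, 5705, 5712, 5730, 5765, 5769,
    5778, 5794, 5826, 5892, 5896, 5904, 5921, 5952, 6016, 6174, 6188, 6196, 6201, 6221, 6228,
    6234, 6244, 6249, 6257, 6285, 6292, 6296, 6308, 6313, 6322, 6342, 6344, 6353, 6370, 6414,
    6421, 6424, 6438, 6441, 6450, 6470, 6472, 6480, 6496, 6533, 6538, 6546, 6562, 6592, 6670,
    6676, 6681, 6693, 6697, 6706, 6725, 6730, 6736, 6753, 6788, 6794, 6801, 6818, 6849, 6917,
    6922, 6928, 6944, 6977, 7040, 7182, 7188, 7192, 7205, 7208, 7216, 7237, 7240, 7248, 7266,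
    7302, 7305, 7314, 7330, 7361, 7430, 7432, 7441, 7457, 7488, 7553, 7686, 7688, 7697, 7713,
    7746, 7810, 7938]

theorem base_5_11 : G 3 5 11 := chk_good 5 l5 (by decide +kernel)

end Pool.Agent.LS3
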