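import Pool.Agent.Lib.MP_2c0b9b_co.Defs

/-!
# Explicit large sets on twelve points
-/

set_option autoImplicit false

open Finset

namespace Pool.Agent.LS3

private theorem bal_out {k v : ℕ} {χ : Finset ℕ → ZMod 3} {T : Finset ℕ}
    (hT : ¬ T ⊆ range v) (i : ZMod 3) :
    3 * ((powersetCard k (range v)).filter (fun B => T ⊆ B ∧ χ B = i)).card =
      ((powersetCard k (range v)).filter (fun B => T ⊆ B)).card := by
  have h : ∀ B ∈ powersetCard k (range v), ¬ T ⊆ B := fun B hB hTB =>
    hT (hTB.trans (mem_powersetCard.1 hB).1)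
  rw [filter_false_of_mem fun B hB => h B hB, filter_false_of_mem fun B hB h' => h B hB h'.1]
  rfl

/-! ### twelve points -/

/-- the set coded by a number -/
private def dc (m : ℕ) : Finset ℕ := (range 12).filter (fun x => m.testBit x = true)

private theorem dc_inj {m m' : ℕ} (h : m < 4096) (h' : m' < 4096) (e : dc m = dc m') : m = m' := by
  refine Nat.eq_of_testBit_eq fun i => ?_
  by_cases hi : i < 12
  · have h1 : i ∈ dc m ↔ i ∈ dc m' := by rw [e]
    unfold dc at h1
    rw [mem_filter, mem_filter, mem_range] at h1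
    rw [Bool.eq_iff_iff]
    simpa [hi] using h1
  · have h2 : 4096 ≤ 2 ^ i := by
      have : (2 : ℕ) ^ 12 ≤ 2 ^ i := Nat.pow_le_pow_right (by norm_num) (by omega)
      simpa using this
    rw [Nat.testBit_lt_two_pow (h.trans_le h2), Nat.testBit_lt_two_pow (h'.trans_le h2)]

/-- number of elements of the coded set -/
private def popc (m : ℕ) : ℕ := (List.range 12).countP (fun x => m.testBit x)

private theorem card_dc (m : ℕ) : (dc m).card = popc m := by
  change ((List.range 12).filter (fun x => decide (m.testBit x = true))).length = _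
  unfold popc
  rw [List.countP_eq_length_filter]
  simp

private def srt : List ℕ → Bool
  | [] => true
  | [_] => true
  | a :: b :: l => decide (a / 4 < b / 4) && srt (b :: l)

private theorem srt_pairwise (l : List ℕ) (h : srt l = true) :
    l.Pairwise (fun a b => a / 4 < b / 4) := by
  induction l with
  | nil => exact List.Pairwise.nil
  | cons a l ih =>
    cases l with
    | nil => exact List.pairwise_singleton _ _
    | cons b l =>
      rw [srt, Bool.and_eq_true] at h
      have h2 := ih h.2
      have h1 : a / 4 < b / 4 := of_decide_eq_true h.1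
      refine List.Pairwise.cons ?_ h2
      intro c hc
      rcases List.mem_cons.1 hc with rfl | hc
      · exact h1
      · exact h1.trans (List.rel_of_pairwise_cons h2 hc)

/-- the counts of the three colours agree -/
private def tst (P : List ℕ) (q : ℕ → Bool) : Bool :=
  (3 * P.countP (fun n => q (n / 4) && n % 4 == 0) == P.countP (fun n => q (n / 4))) &&
  ((3 * P.countP (fun n => q (n / 4) && n % 4 == 1) == P.countP (fun n => q (n / 4))) &&
  (3 * P.countP (fun n => q (n / 4) && n % 4 == 2) == P.countP (fun n => q (n / 4))))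

/-- the counts of the three colours agree in a list -/
private def tst0 (Q : List ℕ) : Bool :=
  (3 * Q.countP (fun n => n % 4 == 0) == Q.length) &&
  ((3 * Q.countP (fun n => n % 4 == 1) == Q.length) &&
  (3 * Q.countP (fun n => n % 4 == 2) == Q.length))

private theorem tst_of_tst0 (P : List ℕ) (q : ℕ → Bool)
    (h : tst0 (P.filter (fun n => q (n / 4))) = true) : tst P q = true := by
  unfold tst0 at h
  unfold tst
  simp only [Bool.and_eq_true, beq_iff_eq] at h ⊢
  have e : ∀ c : ℕ, P.countP (fun n => q (n / 4) && n % 4 == c) =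
      (P.filter (fun n => q (n / 4))).countP (fun n => n % 4 == c) := by
    intro c
    rw [List.countP_filter]
    refine List.countP_congr fun n _ => ?_
    rw [Bool.and_comm]
  rw [e, e, e, List.countP_eq_length_filter (p := fun n => q (n / 4))]
  exact h

private def chk (k : ℕ) (P : List ℕ) : Bool :=
  srt P && (P.all (fun n => decide (n / 4 < 4096) && (decide (n % 4 < 3) && popc (n / 4) == k)) &&
    (P.length == Nat.choose 12 k && (tst P (fun _ => true) &&
      (List.range 12).all (fun x =>
        (fun Q => (List.range (x + 1)).all (fun y =>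
          (fun R => (List.range (y + 1)).all (fun z =>
            tst0 (R.filter (fun n => (n / 4).testBit z))))
          (Q.filter (fun n => (n / 4).testBit y))))
        (P.filter (fun n => (n / 4).testBit x))))))

private theorem chk_good (k : ℕ) (P : List ℕ) (h : chk k P = true) : G 4 k 12 := by
  unfold chk at h
  simp only [Bool.and_eq_true, List.all_eq_true, decide_eq_true_eq, beq_iff_eq,
    List.mem_range] at h
  obtain ⟨h1, h2, h3, h4, h5⟩ := h
  have hpw := srt_pairwise P h1
  have hinj : ∀ n ∈ P, ∀ n' ∈ P, dc (n / 4) = dc (n' / 4) → n / 4 = n' / 4 :=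
    fun n hn n' hn' e => dc_inj (h2 n hn).1 (h2 n' hn').1 e
  have hnd : (P.map fun n => dc (n / 4)).Nodup := by
    rw [List.Nodup, List.pairwise_map]
    refine List.Pairwise.imp_of_mem ?_ hpw
    intro a b ha hb hab e
    have := hinj a ha b hb e
    omega
  have hinj2 : ∀ n ∈ P, ∀ n' ∈ P, dc (n / 4) = dc (n' / 4) → n = n' := by
    intro n hn n' hn' e
    have hP := List.inj_on_of_nodup_map hnd
    exact hP hn hn' e
  -- the family
  have hF : powersetCard k (range 12) = (P.map fun n => dc (n / 4)).toFinset := by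
    refine (eq_of_subset_of_card_le ?_ ?_).symm
    · intro B hB
      rw [List.mem_toFinset, List.mem_map] at hB
      obtain ⟨n, hn, rfl⟩ := hB
      rw [mem_powersetCard]
      exact ⟨filter_subset _ _, by rw [card_dc]; exact (h2 n hn).2.2⟩
    · rw [card_powersetCard, card_range, List.toFinset_card_of_nodup hnd, List.length_map, h3]
  have hcount : ∀ (p : Finset ℕ → Prop) [DecidablePred p] (q : ℕ → Bool),
      (∀ n ∈ P, q n = true ↔ p (dc (n / 4))) →
      ((powersetCard k (range 12)).filter p).card = P.countP q := by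
    intro p _ q hq
    have e : (P.map fun n => dc (n / 4)).toFinset.filter p =
        ((P.map fun n => dc (n / 4)).filter (fun B => decide (p B))).toFinset := by
      ext B
      simp
    rw [hF, e, List.toFinset_card_of_nodup (hnd.filter _), List.filter_map,
      List.length_map, ← List.countP_eq_length_filter]
    refine List.countP_congr fun n hn => ?_
    rw [hq n hn]
    simp
  -- the colouring
  let χ : Finset ℕ → ZMod 3 := fun B =>
    if B ∈ (P.filter (fun n => n % 4 == 0)).map (fun n => dc (n / 4)) then 0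
    else if B ∈ (P.filter (fun n => n % 4 == 1)).map (fun n => dc (n / 4)) then 1 else 2
  have hmem : ∀ n ∈ P, ∀ c, dc (n / 4) ∈ (P.filter (fun n => n % 4 == c)).map
      (fun n => dc (n / 4)) ↔ n % 4 = c := by
    intro n hn c
    rw [List.mem_map]
    constructor
    · rintro ⟨n', hn', e⟩
      rw [List.mem_filter] at hn'
      have := hinj2 n' hn'.1 n hn e
      rw [← this]
      simpa using hn'.2
    · intro hc
      exact ⟨n, List.mem_filter.2 ⟨hn, by simpa using hc⟩, rfl⟩
  have hχ : ∀ n ∈ P, χ (dc (n / 4)) = ((n % 4 : ℕ) : ZMod 3) := by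
    intro n hn
    have h6 := (h2 n hn).2.1
    simp only [χ, hmem n hn]
    split_ifs with h7 h8
    · rw [h7]; rfl
    · rw [h8]; rfl
    · have : n % 4 = 2 := by omega
      rw [this]; rfl
  have htst : ∀ (T : Finset ℕ) (q : ℕ → Bool), (∀ m, q m = true ↔ T ⊆ dc m) →
      tst P q = true → ∀ i : ZMod 3,
      3 * ((powersetCard k (range 12)).filter (fun B => T ⊆ B ∧ χ B = i)).card =
        ((powersetCard k (range 12)).filter (fun B => T ⊆ B)).card := by
    intro T q hq ht i
    unfold tst at ht
    simp only [Bool.and_eq_true, beq_iff_eq] at ht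
    rw [hcount (fun B => T ⊆ B) (fun n => q (n / 4)) (fun n _ => hq _)]
    have hi : ∀ (c : ℕ), ((c : ℕ) : ZMod 3) = i → c < 3 →
        ((powersetCard k (range 12)).filter (fun B => T ⊆ B ∧ χ B = i)).card =
        P.countP (fun n => q (n / 4) && n % 4 == c) := by
      intro c hc hc3
      refine hcount _ _ fun n hn => ?_
      rw [Bool.and_eq_true, hq, hχ n hn, beq_iff_eq, ← hc]
      refine and_congr_right fun _ => ?_
      have h6 := (h2 n hn).2.1
      rw [ZMod.natCast_eq_natCast_iff', Nat.mod_eq_of_lt h6, Nat.mod_eq_of_lt hc3]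
    have h3' : ∀ i : ZMod 3, i = 0 ∨ i = 1 ∨ i = 2 := by decide
    rcases h3' i with rfl | rfl | rfl
    · rw [hi 0 rfl (by omega)]; exact ht.1
    · rw [hi 1 rfl (by omega)]; exact ht.2.1
    · rw [hi 2 rfl (by omega)]; exact ht.2.2
  refine ⟨χ, fun T hT => ?_⟩
  by_cases hT11 : T ⊆ range 12
  · have hx : ∀ x m, x < 12 → (x ∈ dc m ↔ m.testBit x = true) := by
      intro x m hx
      unfold dc
      rw [mem_filter, mem_range]
      exact and_iff_right hx
    have htri : ∀ x < 12, ∀ y ≤ x, ∀ z ≤ y, ∀ i : ZMod 3,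
        3 * ((powersetCard k (range 12)).filter (fun B => ({x, y, z} : Finset ℕ) ⊆ B ∧
          χ B = i)).card =
        ((powersetCard k (range 12)).filter (fun B => ({x, y, z} : Finset ℕ) ⊆ B)).card := by
      intro x hx11 y hy z hz
      refine htst {x, y, z} (fun m => m.testBit z && m.testBit y && m.testBit x) (fun m => ?_) ?_
      · rw [Bool.and_eq_true, Bool.and_eq_true, insert_subset_iff, insert_subset_iff,
          singleton_subset_iff, hx x m hx11, hx y m (by omega), hx z m (by omega)]
        tauto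
      · refine tst_of_tst0 _ _ ?_
        have h6 := h5 x hx11 y (by omega) z (by omega)
        rw [List.filter_filter, List.filter_filter] at h6
        exact h6
    rcases Nat.eq_zero_or_pos T.card with h0 | h0
    · rw [card_eq_zero] at h0
      subst h0
      exact htst ∅ _ (fun m => by simp) h4
    · -- write `T` as `{x, y, z}` with `z ≤ y ≤ x`
      obtain ⟨x, hxT, hxm⟩ := exists_max_image T id (card_pos.1 h0)
      simp only [id] at hxm
      have hx12 : x < 12 := mem_range.1 (hT11 hxT)
      rcases Nat.eq_zero_or_pos (T.erase x).card with h1' | h1'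
      · have e : T = {x, x, x} := by
          have h7 : T = insert x (T.erase x) := (insert_erase hxT).symm
          rw [card_eq_zero] at h1'
          rw [h7, h1']
          simp
        intro i
        rw [e]
        exact htri x hx12 x le_rfl x le_rfl i
      · obtain ⟨y, hyT, hym⟩ := exists_max_image (T.erase x) id (card_pos.1 h1')
        simp only [id] at hym
        have hyx : y ≤ x := hxm y (mem_of_mem_erase hyT)
        have hc1 : (T.erase x).card = T.card - 1 := card_erase_of_mem hxT
        rcases Nat.eq_zero_or_pos ((T.erase x).erase y).card with h2' | h2'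
        · have e : T = {x, y, y} := by
            have h7 : T = insert x (T.erase x) := (insert_erase hxT).symm
            have h8 : T.erase x = insert y ((T.erase x).erase y) := (insert_erase hyT).symm
            rw [card_eq_zero] at h2'
            rw [h7, h8, h2']
            simp
          intro i
          rw [e]
          exact htri x hx12 y hyx y le_rfl i
        · have hc2 : ((T.erase x).erase y).card = T.card - 1 - 1 := by
            rw [card_erase_of_mem hyT, hc1]
          obtain ⟨z, hz⟩ := card_eq_one.1 (by omega : ((T.erase x).erase y).card = 1)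
          have hzT : z ∈ T.erase x := mem_of_mem_erase (by rw [hz]; exact mem_singleton_self z)
          have e : T = {x, y, z} := by
            have h7 : T = insert x (T.erase x) := (insert_erase hxT).symm
            have h8 : T.erase x = insert y ((T.erase x).erase y) := (insert_erase hyT).symm
            rw [h7, h8, hz]
          intro i
          rw [e]
          exact htri x hx12 y hyx z (hym z hzT) i
  · exact fun i => bal_out hT11 i

private def l4 : List ℕ :=
  [60, 93, 108, 118, 120, 158, 173, 180, 185, 204, 214, 216, 229, 234, 240, 286, 301, 309, 314,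
    334, 340, 345, 358, 360, 369, 396, 405, 408, 422, 426, 432, 453, 457, 466, 480, 541, 558, 565,
    570, 589, 597, 601, 612, 617, 626, 652, 660, 666, 678, 680, 689, 710, 714, 720, 737, 780, 788,
    792, 806, 809, 816, 837, 842, 850, 864, 902, 905, 913, 930, 960, 1053, 1070, 1078, 1081, 1100,
    1110, 1114, 1126, 1129, 1138, 1166, 1172, 1177, 1188, 1193, 1201, 1221, 1224, 1233, 1250,
    1293, 1300, 1304, 1316, 1320, 1330, 1349, 1354, 1360, 1377, 1413, 1418, 1426, 1440, 1473,
    1548, 1558, 1560, 1573, 1576, 1584, 1604, 1610, 1617, 1632, 1669, 1673, 1682, 1698, 1728,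
    1798, 1802, 1809, 1825, 1858, 1920, 2078, 2092, 2102, 2105, 2125, 2132, 2138, 2149, 2154,
    2161, 2189, 2197, 2200, 2212, 2218, 2226, 2244, 2250, 2257, 2274, 2318, 2326, 2330, 2340,
    2344, 2353, 2372, 2376, 2385, 2401, 2438, 2441, 2448, 2465, 2498, 2574, 2580, 2585, 2597,
    2600, 2608, 2630, 2632, 2640, 2658, 2692, 2697, 2706, 2720, 2753, 2821, 2825, 2834, 2850,
    2880, 2945, 3084, 3093, 3096, 3109, 3114, 3120, 3142, 3145, 3152, 3168, 3206, 3208, 3218,
    3233, 3264, 3332, 3337, 3345, 3362, 3394, 3456, 3589, 3594, 3602, 3617, 3649, 3714, 3840,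
    4124, 4141, 4148, 4154, 4174, 4181, 4184, 4196, 4202, 4209, 4238, 4245, 4249, 4262, 4264,
    4274, 4292, 4297, 4306, 4321, 4365, 4374, 4377, 4389, 4393, 4400, 4420, 4424, 4434, 4450,
    4484, 4488, 4498, 4513, 4546, 4621, 4630, 4634, 4644, 4650, 4658, 4678, 4680, 4688, 4705,
    4741, 4744, 4752, 4769, 4801, 4868, 4874, 4881, 4896, 4929, 4994, 5134, 5140, 5146, 5157,
    5160, 5169, 5189, 5193, 5200, 5216, 5254, 5258, 5264, 5280, 5314, 5382, 5384, 5393, 5410,
    5440, 5505, 5636, 5641, 5649, 5666, 5698, 5760, 5889, 6156, 6165, 6168, 6182, 6185, 6192,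
    6214, 6217, 6226, 6240, 6277, 6282, 6289, 6304, 6336, 6405, 6410, 6416, 6434, 6465, 6528,
    6662, 6664, 6673, 6689, 6722, 6786, 6912, 7172, 7177, 7186, 7202, 7233, 7297, 7426, 7680,
    8220, 8238, 8245, 8248, 8270, 8276, 8282, 8293, 8297, 8304, 8333, 8342, 8346, 8357, 8360,
    8370, 8390, 8393, 8401, 8416, 8460, 8469, 8473, 8484, 8490, 8498, 8518, 8521, 8528, 8546,
    8580, 8586, 8593, 8609, 8640, 8718, 8726, 8728, 8740, 8745, 8753, 8772, 8776, 8786, 8802,
    8837, 8842, 8849, 8864, 8898, 8965, 8968, 8978, 8993, 9025, 9088, 9229, 9237, 9242, 9252,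
    9258, 9264, 9284, 9288, 9297, 9313, 9348, 9352, 9360, 9378, 9410, 9478, 9481, 9490, 9505,
    9536, 9602, 9734, 9737, 9744, 9762, 9793, 9857, 9984, 10253, 10260, 10265, 10278, 10281,
    10290, 10309, 10312, 10322, 10336, 10374, 10376, 10384, 10401, 10433, 10501, 10504, 10512,
    10528, 10562, 10626, 10756, 10762, 10769, 10786, 10817, 10880, 11010, 11270, 11274, 11281,
    11296, 11330, 11393, 11521, 11776, 12300, 12310, 12313, 12326, 12328, 12337, 12357, 12362,
    12369, 12386, 12420, 12425, 12432, 12450, 12480, 12550, 12554, 12560, 12576, 12609, 12673,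
    12805, 12809, 12816, 12832, 12864, 12930, 13058, 13317, 13320, 13330, 13345, 13378, 13441,
    13568, 13826, 14340, 14346, 14354, 14369, 14400, 14466, 14593, 14849, 15360]

theorem base_4_12 : G 4 4 12 := chk_good 4 l4 (by decide +kernel)

private def l5 : List ℕ :=
  [126, 190, 220, 236, 245, 250, 316, 348, 365, 373, 378, 412, 429, 437, 440, 462, 469, 472, 486,
    489, 498, 572, 605, 621, 628, 632, 670, 685, 693, 696, 716, 726, 729, 740, 745, 754, 797, 814,
    822, 824, 844, 854, 857, 870, 873, 880, 909, 917, 922, 934, 937, 944, 964, 970, 977, 994,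
    1086, 1116, 1134, 1142, 1144, 1181, 1196, 1204, 1209, 1229, 1238, 1241, 1253, 1256, 1264,
    1309, 1326, 1332, 1338, 1358, 1364, 1369, 1380, 1385, 1392, 1422, 1430, 1432, 1444, 1450,
    1457, 1477, 1480, 1489, 1506, 1566, 1580, 1588, 1593, 1613, 1622, 1626, 1637, 1642, 1648,
    1678, 1684, 1688, 1702, 1706, 1713, 1733, 1738, 1745, 1760, 1804, 1814, 1817, 1829, 1833,
    1842, 1860, 1866, 1873, 1888, 1924, 1928, 1938, 1953, 1986, 2109, 2141, 2157, 2165, 2170,
    2204, 2221, 2230, 2232, 2254, 2262, 2266, 2277, 2282, 2288, 2334, 2348, 2358, 2361, 2380,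
    2388, 2392, 2406, 2408, 2417, 2444, 2454, 2457, 2468, 2474, 2481, 2502, 2505, 2512, 2528,
    2589, 2606, 2614, 2617, 2638, 2644, 2650, 2662, 2664, 2674, 2702, 2708, 2714, 2724, 2728,
    2737, 2757, 2760, 2769, 2784, 2829, 2837, 2842, 2852, 2858, 2864, 2885, 2888, 2898, 2913,
    2948, 2953, 2960, 2977, 3010, 3100, 3117, 3125, 3130, 3149, 3157, 3160, 3174, 3176, 3185,
    3214, 3220, 3225, 3238, 3242, 3250, 3268, 3273, 3282, 3296, 3341, 3349, 3354, 3364, 3368,
    3376, 3398, 3402, 3410, 3425, 3461, 3465, 3474, 3489, 3520, 3596, 3604, 3608, 3621, 3626,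
    3633, 3652, 3657, 3665, 3682, 3717, 3720, 3730, 3745, 3776, 3846, 3848, 3856, 3874, 3905,
    3970, 4158, 4190, 4204, 4212, 4217, 4252, 4268, 4277, 4281, 4300, 4309, 4313, 4326, 4329,
    4338, 4380, 4397, 4405, 4408, 4430, 4437, 4441, 4452, 4458, 4464, 4493, 4502, 4506, 4516,
    4522, 4530, 4549, 4553, 4562, 4576, 4638, 4652, 4662, 4666, 4685, 4692, 4696, 4709, 4714,
    4721, 4749, 4758, 4760, 4774, 4776, 4784, 4806, 4810, 4816, 4833, 4878, 4884, 4888, 4901,
    4906, 4913, 4934, 4936, 4946, 4961, 4996, 5002, 5009, 5024, 5056, 5149, 5165, 5173, 5177,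
    5196, 5205, 5210, 5222, 5226, 5233, 5262, 5268, 5274, 5284, 5288, 5298, 5316, 5322, 5328,
    5346, 5389, 5398, 5402, 5414, 5416, 5426, 5446, 5448, 5456, 5473, 5509, 5513, 5520, 5537,
    5568, 5644, 5653, 5657, 5669, 5673, 5682, 5702, 5704, 5714, 5728, 5765, 5769, 5776, 5794,
    5825, 5892, 5896, 5905, 5920, 5953, 6018, 6174, 6190, 6196, 6200, 6220, 6228, 6233, 6244,
    6249, 6258, 6284, 6293, 6297, 6310, 6313, 6320, 6341, 6346, 6352, 6369, 6414, 6420, 6426,
    6437, 6440, 6449, 6469, 6474, 6482, 6498, 6534, 6536, 6545, 6562, 6592, 6669, 6677, 6681,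
    6692, 6697, 6706, 6726, 6728, 6736, 6752, 6789, 6794, 6802, 6818, 6849, 6916, 6921, 6929,
    6946, 6977, 7040, 7182, 7190, 7192, 7204, 7208, 7216, 7236, 7241, 7250, 7265, 7302, 7304,
    7313, 7329, 7362, 7429, 7433, 7440, 7458, 7489, 7552, 7686, 7690, 7696, 7712, 7746, 7809,
    7938, 8253, 8285, 8302, 8308, 8313, 8350, 8366, 8372, 8377, 8397, 8404, 8410, 8422, 8424,
    8433, 8477, 8494, 8502, 8506, 8525, 8534, 8538, 8548, 8552, 8561, 8590, 8596, 8601, 8612,
    8616, 8626, 8644, 8650, 8656, 8673, 8732, 8748, 8757, 8761, 8782, 8789, 8794, 8804, 8810,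
    8818, 8844, 8853, 8857, 8870, 8874, 8882, 8900, 8904, 8912, 8929, 8974, 8980, 8986, 8997,
    9000, 9009, 9029, 9032, 9040, 9058, 9093, 9096, 9106, 9120, 9153, 9246, 9260, 9268, 9272,
    9292, 9302, 9304, 9317, 9321, 9329, 9357, 9365, 9370, 9381, 9385, 9394, 9414, 9416, 9426,
    9442, 9484, 9493, 9496, 9509, 9513, 9521, 9541, 9546, 9554, 9570, 9606, 9608, 9616, 9632,
    9665, 9741, 9749, 9754, 9766, 9768, 9778, 9796, 9801, 9808, 9825, 9862, 9865, 9872, 9888,
    9922, 9990, 9993, 10000, 10018, 10048, 10113, 10268, 10284, 10292, 10298, 10318, 10326, 10328,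
    10340, 10344, 10352, 10381, 10389, 10392, 10405, 10410, 10416, 10436, 10441, 10449, 10465,
    10508, 10518, 10521, 10533, 10537, 10546, 10565, 10569, 10577, 10594, 10629, 10634, 10640,
    10658, 10690, 10764, 10774, 10776, 10789, 10793, 10800, 10822, 10825, 10833, 10849, 10886,
    10889, 10898, 10914, 10946, 11014, 11018, 11024, 11040, 11072, 11137, 11278, 11286, 11289,
    11302, 11305, 11314, 11332, 11338, 11344, 11362, 11396, 11400, 11409, 11424, 11457, 11524,
    11530, 11537, 11552, 11584, 11650, 11781, 11786, 11793, 11808, 11842, 11904, 12033, 12317,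
    12333, 12342, 12344, 12366, 12374, 12376, 12389, 12392, 12402, 12429, 12438, 12442, 12453,
    12458, 12464, 12486, 12488, 12496, 12512, 12556, 12564, 12569, 12582, 12585, 12592, 12612,
    12617, 12626, 12640, 12678, 12680, 12689, 12705, 12737, 12814, 12820, 12824, 12836, 12842,
    12849, 12869, 12873, 12881, 12898, 12932, 12937, 12945, 12961, 12994, 13061, 13065, 13074,
    13088, 13122, 13186, 13324, 13332, 13336, 13350, 13354, 13360, 13381, 13385, 13393, 13408,
    13444, 13450, 13457, 13473, 13505, 13572, 13578, 13585, 13602, 13634, 13698, 13830, 13834,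
    13842, 13856, 13888, 13952, 14081, 14349, 14357, 14362, 14374, 14378, 14385, 14405, 14410,
    14417, 14434, 14468, 14472, 14482, 14496, 14530, 14598, 14600, 14608, 14625, 14656, 14721,
    14852, 14856, 14866, 14881, 14912, 14976, 15106, 15365, 15369, 15378, 15393, 15424, 15490,
    15616, 15873]

theorem base_5_12 : G 4 5 12 := chk_good 5 l5 (by decide +kernel)

private def l6 : List ℕ :=
  [252, 381, 446, 478, 493, 501, 504, 638, 702, 734, 750, 757, 761, 828, 860, 877, 884, 890, 925,
    940, 948, 954, 974, 980, 985, 996, 1001, 1008, 1148, 1213, 1244, 1262, 1270, 1274, 1341, 1374,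
    1390, 1397, 1402, 1437, 1452, 1462, 1466, 1484, 1492, 1498, 1509, 1513, 1521, 1598, 1628,
    1645, 1653, 1656, 1694, 1709, 1716, 1720, 1741, 1748, 1753, 1764, 1768, 1778, 1821, 1837,
    1846, 1849, 1869, 1878, 1880, 1894, 1896, 1906, 1932, 1941, 1946, 1958, 1960, 1969, 1990,
    1992, 2001, 2016, 2173, 2237, 2268, 2284, 2292, 2296, 2366, 2397, 2414, 2420, 2425, 2461,
    2476, 2484, 2488, 2510, 2518, 2522, 2533, 2538, 2546, 2620, 2652, 2668, 2678, 2681, 2718,
    2733, 2741, 2746, 2765, 2773, 2778, 2790, 2793, 2802, 2844, 2860, 2869, 2873, 2892, 2901,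
    2904, 2918, 2922, 2930, 2956, 2966, 2968, 2981, 2984, 2994, 3014, 3017, 3025, 3041, 3133,
    3166, 3181, 3188, 3194, 3230, 3246, 3252, 3256, 3277, 3285, 3289, 3301, 3305, 3312, 3356,
    3374, 3380, 3386, 3404, 3413, 3417, 3428, 3432, 3440, 3469, 3478, 3481, 3494, 3496, 3505,
    3526, 3528, 3536, 3554, 3614, 3630, 3636, 3641, 3660, 3670, 3673, 3684, 3690, 3697, 3724,
    3733, 3737, 3748, 3754, 3760, 3782, 3786, 3792, 3810, 3854, 3862, 3864, 3877, 3881, 3890,
    3909, 3914, 3920, 3937, 3973, 3978, 3984, 4001, 4032, 4220, 4285, 4318, 4334, 4341, 4345,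
    4414, 4446, 4462, 4470, 4473, 4508, 4524, 4533, 4536, 4557, 4564, 4568, 4582, 4584, 4592,
    4668, 4701, 4716, 4726, 4730, 4765, 4782, 4790, 4793, 4813, 4820, 4826, 4836, 4840, 4849,
    4894, 4908, 4917, 4921, 4942, 4949, 4952, 4965, 4968, 4976, 5005, 5013, 5018, 5029, 5034,
    5042, 5060, 5065, 5074, 5090, 5181, 5213, 5228, 5236, 5240, 5278, 5293, 5302, 5304, 5325,
    5332, 5336, 5350, 5354, 5361, 5404, 5420, 5428, 5434, 5454, 5461, 5465, 5477, 5481, 5490,
    5516, 5524, 5529, 5540, 5545, 5554, 5572, 5578, 5585, 5602, 5661, 5678, 5685, 5688, 5710,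
    5718, 5720, 5733, 5737, 5745, 5772, 5782, 5784, 5796, 5801, 5808, 5829, 5834, 5842, 5858,
    5902, 5910, 5912, 5924, 5930, 5936, 5956, 5961, 5968, 5986, 6022, 6026, 6033, 6049, 6081,
    6204, 6237, 6254, 6262, 6265, 6302, 6318, 6326, 6330, 6348, 6356, 6361, 6373, 6376, 6386,
    6428, 6445, 6452, 6458, 6477, 6486, 6490, 6501, 6504, 6512, 6542, 6548, 6553, 6566, 6569,
    6577, 6597, 6601, 6609, 6624, 6685, 6701, 6708, 6712, 6734, 6741, 6746, 6757, 6760, 6770,
    6796, 6804, 6808, 6822, 6825, 6833, 6852, 6856, 6864, 6880, 6925, 6934, 6937, 6950, 6954,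
    6961, 6980, 6986, 6992, 7009, 7046, 7050, 7056, 7072, 7106, 7196, 7213, 7222, 7226, 7246,
    7254, 7258, 7268, 7272, 7281, 7308, 7317, 7320, 7333, 7338, 7345, 7366, 7368, 7378, 7393,
    7437, 7445, 7448, 7462, 7465, 7473, 7492, 7496, 7506, 7520, 7557, 7562, 7570, 7584, 7618,
    7692, 7701, 7706, 7718, 7722, 7728, 7748, 7753, 7761, 7778, 7813, 7817, 7826, 7840, 7873,
    7940, 7945, 7954, 7968, 8001, 8064, 8317, 8380, 8412, 8429, 8438, 8441, 8510, 8541, 8556,
    8564, 8568, 8605, 8622, 8630, 8632, 8652, 8662, 8665, 8678, 8682, 8689, 8764, 8798, 8813,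
    8821, 8826, 8860, 8876, 8886, 8889, 8910, 8917, 8920, 8933, 8936, 8944, 8989, 9006, 9014,
    9017, 9037, 9045, 9050, 9060, 9066, 9072, 9101, 9108, 9112, 9126, 9130, 9137, 9156, 9162,
    9170, 9185, 9278, 9309, 9324, 9334, 9336, 9372, 9388, 9397, 9402, 9422, 9429, 9433, 9444,
    9449, 9458, 9500, 9517, 9524, 9528, 9548, 9558, 9560, 9572, 9578, 9585, 9614, 9621, 9626,
    9637, 9641, 9648, 9670, 9673, 9680, 9696, 9756, 9774, 9781, 9785, 9806, 9812, 9818, 9830,
    9834, 9841, 9870, 9876, 9881, 9893, 9897, 9906, 9925, 9928, 9938, 9952, 9997, 10004, 10009,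
    10020, 10024, 10032, 10053, 10058, 10066, 10081, 10118, 10120, 10130, 10146, 10177, 10302,
    10332, 10350, 10358, 10362, 10397, 10414, 10421, 10425, 10446, 10453, 10456, 10468, 10474,
    10480, 10526, 10541, 10549, 10552, 10572, 10582, 10584, 10597, 10601, 10610, 10637, 10644,
    10650, 10660, 10665, 10673, 10692, 10696, 10705, 10722, 10782, 10797, 10805, 10808, 10829,
    10838, 10841, 10852, 10856, 10864, 10893, 10902, 10904, 10918, 10922, 10928, 10948, 10952,
    10962, 10977, 11022, 11028, 11034, 11044, 11049, 11058, 11078, 11081, 11089, 11104, 11141,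
    11146, 11153, 11168, 11200, 11293, 11308, 11318, 11320, 11341, 11348, 11354, 11366, 11369,
    11377, 11404, 11412, 11418, 11429, 11432, 11442, 11462, 11466, 11474, 11489, 11534, 11542,
    11546, 11557, 11560, 11569, 11589, 11593, 11601, 11618, 11652, 11657, 11664, 11682, 11712,
    11788, 11797, 11801, 11814, 11816, 11825, 11845, 11848, 11856, 11872, 11908, 11913, 11922,
    11938, 11969, 12036, 12042, 12048, 12066, 12098, 12161, 12349, 12380, 12396, 12405, 12410,
    12446, 12461, 12468, 12472, 12493, 12502, 12506, 12516, 12522, 12530, 12572, 12590, 12597,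
    12601, 12620, 12628, 12634, 12646, 12649, 12657, 12685, 12694, 12698, 12709, 12713, 12720,
    12741, 12744, 12754, 12768, 12830, 12845, 12852, 12858, 12876, 12884, 12889, 12902, 12905,
    12912, 12940, 12949, 12952, 12964, 12970, 12976, 12998, 13001, 13009, 13026, 13068, 13078,
    13081, 13094, 13096, 13106, 13126, 13128, 13137, 13153, 13189, 13192, 13200, 13217, 13250,
    13342, 13356, 13366, 13370, 13389, 13398, 13401, 13414, 13417, 13424, 13454, 13461, 13465,
    13476, 13482, 13489, 13509, 13512, 13520, 13536, 13582, 13589, 13593, 13605, 13610, 13616,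
    13637, 13642, 13650, 13664, 13702, 13704, 13712, 13730, 13761, 13837, 13844, 13850, 13861,
    13864, 13874, 13892, 13896, 13905, 13922, 13958, 13962, 13969, 13985, 14016, 14084, 14089,
    14098, 14113, 14144, 14208, 14365, 14380, 14388, 14393, 14414, 14421, 14424, 14437, 14442,
    14448, 14476, 14486, 14489, 14500, 14504, 14514, 14533, 14538, 14545, 14561, 14606, 14613,
    14616, 14628, 14632, 14642, 14660, 14665, 14672, 14690, 14724, 14730, 14738, 14754, 14785,
    14862, 14868, 14874, 14885, 14890, 14898, 14918, 14921, 14928, 14945, 14982, 14985, 14993,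
    15009, 15042, 15109, 15112, 15121, 15136, 15170, 15232, 15373, 15380, 15384, 15398, 15401,
    15409, 15428, 15434, 15440, 15457, 15494, 15497, 15504, 15520, 15552, 15622, 15624, 15633,
    15650, 15682, 15745, 15877, 15880, 15890, 15904, 15938, 16002, 16129]

theorem base_6_12 : G 4 6 12 := chk_good 6 l6 (by decide +kernel)

end Pool.Agent.LS3
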