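import Pool.Agent.Lib.MP_2c0b9b_co.Defs

/-!
# Colourings invariant under a group
-/

set_option autoImplicit false

open Finset
open scoped Pointwise

namespace Pool.Agent.LS3

section invariant

variable {α : Type*} [DecidableEq α] [Fintype α] {Γ : Type*} [Group Γ] [MulAction Γ α]

lemma count_invariant {k : ℕ} (χ : Finset α → ZMod 3)
    (hinv : ∀ (g : Γ) (B : Finset α), χ (g • B) = χ B) (g : Γ) (T : Finset α) (i : ZMod 3) :
    ((powersetCard k (univ : Finset α)).filter (fun B => g • T ⊆ B ∧ χ B = i)).card =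
      ((powersetCard k (univ : Finset α)).filter (fun B => T ⊆ B ∧ χ B = i)).card := by
  refine Finset.card_nbij' (fun B => g⁻¹ • B) (fun B => g • B) ?_ ?_ ?_ ?_
  · intro B hB
    simp only [coe_filter, mem_powersetCard_univ, Set.mem_ofPred_eq] at hB ⊢
    refine ⟨by rw [card_smul_finset]; exact hB.1, ?_, by rw [hinv]; exact hB.2.2⟩
    exact (Finset.subset_smul_finset_iff).2 (by simpa using hB.2.1)
  · intro B hB
    simp only [coe_filter, mem_powersetCard_univ, Set.mem_ofPred_eq] at hB ⊢
    refine ⟨by rw [card_smul_finset]; exact hB.1, ?_, by rw [hinv]; exact hB.2.2⟩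
    exact Finset.smul_finset_subset_smul_finset_iff.2 hB.2.1
  · intro B _
    simp
  · intro B _
    simp

/-- A colouring of the `k`-subsets that is invariant under a group that is transitive on
`t`-subsets for `t < r`, with equal colour classes, is balanced. -/
theorem bal_of_invariant {r k : ℕ}
    (htrans : ∀ T T' : Finset α, T.card < r → T'.card = T.card → ∃ g : Γ, g • T = T')
    (χ : Finset α → ZMod 3) (hinv : ∀ (g : Γ) (B : Finset α), χ (g • B) = χ B) {N : ℕ}
    (heq : ∀ i, ((powersetCard k (univ : Finset α)).filter (fun B => χ B = i)).card = N) :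
    Bal r (powersetCard k (univ : Finset α)) χ := by
  intro T hT i
  -- the number of blocks of colour `j` that contain `T`
  have key : ∀ j : ZMod 3, (Fintype.card α).choose T.card *
      ((powersetCard k (univ : Finset α)).filter (fun B => T ⊆ B ∧ χ B = j)).card =
        N * k.choose T.card := by
    intro j
    have h1 : ∑ T' ∈ powersetCard T.card (univ : Finset α),
        ((powersetCard k (univ : Finset α)).filter (fun B => T' ⊆ B ∧ χ B = j)).card =
        (Fintype.card α).choose T.card *
        ((powersetCard k (univ : Finset α)).filter (fun B => T ⊆ B ∧ χ B = j)).card := by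
      rw [Finset.sum_const_nat (m := ((powersetCard k (univ : Finset α)).filter
        (fun B => T ⊆ B ∧ χ B = j)).card), card_powersetCard, card_univ]
      intro T' hT'
      rw [mem_powersetCard_univ] at hT'
      obtain ⟨g, rfl⟩ := htrans T T' hT hT'
      exact count_invariant χ hinv g T j
    have h2 : ∑ T' ∈ powersetCard T.card (univ : Finset α),
        ((powersetCard k (univ : Finset α)).filter (fun B => T' ⊆ B ∧ χ B = j)).card =
        ∑ B ∈ (powersetCard k (univ : Finset α)).filter (fun B => χ B = j),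
          ((powersetCard T.card (univ : Finset α)).filter (fun T' => T' ⊆ B)).card := by
      simp only [card_filter, Finset.sum_filter]
      rw [Finset.sum_comm]
      refine Finset.sum_congr rfl fun B _ => ?_
      by_cases hB : χ B = j
      · simp [hB]
      · simp [hB]
    have h3 : ∀ B ∈ (powersetCard k (univ : Finset α)).filter (fun B => χ B = j),
        ((powersetCard T.card (univ : Finset α)).filter (fun T' => T' ⊆ B)).card =
          k.choose T.card := by
      intro B hB
      rw [mem_filter, mem_powersetCard_univ] at hB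
      rw [← hB.1, ← card_powersetCard]
      congr 1
      ext T'
      simp only [mem_filter, mem_powersetCard, subset_univ, true_and]
      tauto
    rw [← h1, h2, Finset.sum_const_nat h3, heq]
  have hpos : 0 < (Fintype.card α).choose T.card := Nat.choose_pos (card_le_univ T)
  have hsame : ∀ j : ZMod 3,
      ((powersetCard k (univ : Finset α)).filter (fun B => T ⊆ B ∧ χ B = j)).card =
      ((powersetCard k (univ : Finset α)).filter (fun B => T ⊆ B ∧ χ B = i)).card := by
    intro j
    exact Nat.eq_of_mul_eq_mul_left hpos ((key j).trans (key i).symm)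
  have hsum : ((powersetCard k (univ : Finset α)).filter (fun B => T ⊆ B)).card =
      ∑ j : ZMod 3,
        ((powersetCard k (univ : Finset α)).filter (fun B => T ⊆ B ∧ χ B = j)).card := by
    rw [Finset.card_eq_sum_card_fiberwise (f := χ) (t := univ) (fun _ _ => mem_coe.2 (mem_univ _))]
    refine Finset.sum_congr rfl fun j _ => ?_
    rw [filter_filter]
  rw [hsum, Finset.sum_congr rfl fun j _ => hsame j, Finset.sum_const, card_univ, ZMod.card]
  simp

end invariant

section orbits

variable {X : Type*} {Γ : Type*} [Group Γ] [MulAction Γ X]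

/-- a representative of the orbit -/
noncomputable def orep (Γ : Type*) [Group Γ] [MulAction Γ X] (x : X) : X :=
  Quotient.out (Quotient.mk (MulAction.orbitRel Γ X) x)

lemma orep_mem (x : X) : orep Γ x ∈ MulAction.orbit Γ x := by
  have h : (MulAction.orbitRel Γ X).r (orep Γ x) x :=
    Quotient.exact (Quotient.out_eq (Quotient.mk (MulAction.orbitRel Γ X) x))
  exact h

lemma orep_eq_iff {x y : X} : orep Γ x = orep Γ y ↔ x ∈ MulAction.orbit Γ y := by
  constructor
  · intro h
    have h1 : Quotient.mk (MulAction.orbitRel Γ X) x = Quotient.mk (MulAction.orbitRel Γ X) y := by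
      rw [← Quotient.out_eq (Quotient.mk (MulAction.orbitRel Γ X) x),
        ← Quotient.out_eq (Quotient.mk (MulAction.orbitRel Γ X) y)]
      exact congrArg _ h
    exact Quotient.exact h1
  · intro h
    unfold orep
    have h1 : Quotient.mk (MulAction.orbitRel Γ X) x = Quotient.mk (MulAction.orbitRel Γ X) y :=
      Quotient.sound h
    rw [h1]

lemma orep_smul (g : Γ) (x : X) : orep Γ (g • x) = orep Γ x :=
  orep_eq_iff.2 (MulAction.mem_orbit x g)

lemma orep_orep (x : X) : orep Γ (orep Γ x) = orep Γ x := orep_eq_iff.2 (orep_mem x)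

variable [DecidableEq X]

/-- orbit and stabiliser -/
lemma card_fiber_mul_card_stabilizer [Finite Γ] (F : Finset X)
    (hF : ∀ (g : Γ) (x : X), x ∈ F → g • x ∈ F)
    {R : X} (hR : R ∈ F.image (orep Γ)) :
    (F.filter (fun x => orep Γ x = R)).card * Nat.card (MulAction.stabilizer Γ R) =
      Nat.card Γ := by
  obtain ⟨x, hx, rfl⟩ := mem_image.1 hR
  have h1 : ((F.filter (fun y => orep Γ y = orep Γ x) : Finset X) : Set X) =
      MulAction.orbit Γ (orep Γ x) := by
    ext y
    simp only [coe_filter, Set.mem_ofPred_eq]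
    constructor
    · rintro ⟨-, hy⟩
      rw [← orep_eq_iff, orep_orep]
      exact hy
    · intro hy
      have hy2 := orep_eq_iff.2 hy
      rw [orep_orep] at hy2
      refine ⟨?_, hy2⟩
      obtain ⟨g, hg⟩ := orep_eq_iff.1 hy2
      rw [← hg]
      exact hF g x hx
  rw [← Set.ncard_coe_finset, h1, ← MulAction.index_stabilizer, Subgroup.index_mul_card]

/-- an arithmetic lemma: distribution of items of the sizes 4, 2, 1 -/
lemma distribute {n4 n2 n1 m : ℕ} (h : 4 * n4 + 2 * n2 + n1 = 3 * m) (h1 : 3 ≤ n1)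
    (h2 : n4 = 0 ∨ 2 ≤ n2) :
    ∃ x y z : ℕ × ℕ × ℕ, x.1 + x.2.1 + x.2.2 = n4 ∧ y.1 + y.2.1 + y.2.2 = n2 ∧
      z.1 + z.2.1 + z.2.2 = n1 ∧ 4 * x.1 + 2 * y.1 + z.1 = m ∧
      4 * x.2.1 + 2 * y.2.1 + z.2.1 = m ∧ 4 * x.2.2 + 2 * y.2.2 + z.2.2 = m := by
  obtain ⟨x1, x2, x3, hx, c1, c2, c3⟩ : ∃ x1 x2 x3 : ℕ, x1 + x2 + x3 = n4 ∧ 4 * x1 ≤ m ∧
      4 * x2 ≤ m ∧ 4 * x3 ≤ m := by
    refine ⟨n4 / 3, (n4 + 1) / 3, (n4 + 2) / 3, ?_, ?_, ?_, ?_⟩ <;> omega
  obtain ⟨d1, hd1⟩ : ∃ d, d = m - 4 * x1 := ⟨_, rfl⟩
  obtain ⟨d2, hd2⟩ : ∃ d, d = m - 4 * x2 := ⟨_, rfl⟩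
  obtain ⟨d3, hd3⟩ : ∃ d, d = m - 4 * x3 := ⟨_, rfl⟩
  obtain ⟨y1, y2, y3, hy, e1, e2, e3⟩ : ∃ y1 y2 y3 : ℕ, y1 + y2 + y3 = n2 ∧ 2 * y1 ≤ d1 ∧
      2 * y2 ≤ d2 ∧ 2 * y3 ≤ d3 := by
    refine ⟨min n2 (d1 / 2), min (n2 - min n2 (d1 / 2)) (d2 / 2),
      n2 - min n2 (d1 / 2) - min (n2 - min n2 (d1 / 2)) (d2 / 2), ?_, ?_, ?_, ?_⟩ <;> omega
  refine ⟨(x1, x2, x3), (y1, y2, y3), (d1 - 2 * y1, d2 - 2 * y2, d3 - 2 * y3),
    hx, hy, ?_, ?_, ?_, ?_⟩ <;> simp only <;> omega

/-- colouring a finite set with prescribed numbers -/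
lemma exists_colour (S : Finset X) {a b c : ℕ} (h : a + b + c = S.card) :
    ∃ f : X → ZMod 3, (S.filter (fun x => f x = 0)).card = a ∧
      (S.filter (fun x => f x = 1)).card = b ∧ (S.filter (fun x => f x = 2)).card = c := by
  obtain ⟨A, hA, hAc⟩ := exists_subset_card_eq (s := S) (n := a) (by omega)
  obtain ⟨C, hC, hCc⟩ := exists_subset_card_eq (s := S \ A) (n := b)
    (by rw [card_sdiff_of_subset hA]; omega)
  have hd : Disjoint A C := by
    rw [disjoint_iff_ne]
    rintro x hx _ hy rfl
    exact (mem_sdiff.1 (hC hy)).2 hx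
  refine ⟨fun x => if x ∈ A then 0 else if x ∈ C then 1 else 2, ?_, ?_, ?_⟩
  · rw [← hAc]
    congr 1
    ext x
    simp only [mem_filter]
    constructor
    · rintro ⟨-, hx⟩
      by_contra hxA
      rw [if_neg hxA] at hx
      by_cases hxC : x ∈ C
      · rw [if_pos hxC] at hx
        exact absurd hx (by decide)
      · rw [if_neg hxC] at hx
        exact absurd hx (by decide)
    · intro hx
      exact ⟨hA hx, by rw [if_pos hx]⟩
  · rw [← hCc]
    congr 1
    ext x
    simp only [mem_filter]
    constructor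
    · rintro ⟨-, hx⟩
      by_cases hxA : x ∈ A
      · rw [if_pos hxA] at hx
        exact absurd hx (by decide)
      · rw [if_neg hxA] at hx
        by_contra hxC
        rw [if_neg hxC] at hx
        exact absurd hx (by decide)
    · intro hx
      have hxA : x ∉ A := (mem_sdiff.1 (hC hx)).2
      exact ⟨(mem_sdiff.1 (hC hx)).1, by rw [if_neg hxA, if_pos hx]⟩
  · have e : S.filter (fun x => (if x ∈ A then (0 : ZMod 3) else if x ∈ C then 1 else 2) = 2) =
        (S \ A) \ C := by
      ext x
      simp only [mem_filter, mem_sdiff]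
      constructor
      · rintro ⟨hx, hx2⟩
        by_cases hxA : x ∈ A
        · rw [if_pos hxA] at hx2
          exact absurd hx2 (by decide)
        · rw [if_neg hxA] at hx2
          by_cases hxC : x ∈ C
          · rw [if_pos hxC] at hx2
            exact absurd hx2 (by decide)
          · exact ⟨⟨hx, hxA⟩, hxC⟩
      · rintro ⟨⟨hx, hxA⟩, hxC⟩
        exact ⟨hx, by rw [if_neg hxA, if_neg hxC]⟩
    rw [e, card_sdiff_of_subset hC, card_sdiff_of_subset hA]
    omega

/-- colouring a set of items of the sizes `4 u`, `2 u`, `u` -/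
lemma exists_weight_colour (S : Finset X) (w : X → ℕ) {u m : ℕ} (hu : 0 < u)
    (hw : ∀ x ∈ S, w x = u ∨ w x = 2 * u ∨ w x = 4 * u)
    (h1 : 3 ≤ (S.filter (fun x => w x = u)).card)
    (h2 : (∀ x ∈ S, w x ≠ 4 * u) ∨ 2 ≤ (S.filter (fun x => w x = 2 * u)).card)
    (hsum : ∑ x ∈ S, w x = 3 * (u * m)) :
    ∃ f : X → ZMod 3, ∀ i, ∑ x ∈ S.filter (fun x => f x = i), w x = u * m := by
  obtain ⟨S1, hS1⟩ : ∃ S1, S1 = S.filter (fun x => w x = u) := ⟨_, rfl⟩
  obtain ⟨S2, hS2⟩ : ∃ S2, S2 = S.filter (fun x => w x = 2 * u) := ⟨_, rfl⟩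
  obtain ⟨S4, hS4⟩ : ∃ S4, S4 = S.filter (fun x => w x = 4 * u) := ⟨_, rfl⟩
  have hsplit : ∀ p : X → Prop, [DecidablePred p] → ∑ x ∈ S.filter p, w x =
      4 * u * (S4.filter p).card + 2 * u * (S2.filter p).card + u * (S1.filter p).card := by
    intro p _
    have e : ∀ x ∈ S.filter p, w x = (if w x = 4 * u then 4 * u else 0) +
        (if w x = 2 * u then 2 * u else 0) + (if w x = u then u else 0) := by
      intro x hx
      rcases hw x (mem_filter.1 hx).1 with h | h | h
      · rw [h, if_neg (by omega), if_neg (by omega), if_pos rfl]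
        omega
      · rw [h, if_neg (by omega), if_pos rfl, if_neg (by omega)]
        omega
      · rw [h, if_pos rfl, if_neg (by omega), if_neg (by omega)]
        omega
    rw [sum_congr rfl e, sum_add_distrib, sum_add_distrib, ← sum_filter, ← sum_filter,
      ← sum_filter, sum_const, sum_const, sum_const, hS1, hS2, hS4]
    simp only [filter_filter, smul_eq_mul]
    have e1 : ∀ v : ℕ, (S.filter fun a => p a ∧ w a = v) = S.filter fun a => w a = v ∧ p a := by
      intro v
      ext x
      simp only [mem_filter]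
      tauto
    rw [e1, e1, e1]
    ring
  have htot : 4 * S4.card + 2 * S2.card + S1.card = 3 * m := by
    have h3 := hsplit (fun _ => True)
    simp only [filter_true] at h3
    rw [hsum] at h3
    have h4 : u * (4 * S4.card + 2 * S2.card + S1.card) = u * (3 * m) := by linarith
    exact Nat.eq_of_mul_eq_mul_left hu h4
  have h4 : S4.card = 0 ∨ 2 ≤ S2.card := by
    rcases h2 with h | h
    · left
      rw [card_eq_zero, hS4, filter_eq_empty_iff]
      exact fun x hx => h x hx
    · right
      rw [hS2]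
      exact h
  obtain ⟨x, y, z, hx, hy, hz, m0, m1, m2⟩ := distribute htot (by rw [hS1]; exact h1) h4
  obtain ⟨f4, a0, a1, a2⟩ := exists_colour S4 hx
  obtain ⟨f2, b0, b1, b2⟩ := exists_colour S2 hy
  obtain ⟨f1, c0, c1, c2⟩ := exists_colour S1 hz
  refine ⟨fun x => if w x = 4 * u then f4 x else if w x = 2 * u then f2 x else f1 x, ?_⟩
  have r4 : ∀ i, (S4.filter fun x => (if w x = 4 * u then f4 x else if w x = 2 * u then f2 x
      else f1 x) = i) = S4.filter fun x => f4 x = i := by
    intro i
    refine filter_congr fun x hx => ?_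
    rw [hS4, mem_filter] at hx
    rw [if_pos hx.2]
  have r2 : ∀ i, (S2.filter fun x => (if w x = 4 * u then f4 x else if w x = 2 * u then f2 x
      else f1 x) = i) = S2.filter fun x => f2 x = i := by
    intro i
    refine filter_congr fun x hx => ?_
    rw [hS2, mem_filter] at hx
    rw [if_neg (by omega), if_pos hx.2]
  have r1 : ∀ i, (S1.filter fun x => (if w x = 4 * u then f4 x else if w x = 2 * u then f2 x
      else f1 x) = i) = S1.filter fun x => f1 x = i := by
    intro i
    refine filter_congr fun x hx => ?_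
    rw [hS1, mem_filter] at hx
    rw [if_neg (by omega), if_neg (by omega)]
  have hz3 : ∀ i : ZMod 3, i = 0 ∨ i = 1 ∨ i = 2 := by decide
  intro i
  rw [hsplit, r4, r2, r1]
  rcases hz3 i with rfl | rfl | rfl
  · rw [a0, b0, c0, ← m0]; ring
  · rw [a1, b1, c1, ← m1]; ring
  · rw [a2, b2, c2, ← m2]; ring

end orbits

/-- Large sets from the orbits of a group. -/
theorem good_of_orbits {α : Type*} [DecidableEq α] [Fintype α] {Γ : Type*} [Group Γ]
    [MulAction Γ α] [Finite Γ] {r k u m : ℕ} (hu : 0 < u)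
    (htrans : ∀ T T' : Finset α, T.card < r → T'.card = T.card → ∃ g : Γ, g • T = T')
    (hst : ∀ B : Finset α, B.card = k → u * Nat.card (MulAction.stabilizer Γ B) = Nat.card Γ ∨
      2 * u * Nat.card (MulAction.stabilizer Γ B) = Nat.card Γ ∨
      4 * u * Nat.card (MulAction.stabilizer Γ B) = Nat.card Γ)
    (h1 : ∃ B : Fin 3 → Finset α, (∀ i, (B i).card = k) ∧
      (∀ i, u * Nat.card (MulAction.stabilizer Γ (B i)) = Nat.card Γ) ∧
      ∀ i j, B i ∈ MulAction.orbit Γ (B j) → i = j)
    (h2 : (∀ B : Finset α, B.card = k →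
        4 * u * Nat.card (MulAction.stabilizer Γ B) ≠ Nat.card Γ) ∨
      ∃ B : Fin 2 → Finset α, (∀ i, (B i).card = k) ∧
      (∀ i, 2 * u * Nat.card (MulAction.stabilizer Γ (B i)) = Nat.card Γ) ∧
      ∀ i j, B i ∈ MulAction.orbit Γ (B j) → i = j)
    (hsum : (Fintype.card α).choose k = 3 * (u * m)) :
    Good r (powersetCard k (univ : Finset α)) := by
  classical
  obtain ⟨F, hFdef⟩ : ∃ F, F = powersetCard k (univ : Finset α) := ⟨_, rfl⟩
  have hF : ∀ (g : Γ) (x : Finset α), x ∈ F → g • x ∈ F := by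
    intro g x hx
    rw [hFdef, mem_powersetCard_univ] at hx ⊢
    rw [card_smul_finset]
    exact hx
  have hFc : F.card = 3 * (u * m) := by
    rw [hFdef, card_powersetCard, card_univ, hsum]
  obtain ⟨w, hwdef⟩ : ∃ w : Finset α → ℕ, w = fun R => (F.filter (fun x => orep Γ x = R)).card :=
    ⟨_, rfl⟩
  have hstpos : ∀ B : Finset α, 0 < Nat.card (MulAction.stabilizer Γ B) := fun B => Nat.card_pos
  have hwR : ∀ R ∈ F.image (orep Γ), w R * Nat.card (MulAction.stabilizer Γ R) = Nat.card Γ := by
    intro R hR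
    rw [hwdef]
    exact card_fiber_mul_card_stabilizer F hF hR
  have hrepk : ∀ R ∈ F.image (orep Γ), R.card = k := by
    intro R hR
    obtain ⟨x, hx, rfl⟩ := mem_image.1 hR
    obtain ⟨g, hg⟩ := orep_mem (Γ := Γ) x
    rw [← hg]
    simp only
    rw [card_smul_finset]
    rw [hFdef, mem_powersetCard_univ] at hx
    exact hx
  have hstab : ∀ B : Finset α, Nat.card (MulAction.stabilizer Γ (orep Γ B)) =
      Nat.card (MulAction.stabilizer Γ B) := by
    intro B
    obtain ⟨g, hg⟩ := orep_mem (Γ := Γ) B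
    rw [← hg]
    exact (Nat.card_congr (MulAction.stabilizerEquivStabilizer (G := Γ) (g := g) (a := B)
      (b := g • B) rfl).toEquiv).symm
  -- the weights
  have hval : ∀ (R : Finset α) (c : ℕ), R ∈ F.image (orep Γ) →
      c * Nat.card (MulAction.stabilizer Γ R) = Nat.card Γ → w R = c := by
    intro R c hR hc
    exact Nat.eq_of_mul_eq_mul_right (hstpos R) ((hwR R hR).trans hc.symm)
  have hw : ∀ R ∈ F.image (orep Γ), w R = u ∨ w R = 2 * u ∨ w R = 4 * u := by
    intro R hR
    rcases hst R (hrepk R hR) with h | h | h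
    · exact Or.inl (hval R _ hR h)
    · exact Or.inr (Or.inl (hval R _ hR h))
    · exact Or.inr (Or.inr (hval R _ hR h))
  have hcount : ∀ (n c : ℕ), (∃ B : Fin n → Finset α, (∀ i, (B i).card = k) ∧
      (∀ i, c * Nat.card (MulAction.stabilizer Γ (B i)) = Nat.card Γ) ∧
      ∀ i j, B i ∈ MulAction.orbit Γ (B j) → i = j) →
      n ≤ ((F.image (orep Γ)).filter (fun R => w R = c)).card := by
    rintro n c ⟨B, hB1, hB2, hB3⟩
    have hinj : Function.Injective fun i => orep Γ (B i) := by
      intro i j hij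
      exact hB3 i j (orep_eq_iff.1 hij)
    have hmem : ∀ i, orep Γ (B i) ∈ F.image (orep Γ) := by
      intro i
      refine mem_image_of_mem _ ?_
      rw [hFdef, mem_powersetCard_univ]
      exact hB1 i
    calc n = (univ.image fun i : Fin n => orep Γ (B i)).card := by
          rw [card_image_of_injective _ hinj, card_univ, Fintype.card_fin]
      _ ≤ _ := by
        refine card_le_card fun R hR => ?_
        obtain ⟨i, -, rfl⟩ := mem_image.1 hR
        refine mem_filter.2 ⟨hmem i, hval _ _ (hmem i) ?_⟩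
        rw [hstab]
        exact hB2 i
  have hsumw : ∑ R ∈ F.image (orep Γ), w R = 3 * (u * m) := by
    rw [← hFc, hwdef]
    exact (card_eq_sum_card_image (orep Γ) F).symm
  obtain ⟨f, hf⟩ := exists_weight_colour (F.image (orep Γ)) w hu hw (hcount 3 u h1) (by
    rcases h2 with h | h
    · left
      intro R hR h4
      refine h R (hrepk R hR) ?_
      rw [← h4]
      exact hwR R hR
    · right
      exact hcount 2 (2 * u) h) hsumw
  refine ⟨fun B => f (orep Γ B), ?_⟩
  refine bal_of_invariant (Γ := Γ) (N := u * m) htrans _ (fun g B => by rw [orep_smul]) ?_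
  intro i
  rw [← hf i, ← hFdef, hwdef]
  have e1 : (F.filter fun B => f (orep Γ B) = i).card =
      ∑ R ∈ (F.image (orep Γ)).filter (fun R => f R = i),
        ((F.filter fun B => f (orep Γ B) = i).filter fun B => orep Γ B = R).card := by
    refine card_eq_sum_card_fiberwise fun B hB => ?_
    rw [mem_coe, mem_filter] at hB
    rw [mem_coe, mem_filter]
    exact ⟨mem_image_of_mem _ hB.1, hB.2⟩
  rw [e1]
  refine sum_congr rfl fun R hR => ?_
  rw [filter_filter]
  congr 1
  refine filter_congr fun B _ => ?_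
  rw [mem_filter] at hR
  constructor
  · exact fun h => h.2
  · exact fun h => ⟨by rw [h]; exact hR.2, h⟩

/-- Large sets from a group that acts freely on the `k`-subsets. -/
theorem good_of_free_orbits {α : Type*} [DecidableEq α] [Fintype α] {Γ : Type*} [Group Γ]
    [MulAction Γ α] [Finite Γ] {r k m : ℕ}
    (htrans : ∀ T T' : Finset α, T.card < r → T'.card = T.card → ∃ g : Γ, g • T = T')
    (hst : ∀ B : Finset α, B.card = k → ∀ g : Γ, g • B = B → g = 1)
    (hsum : (Fintype.card α).choose k = 3 * (Nat.card Γ * m)) :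
    Good r (powersetCard k (univ : Finset α)) := by
  classical
  obtain ⟨F, hFdef⟩ : ∃ F, F = powersetCard k (univ : Finset α) := ⟨_, rfl⟩
  have hF : ∀ (g : Γ) (x : Finset α), x ∈ F → g • x ∈ F := by
    intro g x hx
    rw [hFdef, mem_powersetCard_univ] at hx ⊢
    rw [card_smul_finset]
    exact hx
  have hFc : F.card = 3 * (Nat.card Γ * m) := by
    rw [hFdef, card_powersetCard, card_univ, hsum]
  obtain ⟨w, hwdef⟩ : ∃ w : Finset α → ℕ, w = fun R => (F.filter (fun x => orep Γ x = R)).card :=
    ⟨_, rfl⟩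
  have hrepk : ∀ R ∈ F.image (orep Γ), R.card = k := by
    intro R hR
    obtain ⟨x, hx, rfl⟩ := mem_image.1 hR
    obtain ⟨g, hg⟩ := orep_mem (Γ := Γ) x
    rw [← hg]
    simp only
    rw [card_smul_finset]
    rw [hFdef, mem_powersetCard_univ] at hx
    exact hx
  have hw : ∀ R ∈ F.image (orep Γ), w R = Nat.card Γ := by
    intro R hR
    have h1 := card_fiber_mul_card_stabilizer F hF hR
    have h2 : Nat.card (MulAction.stabilizer Γ R) = 1 := by
      have h3 : MulAction.stabilizer Γ R = ⊥ := by
        rw [eq_bot_iff]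
        intro g hg
        rw [Subgroup.mem_bot]
        exact hst R (hrepk R hR) g hg
      rw [h3]
      exact Subgroup.card_bot
    rw [h2, mul_one] at h1
    rw [hwdef]
    exact h1
  have hΓ : 0 < Nat.card Γ := Nat.card_pos
  have hsumw : ∑ R ∈ F.image (orep Γ), w R = 3 * (Nat.card Γ * m) := by
    rw [← hFc, hwdef]
    exact (card_eq_sum_card_image (orep Γ) F).symm
  have hcard : (F.image (orep Γ)).card = m + m + m := by
    rw [sum_congr rfl hw, sum_const, smul_eq_mul] at hsumw
    have : Nat.card Γ * (F.image (orep Γ)).card = Nat.card Γ * (m + m + m) := by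
      rw [mul_comm, hsumw]
      ring
    exact Nat.eq_of_mul_eq_mul_left hΓ this
  obtain ⟨f, f0, f1, f2⟩ := exists_colour (F.image (orep Γ)) hcard.symm
  have hz3 : ∀ i : ZMod 3, i = 0 ∨ i = 1 ∨ i = 2 := by decide
  have hf : ∀ i, ((F.image (orep Γ)).filter (fun R => f R = i)).card = m := by
    intro i
    rcases hz3 i with rfl | rfl | rfl
    · exact f0
    · exact f1
    · exact f2
  refine ⟨fun B => f (orep Γ B), ?_⟩
  refine bal_of_invariant (Γ := Γ) (N := m * Nat.card Γ) htrans _
    (fun g B => by rw [orep_smul]) ?_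
  intro i
  rw [← hFdef]
  have e1 : (F.filter fun B => f (orep Γ B) = i).card =
      ∑ R ∈ (F.image (orep Γ)).filter (fun R => f R = i),
        ((F.filter fun B => f (orep Γ B) = i).filter fun B => orep Γ B = R).card := by
    refine card_eq_sum_card_fiberwise fun B hB => ?_
    rw [mem_coe, mem_filter] at hB
    rw [mem_coe, mem_filter]
    exact ⟨mem_image_of_mem _ hB.1, hB.2⟩
  rw [e1, ← hf i, ← smul_eq_mul, ← sum_const]
  refine sum_congr rfl fun R hR => ?_
  rw [mem_filter] at hR
  rw [← hw R hR.1, hwdef, filter_filter]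
  simp only
  congr 1
  refine filter_congr fun B _ => ?_
  constructor
  · exact fun h => h.2
  · exact fun h => ⟨by rw [h]; exact hR.2, h⟩

end Pool.Agent.LS3
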