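import Pool.Agent.Lib.MP_2c0b9b_co.Calc1
import Pool.Agent.Lib.MP_2c0b9b_co.Orb

/-!
# Large sets on 29 points
-/

set_option autoImplicit false

open Finset
open scoped Pointwise

namespace Pool.Agent.LS3

instance fact29 : Fact (Nat.Prime 29) := ⟨by norm_num⟩

instance fact7 : Fact (Nat.Prime 7) := ⟨by norm_num⟩

/-- The affine group of the line over the field with 29 elements. -/
@[ext] structure Aff where
  a : (ZMod 29)ˣ
  b : ZMod 29

namespace Aff

instance : Mul Aff := ⟨fun g h => ⟨g.a * h.a, g.a * h.b + g.b⟩⟩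

instance : One Aff := ⟨⟨1, 0⟩⟩

instance : Inv Aff := ⟨fun g => ⟨g.a⁻¹, -(↑(g.a⁻¹) * g.b)⟩⟩

lemma mul_a (g h : Aff) : (g * h).a = g.a * h.a := rfl

lemma mul_b (g h : Aff) : (g * h).b = g.a * h.b + g.b := rfl

lemma one_a : (1 : Aff).a = 1 := rfl

lemma one_b : (1 : Aff).b = 0 := rfl

lemma inv_a (g : Aff) : (g⁻¹).a = g.a⁻¹ := rfl

lemma inv_b (g : Aff) : (g⁻¹).b = -(↑(g.a⁻¹) * g.b) := rfl

instance : Group Aff := Group.ofLeftAxioms
  (by
    intro g h k
    refine Aff.ext ?_ ?_
    · simp only [mul_a]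
      exact mul_assoc _ _ _
    · simp only [mul_a, mul_b, Units.val_mul]
      ring)
  (by
    intro g
    refine Aff.ext ?_ ?_
    · simp only [mul_a, one_a]
      exact one_mul _
    · simp only [mul_b, one_a, one_b, Units.val_one]
      ring)
  (by
    intro g
    refine Aff.ext ?_ ?_
    · simp only [mul_a, inv_a, one_a]
      exact inv_mul_cancel _
    · simp only [mul_b, inv_a, inv_b, one_b]
      ring)

instance : MulAction Aff (ZMod 29) where
  smul g x := g.a * x + g.b
  one_smul x := by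
    change ((1 : Aff).a : ZMod 29) * x + (1 : Aff).b = x
    rw [one_a, one_b, Units.val_one]
    ring
  mul_smul g h x := by
    change ((g * h).a : ZMod 29) * x + (g * h).b = g.a * (h.a * x + h.b) + g.b
    rw [mul_a, mul_b, Units.val_mul]
    ring

lemma smul_def (g : Aff) (x : ZMod 29) : g • x = g.a * x + g.b := rfl

/-- the linear part -/
def aHom : Aff →* (ZMod 29)ˣ where
  toFun g := g.a
  map_one' := rfl
  map_mul' _ _ := rfl

lemma pow_a (g : Aff) (n : ℕ) : (g ^ n).a = g.a ^ n := map_pow aHom g n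

/-- the group as a set of pairs -/
def equivProd : Aff ≃ (ZMod 29)ˣ × ZMod 29 where
  toFun g := (g.a, g.b)
  invFun p := ⟨p.1, p.2⟩
  left_inv _ := rfl
  right_inv _ := rfl

instance : Finite Aff := Finite.of_equiv _ equivProd.symm

lemma natCard : Nat.card Aff = 812 := by
  rw [Nat.card_congr equivProd, Nat.card_prod, Nat.card_eq_fintype_card, Nat.card_eq_fintype_card,
    ZMod.card_units, ZMod.card]

/-- two-transitivity -/
lemma trans2 (T T' : Finset (ZMod 29)) (hT : T.card < 3) (hT' : T'.card = T.card) :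
    ∃ g : Aff, g • T = T' := by
  have h3 : T.card = 0 ∨ T.card = 1 ∨ T.card = 2 := by omega
  rcases h3 with h | h | h
  · have h' : T'.card = 0 := hT'.trans h
    rw [card_eq_zero] at h h'
    subst h h'
    exact ⟨1, one_smul _ _⟩
  · have h' : T'.card = 1 := hT'.trans h
    obtain ⟨x, rfl⟩ := card_eq_one.1 h
    obtain ⟨x', rfl⟩ := card_eq_one.1 h'
    refine ⟨⟨1, x' - x⟩, ?_⟩
    rw [smul_finset_singleton, smul_def, Units.val_one]
    congr 1
    ring
  · have h' : T'.card = 2 := hT'.trans h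
    obtain ⟨x, y, hxy, rfl⟩ := card_eq_two.1 h
    obtain ⟨x', y', hxy', rfl⟩ := card_eq_two.1 h'
    have h1 : x - y ≠ 0 := sub_ne_zero.2 hxy
    have h1' : x' - y' ≠ 0 := sub_ne_zero.2 hxy'
    refine ⟨⟨Units.mk0 ((x' - y') / (x - y)) (div_ne_zero h1' h1),
      x' - (x' - y') / (x - y) * x⟩, ?_⟩
    rw [smul_finset_insert, smul_finset_singleton, smul_def, smul_def]
    simp only [Units.val_mk0]
    congr 1
    · ring
    · congr 1
      field_simp
      ring

section stab

variable {B : Finset (ZMod 29)} {g : Aff}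

lemma smul_mem (hg : g • B = B) {x : ZMod 29} (hx : x ∈ B) : (g.a : ZMod 29) * x + g.b ∈ B := by
  have h1 : g • x ∈ g • B := smul_mem_smul_finset hx
  rw [hg, smul_def] at h1
  exact h1

/-- no translations -/
lemma eq_one_of_translation (hB : 0 < B.card) (hB' : B.card < 29) (hg : g • B = B)
    (ha : g.a = 1) : g = 1 := by
  by_contra hne
  have hb : g.b ≠ 0 := fun h0 => hne (Aff.ext (by rw [ha, one_a]) (by rw [h0, one_b]))
  obtain ⟨x, hx⟩ := card_pos.1 hB
  have h1 : ∀ n : ℕ, x + n * g.b ∈ B := by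
    intro n
    induction n with
    | zero => simpa using hx
    | succ n ih =>
      have h2 := smul_mem hg ih
      rw [ha, Units.val_one] at h2
      have e : x + ((n + 1 : ℕ) : ZMod 29) * g.b = 1 * (x + n * g.b) + g.b := by
        push_cast
        ring
      rw [e]
      exact h2
  have h2 : B = univ := by
    ext z
    simp only [mem_univ, iff_true]
    have h3 := h1 ((z - x) / g.b).val
    rw [ZMod.natCast_zmod_val, div_mul_cancel₀ _ hb] at h3
    have e : x + (z - x) = z := by ring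
    rwa [e] at h3
  rw [h2, card_univ, ZMod.card] at hB'
  omega

/-- the centre -/
lemma exists_centred (hg : g • B = B) (ha : (g.a : ZMod 29) ≠ 1) :
    ∃ B' : Finset (ZMod 29), B'.card = B.card ∧ ∀ y ∈ B', (g.a : ZMod 29) * y ∈ B' := by
  have h1 : (1 : ZMod 29) - g.a ≠ 0 := sub_ne_zero.2 (Ne.symm ha)
  refine ⟨B.image (fun x => x - g.b / (1 - g.a)), ?_, ?_⟩
  · exact card_image_of_injective _ fun x y hxy => sub_left_inj.1 hxy
  · intro y hy
    obtain ⟨x, hx, rfl⟩ := mem_image.1 hy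
    refine mem_image.2 ⟨(g.a : ZMod 29) * x + g.b, smul_mem hg hx, ?_⟩
    field_simp
    ring

end stab

/-- a set closed under multiplication by an element of order `n` -/
lemma card_mod {u : ZMod 29} {n : ℕ} (hu : u ^ n = 1) (R : Finset (ZMod 29))
    (hR : insert 0 ((R ×ˢ range n).image (fun q => q.1 * u ^ q.2)) = univ)
    (hR0 : (0 : ZMod 29) ∉ (R ×ˢ range n).image (fun q => q.1 * u ^ q.2))
    (hinj : Set.InjOn (fun q : ZMod 29 × ℕ => q.1 * u ^ q.2) (R ×ˢ range n : Finset _))
    (B : Finset (ZMod 29)) (hB : ∀ y ∈ B, u * y ∈ B) :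
    ∃ s t : ℕ, s ≤ 1 ∧ B.card = s + n * t := by
  have h1 : ∀ j : ℕ, ∀ y ∈ B, u ^ j * y ∈ B := by
    intro j
    induction j with
    | zero =>
      intro y hy
      rw [pow_zero, one_mul]
      exact hy
    | succ j ih =>
      intro y hy
      have := hB _ (ih y hy)
      rw [← mul_assoc, ← pow_succ'] at this
      exact this
  have h2 : ∀ r : ZMod 29, ∀ j ∈ range n, (r * u ^ j ∈ B ↔ r ∈ B) := by
    intro r j hj
    rw [mem_range] at hj
    constructor
    · intro h
      have h3 := h1 (n - j) _ h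
      have e : u ^ (n - j) * (r * u ^ j) = r := by
        calc u ^ (n - j) * (r * u ^ j) = r * (u ^ (n - j) * u ^ j) := by ring
          _ = r := by rw [← pow_add, Nat.sub_add_cancel hj.le, hu, mul_one]
      rwa [e] at h3
    · intro h
      rw [mul_comm]
      exact h1 j r h
  have h3 : B.card = ∑ x : ZMod 29, if x ∈ B then 1 else 0 := by
    rw [sum_boole]
    simp
  rw [← hR, sum_insert hR0, sum_image hinj, sum_product] at h3
  refine ⟨if (0 : ZMod 29) ∈ B then 1 else 0, ∑ r ∈ R, if r ∈ B then 1 else 0, ?_, ?_⟩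
  · split_ifs <;> omega
  · rw [h3, mul_sum]
    congr 1
    refine sum_congr rfl fun r _ => ?_
    rw [sum_congr rfl fun j hj => by rw [if_congr (h2 r j hj) rfl rfl], sum_const, card_range,
      smul_eq_mul]

lemma card_mod7 (B : Finset (ZMod 29)) (hB : ∀ y ∈ B, 16 * y ∈ B) :
    ∃ s t : ℕ, s ≤ 1 ∧ B.card = s + 7 * t :=
  card_mod (u := 16) (n := 7) (by decide) {1, 2, 4, 8} (by decide) (by decide) (by
    intro x hx y hy hxy
    have key : ∀ x ∈ (({1, 2, 4, 8} : Finset (ZMod 29)) ×ˢ range 7),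
      ∀ y ∈ (({1, 2, 4, 8} : Finset (ZMod 29)) ×ˢ range 7), x.1 * (16 : ZMod 29) ^ x.2 =
        y.1 * (16 : ZMod 29) ^ y.2 → x = y := by decide
    exact key x hx y hy hxy) B hB

lemma card_mod4 (B : Finset (ZMod 29)) (hB : ∀ y ∈ B, 12 * y ∈ B) :
    ∃ s t : ℕ, s ≤ 1 ∧ B.card = s + 4 * t :=
  card_mod (u := 12) (n := 4) (by decide) {1, 2, 4, 8, 16, 3, 6} (by decide) (by decide) (by
    intro x hx y hy hxy
    have key : ∀ x ∈ (({1, 2, 4, 8, 16, 3, 6} : Finset (ZMod 29)) ×ˢ range 4),
      ∀ y ∈ (({1, 2, 4, 8, 16, 3, 6} : Finset (ZMod 29)) ×ˢ range 4), x.1 * (12 : ZMod 29) ^ x.2 =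
        y.1 * (12 : ZMod 29) ^ y.2 → x = y := by decide
    exact key x hx y hy hxy) B hB

/-! ### Stabilisers -/

section stabiliser

variable {B : Finset (ZMod 29)}

lemma ne_one_of (h : 9 ≤ B.card) (h' : B.card ≤ 11) {g : Aff} (hg : g • B = B) (hne : g ≠ 1) :
    (g.a : ZMod 29) ≠ 1 := fun ha =>
  hne (eq_one_of_translation (by omega) (by omega) hg (Units.ext ha))

lemma no_sixteen (h : 9 ≤ B.card) (h' : B.card ≤ 11) {g : Aff} (hg : g • B = B)
    (ha : (g.a : ZMod 29) = 16) : False := by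
  obtain ⟨B', h1, h2⟩ := exists_centred hg (by rw [ha]; decide)
  rw [ha] at h2
  obtain ⟨s, t, h3, h4⟩ := card_mod7 B' h2
  omega

lemma card_dvd_four (h : 9 ≤ B.card) (h' : B.card ≤ 11) :
    Nat.card (MulAction.stabilizer Aff B) ∣ 4 := by
  have h0 : Nat.card (MulAction.stabilizer Aff B) ∣ 4 * 203 := by
    have := Subgroup.card_subgroup_dvd_card (MulAction.stabilizer Aff B)
    rwa [natCard] at this
  have h29 : ¬ 29 ∣ Nat.card (MulAction.stabilizer Aff B) := by
    intro hd
    obtain ⟨x, hx⟩ := exists_prime_orderOf_dvd_card' 29 hd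
    have hxg : (x : Aff) • B = B := x.2
    have hx1 : x ^ 29 = 1 := orderOf_dvd_iff_pow_eq_one.1 (dvd_of_eq hx)
    have hx2 : ((x : Aff)) ^ 29 = 1 := by
      have := congrArg (fun y : MulAction.stabilizer Aff B => (y : Aff)) hx1
      simpa using this
    have hx3 : (x : Aff).a ^ 29 = 1 := by rw [← pow_a, hx2, one_a]
    have hx4 : (x : Aff).a ^ 28 = 1 := ZMod.units_pow_card_sub_one_eq_one 29 _
    have hx5 : (x : Aff).a = 1 := by
      rw [pow_succ, hx4, one_mul] at hx3
      exact hx3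
    have hx6 := eq_one_of_translation (by omega) (by omega) hxg hx5
    have hx7 : x = 1 := Subtype.ext hx6
    rw [hx7, orderOf_one] at hx
    omega
  have h7 : ¬ 7 ∣ Nat.card (MulAction.stabilizer Aff B) := by
    intro hd
    obtain ⟨x, hx⟩ := exists_prime_orderOf_dvd_card' 7 hd
    have hxg : (x : Aff) • B = B := x.2
    have hx1 : x ^ 7 = 1 := orderOf_dvd_iff_pow_eq_one.1 (dvd_of_eq hx)
    have hx2 : ((x : Aff)) ^ 7 = 1 := by
      have := congrArg (fun y : MulAction.stabilizer Aff B => (y : Aff)) hx1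
      simpa using this
    have hx3 : (x : Aff).a ^ 7 = 1 := by rw [← pow_a, hx2, one_a]
    have hne : (x : Aff) ≠ 1 := by
      intro h1
      have hx7 : x = 1 := Subtype.ext h1
      rw [hx7, orderOf_one] at hx
      omega
    have hx4 := ne_one_of h h' hxg hne
    have hx5 : ((x : Aff).a : ZMod 29) ^ 7 = 1 := by
      rw [← Units.val_pow_eq_pow_val, hx3, Units.val_one]
    have key : ∀ a : ZMod 29, a ^ 7 = 1 → a ≠ 1 → ∃ j ∈ range 7, a ^ j = 16 := by decide
    obtain ⟨j, -, hj⟩ := key _ hx5 hx4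
    have hy : ((x : Aff) ^ j) • B = B := (x ^ j).2
    refine no_sixteen h h' hy ?_
    rw [pow_a, Units.val_pow_eq_pow_val, hj]
  have hc : Nat.Coprime (Nat.card (MulAction.stabilizer Aff B)) 203 := by
    have c7 : Nat.Coprime (Nat.card (MulAction.stabilizer Aff B)) 7 :=
      ((Nat.Prime.coprime_iff_not_dvd (by norm_num)).2 h7).symm
    have c29 : Nat.Coprime (Nat.card (MulAction.stabilizer Aff B)) 29 :=
      ((Nat.Prime.coprime_iff_not_dvd (by norm_num)).2 h29).symm
    have := Nat.Coprime.mul_right c7 c29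
    exact this
  exact hc.dvd_of_dvd_mul_right h0

lemma card_cases (h : 9 ≤ B.card) (h' : B.card ≤ 11) :
    Nat.card (MulAction.stabilizer Aff B) = 1 ∨ Nat.card (MulAction.stabilizer Aff B) = 2 ∨
      Nat.card (MulAction.stabilizer Aff B) = 4 := by
  have h1 := card_dvd_four h h'
  have h2 := Nat.le_of_dvd (by norm_num) h1
  have h3 : 0 < Nat.card (MulAction.stabilizer Aff B) := Nat.card_pos
  obtain ⟨c, hc⟩ : ∃ c, c = Nat.card (MulAction.stabilizer Aff B) := ⟨_, rfl⟩
  rw [← hc] at h1 h2 h3 ⊢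
  interval_cases c <;> omega

lemma exists_twelve (h : 9 ≤ B.card) (h' : B.card ≤ 11)
    (h4 : Nat.card (MulAction.stabilizer Aff B) = 4) :
    ∃ g : Aff, g • B = B ∧ (g.a : ZMod 29) = 12 := by
  classical
  have : Fintype (MulAction.stabilizer Aff B) := Fintype.ofFinite _
  obtain ⟨φ, hφ⟩ : ∃ φ : MulAction.stabilizer Aff B → ZMod 29,
      φ = fun g => (g.1.a : ZMod 29) := ⟨_, rfl⟩
  have hinj : Function.Injective φ := by
    intro g1 g2 he
    rw [hφ] at he
    have he' : (g1 : Aff).a = (g2 : Aff).a := Units.ext he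
    have h1 : ((g1⁻¹ * g2 : MulAction.stabilizer Aff B) : Aff) = 1 := by
      refine eq_one_of_translation (B := B) (by omega) (by omega) (g1⁻¹ * g2).2 ?_
      change ((g1 : Aff)⁻¹ * (g2 : Aff)).a = 1
      rw [mul_a, inv_a, he', inv_mul_cancel]
    have h2 : g1⁻¹ * g2 = 1 := Subtype.ext h1
    exact (inv_mul_eq_one.1 h2)
  have hsub : univ.image φ ⊆ (univ : Finset (ZMod 29)).filter (fun x => x ^ 4 = 1) := by
    intro x hx
    obtain ⟨g, -, rfl⟩ := mem_image.1 hx
    rw [mem_filter]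
    refine ⟨mem_univ _, ?_⟩
    have h1 : g ^ 4 = 1 := by rw [← h4]; exact pow_card_eq_one'
    have h2 : ((g : Aff)) ^ 4 = 1 := by
      have := congrArg (fun y : MulAction.stabilizer Aff B => (y : Aff)) h1
      simpa using this
    rw [hφ]
    simp only
    rw [← Units.val_pow_eq_pow_val, ← pow_a, h2, one_a, Units.val_one]
  have hcard : (univ.image φ).card = 4 := by
    rw [card_image_of_injective _ hinj, card_univ, ← Nat.card_eq_fintype_card, h4]
  have heq := eq_of_subset_of_card_le hsub (by rw [hcard]; decide)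
  have h12 : (12 : ZMod 29) ∈ univ.image φ := by
    rw [heq]
    decide
  obtain ⟨g, -, hg⟩ := mem_image.1 h12
  rw [hφ] at hg
  exact ⟨g, g.2, hg⟩

lemma card_ne_four (h : 10 ≤ B.card) (h' : B.card ≤ 11) :
    Nat.card (MulAction.stabilizer Aff B) ≠ 4 := by
  intro h4
  obtain ⟨g, hg, ha⟩ := exists_twelve (by omega) h' h4
  obtain ⟨B', h1, h2⟩ := exists_centred hg (by rw [ha]; decide)
  rw [ha] at h2
  obtain ⟨s, t, h3, h4⟩ := card_mod4 B' h2
  omega

/-- multiplication by 12 -/
def g12 : Aff := ⟨⟨12, 17, by decide, by decide⟩, 0⟩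

/-- multiplication by -1 -/
def gm1 : Aff := ⟨⟨28, 28, by decide, by decide⟩, 0⟩

lemma orderOf_gm1 : orderOf gm1 = 2 := by
  refine orderOf_eq_prime (Aff.ext ?_ ?_) ?_
  · rw [pow_a]
    exact Units.ext (by decide)
  · rw [pow_two, mul_b, one_b]
    decide
  · intro h
    have := congrArg (fun g : Aff => (g.a : ZMod 29)) h
    revert this
    simp only [one_a]
    decide

lemma orderOf_g12 : orderOf g12 = 4 := by
  have h2 : g12 ^ 2 = gm1 := by
    rw [pow_two]
    refine Aff.ext ?_ ?_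
    · rw [mul_a]
      exact Units.ext (by decide)
    · rw [mul_b]
      decide
  have h3 : orderOf g12 = 2 ^ (1 + 1) := by
    refine orderOf_eq_prime_pow ?_ ?_
    · rw [pow_one, h2]
      intro h
      have := orderOf_gm1
      rw [h, orderOf_one] at this
      omega
    · rw [show (2 : ℕ) ^ (1 + 1) = 2 * 2 by norm_num, pow_mul, h2]
      have := pow_orderOf_eq_one gm1
      rwa [orderOf_gm1] at this
  rw [h3]
  norm_num

lemma card_eq_four (h : 9 ≤ B.card) (h' : B.card ≤ 11) (hg : g12 • B = B) :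
    Nat.card (MulAction.stabilizer Aff B) = 4 := by
  have h1 : orderOf g12 ∣ Nat.card (MulAction.stabilizer Aff B) :=
    Subgroup.orderOf_dvd_natCard _ hg
  rw [orderOf_g12] at h1
  exact Nat.dvd_antisymm (card_dvd_four h h') h1

lemma card_eq_two (h : 9 ≤ B.card) (h' : B.card ≤ 11) (hg : gm1 • B = B)
    (hg' : g12 • B ≠ B) : Nat.card (MulAction.stabilizer Aff B) = 2 := by
  have h1 : orderOf gm1 ∣ Nat.card (MulAction.stabilizer Aff B) :=
    Subgroup.orderOf_dvd_natCard _ hg
  rw [orderOf_gm1] at h1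
  rcases card_cases h h' with h2 | h2 | h2
  · rw [h2] at h1
    omega
  · exact h2
  · exfalso
    obtain ⟨g, hg1, ha⟩ := exists_twelve h h' h2
    have h3 : (g ^ 2 * gm1⁻¹) • B = B := by
      have e1 : gm1⁻¹ • B = B := by
        rw [inv_smul_eq_iff]
        exact hg.symm
      rw [mul_smul, e1, pow_two, mul_smul, hg1, hg1]
    have h4 : (g ^ 2 * gm1⁻¹).a = 1 := by
      rw [mul_a, inv_a, pow_a]
      refine Units.ext ?_
      rw [Units.val_mul, Units.val_pow_eq_pow_val, ha]
      decide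
    have h5 := eq_one_of_translation (by omega) (by omega) h3 h4
    have h6 : g ^ 2 = gm1 := mul_inv_eq_one.1 h5
    have h7 : (g ^ 2).b = gm1.b := by rw [h6]
    rw [pow_two, mul_b, ha] at h7
    have h8 : (12 : ZMod 29) * g.b + g.b = 0 := h7
    have key : ∀ b : ZMod 29, 12 * b + b = 0 → b = 0 := by decide
    have h9 : g = g12 := by
      refine Aff.ext (Units.ext ha) (key _ h8)
    rw [h9] at hg1
    exact hg' hg1

end stabiliser

/-! ### An invariant -/

/-- the invariant -/
def inv3 (B : Finset (ZMod 29)) : ℕ := ((B ×ˢ B).filter (fun q => 3 * q.2 - 2 * q.1 ∈ B)).card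

lemma inv3_smul (g : Aff) (B : Finset (ZMod 29)) : inv3 (g • B) = inv3 B := by
  have hmem : ∀ (g : Aff) (B : Finset (ZMod 29)) (x : ZMod 29), x ∈ B → g • x ∈ g • B :=
    fun g B x hx => smul_mem_smul_finset hx
  have hlin : ∀ (g : Aff) (x y : ZMod 29), 3 * (g • y) - 2 * (g • x) = g • (3 * y - 2 * x) := by
    intro g x y
    simp only [smul_def]
    ring
  unfold inv3
  refine card_nbij' (fun q => (g⁻¹ • q.1, g⁻¹ • q.2)) (fun q => (g • q.1, g • q.2)) ?_ ?_ ?_ ?_
  · intro q hq
    simp only [coe_filter, mem_product, Set.mem_ofPred_eq] at hq ⊢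
    rw [hlin]
    refine ⟨⟨?_, ?_⟩, ?_⟩
    · have := hmem g⁻¹ _ _ hq.1.1
      rwa [inv_smul_smul] at this
    · have := hmem g⁻¹ _ _ hq.1.2
      rwa [inv_smul_smul] at this
    · have := hmem g⁻¹ _ _ hq.2
      rwa [inv_smul_smul] at this
  · intro q hq
    simp only [coe_filter, mem_product, Set.mem_ofPred_eq] at hq ⊢
    rw [hlin]
    exact ⟨⟨hmem g _ _ hq.1.1, hmem g _ _ hq.1.2⟩, hmem g _ _ hq.2⟩
  · intro q _
    simp
  · intro q _
    simp

lemma inv3_orbit {B B' : Finset (ZMod 29)} (h : B ∈ MulAction.orbit Aff B') :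
    inv3 B = inv3 B' := by
  obtain ⟨g, rfl⟩ := h
  exact inv3_smul g B'

end Aff

open Aff

/-- three sets with nine points and stabiliser of order four -/
def S9 : Fin 3 → Finset (ZMod 29)
  | 0 => {0, 1, 12, 17, 28, 2, 5, 24, 27}
  | 1 => {0, 1, 12, 17, 28, 4, 10, 19, 25}
  | 2 => {0, 1, 12, 17, 28, 8, 9, 20, 21}

/-- two sets with nine points and stabiliser of order two -/
def T9 : Fin 2 → Finset (ZMod 29)
  | 0 => {0, 1, 28, 2, 27, 3, 26, 4, 25}
  | 1 => {0, 1, 28, 2, 27, 3, 26, 6, 23}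

/-- three sets with ten points and stabiliser of order two -/
def S10 : Fin 3 → Finset (ZMod 29)
  | 0 => {1, 28, 2, 27, 3, 26, 4, 25, 5, 24}
  | 1 => {1, 28, 2, 27, 3, 26, 4, 25, 6, 23}
  | 2 => {1, 28, 2, 27, 3, 26, 4, 25, 8, 21}

/-- three sets with eleven points and stabiliser of order two -/
def S11 : Fin 3 → Finset (ZMod 29)
  | 0 => {0, 1, 28, 2, 27, 3, 26, 4, 25, 5, 24}
  | 1 => {0, 1, 28, 2, 27, 3, 26, 4, 25, 6, 23}
  | 2 => {0, 1, 28, 2, 27, 3, 26, 4, 25, 8, 21}

lemma S9_card : ∀ i, (S9 i).card = 9 := by decide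

lemma S9_fix : ∀ i, g12 • S9 i = S9 i := by decide

lemma S9_inv : ∀ i j, inv3 (S9 i) = inv3 (S9 j) → i = j := by decide

lemma T9_card : ∀ i, (T9 i).card = 9 := by decide

lemma T9_fix : ∀ i, gm1 • T9 i = T9 i := by decide

lemma T9_nfix : ∀ i, g12 • T9 i ≠ T9 i := by decide

lemma T9_inv : ∀ i j, inv3 (T9 i) = inv3 (T9 j) → i = j := by decide

lemma S10_card : ∀ i, (S10 i).card = 10 := by decide

lemma S10_fix : ∀ i, gm1 • S10 i = S10 i := by decide

lemma S10_nfix : ∀ i, g12 • S10 i ≠ S10 i := by decide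

lemma S10_inv : ∀ i j, inv3 (S10 i) = inv3 (S10 j) → i = j := by decide

lemma S11_card : ∀ i, (S11 i).card = 11 := by decide

lemma S11_fix : ∀ i, gm1 • S11 i = S11 i := by decide

lemma S11_nfix : ∀ i, g12 • S11 i ≠ S11 i := by decide

lemma S11_inv : ∀ i j, inv3 (S11 i) = inv3 (S11 j) → i = j := by decide

theorem good29_9 : Good 3 (powersetCard 9 (univ : Finset (ZMod 29))) := by
  refine good_of_orbits (Γ := Aff) (u := 203) (m := 16445) (by norm_num)
    (fun T T' h1 h2 => trans2 T T' h1 h2) ?_ ⟨S9, S9_card, ?_, ?_⟩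
    (Or.inr ⟨T9, T9_card, ?_, ?_⟩) ?_
  · intro B hB
    rw [natCard]
    rcases card_cases (B := B) (by omega) (by omega) with h | h | h <;> rw [h] <;> norm_num
  · intro i
    rw [natCard, card_eq_four (by rw [S9_card]) (by rw [S9_card]; norm_num) (S9_fix i)]
  · intro i j h
    exact S9_inv i j (inv3_orbit h)
  · intro i
    rw [natCard, card_eq_two (by rw [T9_card]) (by rw [T9_card]; norm_num) (T9_fix i)
      (T9_nfix i)]
  · intro i j h
    exact T9_inv i j (inv3_orbit h)
  · rw [ZMod.card]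
    norm_num [Nat.choose_eq_factorial_div_factorial, Nat.factorial]

theorem good29_10 : Good 3 (powersetCard 10 (univ : Finset (ZMod 29))) := by
  refine good_of_orbits (Γ := Aff) (u := 406) (m := 16445) (by norm_num)
    (fun T T' h1 h2 => trans2 T T' h1 h2) ?_ ⟨S10, S10_card, ?_, ?_⟩ (Or.inl ?_) ?_
  · intro B hB
    rw [natCard]
    have h4 := card_ne_four (B := B) (by omega) (by omega)
    rcases card_cases (B := B) (by omega) (by omega) with h | h | h
    · rw [h]; norm_num
    · rw [h]; norm_num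
    · exact absurd h h4
  · intro i
    rw [natCard, card_eq_two (by rw [S10_card]; norm_num) (by rw [S10_card]; norm_num) (S10_fix i)
      (S10_nfix i)]
  · intro i j h
    exact S10_inv i j (inv3_orbit h)
  · intro B _ h
    rw [natCard] at h
    have : 0 < Nat.card (MulAction.stabilizer Aff B) := Nat.card_pos
    omega
  · rw [ZMod.card]
    norm_num [Nat.choose_eq_factorial_div_factorial, Nat.factorial]

theorem good29_11 : Good 3 (powersetCard 11 (univ : Finset (ZMod 29))) := by
  refine good_of_orbits (Γ := Aff) (u := 406) (m := 28405) (by norm_num)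
    (fun T T' h1 h2 => trans2 T T' h1 h2) ?_ ⟨S11, S11_card, ?_, ?_⟩ (Or.inl ?_) ?_
  · intro B hB
    rw [natCard]
    have h4 := card_ne_four (B := B) (by omega) (by omega)
    rcases card_cases (B := B) (by omega) (by omega) with h | h | h
    · rw [h]; norm_num
    · rw [h]; norm_num
    · exact absurd h h4
  · intro i
    rw [natCard, card_eq_two (by rw [S11_card]; norm_num) (by rw [S11_card]) (S11_fix i)
      (S11_nfix i)]
  · intro i j h
    exact S11_inv i j (inv3_orbit h)
  · intro B _ h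
    rw [natCard] at h
    have : 0 < Nat.card (MulAction.stabilizer Aff B) := Nat.card_pos
    omega
  · rw [ZMod.card]
    norm_num [Nat.choose_eq_factorial_div_factorial, Nat.factorial]

theorem base29 (k : ℕ) (h1 : 9 ≤ k) (h2 : k ≤ 11) : G 3 k 29 := by
  have h3 : (univ : Finset (ZMod 29)).card = 29 := by rw [card_univ, ZMod.card]
  rw [← h3, ← good_powersetCard_iff]
  interval_cases k
  · exact good29_9
  · exact good29_10
  · exact good29_11

end Pool.Agent.LS3
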