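import Pool.Agent.Lib.MP_2c0b9b_co.Defs

/-!
# Calculus of good families, part 1
-/

set_option autoImplicit false

open Finset

namespace Pool.Agent.LS3

section
variable {α : Type*} [DecidableEq α]

theorem Good.mono {r r' : ℕ} (h : r' ≤ r) {F : Finset (Finset α)} (hF : Good r F) :
    Good r' F := by
  obtain ⟨χ, hχ⟩ := hF
  exact ⟨χ, fun T hT i => hχ T (lt_of_lt_of_le hT h) i⟩

theorem good_zero (F : Finset (Finset α)) : Good 0 F :=
  ⟨fun _ => 0, fun _ hT => absurd hT (Nat.not_lt_zero _)⟩

theorem good_empty (r : ℕ) : Good r (∅ : Finset (Finset α)) :=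
  ⟨fun _ => 0, fun T _ i => by simp⟩

/-- A family is good if all the fibres of some classification map are good. -/
theorem good_fiber {β : Type*} [DecidableEq β] (r : ℕ) (F : Finset (Finset α))
    (idx : Finset α → β) (h : ∀ b, Good r (F.filter (fun B => idx B = b))) : Good r F := by
  choose χ hχ using h
  refine ⟨fun B => χ (idx B) B, fun T hT i => ?_⟩
  have h1 : (F.filter (fun B => T ⊆ B ∧ χ (idx B) B = i)).card
      = ∑ b ∈ F.image idx, ((F.filter (fun B => idx B = b)).filter
        (fun B => T ⊆ B ∧ χ b B = i)).card := by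
    rw [Finset.card_eq_sum_card_fiberwise (f := idx) (t := F.image idx)]
    · refine Finset.sum_congr rfl (fun b _ => ?_)
      congr 1
      ext B
      simp only [Finset.mem_filter]
      constructor
      · rintro ⟨⟨hB, hT, hi⟩, rfl⟩
        exact ⟨⟨hB, rfl⟩, hT, hi⟩
      · rintro ⟨⟨hB, rfl⟩, hT, hi⟩
        exact ⟨⟨hB, hT, hi⟩, rfl⟩
    · intro B hB
      exact Finset.mem_coe.mpr (Finset.mem_image_of_mem idx
        (Finset.mem_filter.mp (Finset.mem_coe.mp hB)).1)
  have h2 : (F.filter (fun B => T ⊆ B)).card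
      = ∑ b ∈ F.image idx, ((F.filter (fun B => idx B = b)).filter (fun B => T ⊆ B)).card := by
    rw [Finset.card_eq_sum_card_fiberwise (f := idx) (t := F.image idx)]
    · refine Finset.sum_congr rfl (fun b _ => ?_)
      congr 1
      ext B
      simp only [Finset.mem_filter]
      tauto
    · intro B hB
      exact Finset.mem_coe.mpr (Finset.mem_image_of_mem idx
        (Finset.mem_filter.mp (Finset.mem_coe.mp hB)).1)
  rw [h1, h2, Finset.mul_sum]
  exact Finset.sum_congr rfl (fun b _ => hχ b T hT i)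

private theorem calc1_count {β γ : Type*} (F₁ : Finset β) (F₂ : Finset γ)
    (p : β → Prop) (q : γ → Prop) [DecidablePred p] [DecidablePred q]
    (χ₁ : β → ZMod 3) (χ₂ : γ → ZMod 3) (i : ZMod 3)
    (h : ∀ j, 3 * (F₁.filter (fun x => p x ∧ χ₁ x = j)).card = (F₁.filter p).card) :
    3 * ((F₁ ×ˢ F₂).filter (fun z => (p z.1 ∧ q z.2) ∧ χ₁ z.1 + χ₂ z.2 = i)).card
      = ((F₁ ×ˢ F₂).filter (fun z => p z.1 ∧ q z.2)).card := by
  rw [Finset.card_filter, Finset.card_filter, Finset.sum_product_right, Finset.sum_product_right,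
    Finset.mul_sum]
  refine Finset.sum_congr rfl (fun y _ => ?_)
  by_cases hq : q y
  · have h1 := h (i - χ₂ y)
    rw [Finset.card_filter, Finset.card_filter] at h1
    calc 3 * ∑ x ∈ F₁, (if (p x ∧ q y) ∧ χ₁ x + χ₂ y = i then 1 else 0)
        = 3 * ∑ x ∈ F₁, (if p x ∧ χ₁ x = i - χ₂ y then 1 else 0) := by
          congr 1
          refine Finset.sum_congr rfl (fun x _ => ?_)
          refine if_congr ?_ rfl rfl
          rw [eq_sub_iff_add_eq]
          tauto
      _ = ∑ x ∈ F₁, (if p x then 1 else 0) := h1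
      _ = ∑ x ∈ F₁, (if p x ∧ q y then 1 else 0) := by
          refine Finset.sum_congr rfl (fun x _ => ?_)
          refine if_congr ?_ rfl rfl
          tauto
  · rw [Finset.sum_eq_zero, Finset.sum_eq_zero]
    · rfl
    · intro x _
      exact if_neg (fun h => hq h.2)
    · intro x _
      exact if_neg (fun h => hq h.1.2)

private theorem calc1_count' {β γ : Type*} (F₁ : Finset β) (F₂ : Finset γ)
    (p : β → Prop) (q : γ → Prop) [DecidablePred p] [DecidablePred q]
    (χ₁ : β → ZMod 3) (χ₂ : γ → ZMod 3) (i : ZMod 3)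
    (h : ∀ j, 3 * (F₂.filter (fun x => q x ∧ χ₂ x = j)).card = (F₂.filter q).card) :
    3 * ((F₁ ×ˢ F₂).filter (fun z => (p z.1 ∧ q z.2) ∧ χ₁ z.1 + χ₂ z.2 = i)).card
      = ((F₁ ×ˢ F₂).filter (fun z => p z.1 ∧ q z.2)).card := by
  rw [Finset.card_filter, Finset.card_filter, Finset.sum_product, Finset.sum_product,
    Finset.mul_sum]
  refine Finset.sum_congr rfl (fun y _ => ?_)
  by_cases hp : p y
  · have h1 := h (i - χ₁ y)
    rw [Finset.card_filter, Finset.card_filter] at h1
    calc 3 * ∑ x ∈ F₂, (if (p y ∧ q x) ∧ χ₁ y + χ₂ x = i then 1 else 0)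
        = 3 * ∑ x ∈ F₂, (if q x ∧ χ₂ x = i - χ₁ y then 1 else 0) := by
          congr 1
          refine Finset.sum_congr rfl (fun x _ => ?_)
          refine if_congr ?_ rfl rfl
          rw [eq_sub_iff_add_eq, add_comm (χ₂ x)]
          tauto
      _ = ∑ x ∈ F₂, (if q x then 1 else 0) := h1
      _ = ∑ x ∈ F₂, (if p y ∧ q x then 1 else 0) := by
          refine Finset.sum_congr rfl (fun x _ => ?_)
          refine if_congr ?_ rfl rfl
          tauto
  · rw [Finset.sum_eq_zero, Finset.sum_eq_zero]
    · rfl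
    · intro x _
      exact if_neg (fun h => hp h.1)
    · intro x _
      exact if_neg (fun h => hp h.1.1)

/-- Product of good families on disjoint ground sets. -/
theorem good_prod {r₁ r₂ : ℕ} (A C : Finset α) (hAC : Disjoint A C)
    (F₁ F₂ : Finset (Finset α)) (h₁ : ∀ B ∈ F₁, B ⊆ A) (h₂ : ∀ B ∈ F₂, B ⊆ C)
    (g₁ : Good r₁ F₁) (g₂ : Good r₂ F₂) :
    Good (r₁ + r₂) ((F₁ ×ˢ F₂).image (fun p => p.1 ∪ p.2)) := by
  obtain ⟨χ₁, hχ₁⟩ := g₁
  obtain ⟨χ₂, hχ₂⟩ := g₂
  have hA : ∀ p ∈ F₁ ×ˢ F₂, (p.1 ∪ p.2) ∩ A = p.1 := by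
    intro p hp
    obtain ⟨hp1, hp2⟩ := Finset.mem_product.mp hp
    rw [Finset.union_inter_distrib_right, Finset.inter_eq_left.mpr (h₁ _ hp1),
      (Finset.disjoint_iff_inter_eq_empty.mp (Finset.disjoint_of_subset_left (h₂ _ hp2) hAC.symm)),
      Finset.union_empty]
  have hC : ∀ p ∈ F₁ ×ˢ F₂, (p.1 ∪ p.2) ∩ C = p.2 := by
    intro p hp
    obtain ⟨hp1, hp2⟩ := Finset.mem_product.mp hp
    rw [Finset.union_inter_distrib_right, Finset.inter_eq_left.mpr (h₂ _ hp2),
      (Finset.disjoint_iff_inter_eq_empty.mp (Finset.disjoint_of_subset_left (h₁ _ hp1) hAC)),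
      Finset.empty_union]
  have hinj : Set.InjOn (fun p : Finset α × Finset α => p.1 ∪ p.2)
      ((F₁ ×ˢ F₂ : Finset (Finset α × Finset α)) : Set (Finset α × Finset α)) := by
    intro p hp q hq hpq
    have hpq' : p.1 ∪ p.2 = q.1 ∪ q.2 := hpq
    refine Prod.ext ?_ ?_
    · rw [← hA p (Finset.mem_coe.mp hp), ← hA q (Finset.mem_coe.mp hq), hpq']
    · rw [← hC p (Finset.mem_coe.mp hp), ← hC q (Finset.mem_coe.mp hq), hpq']
  refine ⟨fun B => χ₁ (B ∩ A) + χ₂ (B ∩ C), fun T hT i => ?_⟩
  rw [Finset.filter_image, Finset.filter_image,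
    Finset.card_image_of_injOn (hinj.mono (Finset.coe_subset.mpr (Finset.filter_subset _ _))),
    Finset.card_image_of_injOn (hinj.mono (Finset.coe_subset.mpr (Finset.filter_subset _ _)))]
  by_cases hTAC : T ⊆ A ∪ C
  · have hsub : ∀ p ∈ F₁ ×ˢ F₂, (T ⊆ p.1 ∪ p.2 ↔ (T ∩ A ⊆ p.1 ∧ T ∩ C ⊆ p.2)) := by
      intro p hp
      constructor
      · intro h
        constructor
        · rw [← hA p hp]
          exact Finset.inter_subset_inter_right h
        · rw [← hC p hp]
          exact Finset.inter_subset_inter_right h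
      · rintro ⟨ha, hc⟩ x hx
        rcases Finset.mem_union.mp (hTAC hx) with h | h
        · exact Finset.mem_union_left _ (ha (Finset.mem_inter.mpr ⟨hx, h⟩))
        · exact Finset.mem_union_right _ (hc (Finset.mem_inter.mpr ⟨hx, h⟩))
    have e1 : (F₁ ×ˢ F₂).filter (fun p => T ⊆ p.1 ∪ p.2 ∧
        χ₁ ((p.1 ∪ p.2) ∩ A) + χ₂ ((p.1 ∪ p.2) ∩ C) = i)
        = (F₁ ×ˢ F₂).filter (fun z => (T ∩ A ⊆ z.1 ∧ T ∩ C ⊆ z.2) ∧ χ₁ z.1 + χ₂ z.2 = i) := by
      refine Finset.filter_congr (fun p hp => ?_)
      rw [hsub p hp, hA p hp, hC p hp]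
    have e2 : (F₁ ×ˢ F₂).filter (fun p => T ⊆ p.1 ∪ p.2)
        = (F₁ ×ˢ F₂).filter (fun z => T ∩ A ⊆ z.1 ∧ T ∩ C ⊆ z.2) :=
      Finset.filter_congr (fun p hp => hsub p hp)
    rw [e1, e2]
    have hcard : (T ∩ A).card + (T ∩ C).card = T.card := by
      rw [← Finset.card_union_of_disjoint, ← Finset.inter_union_distrib_left,
        Finset.inter_eq_left.mpr hTAC]
      exact Finset.disjoint_of_subset_left Finset.inter_subset_right
        (Finset.disjoint_of_subset_right Finset.inter_subset_right hAC)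
    rcases (by omega : (T ∩ A).card < r₁ ∨ (T ∩ C).card < r₂) with h | h
    · exact calc1_count F₁ F₂ (fun x => T ∩ A ⊆ x) (fun y => T ∩ C ⊆ y) χ₁ χ₂ i
        (fun j => hχ₁ (T ∩ A) h j)
    · exact calc1_count' F₁ F₂ (fun x => T ∩ A ⊆ x) (fun y => T ∩ C ⊆ y) χ₁ χ₂ i
        (fun j => hχ₂ (T ∩ C) h j)
  · have hno : ∀ p ∈ F₁ ×ˢ F₂, ¬ T ⊆ p.1 ∪ p.2 := by
      intro p hp h
      obtain ⟨hp1, hp2⟩ := Finset.mem_product.mp hp
      exact hTAC (h.trans (Finset.union_subset_union (h₁ _ hp1) (h₂ _ hp2)))
    rw [Finset.filter_false_of_mem (fun p hp h => hno p hp h.1),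
      Finset.filter_false_of_mem (fun p hp h => hno p hp h)]
    rfl

theorem good_insert {r : ℕ} (a : α) (F : Finset (Finset α)) (ha : ∀ B ∈ F, a ∉ B)
    (h : Good r F) : Good r (F.image (fun B => insert a B)) := by
  obtain ⟨χ, hχ⟩ := h
  have hinj : Set.InjOn (fun B : Finset α => insert a B) (F : Set (Finset α)) := by
    intro B hB B' hB' h
    have h' : insert a B = insert a B' := h
    rw [← Finset.erase_insert (ha B (Finset.mem_coe.mp hB)),
      ← Finset.erase_insert (ha B' (Finset.mem_coe.mp hB')), h']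
  refine ⟨fun B => χ (B.erase a), fun T hT i => ?_⟩
  rw [Finset.filter_image, Finset.filter_image,
    Finset.card_image_of_injOn (hinj.mono (Finset.coe_subset.mpr (Finset.filter_subset _ _))),
    Finset.card_image_of_injOn (hinj.mono (Finset.coe_subset.mpr (Finset.filter_subset _ _)))]
  have hTa : (T.erase a).card < r := lt_of_le_of_lt (Finset.card_erase_le) hT
  have := hχ (T.erase a) hTa i
  have e1 : F.filter (fun B => T ⊆ insert a B ∧ χ ((insert a B).erase a) = i)
      = F.filter (fun B => T.erase a ⊆ B ∧ χ B = i) := by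
    refine Finset.filter_congr (fun B hB => ?_)
    rw [Finset.subset_insert_iff, Finset.erase_insert (ha B hB)]
  have e2 : F.filter (fun B => T ⊆ insert a B) = F.filter (fun B => T.erase a ⊆ B) := by
    refine Finset.filter_congr (fun B hB => ?_)
    rw [Finset.subset_insert_iff]
  rw [e1, e2]
  exact this

omit [DecidableEq α] in
private theorem calc1_map_inj {β : Type*} [DecidableEq β] (e : α ↪ β) :
    Function.Injective (fun B : Finset α => B.map e) := fun _ _ h => Finset.map_injective e h

theorem good_image {β : Type*} [DecidableEq β] (e : α ↪ β) (r : ℕ) (F : Finset (Finset α))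
    (h : Good r F) : Good r (F.image (fun B => B.map e)) := by
  obtain ⟨χ, hχ⟩ := h
  refine ⟨fun B => χ (B.preimage e e.injective.injOn), fun T hT i => ?_⟩
  rw [Finset.filter_image, Finset.filter_image,
    Finset.card_image_of_injective _ (calc1_map_inj e),
    Finset.card_image_of_injective _ (calc1_map_inj e)]
  by_cases hu : ∃ u : Finset α, T = u.map e
  · obtain ⟨u, rfl⟩ := hu
    rw [Finset.card_map] at hT
    have := hχ u hT i
    have e1 : F.filter (fun B => u.map e ⊆ B.map e ∧
        χ ((B.map e).preimage e e.injective.injOn) = i) = F.filter (fun B => u ⊆ B ∧ χ B = i) := by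
      refine Finset.filter_congr (fun B hB => ?_)
      rw [Finset.map_subset_map, Finset.preimage_map]
    have e2 : F.filter (fun B => u.map e ⊆ B.map e) = F.filter (fun B => u ⊆ B) := by
      refine Finset.filter_congr (fun B hB => ?_)
      rw [Finset.map_subset_map]
    rw [e1, e2]
    exact this
  · have hno : ∀ B ∈ F, ¬ T ⊆ B.map e := by
      intro B _ h
      obtain ⟨u, -, hu'⟩ := Finset.subset_map_iff.mp h
      exact hu ⟨u, hu'⟩
    rw [Finset.filter_false_of_mem (fun B hB h => hno B hB h.1),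
      Finset.filter_false_of_mem (fun B hB h => hno B hB h)]
    rfl

private theorem calc1_of_image {β : Type*} [DecidableEq β] (e : α ↪ β) (r : ℕ)
    (F : Finset (Finset α)) (h : Good r (F.image (fun B => B.map e))) : Good r F := by
  obtain ⟨χ, hχ⟩ := h
  refine ⟨fun B => χ (B.map e), fun T hT i => ?_⟩
  have := hχ (T.map e) (by rwa [Finset.card_map]) i
  rw [Finset.filter_image, Finset.filter_image,
    Finset.card_image_of_injective _ (calc1_map_inj e),
    Finset.card_image_of_injective _ (calc1_map_inj e)] at this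
  have e1 : F.filter (fun B => T.map e ⊆ B.map e ∧ χ (B.map e) = i)
      = F.filter (fun B => T ⊆ B ∧ χ (B.map e) = i) := by
    refine Finset.filter_congr (fun B hB => ?_)
    rw [Finset.map_subset_map]
  have e2 : F.filter (fun B => T.map e ⊆ B.map e) = F.filter (fun B => T ⊆ B) := by
    refine Finset.filter_congr (fun B hB => ?_)
    rw [Finset.map_subset_map]
  rw [e1, e2] at this
  exact this

private theorem calc1_map_iff {β : Type*} [DecidableEq β] (e : α ↪ β) (r k : ℕ) (A : Finset α) :
    Good r (powersetCard k (A.map e)) ↔ Good r (powersetCard k A) := by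
  have h : powersetCard k (A.map e) = (powersetCard k A).image (fun B => B.map e) := by
    rw [Finset.powersetCard_map, Finset.map_eq_image]
    rfl
  rw [h]
  exact ⟨calc1_of_image e r _, good_image e r _⟩

theorem good_powersetCard_iff {r k : ℕ} (A : Finset α) :
    Good r (powersetCard k A) ↔ G r k A.card := by
  classical
  have h1 : (univ : Finset A).map (Function.Embedding.subtype (· ∈ A)) = A := by
    rw [Finset.univ_eq_attach]
    exact Finset.attach_map_val
  have h2 : (univ : Finset A).map A.equivFin.toEmbedding = univ := Finset.map_univ_equiv _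
  have h3 : (univ : Finset (Fin A.card)).map Fin.valEmbedding = range A.card := by
    ext x
    simp only [Finset.mem_map, Finset.mem_univ, true_and, Fin.valEmbedding_apply, Finset.mem_range]
    constructor
    · rintro ⟨y, rfl⟩
      exact y.isLt
    · intro hx
      exact ⟨⟨x, hx⟩, rfl⟩
  unfold G
  conv_lhs => rw [← h1]
  rw [calc1_map_iff, ← h3, calc1_map_iff, ← h2, calc1_map_iff]

end

theorem G_of_lt {r k v : ℕ} (h : v < k) : G r k v := by
  unfold G
  rw [Finset.powersetCard_eq_empty.mpr (by rwa [Finset.card_range])]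
  exact good_empty r

theorem G_add {r k v : ℕ} (h₁ : G r k v) (h₂ : G r (k + 1) v) : G r (k + 1) (v + 1) := by
  unfold G at *
  have hv : v ∉ range v := Finset.notMem_range_self
  have hnot : ∀ (j : ℕ), ∀ B ∈ powersetCard j (range v), v ∉ B :=
    fun j B hB h => hv ((Finset.mem_powersetCard.mp hB).1 h)
  rw [Finset.range_add_one, Finset.powersetCard_succ_insert hv]
  apply good_fiber r _ (fun B => decide (v ∈ B))
  intro b
  cases b with
  | true =>
    have e : (powersetCard (k + 1) (range v) ∪ (powersetCard k (range v)).image (insert v)).filter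
        (fun B => decide (v ∈ B) = true) = (powersetCard k (range v)).image (insert v) := by
      rw [Finset.filter_union, Finset.filter_false_of_mem, Finset.filter_true_of_mem,
        Finset.empty_union]
      · intro B hB
        obtain ⟨B', _, rfl⟩ := Finset.mem_image.mp hB
        simp
      · intro B hB
        simpa using hnot _ B hB
    rw [e]
    exact good_insert v _ (hnot k) h₁
  | false =>
    have e : (powersetCard (k + 1) (range v) ∪ (powersetCard k (range v)).image (insert v)).filter
        (fun B => decide (v ∈ B) = false) = powersetCard (k + 1) (range v) := by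
      rw [Finset.filter_union, Finset.filter_true_of_mem, Finset.filter_false_of_mem,
        Finset.union_empty]
      · intro B hB
        obtain ⟨B', _, rfl⟩ := Finset.mem_image.mp hB
        simp
      · intro B hB
        simpa using hnot _ B hB
    rw [e]
    exact h₂

end Pool.Agent.LS3
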