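import Pool.Agent.Lib.MP_2c0b9b_co.Defs

/-!
# Calculus of good families, part 2
-/

set_option autoImplicit false

open Finset

namespace Pool.Agent.LS3

/-! ### complement -/

theorem Calc2.bal_disj {α : Type*} [DecidableEq α] {r : ℕ} {F : Finset (Finset α)}
    {χ : Finset α → ZMod 3} (h : Bal r F χ) (i : ZMod 3) (T : Finset α) :
    ∀ R : Finset α, T.card + R.card < r →
      3 * (F.filter (fun B => (R ⊆ B ∧ Disjoint T B) ∧ χ B = i)).card =
        (F.filter (fun B => R ⊆ B ∧ Disjoint T B)).card := by
  induction T using Finset.induction_on with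
  | empty =>
    intro R hR
    have := h R (by simpa using hR) i
    simpa using this
  | insert x T hx ih =>
    intro R hR
    rw [card_insert_of_notMem hx] at hR
    have h1 := ih R (by omega)
    have h2 := ih (insert x R) (by
      have := card_insert_le x R
      omega)
    have e1 : (F.filter (fun B => R ⊆ B ∧ Disjoint T B)).card =
        (F.filter (fun B => insert x R ⊆ B ∧ Disjoint T B)).card +
        (F.filter (fun B => R ⊆ B ∧ Disjoint (insert x T) B)).card := by
      rw [← card_filter_add_card_filter_not (s := F.filter (fun B => R ⊆ B ∧ Disjoint T B))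
        (fun B => x ∈ B), filter_filter, filter_filter]
      congr 2
      · apply filter_congr
        intro B _
        rw [insert_subset_iff]
        tauto
      · apply filter_congr
        intro B _
        rw [disjoint_insert_left]
        tauto
    have e2 : (F.filter (fun B => (R ⊆ B ∧ Disjoint T B) ∧ χ B = i)).card =
        (F.filter (fun B => (insert x R ⊆ B ∧ Disjoint T B) ∧ χ B = i)).card +
        (F.filter (fun B => (R ⊆ B ∧ Disjoint (insert x T) B) ∧ χ B = i)).card := by
      rw [← card_filter_add_card_filter_not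
        (s := F.filter (fun B => (R ⊆ B ∧ Disjoint T B) ∧ χ B = i))
        (fun B => x ∈ B), filter_filter, filter_filter]
      congr 2
      · apply filter_congr
        intro B _
        rw [insert_subset_iff]
        tauto
      · apply filter_congr
        intro B _
        rw [disjoint_insert_left]
        tauto
    omega

theorem Calc2.card_compl {v k : ℕ} (hk : k ≤ v) {T : Finset ℕ} (hT : T ⊆ range v)
    (p : Finset ℕ → Prop) [DecidablePred p] :
    ((powersetCard (v - k) (range v)).filter (fun B => T ⊆ B ∧ p (range v \ B))).card =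
      ((powersetCard k (range v)).filter (fun B => ((∅ : Finset ℕ) ⊆ B ∧ Disjoint T B) ∧ p B)).card
      := by
  apply card_nbij' (fun B => range v \ B) (fun B => range v \ B)
  · intro B hB
    simp only [coe_filter, mem_powersetCard, Set.mem_ofPred_eq] at hB ⊢
    obtain ⟨⟨h1, h2⟩, h3, h4⟩ := hB
    refine ⟨⟨sdiff_subset, ?_⟩, ⟨empty_subset _, ?_⟩, h4⟩
    · rw [card_sdiff_of_subset h1, card_range, h2]
      omega
    · exact (disjoint_sdiff).mono_left h3
  · intro B hB
    simp only [coe_filter, mem_powersetCard, Set.mem_ofPred_eq] at hB ⊢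
    obtain ⟨⟨h1, h2⟩, ⟨_, h3⟩, h4⟩ := hB
    refine ⟨⟨sdiff_subset, ?_⟩, ?_, ?_⟩
    · rw [card_sdiff_of_subset h1, card_range, h2]
    · intro x hx
      rw [mem_sdiff]
      exact ⟨hT hx, disjoint_left.1 h3 hx⟩
    · rwa [Finset.sdiff_sdiff_eq_self h1]
  · intro B hB
    simp only [coe_filter, mem_powersetCard, Set.mem_ofPred_eq] at hB
    exact Finset.sdiff_sdiff_eq_self hB.1.1
  · intro B hB
    simp only [coe_filter, mem_powersetCard, Set.mem_ofPred_eq] at hB
    exact Finset.sdiff_sdiff_eq_self hB.1.1

theorem Calc2.filter_empty {v k : ℕ} {T : Finset ℕ} (hT : ¬ T ⊆ range v)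
    (p : Finset ℕ → Prop) [DecidablePred p] :
    (powersetCard k (range v)).filter (fun B => T ⊆ B ∧ p B) = ∅ := by
  rw [filter_eq_empty_iff]
  intro B hB h
  exact hT (h.1.trans (mem_powersetCard.1 hB).1)

theorem Calc2.filter_empty' {v k : ℕ} {T : Finset ℕ} (hT : ¬ T ⊆ range v) :
    (powersetCard k (range v)).filter (fun B => T ⊆ B) = ∅ := by
  rw [filter_eq_empty_iff]
  intro B hB h
  exact hT (h.trans (mem_powersetCard.1 hB).1)

theorem G_compl {r k v : ℕ} (hk : k ≤ v) (h : G r k v) : G r (v - k) v := by
  obtain ⟨χ, hχ⟩ := h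
  refine ⟨fun B => χ (range v \ B), fun T hT i => ?_⟩
  by_cases hTv : T ⊆ range v
  · have h1 := Calc2.card_compl hk hTv (fun B => χ B = i)
    have h2 := Calc2.card_compl hk hTv (fun _ => True)
    have h3 := Calc2.bal_disj hχ i T ∅ (by simpa using hT)
    simp only [and_true] at h2
    rw [h1, h2]
    exact h3
  · rw [Calc2.filter_empty hTv, Calc2.filter_empty' hTv]
    rfl

/-! ### derived and residual families -/

theorem Calc2.card_derived {v k : ℕ} {T : Finset ℕ} (hT : v ∉ T)
    (p : Finset ℕ → Prop) [DecidablePred p] :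
    ((powersetCard k (range v)).filter (fun B => T ⊆ B ∧ p (insert v B))).card =
      ((powersetCard (k + 1) (range (v + 1))).filter (fun B => insert v T ⊆ B ∧ p B)).card := by
  have hnot : ∀ B : Finset ℕ, B ⊆ range v → v ∉ B := fun B hB hv => by
    have := hB hv
    simp at this
  apply card_nbij' (fun B => insert v B) (fun B => B.erase v)
  · intro B hB
    simp only [coe_filter, mem_powersetCard, Set.mem_ofPred_eq] at hB ⊢
    obtain ⟨⟨h1, h2⟩, h3, h4⟩ := hB
    refine ⟨⟨?_, ?_⟩, insert_subset_insert _ h3, h4⟩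
    · rw [range_add_one]
      exact insert_subset_insert _ h1
    · rw [card_insert_of_notMem (hnot B h1), h2]
  · intro B hB
    simp only [coe_filter, mem_powersetCard, Set.mem_ofPred_eq] at hB ⊢
    obtain ⟨⟨h1, h2⟩, h3, h4⟩ := hB
    rw [insert_subset_iff] at h3
    refine ⟨⟨?_, ?_⟩, ?_, ?_⟩
    · rw [range_add_one] at h1
      intro x hx
      rw [mem_erase] at hx
      exact (mem_insert.1 (h1 hx.2)).resolve_left hx.1
    · rw [card_erase_of_mem h3.1, h2]
      rfl
    · intro x hx
      rw [mem_erase]
      exact ⟨fun h => hT (h ▸ hx), h3.2 hx⟩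
    · rwa [insert_erase h3.1]
  · intro B hB
    simp only [coe_filter, mem_powersetCard, Set.mem_ofPred_eq] at hB
    exact erase_insert (hnot B hB.1.1)
  · intro B hB
    simp only [coe_filter, mem_powersetCard, Set.mem_ofPred_eq] at hB
    exact insert_erase (hB.2.1 (mem_insert_self v T))

theorem G_derived {r k v : ℕ} (h : G (r + 1) (k + 1) (v + 1)) : G r k v := by
  obtain ⟨χ, hχ⟩ := h
  refine ⟨fun B => χ (insert v B), fun T hT i => ?_⟩
  by_cases hTv : v ∈ T
  · have hT' : ¬ T ⊆ range v := fun h => by
      have := h hTv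
      simp at this
    rw [Calc2.filter_empty hT', Calc2.filter_empty' hT']
    rfl
  · have h1 := Calc2.card_derived (k := k) hTv (fun B => χ B = i)
    have h2 := Calc2.card_derived (k := k) hTv (fun _ => True)
    have h3 := hχ (insert v T) (by
      have := card_insert_le v T
      omega) i
    simp only [and_true] at h2
    rw [h1, h2]
    exact h3

theorem Calc2.card_residual {v k : ℕ} (T : Finset ℕ) (p : Finset ℕ → Prop) [DecidablePred p] :
    ((powersetCard k (range (v + 1))).filter (fun B => T ⊆ B ∧ p B)).card =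
      ((powersetCard k (range (v + 1))).filter (fun B => insert v T ⊆ B ∧ p B)).card +
      ((powersetCard k (range v)).filter (fun B => T ⊆ B ∧ p B)).card := by
  rw [← card_filter_add_card_filter_not
    (s := (powersetCard k (range (v + 1))).filter (fun B => T ⊆ B ∧ p B)) (fun B => v ∈ B),
    filter_filter, filter_filter]
  congr 2
  · apply filter_congr
    intro B _
    rw [insert_subset_iff]
    tauto
  · ext B
    simp only [mem_filter, mem_powersetCard]
    constructor
    · rintro ⟨⟨h1, h2⟩, h3, h4⟩
      refine ⟨⟨?_, h2⟩, h3⟩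
      intro x hx
      have := h1 hx
      rw [range_add_one] at this
      exact (mem_insert.1 this).resolve_left (fun h => h4 (h ▸ hx))
    · rintro ⟨⟨h1, h2⟩, h3⟩
      refine ⟨⟨h1.trans (range_subset_range.2 (Nat.le_succ v)), h2⟩, h3, fun hv => ?_⟩
      have := h1 hv
      simp at this

theorem G_residual {r k v : ℕ} (h : G (r + 1) k (v + 1)) : G r k v := by
  obtain ⟨χ, hχ⟩ := h
  refine ⟨χ, fun T hT i => ?_⟩
  have h1 := Calc2.card_residual (k := k) (v := v) T (fun B => χ B = i)
  have h2 := Calc2.card_residual (k := k) (v := v) T (fun _ => True)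
  have h3 := hχ (insert v T) (by
    have := card_insert_le v T
    omega) i
  have h4 := hχ T (by omega) i
  simp only [and_true] at h2
  omega

/-! ### the frozen form -/

/-- Frozen form of the existence of a large set LS[3](t,k,v). -/
def LS (t k v : ℕ) : Prop :=
  ∃ f : Finset (Fin v) → Fin 3, ∀ j : Fin 3, ∀ T : Finset (Fin v), T.card = t →
    3 * ((Finset.powersetCard k (Finset.univ : Finset (Fin v))).filter
      (fun B => f B = j ∧ T ⊆ B)).card = (v - t).choose (k - t)

/-- number of `k`-subsets of `S` containing `T` -/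
theorem Calc2.card_super {α : Type*} [DecidableEq α] {S T : Finset α} (hT : T ⊆ S) {k : ℕ}
    (hk : T.card ≤ k) : ((powersetCard k S).filter (fun B => T ⊆ B)).card =
      (S.card - T.card).choose (k - T.card) := by
  rw [← card_sdiff_of_subset hT, ← card_powersetCard]
  apply card_nbij' (fun B => B \ T) (fun B => B ∪ T)
  · intro B hB
    simp only [coe_filter, mem_powersetCard, Set.mem_ofPred_eq, mem_coe] at hB ⊢
    exact ⟨sdiff_subset_sdiff hB.1.1 subset_rfl, by rw [card_sdiff_of_subset hB.2, hB.1.2]⟩
  · intro B hB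
    simp only [coe_filter, mem_powersetCard, Set.mem_ofPred_eq, mem_coe] at hB ⊢
    obtain ⟨h1, h2⟩ := hB
    have hd : Disjoint B T := disjoint_of_subset_left h1 sdiff_disjoint
    refine ⟨⟨union_subset (h1.trans sdiff_subset) hT, ?_⟩, subset_union_right⟩
    rw [card_union_of_disjoint hd, h2]
    omega
  · intro B hB
    simp only [coe_filter, mem_powersetCard, Set.mem_ofPred_eq] at hB
    exact sdiff_union_of_subset hB.2
  · intro B hB
    simp only [mem_powersetCard, mem_coe] at hB
    have hd : Disjoint B T := disjoint_of_subset_left hB.1 sdiff_disjoint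
    exact union_sdiff_cancel_right hd

theorem Calc2.range_eq (v : ℕ) : range v = (univ : Finset (Fin v)).map Fin.valEmbedding := by
  ext x
  simp only [mem_range, mem_map, mem_univ, true_and, Fin.valEmbedding_apply]
  exact ⟨fun h => ⟨⟨x, h⟩, rfl⟩, fun ⟨y, hy⟩ => hy ▸ y.2⟩

theorem Calc2.card_transfer {v k : ℕ} (T : Finset (Fin v)) (p : Finset ℕ → Prop)
    [DecidablePred p] :
    ((powersetCard k (range v)).filter (fun B => T.map Fin.valEmbedding ⊆ B ∧ p B)).card =
      ((powersetCard k (univ : Finset (Fin v))).filter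
        (fun B => T ⊆ B ∧ p (B.map Fin.valEmbedding))).card := by
  rw [Calc2.range_eq, powersetCard_map, filter_map, card_map]
  congr 1
  apply filter_congr
  intro B _
  simp only [Function.comp_apply, RelEmbedding.coe_toEmbedding, mapEmbedding_apply,
    map_subset_map]

theorem Calc2.exists_equiv : Nonempty (ZMod 3 ≃ Fin 3) := ⟨Fintype.equivOfCardEq (by simp)⟩

theorem LS_of_G {t k v : ℕ} (htk : t ≤ k) (hkv : k ≤ v) (h : G (t + 1) k v) : LS t k v := by
  obtain ⟨χ, hχ⟩ := h
  obtain ⟨e⟩ := Calc2.exists_equiv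
  refine ⟨fun B => e (χ (B.map Fin.valEmbedding)), fun j T hT => ?_⟩
  have h1 := Calc2.card_transfer (k := k) T (fun B => χ B = e.symm j)
  have h2 := Calc2.card_transfer (k := k) T (fun _ => True)
  have h3 := hχ (T.map Fin.valEmbedding) (by rw [card_map]; omega) (e.symm j)
  simp only [and_true] at h2
  have h4 := Calc2.card_super (subset_univ T) (k := k) (by omega)
  rw [card_univ, Fintype.card_fin, hT] at h4
  rw [h1, h2, h4] at h3
  rw [← h3]
  congr 2
  apply filter_congr
  intro B _
  rw [← Equiv.eq_symm_apply]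
  exact and_comm

theorem Calc2.level {t k v : ℕ} (htk : t ≤ k) (hkv : k ≤ v) {f : Finset (Fin v) → Fin 3}
    (j : Fin 3) (hf : ∀ T : Finset (Fin v), T.card = t →
      3 * ((Finset.powersetCard k (Finset.univ : Finset (Fin v))).filter
        (fun B => f B = j ∧ T ⊆ B)).card = (v - t).choose (k - t))
    (R : Finset (Fin v)) (hR : R.card ≤ t) :
    3 * ((powersetCard k (univ : Finset (Fin v))).filter (fun B => R ⊆ B ∧ f B = j)).card =
      (v - R.card).choose (k - R.card) := by
  set i := R.card with hi
  have hdc : ∑ T ∈ (powersetCard t (univ : Finset (Fin v))).filter (fun T => R ⊆ T),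
      ((powersetCard k (univ : Finset (Fin v))).filter (fun B => f B = j ∧ T ⊆ B)).card =
      ∑ B ∈ (powersetCard k (univ : Finset (Fin v))).filter (fun B => R ⊆ B ∧ f B = j),
        ((powersetCard t B).filter (fun T => R ⊆ T)).card := by
    simp only [card_eq_sum_ones]
    apply sum_comm'
    intro T B
    simp only [mem_filter, mem_powersetCard, subset_univ, true_and]
    constructor
    · rintro ⟨⟨h1, h2⟩, h3, h4, h5⟩
      exact ⟨⟨⟨h5, h1⟩, h2⟩, h3, h2.trans h5, h4⟩
    · rintro ⟨⟨⟨h1, h2⟩, h3⟩, h4, h5, h6⟩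
      exact ⟨⟨h2, h3⟩, h4, h6, h1⟩
  have h1 : ∑ B ∈ (powersetCard k (univ : Finset (Fin v))).filter (fun B => R ⊆ B ∧ f B = j),
        ((powersetCard t B).filter (fun T => R ⊆ T)).card =
      ((powersetCard k (univ : Finset (Fin v))).filter (fun B => R ⊆ B ∧ f B = j)).card *
        (k - i).choose (t - i) := by
    rw [sum_const_nat]
    intro B hB
    simp only [mem_filter, mem_powersetCard] at hB
    rw [Calc2.card_super hB.2.1 hR, hB.1.2]
  have h2 : 3 * ∑ T ∈ (powersetCard t (univ : Finset (Fin v))).filter (fun T => R ⊆ T),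
      ((powersetCard k (univ : Finset (Fin v))).filter (fun B => f B = j ∧ T ⊆ B)).card =
      (v - i).choose (t - i) * (v - t).choose (k - t) := by
    rw [mul_sum, sum_const_nat (m := (v - t).choose (k - t)), Calc2.card_super (subset_univ R) hR,
      card_univ, Fintype.card_fin]
    intro T hT
    simp only [mem_filter, mem_powersetCard] at hT
    exact hf T hT.1.2
  rw [hdc, h1] at h2
  have h3 := Nat.choose_mul (n := v - i) (k := k - i) (s := t - i) (by omega)
  rw [show v - i - (t - i) = v - t by omega, show k - i - (t - i) = k - t by omega, ← h2] at h3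
  have hpos : 0 < (k - i).choose (t - i) := Nat.choose_pos (by omega)
  apply Nat.eq_of_mul_eq_mul_right hpos
  rw [h3]
  ring

theorem G_of_LS {t k v : ℕ} (htk : t ≤ k) (hkv : k ≤ v) (h : LS t k v) : G (t + 1) k v := by
  obtain ⟨f, hf⟩ := h
  obtain ⟨e⟩ := Calc2.exists_equiv
  refine ⟨fun B => e.symm (f (univ.filter (fun x : Fin v => (x : ℕ) ∈ B))), fun T hT i => ?_⟩
  simp only [Equiv.symm_apply_eq]
  by_cases hTv : T ⊆ range v
  · obtain ⟨T', rfl⟩ : ∃ T' : Finset (Fin v), T = T'.map Fin.valEmbedding := by
      refine ⟨univ.filter (fun x : Fin v => (x : ℕ) ∈ T), ?_⟩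
      ext x
      simp only [mem_map, mem_filter, mem_univ, true_and, Fin.valEmbedding_apply]
      exact ⟨fun hx => ⟨⟨x, mem_range.1 (hTv hx)⟩, hx, rfl⟩, fun ⟨y, hy, hyx⟩ => hyx ▸ hy⟩
    rw [card_map] at hT
    have h1 := Calc2.card_transfer (k := k) T'
      (fun B => f (univ.filter (fun x : Fin v => (x : ℕ) ∈ B)) = e i)
    have h2 := Calc2.card_transfer (k := k) T' (fun _ => True)
    simp only [and_true] at h2
    have h3 := Calc2.level htk hkv (e i) (hf (e i)) T' (by omega)
    have h4 := Calc2.card_super (subset_univ T') (k := k) (by omega)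
    rw [card_univ, Fintype.card_fin] at h4
    rw [h1, h2, h4, ← h3]
    congr 2
    apply filter_congr
    intro B _
    have : (univ.filter (fun x : Fin v => (x : ℕ) ∈ B.map Fin.valEmbedding)) = B := by
      ext x
      simp [Fin.val_inj]
    rw [this]
  · have e1 := Calc2.filter_empty (k := k) hTv
      (fun B => f (univ.filter (fun x : Fin v => (x : ℕ) ∈ B)) = e i)
    rw [Calc2.filter_empty' hTv, e1]
    rfl

theorem dvd_of_LS {t k v : ℕ} (htk : t ≤ k) (hkv : k ≤ v) (h : LS t k v) :
    ∀ i : ℕ, i ≤ t → 3 ∣ (v - i).choose (k - i) := by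
  obtain ⟨f, hf⟩ := h
  intro i hi
  obtain ⟨R, _, hR⟩ := exists_subset_card_eq (s := (univ : Finset (Fin v))) (n := i) (by
    rw [card_univ, Fintype.card_fin]
    omega)
  have h3 := Calc2.level htk hkv 0 (hf 0) R (by omega)
  rw [hR] at h3
  exact ⟨_, h3.symm⟩

end Pool.Agent.LS3
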