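import Pool.Agent.Lib.MP_2c0b9b_co.Calc1

/-!
# The rectangle cut
-/

set_option autoImplicit false

open Finset

namespace Pool.Agent.LS3

private lemma cut_family {F₁ : Finset (Finset ℕ)} {m j k v : ℕ} (hm : m ≤ v) (hj : j ≤ k)
    (h1 : ∀ B ∈ F₁, B ⊆ range m ∧ B.card = j) :
    (powersetCard k (range v)).filter (fun B => B ∩ range m ∈ F₁) =
      (F₁ ×ˢ powersetCard (k - j) (Ico m v)).image (fun p => p.1 ∪ p.2) := by
  ext B
  simp only [mem_filter, mem_powersetCard, mem_image, mem_product, Prod.exists]
  constructor
  · rintro ⟨⟨hB, hk⟩, hF⟩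
    refine ⟨B ∩ range m, B ∩ Ico m v, ⟨hF, inter_subset_right, ?_⟩, ?_⟩
    · have e1 : B ∩ Ico m v = B \ (B ∩ range m) := by
        ext x
        simp only [mem_inter, mem_Ico, mem_sdiff, mem_range, not_and, not_lt]
        constructor
        · rintro ⟨hx, h2, h3⟩
          exact ⟨hx, fun _ => h2⟩
        · rintro ⟨hx, h2⟩
          exact ⟨hx, h2 hx, mem_range.1 (hB hx)⟩
      rw [e1, card_sdiff_of_subset inter_subset_left, hk, (h1 _ hF).2]
    · ext x
      simp only [mem_union, mem_inter, mem_range, mem_Ico]
      constructor
      · rintro (h | h)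
        · exact h.1
        · exact h.1
      · intro hx
        have := mem_range.1 (hB hx)
        rcases lt_or_ge x m with h2 | h2
        · exact Or.inl ⟨hx, h2⟩
        · exact Or.inr ⟨hx, h2, this⟩
  · rintro ⟨B1, B2, ⟨hF, h2, h3⟩, rfl⟩
    obtain ⟨h4, h5⟩ := h1 _ hF
    have hdis : Disjoint B1 B2 := by
      rw [disjoint_left]
      intro x hx hx2
      have := mem_range.1 (h4 hx)
      have := (mem_Ico.1 (h2 hx2)).1
      omega
    refine ⟨⟨?_, ?_⟩, ?_⟩
    · intro x hx
      rcases mem_union.1 hx with hx | hx
      · have := mem_range.1 (h4 hx)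
        exact mem_range.2 (by omega)
      · exact mem_range.2 (mem_Ico.1 (h2 hx)).2
    · rw [card_union_of_disjoint hdis, h5, h3]
      omega
    · have : (B1 ∪ B2) ∩ range m = B1 := by
        ext x
        simp only [mem_inter, mem_union, mem_range]
        constructor
        · rintro ⟨hx | hx, hm'⟩
          · exact hx
          · have := (mem_Ico.1 (h2 hx)).1
            omega
        · intro hx
          exact ⟨Or.inl hx, mem_range.1 (h4 hx)⟩
      rw [this]
      exact hF

private lemma cut_good {F₁ : Finset (Finset ℕ)} {r a b m j k v : ℕ} (hm : m ≤ v) (hj : j ≤ k)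
    (h1 : ∀ B ∈ F₁, B ⊆ range m ∧ B.card = j) (hr : r ≤ a + b) (ha : Good a F₁)
    (hb : G b (k - j) (v - m)) :
    Good r ((powersetCard k (range v)).filter (fun B => B ∩ range m ∈ F₁)) := by
  rw [cut_family hm hj h1]
  refine Good.mono hr (good_prod (range m) (Ico m v) ?_ _ _ (fun B hB => (h1 B hB).1)
    (fun B hB => (mem_powersetCard.1 hB).1) ha ?_)
  · rw [disjoint_left]
    intro x hx hx2
    have := mem_range.1 hx
    have := (mem_Ico.1 hx2).1
    omega
  · rw [good_powersetCard_iff, Nat.card_Ico]
    exact hb

private lemma count_nth_iff (p : ℕ → Prop) [DecidablePred p] {n m x : ℕ} :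
    (n < Nat.count p m ∧ Nat.nth p n = x) ↔ (x < m ∧ p x ∧ Nat.count p x = n) := by
  constructor
  · rintro ⟨h1, rfl⟩
    have h2 : ∀ hf : (Set.ofPred p).Finite, n < hf.toFinset.card := by
      intro hf
      refine h1.trans_le ?_
      rw [Nat.count_eq_card_filter_range]
      refine card_le_card fun y hy => ?_
      rw [Set.Finite.mem_toFinset]
      exact (mem_filter.1 hy).2
    exact ⟨Nat.nth_lt_of_lt_count h1, Nat.nth_mem n h2, Nat.count_nth h2⟩
  · rintro ⟨h1, h2, h3⟩
    refine ⟨?_, ?_⟩
    · have h4 : Nat.count p (x + 1) = n + 1 := by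
        rw [Nat.count_succ, if_pos h2, h3]
      have h5 := Nat.count_monotone p (show x + 1 ≤ m by omega)
      omega
    · rw [← h3]
      exact Nat.nth_count h2

private lemma count_add_count_not (p : ℕ → Prop) [DecidablePred p] (m : ℕ) :
    Nat.count p m + Nat.count (fun x => ¬ p x) m = m := by
  induction m with
  | zero => simp
  | succ m ih =>
    rw [Nat.count_succ, Nat.count_succ]
    by_cases h : p m
    · rw [if_pos h, if_neg (by simpa using h)]
      omega
    · rw [if_neg h, if_pos h]
      omega

private lemma card_inter_range (B : Finset ℕ) (m : ℕ) :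
    (B ∩ range m).card = Nat.count (fun x => x ∈ B) m := by
  rw [Nat.count_eq_card_filter_range]
  congr 1
  ext x
  simp only [mem_inter, mem_range, mem_filter]
  tauto

/-- The classification map of the rectangle cut. -/
private noncomputable def cutIdx (J Y : ℕ) (B : Finset ℕ) : ℕ × ℕ :=
  if Nat.count (fun x => x ∈ B) (J + Y) = J then (0, 0)
  else if J < Nat.count (fun x => x ∈ B) (J + Y) then (1, Nat.nth (fun x => x ∈ B) J)
  else (2, Nat.nth (fun x => ¬ x ∈ B) Y)

private lemma cutIdx_zero {J Y x : ℕ} {B : Finset ℕ} : cutIdx J Y B = (0, x) ↔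
    x = 0 ∧ Nat.count (fun x => x ∈ B) (J + Y) = J := by
  unfold cutIdx
  split_ifs with h1 h2
  · simp only [Prod.mk.injEq, true_and, h1, and_true]
    exact eq_comm
  · simp [h1]
  · simp [h1]

private lemma cutIdx_one {J Y x : ℕ} {B : Finset ℕ} : cutIdx J Y B = (1, x) ↔
    x < J + Y ∧ x ∈ B ∧ Nat.count (fun x => x ∈ B) x = J := by
  rw [← count_nth_iff (fun x => x ∈ B)]
  unfold cutIdx
  split_ifs with h1 h2
  · simp only [Prod.mk.injEq, zero_ne_one, false_and, false_iff, not_and]
    intro h
    omega
  · simp [h2]
  · simp [h2]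

private lemma cutIdx_two {J Y x : ℕ} {B : Finset ℕ} : cutIdx J Y B = (2, x) ↔
    x < J + Y ∧ ¬ x ∈ B ∧ Nat.count (fun x => ¬ x ∈ B) x = Y := by
  rw [← count_nth_iff (fun x => ¬ x ∈ B)]
  have h3 := count_add_count_not (fun x => x ∈ B) (J + Y)
  unfold cutIdx
  split_ifs with h1 h2
  · simp only [Prod.mk.injEq, OfNat.zero_ne_ofNat, false_and, false_iff, not_and]
    intro h
    omega
  · simp only [Prod.mk.injEq, OfNat.one_ne_ofNat, false_and, false_iff, not_and]
    intro h
    omega
  · simp only [Prod.mk.injEq, true_and]
    constructor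
    · intro h
      exact ⟨by omega, h⟩
    · exact fun h => h.2

private lemma cutIdx_fst (J Y : ℕ) (B : Finset ℕ) : (cutIdx J Y B).1 ≤ 2 := by
  unfold cutIdx
  split_ifs <;> simp

theorem rect_cut (r k v J Y : ℕ) (hJY : J + Y ≤ v) (hJ : J ≤ k)
    (hN : ∃ a b, r ≤ a + b ∧ G a J (J + Y) ∧ G b (k - J) (v - J - Y))
    (hD : ∀ y < Y, J < k → ∃ a b, r ≤ a + b ∧ G a J (J + y) ∧ G b (k - J - 1) (v - J - y - 1))
    (hH : ∀ j < J, ∃ a b, r ≤ a + b ∧ G a j (j + Y) ∧ G b (k - j) (v - j - Y - 1)) :
    G r k v := by
  refine good_fiber r _ (cutIdx J Y) ?_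
  rintro ⟨i, x⟩
  have hi : i = 0 ∨ i = 1 ∨ i = 2 ∨ 3 ≤ i := by omega
  have hempty : (∀ B ∈ powersetCard k (range v), cutIdx J Y B ≠ (i, x)) →
      Good r ((powersetCard k (range v)).filter (fun B => cutIdx J Y B = (i, x))) := by
    intro h
    rw [filter_eq_empty_iff.2 fun {B} hB => h B hB]
    exact good_empty r
  rcases hi with rfl | rfl | rfl | hi
  · by_cases hx : x = 0
    · obtain ⟨a, b, h1, h2, h3⟩ := hN
      have e : (powersetCard k (range v)).filter (fun B => cutIdx J Y B = (0, x)) =
          (powersetCard k (range v)).filter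
            (fun B => B ∩ range (J + Y) ∈ powersetCard J (range (J + Y))) := by
        refine filter_congr fun B hB => ?_
        rw [cutIdx_zero, mem_powersetCard, card_inter_range]
        constructor
        · exact fun h => ⟨inter_subset_right, h.2⟩
        · exact fun h => ⟨hx, h.2⟩
      rw [e]
      refine cut_good (j := J) hJY hJ (fun B hB => mem_powersetCard.1 hB) h1 h2 ?_
      rw [← Nat.sub_sub]
      exact h3
    · refine hempty fun B _ h => hx (cutIdx_zero.1 h).1
  · by_cases hx : x < J + Y ∧ J ≤ x ∧ J < k
    · obtain ⟨hx1, hx2, hx3⟩ := hx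
      obtain ⟨y, rfl⟩ := Nat.exists_eq_add_of_le hx2
      obtain ⟨a, b, h1, h2, h3⟩ := hD y (by omega) hx3
      have e : (powersetCard k (range v)).filter (fun B => cutIdx J Y B = (1, J + y)) =
          (powersetCard k (range v)).filter
            (fun B => B ∩ range (J + y + 1) ∈
              (powersetCard J (range (J + y))).image (fun B => insert (J + y) B)) := by
        refine filter_congr fun B hB => ?_
        rw [cutIdx_one, mem_image, ← card_inter_range]
        constructor
        · rintro ⟨-, h4, h5⟩
          refine ⟨B ∩ range (J + y), mem_powersetCard.2 ⟨inter_subset_right, h5⟩, ?_⟩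
          ext z
          simp only [mem_insert, mem_inter, mem_range]
          constructor
          · rintro (rfl | h6)
            · exact ⟨h4, by omega⟩
            · exact ⟨h6.1, by omega⟩
          · rintro ⟨h6, h7⟩
            rcases eq_or_ne z (J + y) with h8 | h8
            · exact Or.inl h8
            · exact Or.inr ⟨h6, by omega⟩
        · rintro ⟨B', hB', h4⟩
          obtain ⟨h5, h6⟩ := mem_powersetCard.1 hB'
          have h7 : J + y ∈ B := by
            have : J + y ∈ B ∩ range (J + y + 1) := by
              rw [← h4]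
              exact mem_insert_self _ _
            exact (mem_inter.1 this).1
          refine ⟨hx1, h7, ?_⟩
          have h8 : B ∩ range (J + y) = B' := by
            ext z
            simp only [mem_inter, mem_range]
            constructor
            · rintro ⟨h9, h10⟩
              have : z ∈ insert (J + y) B' := by
                rw [h4]
                exact mem_inter.2 ⟨h9, mem_range.2 (by omega)⟩
              rcases mem_insert.1 this with h11 | h11
              · omega
              · exact h11
            · intro h9
              have h10 := mem_range.1 (h5 h9)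
              have : z ∈ B ∩ range (J + y + 1) := by
                rw [← h4]
                exact mem_insert_of_mem h9
              exact ⟨(mem_inter.1 this).1, h10⟩
          rw [h8, h6]
      rw [e]
      refine cut_good (j := J + 1) (by omega) (by omega) ?_ h1 (good_insert _ _ ?_ h2) ?_
      · intro B hB
        obtain ⟨B', hB', rfl⟩ := mem_image.1 hB
        obtain ⟨h5, h6⟩ := mem_powersetCard.1 hB'
        have h7 : J + y ∉ B' := by
          intro h
          have := mem_range.1 (h5 h)
          omega
        refine ⟨?_, by rw [card_insert_of_notMem h7, h6]⟩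
        intro z hz
        rcases mem_insert.1 hz with hz | hz
        · exact mem_range.2 (by omega)
        · have := mem_range.1 (h5 hz)
          exact mem_range.2 (by omega)
      · intro B hB h
        have := mem_range.1 ((mem_powersetCard.1 hB).1 h)
        omega
      · have e1 : k - (J + 1) = k - J - 1 := by omega
        have e2 : v - (J + y + 1) = v - J - y - 1 := by omega
        rw [e1, e2]
        exact h3
    · refine hempty fun B hB h => hx ?_
      obtain ⟨h1, h2, h3⟩ := cutIdx_one.1 h
      obtain ⟨h4, h5⟩ := mem_powersetCard.1 hB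
      refine ⟨h1, ?_, ?_⟩
      · rw [← h3]
        exact Nat.count_le _
      · rw [← card_inter_range] at h3
        have h6 : insert x (B ∩ range x) ⊆ B := by
          intro z hz
          rcases mem_insert.1 hz with rfl | hz
          · exact h2
          · exact (mem_inter.1 hz).1
        have h7 := card_le_card h6
        rw [card_insert_of_notMem (by simp), h3, h5] at h7
        omega
  · by_cases hx : x < J + Y ∧ Y ≤ x
    · obtain ⟨hx1, hx2⟩ := hx
      obtain ⟨j, rfl⟩ := Nat.exists_eq_add_of_le' hx2
      obtain ⟨a, b, h1, h2, h3⟩ := hH j (by omega)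
      have e : (powersetCard k (range v)).filter (fun B => cutIdx J Y B = (2, j + Y)) =
          (powersetCard k (range v)).filter
            (fun B => B ∩ range (j + Y + 1) ∈ powersetCard j (range (j + Y))) := by
        refine filter_congr fun B hB => ?_
        have h4 := count_add_count_not (fun x => x ∈ B) (j + Y)
        rw [cutIdx_two, mem_powersetCard, card_inter_range, Nat.count_succ]
        constructor
        · rintro ⟨-, h5, h6⟩
          rw [if_neg h5]
          refine ⟨?_, by omega⟩
          intro z hz
          obtain ⟨h7, h8⟩ := mem_inter.1 hz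
          have := mem_range.1 h8
          rcases eq_or_ne z (j + Y) with rfl | h9
          · exact absurd h7 h5
          · exact mem_range.2 (by omega)
        · rintro ⟨h5, h6⟩
          have h7 : ¬ j + Y ∈ B := by
            intro h
            have := mem_range.1 (h5 (mem_inter.2 ⟨h, mem_range.2 (by omega)⟩))
            omega
          rw [if_neg h7] at h6
          exact ⟨hx1, h7, by omega⟩
      rw [e]
      refine cut_good (j := j) (by omega) (by omega) ?_ h1 h2 ?_
      · intro B hB
        obtain ⟨h5, h6⟩ := mem_powersetCard.1 hB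
        refine ⟨?_, h6⟩
        intro z hz
        have := mem_range.1 (h5 hz)
        exact mem_range.2 (by omega)
      · have e2 : v - (j + Y + 1) = v - j - Y - 1 := by omega
        rw [e2]
        exact h3
    · refine hempty fun B hB h => hx ?_
      obtain ⟨h1, h2, h3⟩ := cutIdx_two.1 h
      refine ⟨h1, ?_⟩
      have h4 := count_add_count_not (fun x => x ∈ B) x
      omega
  · refine hempty fun B _ h => ?_
    have := cutIdx_fst J Y B
    rw [h] at this
    simp only at this
    omega

end Pool.Agent.LS3
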