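import Mathlib

/-!
# Large sets of size three: definitions

`Bal r F χ`: the colouring `χ` (three colours) of the family `F` of finite sets is balanced on
all sets with fewer than `r` points.  `Good r F`: such a colouring exists.
`G r k v`: the family of all `k`-subsets of a `v`-set is good for `r`; this is the existence of a
large set LS[3](r-1,k,v).
-/

set_option autoImplicit false

open Finset

namespace Pool.Agent.LS3

section

variable {α : Type*} [DecidableEq α]

/-- `χ` is balanced on the members of `F` containing `T`, for every `T` with fewer than `r`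
points. -/
def Bal (r : ℕ) (F : Finset (Finset α)) (χ : Finset α → ZMod 3) : Prop :=
  ∀ T : Finset α, T.card < r → ∀ i : ZMod 3,
    3 * (F.filter (fun B => T ⊆ B ∧ χ B = i)).card = (F.filter (fun B => T ⊆ B)).card

/-- `F` has a colouring with three colours that is balanced on all sets with fewer than `r`
points. -/
def Good (r : ℕ) (F : Finset (Finset α)) : Prop := ∃ χ : Finset α → ZMod 3, Bal r F χ

end

/-- The family of all `k`-subsets of a `v`-set is good for `r`. -/
def G (r k v : ℕ) : Prop := Good r (powersetCard k (range v))

/-! ### Octahedra and pods -/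

section

variable {α : Type*} [DecidableEq α]

/-- The transversal of the pairs `{p.1 i, p.2 i}` that takes `p.2 i` for `i ∈ J`. -/
def tr {s : ℕ} (p : (Fin s → α) × (Fin s → α)) (J : Finset (Fin s)) : Finset α :=
  univ.image (fun i => if i ∈ J then p.2 i else p.1 i)

/-- The pod of an octahedron: `±1` on its transversals, `0` elsewhere. -/
def pod {s : ℕ} (p : (Fin s → α) × (Fin s → α)) (T : Finset α) : ℤ :=
  ∑ J : Finset (Fin s), if tr p J = T then (-1) ^ J.card else 0

/-- The `2 s` points of the octahedron are distinct. -/
def Oct {s : ℕ} (p : (Fin s → α) × (Fin s → α)) : Prop :=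
  Function.Injective (Sum.elim p.1 p.2)

/-- Constants in the decomposition into pods. -/
def K : ℕ → ℕ
  | 0 => 1
  | (s + 1) => (1 + 2 ^ (s + 1) * K s) ^ (s + 1)

/-- Bound for the discrepancy before stage `s`. -/
def dl (t v : ℕ) : ℕ → ℕ
  | 0 => 2 * (v + 1) ^ t
  | (s + 1) => dl t v s * (1 + 10 * K s * v.choose s)

/-- Number of gadgets for every octahedron of level `s`. -/
def gd (t v s : ℕ) : ℕ := 4 * K s * v.choose s * dl t v s

/-- Number of blocks in all gadgets. -/
def cost (t v : ℕ) : ℕ :=
  3 ^ (t + 1) * 2 ^ t * ∑ s ∈ range (t + 1), v ^ (2 * s) * gd t v s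

end

end Pool.Agent.LS3
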