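import Pool.Agent.Lib.MP_2c0b9b_co.Defs

/-!
# Divisibility of binomial coefficients by 3 and digits
-/

set_option autoImplicit false

open Finset

namespace Pool.Agent.LS3

/-- Lucas criterion: `3` divides `v.choose k` iff some residue of `v` modulo a power of `3` is
less than the corresponding residue of `k`. -/
theorem dig_dvd_iff (k : ℕ) : ∀ v : ℕ, 3 ∣ v.choose k ↔ ∃ l, v % 3 ^ l < k % 3 ^ l := by
  induction k using Nat.strong_induction_on with
  | _ k ih =>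
    intro v
    rcases Nat.eq_zero_or_pos k with hk | hk
    · subst hk
      constructor
      · intro h
        simp at h
      · rintro ⟨l, hl⟩
        simp at hl
    · have : Fact (Nat.Prime 3) := ⟨Nat.prime_three⟩
      have hL := Choose.choose_modEq_choose_mod_mul_choose_div_nat (p := 3) (n := v) (k := k)
      have h1 : 3 ∣ v.choose k ↔ 3 ∣ (v % 3).choose (k % 3) * (v / 3).choose (k / 3) :=
        hL.dvd_iff dvd_rfl
      rw [h1, Nat.Prime.dvd_mul Nat.prime_three, ih (k / 3) (by omega) (v / 3)]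
      have h2 : 3 ∣ (v % 3).choose (k % 3) ↔ v % 3 < k % 3 := by
        have ha : v % 3 < 3 := Nat.mod_lt _ (by norm_num)
        have hb : k % 3 < 3 := Nat.mod_lt _ (by norm_num)
        generalize v % 3 = a at ha ⊢
        generalize k % 3 = b at hb ⊢
        interval_cases a <;> interval_cases b <;> decide
      rw [h2]
      constructor
      · rintro (h | ⟨l, hl⟩)
        · exact ⟨1, by simpa using h⟩
        · refine ⟨l + 1, ?_⟩
          rw [pow_succ', Nat.mod_mul, Nat.mod_mul]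
          have ha : v % 3 < 3 := Nat.mod_lt _ (by norm_num)
          omega
      · rintro ⟨l, hl⟩
        rcases l with _ | l
        · simp [Nat.mod_one] at hl
        · rw [pow_succ', Nat.mod_mul, Nat.mod_mul] at hl
          by_cases h : v % 3 < k % 3
          · exact Or.inl h
          · exact Or.inr ⟨l, by omega⟩

/-- Subtracting no more than the residue. -/
theorem dig_sub_mod (a i q : ℕ) (hq : 0 < q) (h : i ≤ a % q) : (a - i) % q = a % q - i := by
  have h1 : a - i = q * (a / q) + (a % q - i) := by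
    have := Nat.div_add_mod a q
    omega
  rw [h1, Nat.mul_add_mod, Nat.mod_eq_of_lt]
  have := Nat.mod_lt a hq
  omega

theorem digits (t k v : ℕ) (htk : t ≤ k) (hkv : k ≤ v)
    (h : ∀ i ≤ t, 3 ∣ (v - i).choose (k - i)) : ∃ l, t ≤ v % 3 ^ l ∧ v % 3 ^ l < k % 3 ^ l := by
  classical
  have hbd : ∀ l, v % 3 ^ l < k % 3 ^ l → l ≤ v := by
    intro l hl
    by_contra hlv
    have h3 : l < 3 ^ l := Nat.lt_pow_self (by norm_num)
    have hv : v % 3 ^ l = v := Nat.mod_eq_of_lt (by omega)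
    have hk : k % 3 ^ l ≤ k := Nat.mod_le _ _
    omega
  obtain ⟨l0, hl0⟩ := (dig_dvd_iff k v).1 (by simpa using h 0 (Nat.zero_le _))
  set P : ℕ → Prop := fun l => v % 3 ^ l < k % 3 ^ l with hP
  have hPl : P (Nat.findGreatest P v) := Nat.findGreatest_spec (hbd l0 hl0) hl0
  set l := Nat.findGreatest P v with hl
  have hmax : ∀ l', l < l' → ¬ (v % 3 ^ l' < k % 3 ^ l') := by
    intro l' hl' hc
    have h1 : l' ≤ l := Nat.le_findGreatest (hbd l' hc) hc
    omega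
  refine ⟨l, ?_, hPl⟩
  by_contra hlt
  rw [not_le] at hlt
  have hPl' : v % 3 ^ l < k % 3 ^ l := hPl
  obtain ⟨l', hl'⟩ := (dig_dvd_iff (k - (v % 3 ^ l + 1)) (v - (v % 3 ^ l + 1))).1
    (h (v % 3 ^ l + 1) hlt)
  clear hPl
  have hq : 0 < 3 ^ l := by positivity
  have hkq : k % 3 ^ l < 3 ^ l := Nat.mod_lt _ hq
  have hdv := Nat.div_add_mod v (3 ^ l)
  have hdk := Nat.div_add_mod k (3 ^ l)
  have hVpos : 0 < v / 3 ^ l := by
    rcases Nat.eq_zero_or_pos (v / 3 ^ l) with h0 | h0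
    · exfalso
      rw [h0, mul_zero, zero_add] at hdv
      have := Nat.mod_le k (3 ^ l)
      omega
    · exact h0
  have hmul : 3 ^ l * (v / 3 ^ l) = 3 ^ l * (v / 3 ^ l - 1) + 3 ^ l := by
    obtain ⟨V, hV⟩ : ∃ V, v / 3 ^ l = V + 1 := ⟨v / 3 ^ l - 1, by omega⟩
    rw [hV, Nat.add_sub_cancel, mul_add, mul_one]
  rcases le_or_gt l' l with hle | hgt
  · obtain ⟨c, hc⟩ : 3 ^ l' ∣ 3 ^ l := pow_dvd_pow _ hle
    have hm : 0 < 3 ^ l' := by positivity
    have h1 : (v - (v % 3 ^ l + 1)) % 3 ^ l' = 3 ^ l' - 1 := by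
      have h2 : v - (v % 3 ^ l + 1) + 1 = 3 ^ l' * (c * (v / 3 ^ l)) := by
        rw [← mul_assoc, ← hc]
        omega
      have h3 : 0 < c * (v / 3 ^ l) := by
        rcases Nat.eq_zero_or_pos (c * (v / 3 ^ l)) with h0 | h0
        · rw [h0] at h2
          omega
        · exact h0
      obtain ⟨d, hd⟩ : ∃ d, c * (v / 3 ^ l) = d + 1 := ⟨c * (v / 3 ^ l) - 1, by omega⟩
      rw [hd, mul_add, mul_one] at h2
      have h4 : v - (v % 3 ^ l + 1) = 3 ^ l' * d + (3 ^ l' - 1) := by omega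
      rw [h4, Nat.mul_add_mod, Nat.mod_eq_of_lt (by omega)]
    have h5 := Nat.mod_lt (k - (v % 3 ^ l + 1)) hm
    omega
  · obtain ⟨j, hj⟩ : ∃ j, l' = l + j := ⟨l' - l, by omega⟩
    have hpow : 3 ^ l' = 3 ^ l * 3 ^ j := by rw [hj, pow_add]
    have hnot := hmax l' hgt
    have hr : 0 < 3 ^ j := by positivity
    rw [hpow, Nat.mod_mul, Nat.mod_mul, not_lt] at hnot
    have hVr : k / 3 ^ l % 3 ^ j + 1 ≤ v / 3 ^ l % 3 ^ j := by
      by_contra hc
      have h1 : v / 3 ^ l % 3 ^ j ≤ k / 3 ^ l % 3 ^ j := by omega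
      have h2 := Nat.mul_le_mul_left (3 ^ l) h1
      omega
    have hk1 : (k - (v % 3 ^ l + 1)) % 3 ^ l = k % 3 ^ l - (v % 3 ^ l + 1) :=
      dig_sub_mod _ _ _ hq (by omega)
    have hk2 : (k - (v % 3 ^ l + 1)) / 3 ^ l = k / 3 ^ l := by
      have h1 : k - (v % 3 ^ l + 1) = 3 ^ l * (k / 3 ^ l) + (k % 3 ^ l - (v % 3 ^ l + 1)) := by
        omega
      rw [h1, Nat.mul_add_div hq, Nat.div_eq_of_lt (by omega : k % 3 ^ l - (v % 3 ^ l + 1) < 3 ^ l),
        add_zero]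
    have hv0 : v - (v % 3 ^ l + 1) = 3 ^ l * (v / 3 ^ l - 1) + (3 ^ l - 1) := by omega
    have hv1 : (v - (v % 3 ^ l + 1)) % 3 ^ l = 3 ^ l - 1 := by
      rw [hv0, Nat.mul_add_mod, Nat.mod_eq_of_lt (by omega)]
    have hv2 : (v - (v % 3 ^ l + 1)) / 3 ^ l = v / 3 ^ l - 1 := by
      rw [hv0, Nat.mul_add_div hq, Nat.div_eq_of_lt (by omega : 3 ^ l - 1 < 3 ^ l), add_zero]
    rw [hpow, Nat.mod_mul, Nat.mod_mul, hk1, hk2, hv1, hv2,
      dig_sub_mod (v / 3 ^ l) 1 (3 ^ j) hr (by omega)] at hl'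
    have h6 : k / 3 ^ l % 3 ^ j ≤ v / 3 ^ l % 3 ^ j - 1 := by omega
    have h7 := Nat.mul_le_mul_left (3 ^ l) h6
    omega

theorem dvd_of_digits (t k v l : ℕ) (hkv : k ≤ v) (h1 : t ≤ v % 3 ^ l)
    (h2 : v % 3 ^ l < k % 3 ^ l) : ∀ i ≤ t, 3 ∣ (v - i).choose (k - i) := by
  intro i hi
  refine (dig_dvd_iff (k - i) (v - i)).2 ⟨l, ?_⟩
  have hq : 0 < 3 ^ l := by positivity
  rw [dig_sub_mod _ _ _ hq (by omega), dig_sub_mod _ _ _ hq (by omega)]
  omega

end Pool.Agent.LS3
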