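import Pool.Agent.Lib.MP_2c0b9b_co.Defs

/-!
# The cost inequality for large parameters
-/

set_option autoImplicit false

open Finset

namespace Pool.Agent.LS3

/-- Polynomially bounded. -/
def NLpoly (f : ℕ → ℕ) : Prop := ∃ C D : ℕ, ∀ v, f v ≤ C * (v + 1) ^ D

lemma NLpoly_const (c : ℕ) : NLpoly (fun _ => c) := ⟨c, 0, fun v => by simp⟩

lemma NLpoly_mul {f g : ℕ → ℕ} (hf : NLpoly f) (hg : NLpoly g) : NLpoly (fun v => f v * g v) := by
  obtain ⟨C, D, h⟩ := hf
  obtain ⟨C', D', h'⟩ := hg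
  refine ⟨C * C', D + D', fun v => ?_⟩
  calc f v * g v ≤ (C * (v + 1) ^ D) * (C' * (v + 1) ^ D') := Nat.mul_le_mul (h v) (h' v)
    _ = C * C' * (v + 1) ^ (D + D') := by rw [pow_add]; ring

lemma NLpoly_add {f g : ℕ → ℕ} (hf : NLpoly f) (hg : NLpoly g) : NLpoly (fun v => f v + g v) := by
  obtain ⟨C, D, h⟩ := hf
  obtain ⟨C', D', h'⟩ := hg
  refine ⟨C + C', D + D', fun v => ?_⟩
  have h1 : (v + 1) ^ D ≤ (v + 1) ^ (D + D') := Nat.pow_le_pow_right (Nat.succ_pos v) (by omega)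
  have h2 : (v + 1) ^ D' ≤ (v + 1) ^ (D + D') := Nat.pow_le_pow_right (Nat.succ_pos v) (by omega)
  calc f v + g v ≤ C * (v + 1) ^ D + C' * (v + 1) ^ D' := Nat.add_le_add (h v) (h' v)
    _ ≤ C * (v + 1) ^ (D + D') + C' * (v + 1) ^ (D + D') :=
        Nat.add_le_add (Nat.mul_le_mul_left _ h1) (Nat.mul_le_mul_left _ h2)
    _ = (C + C') * (v + 1) ^ (D + D') := by ring

lemma NLpoly_pow (a : ℕ) : NLpoly (fun v => v ^ a) :=
  ⟨1, a, fun v => by rw [one_mul]; exact Nat.pow_le_pow_left (Nat.le_succ v) a⟩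

lemma NLpoly_pow' (a : ℕ) : NLpoly (fun v => (v + 1) ^ a) :=
  ⟨1, a, fun v => by rw [one_mul]⟩

lemma NLpoly_choose (a : ℕ) : NLpoly (fun v => v.choose a) :=
  ⟨1, a, fun v => by
    rw [one_mul]; exact (Nat.choose_le_pow v a).trans (Nat.pow_le_pow_left (Nat.le_succ v) a)⟩

lemma NLpoly_sum (n : ℕ) (f : ℕ → ℕ → ℕ) (h : ∀ s, NLpoly (f s)) :
    NLpoly (fun v => ∑ s ∈ range n, f s v) := by
  induction n with
  | zero => simpa using NLpoly_const 0
  | succ n ih =>
    simp only [Finset.sum_range_succ]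
    exact NLpoly_add ih (h n)

lemma NLpoly_dl (t s : ℕ) : NLpoly (fun v => dl t v s) := by
  induction s with
  | zero => simp only [dl]; exact NLpoly_mul (NLpoly_const 2) (NLpoly_pow' t)
  | succ s ih =>
    simp only [dl]
    exact NLpoly_mul ih (NLpoly_add (NLpoly_const 1)
      (NLpoly_mul (NLpoly_const (10 * K s)) (NLpoly_choose s)))

lemma NLpoly_gd (t s : ℕ) : NLpoly (fun v => gd t v s) := by
  unfold gd
  exact NLpoly_mul (NLpoly_mul (NLpoly_const (4 * K s)) (NLpoly_choose s)) (NLpoly_dl t s)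

lemma NLpoly_cost (t : ℕ) : NLpoly (fun v => cost t v) := by
  unfold cost
  exact NLpoly_mul (NLpoly_const (3 ^ (t + 1) * 2 ^ t))
    (NLpoly_sum (t + 1) (fun s v => v ^ (2 * s) * gd t v s)
      (fun s => NLpoly_mul (NLpoly_pow (2 * s)) (NLpoly_gd t s)))

lemma NL_choose_half (n R : ℕ) : ∀ r, R ≤ r → r ≤ n / 2 → n.choose R ≤ n.choose r := by
  intro r hr
  induction r, hr using Nat.le_induction with
  | base => intro _; exact le_rfl
  | succ r hr ih =>
    intro h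
    exact (ih (by omega)).trans (Nat.choose_le_succ_of_lt_half_left (by omega))

lemma NL_choose_mono (n R r : ℕ) (h1 : R ≤ r) (h2 : r + R ≤ n) : n.choose R ≤ n.choose r := by
  by_cases h : r ≤ n / 2
  · exact NL_choose_half n R r h1 h
  · rw [← Nat.choose_symm (show r ≤ n by omega)]
    exact NL_choose_half n R (n - r) (by omega) (by omega)

lemma NL_choose_lower (n R : ℕ) : (n + 1 - R) ^ R ≤ R.factorial * n.choose R := by
  rw [← Nat.descFactorial_eq_factorial_mul_choose]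
  exact Nat.pow_sub_le_descFactorial n R

theorem cost_large (t : ℕ) : ∃ K₀ : ℕ, ∀ k v : ℕ, K₀ ≤ k → k + K₀ ≤ v →
    ∀ s ≤ t, cost t v < (v - 2 * s - 3 * (t + 1)).choose (k - s - (t + 1)) := by
  obtain ⟨C, D, hCD⟩ := NLpoly_cost t
  refine ⟨C * ((D + 1).factorial * 2 ^ (D + 1)) + 2 * (5 * t + 3 + (D + 1)), ?_⟩
  intro k v hk hv s hs
  set R := D + 1 with hR
  set M := C * (R.factorial * 2 ^ R) with hM
  set n := v - 2 * s - 3 * (t + 1) with hn
  set r := k - s - (t + 1) with hr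
  have hRr : R ≤ r := by omega
  have hrn : r + R ≤ n := by omega
  have h1 : v + 1 ≤ 2 * (n + 1 - R) := by omega
  have h2 : (v + 1) ^ R ≤ 2 ^ R * (n + 1 - R) ^ R := by
    rw [← mul_pow]; exact Nat.pow_le_pow_left h1 R
  have h3 : (n + 1 - R) ^ R ≤ R.factorial * n.choose R := NL_choose_lower n R
  have h4 : n.choose R ≤ n.choose r := NL_choose_mono n R r hRr hrn
  have h5 : (v + 1) ^ R ≤ (R.factorial * 2 ^ R) * n.choose r := by
    calc (v + 1) ^ R ≤ 2 ^ R * (n + 1 - R) ^ R := h2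
      _ ≤ 2 ^ R * (R.factorial * n.choose r) :=
          Nat.mul_le_mul_left _ (h3.trans (Nat.mul_le_mul_left _ h4))
      _ = (R.factorial * 2 ^ R) * n.choose r := by ring
  have hpos : 0 < R.factorial * 2 ^ R := by positivity
  have h6 : M < v + 1 := by omega
  have h7 : C * (v + 1) ^ D * (R.factorial * 2 ^ R) < (R.factorial * 2 ^ R) * n.choose r := by
    calc C * (v + 1) ^ D * (R.factorial * 2 ^ R) = M * (v + 1) ^ D := by rw [hM]; ring
      _ < (v + 1) * (v + 1) ^ D := Nat.mul_lt_mul_of_pos_right h6 (by positivity)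
      _ = (v + 1) ^ R := by rw [hR, pow_succ]; ring
      _ ≤ _ := h5
  have h8 : C * (v + 1) ^ D < n.choose r := by
    rw [mul_comm] at h7
    exact Nat.lt_of_mul_lt_mul_left h7
  exact lt_of_le_of_lt (hCD v) h8

end Pool.Agent.LS3
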