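import Pool.Agent.Lib.MP_2c0b9b_co.Defs

/-!
# The cost inequality for t = 2
-/

set_option autoImplicit false

open Finset

namespace Pool.Agent.LS3

lemma numTwo_pow_le_choose (r : ℕ) : ∀ n : ℕ, 3 * r ≤ n → 3 ^ r ≤ n.choose r := by
  induction r with
  | zero => intro n _; simp
  | succ r ih =>
    intro n hn
    obtain ⟨n', rfl⟩ : ∃ n', n = n' + 1 := ⟨n - 1, by omega⟩
    have h1 := ih n' (by omega)
    have h2 : (n' + 1) * n'.choose r = (n' + 1).choose (r + 1) * (r + 1) :=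
      Nat.add_one_mul_choose_eq n' r
    have h3 : 3 ^ (r + 1) * (r + 1) ≤ (n' + 1).choose (r + 1) * (r + 1) := by
      rw [← h2]
      calc 3 ^ (r + 1) * (r + 1) = (3 * (r + 1)) * 3 ^ r := by ring
        _ ≤ (n' + 1) * n'.choose r := Nat.mul_le_mul hn h1
    exact Nat.le_of_mul_le_mul_right h3 (by omega)

lemma numTwo_choose_mono (n a : ℕ) : ∀ b : ℕ, a ≤ b → b ≤ n / 2 → n.choose a ≤ n.choose b := by
  intro b hab
  induction b, hab using Nat.le_induction with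
  | base => intro _; exact le_rfl
  | succ b hab ih =>
    intro hb
    exact (ih (by omega)).trans (Nat.choose_le_succ_of_lt_half_left (by omega))

lemma numTwo_poly (u : ℕ) (hu : 81 ≤ u) : 2 ^ 25 * (3 * u + 3) ^ 9 < 3 ^ (u - 5) := by
  induction u, hu using Nat.le_induction with
  | base => norm_num
  | succ u hu ih =>
    have h1 : 82 * (3 * (u + 1) + 3) ≤ 83 * (3 * u + 3) := by omega
    have h2 : (82 * (3 * (u + 1) + 3)) ^ 9 ≤ (83 * (3 * u + 3)) ^ 9 := Nat.pow_le_pow_left h1 9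
    rw [mul_pow, mul_pow] at h2
    have h3 : 82 ^ 9 * (3 * (u + 1) + 3) ^ 9 ≤ 82 ^ 9 * (3 * (3 * u + 3) ^ 9) := by
      refine h2.trans ?_
      have : (83 : ℕ) ^ 9 ≤ 82 ^ 9 * 3 := by norm_num
      calc 83 ^ 9 * (3 * u + 3) ^ 9 ≤ (82 ^ 9 * 3) * (3 * u + 3) ^ 9 :=
            Nat.mul_le_mul_right _ this
        _ = 82 ^ 9 * (3 * (3 * u + 3) ^ 9) := by ring
    have h4 : (3 * (u + 1) + 3) ^ 9 ≤ 3 * (3 * u + 3) ^ 9 :=
      Nat.le_of_mul_le_mul_left h3 (by norm_num)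
    have h5 : u + 1 - 5 = (u - 5) + 1 := by omega
    rw [h5, pow_succ]
    calc 2 ^ 25 * (3 * (u + 1) + 3) ^ 9 ≤ 2 ^ 25 * (3 * (3 * u + 3) ^ 9) :=
          Nat.mul_le_mul_left _ h4
      _ = (2 ^ 25 * (3 * u + 3) ^ 9) * 3 := by ring
      _ < 3 ^ (u - 5) * 3 := Nat.mul_lt_mul_of_pos_right ih (by norm_num)

lemma numTwo_K : K 0 = 1 ∧ K 1 = 3 ∧ K 2 = 169 := by
  refine ⟨rfl, ?_, ?_⟩ <;> norm_num [K]

lemma numTwo_cost (v : ℕ) : cost 2 v ≤ 2 ^ 25 * (v + 1) ^ 9 := by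
  obtain ⟨k0, k1, k2⟩ := numTwo_K
  have hc : v.choose 2 ≤ (v + 1) ^ 2 := by
    have h1 : v.choose 2 * 2 = v * (v - 1) := by
      rw [Nat.choose_two_right]
      exact Nat.div_mul_cancel (Nat.even_mul_pred_self v).two_dvd
    have h2 : v * (v - 1) ≤ (v + 1) * (v + 1) := Nat.mul_le_mul (by omega) (by omega)
    nlinarith
  have hc' : 2 * v.choose 2 ≤ (v + 1) ^ 2 := by
    have h1 : v.choose 2 * 2 = v * (v - 1) := by
      rw [Nat.choose_two_right]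
      exact Nat.div_mul_cancel (Nat.even_mul_pred_self v).two_dvd
    have h2 : v * (v - 1) ≤ (v + 1) * (v + 1) := Nat.mul_le_mul (by omega) (by omega)
    nlinarith
  set w := v + 1 with hw
  have hw1 : 1 ≤ w := by omega
  have hvw : v ≤ w := by omega
  have e : cost 2 v = 108 * (gd 2 v 0 + v ^ 2 * gd 2 v 1 + v ^ 4 * gd 2 v 2) := by
    unfold cost
    rw [Finset.sum_range_succ, Finset.sum_range_succ, Finset.sum_range_succ, Finset.sum_range_zero]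
    norm_num
  have d0 : dl 2 v 0 = 2 * w ^ 2 := rfl
  have d1 : dl 2 v 1 = 22 * w ^ 2 := by
    show dl 2 v 0 * (1 + 10 * K 0 * v.choose 0) = _
    rw [d0, k0, Nat.choose_zero_right]
    ring
  have d2 : dl 2 v 2 = 22 * w ^ 2 * (1 + 30 * v) := by
    show dl 2 v 1 * (1 + 10 * K 1 * v.choose 1) = _
    rw [d1, k1, Nat.choose_one_right]
  have g0 : gd 2 v 0 = 8 * w ^ 2 := by
    show 4 * K 0 * v.choose 0 * dl 2 v 0 = _
    rw [d0, k0, Nat.choose_zero_right]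
    ring
  have g1 : gd 2 v 1 = 264 * v * w ^ 2 := by
    show 4 * K 1 * v.choose 1 * dl 2 v 1 = _
    rw [d1, k1, Nat.choose_one_right]
    ring
  have g2 : gd 2 v 2 = 338 * (2 * v.choose 2) * (22 * w ^ 2 * (1 + 30 * v)) := by
    show 4 * K 2 * v.choose 2 * dl 2 v 2 = _
    rw [d2, k2]
    ring
  have hlin : 1 + 30 * v ≤ 30 * w := by omega
  have b0 : gd 2 v 0 ≤ 8 * w ^ 9 := by
    rw [g0]
    exact Nat.mul_le_mul_left _ (Nat.pow_le_pow_right hw1 (by norm_num))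
  have b1 : v ^ 2 * gd 2 v 1 ≤ 264 * w ^ 9 := by
    rw [g1]
    calc v ^ 2 * (264 * v * w ^ 2) = 264 * (v ^ 3 * w ^ 2) := by ring
      _ ≤ 264 * (w ^ 3 * w ^ 2) := by gcongr
      _ = 264 * w ^ 5 := by ring
      _ ≤ 264 * w ^ 9 := Nat.mul_le_mul_left _ (Nat.pow_le_pow_right hw1 (by norm_num))
  have b2 : v ^ 4 * gd 2 v 2 ≤ 223080 * w ^ 9 := by
    rw [g2]
    calc v ^ 4 * (338 * (2 * v.choose 2) * (22 * w ^ 2 * (1 + 30 * v)))
        ≤ w ^ 4 * (338 * w ^ 2 * (22 * w ^ 2 * (30 * w))) := by gcongr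
      _ = 223080 * w ^ 9 := by ring
  rw [e]
  calc 108 * (gd 2 v 0 + v ^ 2 * gd 2 v 1 + v ^ 4 * gd 2 v 2)
      ≤ 108 * (8 * w ^ 9 + 264 * w ^ 9 + 223080 * w ^ 9) := by gcongr
    _ = 24122016 * w ^ 9 := by ring
    _ ≤ 2 ^ 25 * w ^ 9 := Nat.mul_le_mul_right _ (by norm_num)

theorem cost_two (m k : ℕ) (hm : 4 ≤ m) (hk1 : 3 ^ m ≤ k) (hk2 : k ≤ 3 ^ m + 2) :
    ∀ s ≤ 2, cost 2 (3 ^ (m + 1) + 2) < (3 ^ (m + 1) + 2 - 2 * s - 3 * (2 + 1)).choose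
      (k - s - (2 + 1)) := by
  intro s hs
  have hu : 81 ≤ 3 ^ m := by
    calc 81 = 3 ^ 4 := by norm_num
      _ ≤ 3 ^ m := Nat.pow_le_pow_right (by norm_num) hm
  rw [pow_succ]
  generalize 3 ^ m = u at *
  have h1 : cost 2 (u * 3 + 2) ≤ 2 ^ 25 * (3 * u + 3) ^ 9 := by
    have := numTwo_cost (u * 3 + 2)
    have e : u * 3 + 2 + 1 = 3 * u + 3 := by ring
    rwa [e] at this
  have h2 := numTwo_poly u hu
  have h3 : 3 ^ (u - 5) ≤ (u * 3 + 2 - 2 * s - 3 * (2 + 1)).choose (u - 5) :=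
    numTwo_pow_le_choose _ _ (by omega)
  have h4 : (u * 3 + 2 - 2 * s - 3 * (2 + 1)).choose (u - 5) ≤
      (u * 3 + 2 - 2 * s - 3 * (2 + 1)).choose (k - s - (2 + 1)) :=
    numTwo_choose_mono _ _ _ (by omega) (by omega)
  exact (h1.trans_lt h2).trans_le (h3.trans h4)

end Pool.Agent.LS3
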