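import Pool.Agent.Lib.MP_2c0b9b_co.Calc1
import Pool.Agent.Lib.MP_2c0b9b_co.Calc2
import Pool.Agent.Lib.MP_2c0b9b_co.Cut

/-!
# Reduction to the special root cases
-/

set_option autoImplicit false

open Finset

namespace Pool.Agent.LS3

lemma red_mod {q c y x : ℕ} (hx : x = q * c + y) (hy : y < q) : x % q = y := by
  subst hx
  rw [Nat.mul_add_mod]
  exact Nat.mod_eq_of_lt hy

lemma red_derived {r k v : ℕ} : ∀ a, G (r + a) (k + a) (v + a) → G r k v
  | 0, h => h
  | a + 1, h => red_derived a (G_derived h)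

lemma red_resid {r k v : ℕ} : ∀ b, G (r + b) k (v + b) → G r k v
  | 0, h => h
  | b + 1, h => red_resid b (G_residual h)

/-- Lower strength at smaller residues. -/
lemma red_lower {t l r k' v' : ℕ} (hq : t + 1 < 3 ^ l) (hr : r ≤ t)
    (hv : v' % 3 ^ l = r) (hk : v' % 3 ^ l < k' % 3 ^ l)
    (hS : ∀ k, (v' + (t - r)) % 3 ^ l = t → t < k % 3 ^ l → G (t + 1) k (v' + (t - r))) :
    G (r + 1) k' v' := by
  set q := 3 ^ l with hqdef
  have hvd := Nat.div_add_mod v' q
  have hkd := Nat.div_add_mod k' q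
  have hkq : k' % q < q := Nat.mod_lt _ (by omega)
  have h1 : (v' + (t - r)) % q = t := red_mod (c := v' / q) (by omega) (by omega)
  set a := t + 1 - k' % q with ha
  have h2 : t < (k' + a) % q := by
    have : (k' + a) % q = k' % q + a := red_mod (c := k' / q) (by omega) (by omega)
    omega
  have h3 := hS (k' + a) h1 h2
  have h4 : t + 1 = (r + 1) + (t - r - a) + a := by omega
  have h5 : v' + (t - r) = v' + (t - r - a) + a := by omega
  rw [h4, h5] at h3
  exact red_resid _ (red_derived _ h3)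

/-- One piece of the rectangle cut. -/
lemma red_piece {t l v : ℕ} (hq : t + 1 < 3 ^ l)
    (hS : ∀ v' < v, ∀ k l, t ≤ v' % 3 ^ l → v' % 3 ^ l < k % 3 ^ l → G (t + 1) k v')
    (c i k' : ℕ) (hi : i < k' % 3 ^ l) (hc : 3 ^ l * c + t < v) (hv' : 3 ^ l * c + i < v) :
    G (min (i + 1) (t + 1)) k' (3 ^ l * c + i) := by
  have hkq : k' % 3 ^ l < 3 ^ l := Nat.mod_lt _ (by omega)
  have hm : (3 ^ l * c + i) % 3 ^ l = i := red_mod rfl (by omega)
  by_cases h : t ≤ i
  · rw [min_eq_right (by omega)]
    exact hS _ hv' k' l (by rw [hm]; exact h) (by rw [hm]; exact hi)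
  · rw [min_eq_left (by omega)]
    refine red_lower hq (by omega) hm (by rw [hm]; exact hi) (fun k h1 h2 => ?_)
    have h3 : 3 ^ l * c + i + (t - i) = 3 ^ l * c + t := by omega
    rw [h3] at h1 ⊢
    exact hS _ hc k l (by rw [h1]) (by rw [h1]; exact h2)

/-- The rectangle cut. -/
lemma red_cut {t l v : ℕ} (hq : t + 1 < 3 ^ l)
    (hS : ∀ v' < v, ∀ k l, t ≤ v' % 3 ^ l → v' % 3 ^ l < k % 3 ^ l → G (t + 1) k v')
    (k w : ℕ) (hv : v = 3 ^ l * (w + 2) + t) (hk : t < k % 3 ^ l) : G (t + 1) k v := by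
  obtain ⟨q, hqd⟩ : ∃ q, q = 3 ^ l := ⟨_, rfl⟩
  have P : ∀ c i k' : ℕ, i < k' % q → q * c + t < v → q * c + i < v →
      G (min (i + 1) (t + 1)) k' (q * c + i) := by
    intro c i k' h1 h2 h3
    rw [hqd] at h1 h2 h3 ⊢
    exact red_piece hq hS c i k' h1 h2 h3
  rw [← hqd] at hq hv hk
  have hkd := Nat.div_add_mod k q
  obtain ⟨k1, hk1⟩ : ∃ k1, k1 = k / q := ⟨_, rfl⟩
  obtain ⟨k0, hk0⟩ : ∃ k0, k0 = k % q := ⟨_, rfl⟩
  rw [← hk1, ← hk0] at hkd
  have hkq : k0 < q := by rw [hk0]; exact Nat.mod_lt _ (by omega)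
  rw [← hk0] at hk
  have e1 : q * (w + 2) = q * w + 2 * q := by ring
  have e2 : q * (w + 1) = q * w + q := by ring
  have e3 : q * 1 = q := mul_one q
  rw [e1] at hv
  refine rect_cut (t + 1) k v k0 (q + t - k0) (by omega) (by omega) ?_ ?_ ?_
  · refine ⟨t + 1, 0, by omega, ?_, good_zero _⟩
    have h := P 1 t k0 (by rw [Nat.mod_eq_of_lt hkq]; exact hk) (by omega) (by omega)
    rw [min_self] at h
    have h2 : k0 + (q + t - k0) = q * 1 + t := by omega
    rw [h2]; exact h
  · intro y hy hJk
    obtain ⟨k2, hk2⟩ : ∃ k2, k1 = k2 + 1 := by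
      cases k1 with
      | zero => exfalso; omega
      | succ k2 => exact ⟨k2, rfl⟩
    have e4 : q * k1 = q * k2 + q := by rw [hk2]; ring
    obtain ⟨i, hi⟩ : ∃ i, i = q + t - k0 - 1 - y := ⟨_, rfl⟩
    have hres : (k - k0 - 1) % q = q - 1 := red_mod (c := k2) (by omega) (by omega)
    have hb := P (w + 1) i (k - k0 - 1) (by rw [hres]; omega) (by omega) (by omega)
    have h2 : v - k0 - y - 1 = q * (w + 1) + i := by omega
    rw [← h2] at hb
    by_cases hit : i < t
    · have ha := P 1 (t - 1 - i) k0 (by rw [Nat.mod_eq_of_lt hkq]; omega) (by omega) (by omega)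
      have h3 : k0 + y = q * 1 + (t - 1 - i) := by omega
      rw [← h3] at ha
      exact ⟨_, _, by omega, ha, hb⟩
    · exact ⟨0, _, by omega, good_zero _, hb⟩
  · intro j hj
    obtain ⟨m, hm⟩ : ∃ m, m = k0 - j := ⟨_, rfl⟩
    have hres : (k - j) % q = m := red_mod (c := k1) (by omega) (by omega)
    have hb := P (w + 1) (m - 1) (k - j) (by rw [hres]; omega) (by omega) (by omega)
    have h2 : v - j - (q + t - k0) - 1 = q * (w + 1) + (m - 1) := by omega
    rw [← h2] at hb
    by_cases hmt : m ≤ t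
    · have ha := P 1 (t - m) j (by rw [Nat.mod_eq_of_lt (by omega)]; omega) (by omega) (by omega)
      have h3 : j + (q + t - k0) = q * 1 + (t - m) := by omega
      rw [← h3] at ha
      exact ⟨_, _, by omega, ha, hb⟩
    · exact ⟨0, _, by omega, good_zero _, hb⟩

theorem reduce (t : ℕ)
    (hroot : ∀ m k, 3 ^ m ≤ k → k ≤ 3 ^ m + t → t < k → k < 3 ^ (m + 1) →
      G (t + 1) k (3 ^ (m + 1) + t)) (v k l : ℕ) (h1 : t ≤ v % 3 ^ l)
    (h2 : v % 3 ^ l < k % 3 ^ l) : G (t + 1) k v := by
  induction v using Nat.strong_induction_on generalizing k l with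
  | _ v ih =>
    by_cases hvk : v < k
    · exact G_of_lt hvk
    have hq0 : 0 < 3 ^ l := by positivity
    have hvd := Nat.div_add_mod v (3 ^ l)
    have hkd := Nat.div_add_mod k (3 ^ l)
    have hkq : k % 3 ^ l < 3 ^ l := Nat.mod_lt _ hq0
    by_cases hv0 : v % 3 ^ l = t
    · rw [hv0] at hvd h2
      obtain ⟨v1, hv1⟩ : ∃ v1, v1 = v / 3 ^ l := ⟨_, rfl⟩
      rw [← hv1] at hvd
      have hkk : k % 3 ^ l ≤ k := Nat.mod_le _ _
      rcases v1 with _ | _ | w
      · exfalso
        rw [mul_zero] at hvd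
        omega
      · rw [zero_add, mul_one] at hvd
        have hkq' : k < 3 ^ l := by
          by_contra hc
          have h3 : k % 3 ^ l = k - 3 ^ l := red_mod (c := 1) (by omega) (by omega)
          omega
        have hkt : t < k := by
          rw [Nat.mod_eq_of_lt hkq'] at h2; exact h2
        obtain ⟨l', rfl⟩ : ∃ l', l = l' + 1 := by
          cases l with
          | zero => exfalso; rw [pow_zero] at hkq'; omega
          | succ l' => exact ⟨l', rfl⟩
        obtain ⟨u, hu⟩ : ∃ u, u = 3 ^ l' := ⟨_, rfl⟩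
        have hu0 : 0 < u := by rw [hu]; positivity
        have hqu : 3 ^ (l' + 1) = 3 * u := by rw [hu, pow_succ, mul_comm]
        have key : ∀ k', t < k' → k' < 3 ^ (l' + 1) → (k' < 2 * u ∨ k' ≤ u + t) →
            G (t + 1) k' v := by
          intro k' hk1 hk2 hk3
          by_cases hres : t < k' % 3 ^ l'
          · have hlt : k' % 3 ^ l' < 3 ^ l' := Nat.mod_lt _ (by positivity)
            refine red_cut (l := l') (by omega) ih k' 1 ?_ hres
            rw [← hu]; omega
          · rw [← hu] at hres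
            have hku : u ≤ k' := by
              by_contra hc
              rw [Nat.mod_eq_of_lt (by omega)] at hres
              exact hres hk1
            have hku2 : k' ≤ u + t := by
              rcases hk3 with h | h
              · have h4 : k' % u = k' - u := red_mod (c := 1) (by omega) (by omega)
                omega
              · exact h
            have h5 := hroot l' k' (by rw [← hu]; exact hku) (by rw [← hu]; exact hku2) hk1 hk2
            rw [hvd] at h5
            exact h5
        by_cases hk2u : k < 2 * u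
        · exact key k hkt hkq' (Or.inl hk2u)
        · have h6 := key (v - k) (by omega) (by omega) (Or.inr (by omega))
          have h7 := G_compl (k := v - k) (by omega) h6
          have h8 : v - (v - k) = k := by omega
          rw [h8] at h7
          exact h7
      · have hvd' : v = 3 ^ l * (w + 2) + t := hvd.symm
        exact red_cut (by omega) ih k w hvd' h2
    · obtain ⟨v', rfl⟩ : ∃ v', v = v' + 1 := ⟨v - 1, by
        rcases Nat.eq_zero_or_pos v with h | h
        · subst h; rw [Nat.zero_mod] at h1 hv0; omega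
        · omega⟩
      obtain ⟨k', rfl⟩ : ∃ k', k = k' + 1 := ⟨k - 1, by
        rcases Nat.eq_zero_or_pos k with h | h
        · subst h; rw [Nat.zero_mod] at h2; omega
        · omega⟩
      have h3 : v' % 3 ^ l = (v' + 1) % 3 ^ l - 1 := red_mod (c := (v' + 1) / 3 ^ l)
        (by omega) (by omega)
      have h4 : k' % 3 ^ l = (k' + 1) % 3 ^ l - 1 := red_mod (c := (k' + 1) / 3 ^ l)
        (by omega) (by omega)
      exact G_add (ih v' (by omega) k' l (by omega) (by omega))
        (ih v' (by omega) (k' + 1) l (by omega) (by omega))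

end Pool.Agent.LS3
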