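import Pool.Agent.Lib.MP_2c0b9b_co.Calc2
import Pool.Agent.Lib.MP_2c0b9b_co.Digits
import Pool.Agent.Lib.MP_2c0b9b_co.Reduce
import Pool.Agent.Lib.MP_2c0b9b_co.Absorb
import Pool.Agent.Lib.MP_2c0b9b_co.NumTwo
import Pool.Agent.Lib.MP_2c0b9b_co.NumLarge
import Pool.Agent.Lib.MP_2c0b9b_co.BaseEleven
import Pool.Agent.Lib.MP_2c0b9b_co.BaseTwentyNine
import Pool.Agent.Lib.MP_2c0b9b_co.BaseEightyThree

set_option autoImplicit false

open Finset

namespace Pool.Agent.LS3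

theorem special_two (m k : ℕ) (h1 : 3 ^ m ≤ k) (h2 : k ≤ 3 ^ m + 2) (h3 : 2 < k)
    (h4 : k < 3 ^ (m + 1)) : G (2 + 1) k (3 ^ (m + 1) + 2) := by
  rcases Nat.lt_or_ge m 4 with hm | hm
  · interval_cases m
    · norm_num at h1 h2 h3 h4; omega
    · norm_num at h1 h2 h3 h4 ⊢
      interval_cases k
      · exact base_3_11
      · exact base_4_11
      · exact base_5_11
    · norm_num at h1 h2 h3 h4 ⊢
      exact base29 k h1 h2
    · norm_num at h1 h2 h3 h4 ⊢
      exact base83 k h1 h2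
  · have h3m : 81 ≤ 3 ^ m := by
      calc 81 = 3 ^ 4 := by norm_num
        _ ≤ 3 ^ m := Nat.pow_le_pow_right (by norm_num) hm
    have hkv : k ≤ 3 ^ (m + 1) + 2 := by omega
    have hmod : (3 ^ (m + 1) + 2) % 3 ^ (m + 1) = 2 := by
      rw [Nat.add_mod_left]
      exact Nat.mod_eq_of_lt (by rw [pow_succ]; omega)
    have hkmod : k % 3 ^ (m + 1) = k := Nat.mod_eq_of_lt h4
    refine absorb 2 k _ hkv (dvd_of_digits 2 k _ (m + 1) hkv ?_ ?_) (cost_two m k hm h1 h2)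
    · rw [hmod]
    · rw [hmod, hkmod]; exact h3

theorem all_two (v k l : ℕ) (h1 : 2 ≤ v % 3 ^ l) (h2 : v % 3 ^ l < k % 3 ^ l) : G 3 k v :=
  reduce 2 (fun m k h1 h2 h3 h4 => special_two m k h1 h2 h3 h4) v k l h1 h2

theorem special_one (m k : ℕ) (h1 : 3 ^ m ≤ k) (h2 : k ≤ 3 ^ m + 1) (h3 : 1 < k)
    (h4 : k < 3 ^ (m + 1)) : G (1 + 1) k (3 ^ (m + 1) + 1) := by
  rcases Nat.eq_zero_or_pos m with hm | hm
  · subst hm
    norm_num at h1 h2 h3 h4 ⊢
    have : k = 2 := by omega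
    subst this
    exact base_2_4
  · have h3m : 3 ≤ 3 ^ m := by
      calc 3 = 3 ^ 1 := by norm_num
        _ ≤ 3 ^ m := Nat.pow_le_pow_right (by norm_num) hm
    have h3m1 : 3 ^ (m + 1) = 3 * 3 ^ m := by rw [pow_succ]; ring
    rcases Nat.lt_or_ge k (3 ^ m + 1) with hk | hk
    · exact G_derived (special_two m (k + 1) (by omega) (by omega) (by omega) (by omega))
    · exact G_residual (special_two m k (by omega) (by omega) (by omega) (by omega))

theorem all_one (v k l : ℕ) (h1 : 1 ≤ v % 3 ^ l) (h2 : v % 3 ^ l < k % 3 ^ l) : G 2 k v :=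
  reduce 1 (fun m k h1 h2 h3 h4 => special_one m k h1 h2 h3 h4) v k l h1 h2

theorem special_zero (m k : ℕ) (h1 : 3 ^ m ≤ k) (h2 : k ≤ 3 ^ m + 0) (h3 : 0 < k)
    (h4 : k < 3 ^ (m + 1)) : G (0 + 1) k (3 ^ (m + 1) + 0) := by
  rcases Nat.eq_zero_or_pos m with hm | hm
  · subst hm
    norm_num at h1 h2 h3 h4 ⊢
    have : k = 1 := by omega
    subst this
    exact base_1_3
  · have h3m : 3 ≤ 3 ^ m := by
      calc 3 = 3 ^ 1 := by norm_num
        _ ≤ 3 ^ m := Nat.pow_le_pow_right (by norm_num) hm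
    exact G_residual (special_one m k (by omega) (by omega) (by omega) h4)

theorem all_zero (v k l : ℕ) (h1 : 0 ≤ v % 3 ^ l) (h2 : v % 3 ^ l < k % 3 ^ l) : G 1 k v :=
  reduce 0 (fun m k h1 h2 h3 h4 => special_zero m k h1 h2 h3 h4) v k l h1 h2

theorem strength_two : ∀ t k v : ℕ, t ≤ 2 → t ≤ k → k ≤ v →
      ((∃ f : Finset (Fin v) → Fin 3, ∀ j : Fin 3, ∀ T : Finset (Fin v), T.card = t →
          3 * ((Finset.powersetCard k (Finset.univ : Finset (Fin v))).filter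
                (fun B => f B = j ∧ T ⊆ B)).card = (v - t).choose (k - t))
        ↔ ∀ i : ℕ, i ≤ t → 3 ∣ (v - i).choose (k - i)) := by
  intro t k v ht htk hkv
  constructor
  · intro h
    exact dvd_of_LS htk hkv h
  · intro h
    obtain ⟨l, hl1, hl2⟩ := digits t k v htk hkv h
    apply LS_of_G htk hkv
    interval_cases t
    · exact all_zero v k l hl1 hl2
    · exact all_one v k l hl1 hl2
    · exact all_two v k l hl1 hl2

theorem large_blocks : ∀ t : ℕ, ∃ K₀ : ℕ, ∀ k v : ℕ, t ≤ k → K₀ ≤ k → k + K₀ ≤ v →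
      ((∃ f : Finset (Fin v) → Fin 3, ∀ j : Fin 3, ∀ T : Finset (Fin v), T.card = t →
          3 * ((Finset.powersetCard k (Finset.univ : Finset (Fin v))).filter
                (fun B => f B = j ∧ T ⊆ B)).card = (v - t).choose (k - t))
        ↔ ∀ i : ℕ, i ≤ t → 3 ∣ (v - i).choose (k - i)) := by
  intro t
  obtain ⟨K₀, hK⟩ := cost_large t
  refine ⟨K₀, fun k v htk hk hkv => ⟨fun h => dvd_of_LS htk (by omega) h, fun h => ?_⟩⟩
  exact LS_of_G htk (by omega) (absorb t k v (by omega) h (hK k v hk hkv))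

end Pool.Agent.LS3
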