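import Pool.Agent.Lib.MP_2c0b9b_co.Defs
import Pool.Agent.Lib.MP_2c0b9b_co.NumLarge
import Pool.Agent.Lib.MP_2c0b9b_co.NumTwo

/-!
# The cost inequality with the explicit bound `(t + 3)!`
-/

set_option autoImplicit false

open Finset

namespace Pool.Agent.LS3

lemma numExp_pow_choose (r : ℕ) : ∀ n : ℕ, r ≤ n → n ^ r ≤ r ^ r * n.choose r := by
  induction r with
  | zero => intro n _; simp
  | succ r ih =>
    intro n hn
    obtain ⟨m, rfl⟩ : ∃ m, n = m + 1 := ⟨n - 1, by omega⟩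
    have h1 := ih m (by omega)
    have h2 : (m + 1) * m.choose r = (m + 1).choose (r + 1) * (r + 1) :=
      Nat.add_one_mul_choose_eq m r
    have h3 : (m + 1) ^ r ≤ (r + 1) ^ r * m.choose r := by
      rcases Nat.eq_zero_or_pos r with h0 | h0
      · subst h0; simp
      · have h4 : ((m + 1) * r) ^ r ≤ (m * (r + 1)) ^ r :=
          Nat.pow_le_pow_left (by nlinarith) r
        rw [mul_pow, mul_pow] at h4
        have h5 : (m + 1) ^ r * r ^ r ≤ ((r + 1) ^ r * m.choose r) * r ^ r := by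
          calc (m + 1) ^ r * r ^ r ≤ m ^ r * (r + 1) ^ r := h4
            _ ≤ (r ^ r * m.choose r) * (r + 1) ^ r := Nat.mul_le_mul_right _ h1
            _ = ((r + 1) ^ r * m.choose r) * r ^ r := by ring
        exact Nat.le_of_mul_le_mul_right h5 (by positivity)
    calc (m + 1) ^ (r + 1) = (m + 1) ^ r * (m + 1) := pow_succ _ _
      _ ≤ ((r + 1) ^ r * m.choose r) * (m + 1) := Nat.mul_le_mul_right _ h3
      _ = (r + 1) ^ r * ((m + 1) * m.choose r) := by ring
      _ = (r + 1) ^ (r + 1) * (m + 1).choose (r + 1) := by rw [h2]; ring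

/-- The comparison of a polynomial bound with a binomial coefficient. -/
lemma numExp_core (A E B R n v C : ℕ) (hC : C ≤ 2 ^ A * (v + 1) ^ E) (hRB : R ≤ 2 ^ B)
    (hA : A + E * (2 + B) < R) (hn : 2 * R ≤ n) (hv : v + 1 ≤ 2 * n) : C < n.choose R := by
  have hER : E ≤ R := by nlinarith
  have h0 : 0 < R := by omega
  have hn0 : 0 < n := by omega
  have h1 : n ^ R ≤ R ^ R * n.choose R := numExp_pow_choose R n (by omega)
  have h2 : R ^ R * (2 ^ A * (v + 1) ^ E) < n ^ R := by
    have e1 : R ^ R = R ^ E * R ^ (R - E) := by rw [← pow_add]; congr 1; omega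
    have e2 : n ^ R = n ^ E * n ^ (R - E) := by rw [← pow_add]; congr 1; omega
    have h3 : (2 * R) ^ (R - E) ≤ n ^ (R - E) := Nat.pow_le_pow_left hn _
    have h4 : (v + 1) ^ E ≤ (2 * n) ^ E := Nat.pow_le_pow_left hv _
    have h5 : R ^ E ≤ 2 ^ (B * E) := by
      rw [pow_mul]; exact Nat.pow_le_pow_left hRB _
    have h6 : 2 ^ (A + E + B * E) < 2 ^ (R - E) := by
      apply Nat.pow_lt_pow_right (by norm_num)
      have : A + E * (2 + B) = A + E + B * E + E := by ring
      omega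
    calc R ^ R * (2 ^ A * (v + 1) ^ E)
        = R ^ E * R ^ (R - E) * (2 ^ A * (v + 1) ^ E) := by rw [e1]
      _ ≤ 2 ^ (B * E) * R ^ (R - E) * (2 ^ A * (2 * n) ^ E) := by gcongr
      _ = 2 ^ (A + E + B * E) * (n ^ E * R ^ (R - E)) := by
          rw [mul_pow, pow_add, pow_add]; ring
      _ < 2 ^ (R - E) * (n ^ E * R ^ (R - E)) :=
          Nat.mul_lt_mul_of_pos_right h6 (by positivity)
      _ = n ^ E * (2 * R) ^ (R - E) := by rw [mul_pow]; ring
      _ ≤ n ^ E * n ^ (R - E) := Nat.mul_le_mul_left _ h3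
      _ = n ^ R := e2.symm
  have h3 : R ^ R * (2 ^ A * (v + 1) ^ E) < R ^ R * n.choose R := h2.trans_le h1
  exact hC.trans_lt (Nat.lt_of_mul_lt_mul_left h3)

/-! ### The constants `K` -/

lemma numExp_K_three : K 3 = 2476813977 := by
  have h2 := numTwo_K.2.2
  show (1 + 2 ^ (2 + 1) * K 2) ^ (2 + 1) = _
  rw [h2]
  norm_num

lemma numExp_K_pos (s : ℕ) : 0 < K s := by
  cases s with
  | zero => norm_num [K]
  | succ s => simp only [K]; positivity

lemma numExp_K (s : ℕ) (hs : 3 ≤ s) : K s * 2 ^ (s + 4) ≤ 2 ^ (7 * s.factorial) := by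
  induction s, hs using Nat.le_induction with
  | base => rw [numExp_K_three]; norm_num [Nat.factorial]
  | succ s hs ih =>
    have h1 : 1 + 2 ^ (s + 1) * K s ≤ 2 ^ (s + 2) * K s := by
      have h2 : 1 ≤ 2 ^ (s + 1) * K s := Nat.succ_le_of_lt (Nat.mul_pos (by positivity)
        (numExp_K_pos s))
      calc 1 + 2 ^ (s + 1) * K s ≤ 2 ^ (s + 1) * K s + 2 ^ (s + 1) * K s := by omega
        _ = 2 ^ (s + 2) * K s := by rw [pow_succ 2 (s + 1)]; ring
    have h3 : K (s + 1) ≤ (2 ^ (s + 2) * K s) ^ (s + 1) := by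
      simp only [K]
      exact Nat.pow_le_pow_left h1 _
    have h4 : (4 * (2 ^ (s + 2) * K s)) ^ (s + 1) ≤ 2 ^ (7 * (s + 1).factorial) := by
      have e1 : 4 * (2 ^ (s + 2) * K s) = K s * 2 ^ (s + 4) := by
        rw [show s + 4 = s + 2 + 2 by ring, pow_add 2 (s + 2) 2]; ring
      rw [e1, Nat.factorial_succ, show 7 * ((s + 1) * s.factorial) =
        (7 * s.factorial) * (s + 1) by ring, pow_mul]
      exact Nat.pow_le_pow_left ih _
    calc K (s + 1) * 2 ^ (s + 1 + 4) ≤ (2 ^ (s + 2) * K s) ^ (s + 1) * 4 ^ (s + 1) := by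
          refine Nat.mul_le_mul h3 ?_
          rw [show (4 : ℕ) = 2 ^ 2 by norm_num, ← pow_mul]
          exact Nat.pow_le_pow_right (by norm_num) (by omega)
      _ = (4 * (2 ^ (s + 2) * K s)) ^ (s + 1) := by rw [mul_pow 4]; ring
      _ ≤ _ := h4

lemma numExp_prod (t : ℕ) (ht : 3 ≤ t) :
    ∏ i ∈ range (t + 1), K i ≤ 2 ^ (14 * t.factorial) := by
  induction t, ht using Nat.le_induction with
  | base =>
    rw [Finset.prod_range_succ, Finset.prod_range_succ, Finset.prod_range_succ,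
      Finset.prod_range_succ, Finset.prod_range_zero, numTwo_K.1, numTwo_K.2.1, numTwo_K.2.2,
      numExp_K_three]
    norm_num [Nat.factorial]
  | succ t ht ih =>
    rw [Finset.prod_range_succ]
    have h1 : K (t + 1) ≤ 2 ^ (7 * (t + 1).factorial) :=
      (Nat.le_mul_of_pos_right _ (by positivity)).trans (numExp_K (t + 1) (by omega))
    calc (∏ i ∈ range (t + 1), K i) * K (t + 1)
        ≤ 2 ^ (14 * t.factorial) * 2 ^ (7 * (t + 1).factorial) := Nat.mul_le_mul ih h1
      _ = 2 ^ (14 * t.factorial + 7 * (t + 1).factorial) := (pow_add _ _ _).symm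
      _ ≤ 2 ^ (14 * (t + 1).factorial) := by
          apply Nat.pow_le_pow_right (by norm_num)
          have h2 : 2 * t.factorial ≤ (t + 1).factorial := by
            rw [Nat.factorial_succ]
            exact Nat.mul_le_mul_right _ (by omega)
          omega

/-! ### The cost -/

lemma numExp_dl (t v s : ℕ) :
    dl t v s ≤ 2 * (v + 1) ^ t * ∏ i ∈ range s, (11 * K i * (v + 1) ^ i) := by
  induction s with
  | zero => simp [dl]
  | succ s ih =>
    rw [Finset.prod_range_succ]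
    have h1 : 1 + 10 * K s * v.choose s ≤ 11 * K s * (v + 1) ^ s := by
      have h2 : v.choose s ≤ (v + 1) ^ s :=
        (Nat.choose_le_pow v s).trans (Nat.pow_le_pow_left (Nat.le_succ v) s)
      have h3 : 1 ≤ K s * (v + 1) ^ s :=
        Nat.succ_le_of_lt (Nat.mul_pos (numExp_K_pos s) (by positivity))
      calc 1 + 10 * K s * v.choose s ≤ K s * (v + 1) ^ s + 10 * K s * (v + 1) ^ s :=
            Nat.add_le_add h3 (Nat.mul_le_mul_left _ h2)
        _ = 11 * K s * (v + 1) ^ s := by ring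
    calc dl t v (s + 1) = dl t v s * (1 + 10 * K s * v.choose s) := rfl
      _ ≤ (2 * (v + 1) ^ t * ∏ i ∈ range s, (11 * K i * (v + 1) ^ i)) *
          (11 * K s * (v + 1) ^ s) := Nat.mul_le_mul ih h1
      _ = _ := by ring

lemma numExp_cost (t v : ℕ) (ht : 3 ≤ t) :
    cost t v ≤ 2 ^ (8 * t + 9 + 14 * t.factorial) * (v + 1) ^ (t ^ 2 + 2 * t) := by
  set w := v + 1 with hw
  have hw1 : 1 ≤ w := by omega
  set Q := ∏ i ∈ range (t + 1), (11 * K i * w ^ i) with hQ
  have hterm : ∀ s ∈ range (t + 1), v ^ (2 * s) * gd t v s ≤ 8 * w ^ (3 * t) * Q := by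
    intro s hs
    have hst : s ≤ t := by simpa [Nat.lt_succ_iff] using hs
    have h1 : v.choose s ≤ w ^ s :=
      (Nat.choose_le_pow v s).trans (Nat.pow_le_pow_left (Nat.le_succ v) s)
    have h2 : dl t v s * (11 * K s * w ^ s) ≤ 2 * w ^ t * Q := by
      calc dl t v s * (11 * K s * w ^ s)
          ≤ (2 * w ^ t * ∏ i ∈ range s, (11 * K i * w ^ i)) * (11 * K s * w ^ s) :=
            Nat.mul_le_mul_right _ (numExp_dl t v s)
        _ = 2 * w ^ t * ∏ i ∈ range (s + 1), (11 * K i * w ^ i) := by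
            rw [Finset.prod_range_succ]; ring
        _ ≤ 2 * w ^ t * Q := by
            refine Nat.mul_le_mul_left _ ?_
            rw [hQ]
            apply Finset.prod_le_prod_of_subset_of_one_le'
            · intro i hi
              simp only [Finset.mem_range] at hi ⊢
              omega
            · intro i _ _
              exact Nat.succ_le_of_lt (Nat.mul_pos (Nat.mul_pos (by norm_num) (numExp_K_pos i))
                (by positivity))
    have h3 : v ^ (2 * s) ≤ w ^ (2 * t) :=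
      (Nat.pow_le_pow_left (Nat.le_succ v) _).trans (Nat.pow_le_pow_right hw1 (by omega))
    calc v ^ (2 * s) * gd t v s = v ^ (2 * s) * (4 * (dl t v s * (K s * v.choose s))) := by
          unfold gd; ring
      _ ≤ w ^ (2 * t) * (4 * (dl t v s * (11 * K s * w ^ s))) := by
          refine Nat.mul_le_mul h3 (Nat.mul_le_mul_left _ (Nat.mul_le_mul_left _ ?_))
          calc K s * v.choose s ≤ K s * w ^ s := Nat.mul_le_mul_left _ h1
            _ ≤ 11 * (K s * w ^ s) := Nat.le_mul_of_pos_left _ (by norm_num)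
            _ = 11 * K s * w ^ s := by ring
      _ ≤ w ^ (2 * t) * (4 * (2 * w ^ t * Q)) :=
          Nat.mul_le_mul_left _ (Nat.mul_le_mul_left _ h2)
      _ = 8 * w ^ (3 * t) * Q := by
          rw [show 3 * t = 2 * t + t by ring, pow_add]; ring
  have hsum : ∑ s ∈ range (t + 1), v ^ (2 * s) * gd t v s ≤ (t + 1) * (8 * w ^ (3 * t) * Q) := by
    have := Finset.sum_le_card_nsmul _ _ _ hterm
    simpa using this
  have hQ' : Q = 11 ^ (t + 1) * (∏ i ∈ range (t + 1), K i) * w ^ (∑ i ∈ range (t + 1), i) := by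
    rw [hQ, Finset.prod_mul_distrib, Finset.prod_mul_distrib, Finset.prod_pow_eq_pow_sum,
      Finset.prod_const, Finset.card_range]
  have hS : 3 * t + ∑ i ∈ range (t + 1), i ≤ t ^ 2 + 2 * t := by
    have h1 := Finset.sum_range_id_mul_two (t + 1)
    simp only [Nat.add_sub_cancel] at h1
    nlinarith
  have hP := numExp_prod t ht
  have b1 : (3 : ℕ) ^ (t + 1) ≤ 2 ^ (2 * (t + 1)) := by
    rw [pow_mul]; exact Nat.pow_le_pow_left (by norm_num) _
  have b2 : (11 : ℕ) ^ (t + 1) ≤ 2 ^ (4 * (t + 1)) := by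
    rw [pow_mul]; exact Nat.pow_le_pow_left (by norm_num) _
  have b3 : t + 1 ≤ 2 ^ t := Nat.succ_le_of_lt Nat.lt_two_pow_self
  calc cost t v = 3 ^ (t + 1) * 2 ^ t * ∑ s ∈ range (t + 1), v ^ (2 * s) * gd t v s := rfl
    _ ≤ 3 ^ (t + 1) * 2 ^ t * ((t + 1) * (8 * w ^ (3 * t) * Q)) := Nat.mul_le_mul_left _ hsum
    _ = 3 ^ (t + 1) * 2 ^ t * ((t + 1) * (8 * w ^ (3 * t) * (11 ^ (t + 1) *
        (∏ i ∈ range (t + 1), K i) * w ^ (∑ i ∈ range (t + 1), i)))) := by rw [hQ']
    _ ≤ 2 ^ (2 * (t + 1)) * 2 ^ t * (2 ^ t * (8 * w ^ (3 * t) * (2 ^ (4 * (t + 1)) *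
        2 ^ (14 * t.factorial) * w ^ (∑ i ∈ range (t + 1), i)))) := by gcongr
    _ = 2 ^ (8 * t + 9 + 14 * t.factorial) * w ^ (3 * t + ∑ i ∈ range (t + 1), i) := by
        rw [show 8 * t + 9 + 14 * t.factorial = 2 * (t + 1) + t + t + 3 + 4 * (t + 1) +
          14 * t.factorial by ring]
        simp only [pow_add]
        ring
    _ ≤ _ := Nat.mul_le_mul_left _ (Nat.pow_le_pow_right hw1 hS)

/-! ### The numerical inequalities -/

lemma numExp_fact (t : ℕ) (ht : 3 ≤ t) : (t + 3).factorial ≤ 2 ^ (t ^ 2 + 1) := by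
  induction t, ht using Nat.le_induction with
  | base => norm_num [Nat.factorial]
  | succ t ht ih =>
    rw [show t + 1 + 3 = (t + 3) + 1 by ring, Nat.factorial_succ]
    have h1 : t + 3 + 1 ≤ 2 ^ (2 * t + 1) := by
      have h2 : t + 1 ≤ 2 ^ t := Nat.succ_le_of_lt Nat.lt_two_pow_self
      calc t + 3 + 1 ≤ 2 * ((t + 1) * (t + 1)) := by nlinarith
        _ ≤ 2 * (2 ^ t * 2 ^ t) := by gcongr
        _ = 2 ^ (2 * t + 1) := by rw [pow_succ, two_mul t, pow_add]; ring
    calc (t + 3 + 1) * (t + 3).factorial ≤ 2 ^ (2 * t + 1) * 2 ^ (t ^ 2 + 1) :=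
          Nat.mul_le_mul h1 ih
      _ = 2 ^ ((t + 1) ^ 2 + 1) := by rw [← pow_add]; congr 1; ring

lemma numExp_poly (t : ℕ) (ht : 3 ≤ t) :
    (t ^ 2 + 2 * t) * (t ^ 2 + 3) + 11 * t + 11 < 106 * t.factorial := by
  induction t, ht using Nat.le_induction with
  | base => norm_num [Nat.factorial]
  | succ t ht ih =>
    rw [Nat.factorial_succ]
    have h1 : ((t + 1) ^ 2 + 2 * (t + 1)) * ((t + 1) ^ 2 + 3) + 11 * (t + 1) + 11 ≤
        (t + 1) * ((t ^ 2 + 2 * t) * (t ^ 2 + 3) + 11 * t + 11) := by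
      obtain ⟨u, rfl⟩ : ∃ u, t = u + 3 := ⟨t - 3, by omega⟩
      ring_nf
      nlinarith [Nat.zero_le u, Nat.zero_le (u ^ 2), Nat.zero_le (u ^ 3), Nat.zero_le (u ^ 4),
        Nat.zero_le (u ^ 5)]
    calc ((t + 1) ^ 2 + 2 * (t + 1)) * ((t + 1) ^ 2 + 3) + 11 * (t + 1) + 11
        ≤ (t + 1) * ((t ^ 2 + 2 * t) * (t ^ 2 + 3) + 11 * t + 11) := h1
      _ < (t + 1) * (106 * t.factorial) := Nat.mul_lt_mul_of_pos_left ih (by omega)
      _ = 106 * ((t + 1) * t.factorial) := by ring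

lemma numExp_final (t : ℕ) (ht : 3 ≤ t) :
    8 * t + 9 + 14 * t.factorial + (t ^ 2 + 2 * t) * (2 + (t ^ 2 + 1)) <
      (t + 3).factorial - 3 * t - 2 := by
  have h1 := numExp_poly t ht
  have h2 : 120 * t.factorial ≤ (t + 3).factorial := by
    rw [show (t + 3).factorial = (t + 3) * ((t + 2) * ((t + 1) * t.factorial)) by
      rw [Nat.factorial_succ, Nat.factorial_succ, Nat.factorial_succ]]
    calc 120 * t.factorial = 6 * (5 * (4 * t.factorial)) := by ring
      _ ≤ (t + 3) * ((t + 2) * ((t + 1) * t.factorial)) := by gcongr <;> omega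
  have h3 : (t ^ 2 + 2 * t) * (2 + (t ^ 2 + 1)) = (t ^ 2 + 2 * t) * (t ^ 2 + 3) := by ring
  rw [h3]
  omega

lemma numExp_one (v : ℕ) (hv : 48 ≤ v) : 4752 * (v + 1) ^ 4 < (v - 8).choose 19 := by
  induction v, hv using Nat.le_induction with
  | base => norm_num [Nat.choose]
  | succ v hv ih =>
    have h1 : (v - 8).choose 19 * (v - 8 + 1) = (v - 8 + 1).choose 19 * (v - 8 + 1 - 19) :=
      Nat.choose_mul_succ_eq _ _
    have h2 : (v + 1 + 1) ^ 4 * (v - 8 + 1 - 19) ≤ (v + 1) ^ 4 * (v - 8 + 1) := by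
      obtain ⟨u, rfl⟩ : ∃ u, v = u + 48 := ⟨v - 48, by omega⟩
      rw [show u + 48 - 8 + 1 - 19 = u + 22 by omega, show u + 48 - 8 + 1 = u + 41 by omega]
      ring_nf
      nlinarith [Nat.zero_le u, Nat.zero_le (u ^ 2), Nat.zero_le (u ^ 3), Nat.zero_le (u ^ 4),
        Nat.zero_le (u ^ 5)]
    rw [show v + 1 - 8 = v - 8 + 1 by omega]
    have h3 : 4752 * (v + 1 + 1) ^ 4 * (v - 8 + 1 - 19) <
        (v - 8 + 1).choose 19 * (v - 8 + 1 - 19) := by
      calc 4752 * (v + 1 + 1) ^ 4 * (v - 8 + 1 - 19)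
          = 4752 * ((v + 1 + 1) ^ 4 * (v - 8 + 1 - 19)) := by ring
        _ ≤ 4752 * ((v + 1) ^ 4 * (v - 8 + 1)) := Nat.mul_le_mul_left _ h2
        _ = 4752 * (v + 1) ^ 4 * (v - 8 + 1) := by ring
        _ < (v - 8).choose 19 * (v - 8 + 1) := Nat.mul_lt_mul_of_pos_right ih (by omega)
        _ = _ := h1
    exact Nat.lt_of_mul_lt_mul_right h3

lemma numExp_cost_one (v : ℕ) : cost 1 v ≤ 4752 * (v + 1) ^ 4 := by
  obtain ⟨k0, k1, _⟩ := numTwo_K
  have e : cost 1 v = 18 * (gd 1 v 0 + v ^ 2 * gd 1 v 1) := by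
    unfold cost
    rw [Finset.sum_range_succ, Finset.sum_range_succ, Finset.sum_range_zero]
    norm_num
  have d0 : dl 1 v 0 = 2 * (v + 1) := by
    show 2 * (v + 1) ^ 1 = _
    ring
  have d1 : dl 1 v 1 = 22 * (v + 1) := by
    show dl 1 v 0 * (1 + 10 * K 0 * v.choose 0) = _
    rw [d0, k0, Nat.choose_zero_right]
    ring
  have g0 : gd 1 v 0 = 8 * (v + 1) := by
    show 4 * K 0 * v.choose 0 * dl 1 v 0 = _
    rw [d0, k0, Nat.choose_zero_right]
    ring
  have g1 : gd 1 v 1 = 264 * v * (v + 1) := by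
    show 4 * K 1 * v.choose 1 * dl 1 v 1 = _
    rw [d1, k1, Nat.choose_one_right]
    ring
  rw [e, g0, g1]
  ring_nf
  nlinarith [Nat.zero_le v, Nat.zero_le (v ^ 2), Nat.zero_le (v ^ 3)]

theorem cost_explicit (t k v : ℕ) (hk : (t + 3).factorial ≤ k) (hkv : k + (t + 3).factorial ≤ v) :
    ∀ s ≤ t, cost t v < (v - 2 * s - 3 * (t + 1)).choose (k - s - (t + 1)) := by
  intro s hs
  rcases Nat.lt_or_ge t 2 with ht | ht
  · rcases Nat.lt_or_ge t 1 with ht | ht
    · -- t = 0
      obtain rfl : t = 0 := by omega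
      obtain rfl : s = 0 := by omega
      have h6 : (0 + 3).factorial = 6 := by norm_num [Nat.factorial]
      rw [h6] at hk hkv
      have hc : cost 0 v = 24 := by
        unfold cost
        simp [gd, dl, K]
      have h1 : (v - 2 * 0 - 3 * (0 + 1)).choose 4 ≤
          (v - 2 * 0 - 3 * (0 + 1)).choose (k - 0 - (0 + 1)) :=
        NL_choose_mono _ _ _ (by omega) (by omega)
      have h2 : Nat.choose 9 4 ≤ (v - 2 * 0 - 3 * (0 + 1)).choose 4 :=
        Nat.choose_le_choose 4 (by omega)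
      have h3 : Nat.choose 9 4 = 126 := by norm_num [Nat.choose]
      omega
    · -- t = 1
      obtain rfl : t = 1 := by omega
      have h6 : (1 + 3).factorial = 24 := by norm_num [Nat.factorial]
      rw [h6] at hk hkv
      have h1 : (v - 2 * s - 3 * (1 + 1)).choose 19 ≤
          (v - 2 * s - 3 * (1 + 1)).choose (k - s - (1 + 1)) :=
        NL_choose_mono _ _ _ (by omega) (by omega)
      have h2 : (v - 8).choose 19 ≤ (v - 2 * s - 3 * (1 + 1)).choose 19 :=
        Nat.choose_le_choose 19 (by omega)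
      exact (numExp_cost_one v).trans_lt ((numExp_one v (by omega)).trans_le (h2.trans h1))
  · have hN : 24 * (t + 3) ≤ (t + 3).factorial := by
      rw [Nat.factorial_succ]
      have h1 : (4 : ℕ).factorial ≤ (t + 2).factorial := Nat.factorial_le (by omega)
      have h2 : (4 : ℕ).factorial = 24 := by norm_num [Nat.factorial]
      rw [h2] at h1
      rw [mul_comm]
      exact Nat.mul_le_mul_left _ h1
    set N := (t + 3).factorial with hNdef
    set R := N - 3 * t - 2 with hR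
    have h1 : (v - 2 * s - 3 * (t + 1)).choose R ≤
        (v - 2 * s - 3 * (t + 1)).choose (k - s - (t + 1)) :=
      NL_choose_mono _ _ _ (by omega) (by omega)
    refine lt_of_lt_of_le ?_ h1
    rcases Nat.lt_or_ge t 3 with ht3 | ht3
    · obtain rfl : t = 2 := by omega
      have hN2 : N = 120 := by rw [hNdef]; norm_num [Nat.factorial]
      refine numExp_core 25 9 7 R _ v _ (numTwo_cost v) ?_ ?_ ?_ ?_
      · rw [hR, hN2]; norm_num
      · rw [hR, hN2]; norm_num
      · omega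
      · omega
    · refine numExp_core (8 * t + 9 + 14 * t.factorial) (t ^ 2 + 2 * t) (t ^ 2 + 1) R _ v _
        (numExp_cost t v ht3) ?_ ?_ ?_ ?_
      · have := numExp_fact t ht3
        omega
      · exact numExp_final t ht3
      · omega
      · omega

end Pool.Agent.LS3
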