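import Pool.Agent.Lib.MP_2c0b9b_co.Calc2
import Pool.Agent.Lib.MP_2c0b9b_co.Digits
import Pool.Agent.Lib.MP_2c0b9b_co.Reduce
import Pool.Agent.Lib.MP_2c0b9b_co.Absorb
import Pool.Agent.Lib.MP_2c0b9b_co.NumExplicit

/-!
# Explicit bound for large blocks, and the reduction to finitely many parameters
-/

set_option autoImplicit false

open Finset

namespace Pool.Agent.LS3

theorem explicit_blocks : ∀ t k v : ℕ, (t + 3).factorial ≤ k → k + (t + 3).factorial ≤ v →
      ((∃ f : Finset (Fin v) → Fin 3, ∀ j : Fin 3, ∀ T : Finset (Fin v), T.card = t →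
          3 * ((Finset.powersetCard k (Finset.univ : Finset (Fin v))).filter
                (fun B => f B = j ∧ T ⊆ B)).card = (v - t).choose (k - t))
        ↔ ∀ i : ℕ, i ≤ t → 3 ∣ (v - i).choose (k - i)) := by
  intro t k v hk hkv
  have h1 : t + 3 ≤ (t + 3).factorial := Nat.self_le_factorial _
  refine ⟨fun h => dvd_of_LS (by omega) (by omega) h, fun h => ?_⟩
  exact LS_of_G (by omega) (by omega) (absorb t k v (by omega) h (cost_explicit t k v hk hkv))

/-- The special roots have the divisibility property. -/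
theorem special_dvd (t m k : ℕ) (_h1 : 3 ^ m ≤ k) (h2 : k ≤ 3 ^ m + t) (h3 : t < k)
    (h4 : k < 3 ^ (m + 1)) : ∀ i ≤ t, 3 ∣ (3 ^ (m + 1) + t - i).choose (k - i) := by
  have h5 : 3 ^ m ≤ 3 ^ (m + 1) := Nat.pow_le_pow_right (by norm_num) (by omega)
  have hmod : (3 ^ (m + 1) + t) % 3 ^ (m + 1) = t := by
    rw [Nat.add_mod_left]
    exact Nat.mod_eq_of_lt (by omega)
  have hkmod : k % 3 ^ (m + 1) = k := Nat.mod_eq_of_lt h4
  exact dvd_of_digits t k _ (m + 1) (by omega) (by rw [hmod]) (by rw [hmod, hkmod]; exact h3)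

theorem finite_reduction : ∀ t : ℕ,
      (∀ k v : ℕ, t ≤ k → k ≤ v →
        ((∃ f : Finset (Fin v) → Fin 3, ∀ j : Fin 3, ∀ T : Finset (Fin v), T.card = t →
          3 * ((Finset.powersetCard k (Finset.univ : Finset (Fin v))).filter
                (fun B => f B = j ∧ T ⊆ B)).card = (v - t).choose (k - t))
        ↔ ∀ i : ℕ, i ≤ t → 3 ∣ (v - i).choose (k - i))) ↔
      (∀ m k : ℕ, 3 ^ m < (t + 3).factorial → 3 ^ m ≤ k → k ≤ 3 ^ m + t → t < k →
        k < 3 ^ (m + 1) →
        ∃ f : Finset (Fin (3 ^ (m + 1) + t)) → Fin 3, ∀ j : Fin 3,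
          ∀ T : Finset (Fin (3 ^ (m + 1) + t)), T.card = t →
          3 * ((Finset.powersetCard k
            (Finset.univ : Finset (Fin (3 ^ (m + 1) + t)))).filter
                (fun B => f B = j ∧ T ⊆ B)).card = (3 ^ (m + 1) + t - t).choose (k - t)) := by
  intro t
  constructor
  · intro h m k _ h1 h2 h3 h4
    have h5 : 3 ^ m ≤ 3 ^ (m + 1) := Nat.pow_le_pow_right (by norm_num) (by omega)
    exact (h k (3 ^ (m + 1) + t) (by omega) (by omega)).2 (special_dvd t m k h1 h2 h3 h4)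
  · intro h k v htk hkv
    refine ⟨fun h' => dvd_of_LS htk hkv h', fun h' => ?_⟩
    obtain ⟨l, hl1, hl2⟩ := digits t k v htk hkv h'
    apply LS_of_G htk hkv
    refine reduce t (fun m k h1 h2 h3 h4 => ?_) v k l hl1 hl2
    have h5 : 3 ^ (m + 1) = 3 * 3 ^ m := by rw [pow_succ]; ring
    rcases Nat.lt_or_ge (3 ^ m) (t + 3).factorial with h6 | h6
    · exact G_of_LS (by omega) (by omega) (h m k h6 h1 h2 h3 h4)
    · exact absorb t k _ (by omega) (special_dvd t m k h1 h2 h3 h4)
        (cost_explicit t k _ (by omega) (by omega))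

end Pool.Agent.LS3
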