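import Pool.Agent.Lib.MP_2c0b9b_co.NumTwo

/-!
# The cost inequality for t = 3
-/

set_option autoImplicit false

open Finset

namespace Pool.Agent.LS3

lemma numThree_K : K 0 = 1 ∧ K 1 = 3 ∧ K 2 = 169 ∧ K 3 = 2476813977 := by
  refine ⟨rfl, ?_, ?_, ?_⟩ <;> norm_num [K]

lemma numThree_cost (v : ℕ) : cost 3 v ≤ 2 ^ 60 * (v + 1) ^ 15 := by
  obtain ⟨k0, k1, k2, k3⟩ := numThree_K
  have hc2 : v.choose 2 * 2 = v * (v - 1) := by
    rw [Nat.choose_two_right]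
    exact Nat.div_mul_cancel (Nat.even_mul_pred_self v).two_dvd
  have hc3 : v.choose 3 * 6 ≤ (v + 1) ^ 3 := by
    have h1 : v.choose 3 * Nat.factorial 3 ≤ v ^ 3 := by
      rw [mul_comm, ← Nat.descFactorial_eq_factorial_mul_choose]
      exact Nat.descFactorial_le_pow v 3
    have h2 : v ^ 3 ≤ (v + 1) ^ 3 := Nat.pow_le_pow_left (by omega) 3
    exact h1.trans h2
  set w := v + 1 with hw
  have hw1 : 1 ≤ w := by omega
  have hvw : v ≤ w := by omega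
  have hc2' : 2 * v.choose 2 ≤ w ^ 2 := by
    have h2 : v * (v - 1) ≤ w * w := Nat.mul_le_mul hvw (by omega)
    nlinarith
  have hc2'' : 1 + 1690 * v.choose 2 ≤ 845 * w ^ 2 := by
    have h2 : v * (v - 1) + 1 ≤ w * w := by
      rcases Nat.eq_zero_or_pos v with h0 | h0
      · subst h0; simp [hw]
      · have h3 : v * (v - 1) ≤ v * v := Nat.mul_le_mul le_rfl (by omega)
        have h4 : v * v + 1 ≤ w * w := by rw [hw]; nlinarith
        omega
    nlinarith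
  have e : cost 3 v = 648 * (gd 3 v 0 + v ^ 2 * gd 3 v 1 + v ^ 4 * gd 3 v 2 +
      v ^ 6 * gd 3 v 3) := by
    unfold cost
    rw [Finset.sum_range_succ, Finset.sum_range_succ, Finset.sum_range_succ,
      Finset.sum_range_succ, Finset.sum_range_zero]
    norm_num
  have d0 : dl 3 v 0 = 2 * w ^ 3 := rfl
  have d1 : dl 3 v 1 = 22 * w ^ 3 := by
    show dl 3 v 0 * (1 + 10 * K 0 * v.choose 0) = _
    rw [d0, k0, Nat.choose_zero_right]
    ring
  have d2 : dl 3 v 2 = 22 * w ^ 3 * (1 + 30 * v) := by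
    show dl 3 v 1 * (1 + 10 * K 1 * v.choose 1) = _
    rw [d1, k1, Nat.choose_one_right]
  have d3 : dl 3 v 3 = 22 * w ^ 3 * (1 + 30 * v) * (1 + 1690 * v.choose 2) := by
    show dl 3 v 2 * (1 + 10 * K 2 * v.choose 2) = _
    rw [d2, k2]
  have g0 : gd 3 v 0 = 8 * w ^ 3 := by
    show 4 * K 0 * v.choose 0 * dl 3 v 0 = _
    rw [d0, k0, Nat.choose_zero_right]
    ring
  have g1 : gd 3 v 1 = 264 * v * w ^ 3 := by
    show 4 * K 1 * v.choose 1 * dl 3 v 1 = _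
    rw [d1, k1, Nat.choose_one_right]
    ring
  have g2 : gd 3 v 2 = 338 * (2 * v.choose 2) * (22 * w ^ 3 * (1 + 30 * v)) := by
    show 4 * K 2 * v.choose 2 * dl 3 v 2 = _
    rw [d2, k2]
    ring
  have g3 : gd 3 v 3 = 1651209318 * (v.choose 3 * 6) *
      (22 * w ^ 3 * (1 + 30 * v) * (1 + 1690 * v.choose 2)) := by
    show 4 * K 3 * v.choose 3 * dl 3 v 3 = _
    rw [d3, k3]
    ring
  have hlin : 1 + 30 * v ≤ 30 * w := by omega
  have b0 : gd 3 v 0 ≤ 8 * w ^ 15 := by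
    rw [g0]
    exact Nat.mul_le_mul_left _ (Nat.pow_le_pow_right hw1 (by norm_num))
  have b1 : v ^ 2 * gd 3 v 1 ≤ 264 * w ^ 15 := by
    rw [g1]
    calc v ^ 2 * (264 * v * w ^ 3) = 264 * (v ^ 3 * w ^ 3) := by ring
      _ ≤ 264 * (w ^ 3 * w ^ 3) := by gcongr
      _ = 264 * w ^ 6 := by ring
      _ ≤ 264 * w ^ 15 := Nat.mul_le_mul_left _ (Nat.pow_le_pow_right hw1 (by norm_num))
  have b2 : v ^ 4 * gd 3 v 2 ≤ 223080 * w ^ 15 := by
    rw [g2]
    calc v ^ 4 * (338 * (2 * v.choose 2) * (22 * w ^ 3 * (1 + 30 * v)))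
        ≤ w ^ 4 * (338 * w ^ 2 * (22 * w ^ 3 * (30 * w))) := by gcongr
      _ = 223080 * w ^ 10 := by ring
      _ ≤ 223080 * w ^ 15 := Nat.mul_le_mul_left _ (Nat.pow_le_pow_right hw1 (by norm_num))
  have b3 : v ^ 6 * gd 3 v 3 ≤ 920879436648600 * w ^ 15 := by
    rw [g3]
    calc v ^ 6 * (1651209318 * (v.choose 3 * 6) *
          (22 * w ^ 3 * (1 + 30 * v) * (1 + 1690 * v.choose 2)))
        ≤ w ^ 6 * (1651209318 * w ^ 3 * (22 * w ^ 3 * (30 * w) * (845 * w ^ 2))) := by gcongr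
      _ = 920879436648600 * w ^ 15 := by ring
  rw [e]
  calc 648 * (gd 3 v 0 + v ^ 2 * gd 3 v 1 + v ^ 4 * gd 3 v 2 + v ^ 6 * gd 3 v 3)
      ≤ 648 * (8 * w ^ 15 + 264 * w ^ 15 + 223080 * w ^ 15 + 920879436648600 * w ^ 15) := by
        gcongr
    _ = 596729875093024896 * w ^ 15 := by ring
    _ ≤ 2 ^ 60 * w ^ 15 := Nat.mul_le_mul_right _ (by norm_num)

lemma numThree_poly (u : ℕ) (hu : 243 ≤ u) : 2 ^ 60 * (3 * u + 4) ^ 15 < 3 ^ (u - 7) := by
  induction u, hu using Nat.le_induction with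
  | base => norm_num
  | succ u hu ih =>
    have h1 : 244 * (3 * (u + 1) + 4) ≤ 245 * (3 * u + 4) := by omega
    have h2 : (244 * (3 * (u + 1) + 4)) ^ 15 ≤ (245 * (3 * u + 4)) ^ 15 :=
      Nat.pow_le_pow_left h1 15
    rw [mul_pow, mul_pow] at h2
    have h3 : 244 ^ 15 * (3 * (u + 1) + 4) ^ 15 ≤ 244 ^ 15 * (3 * (3 * u + 4) ^ 15) := by
      refine h2.trans ?_
      have : (245 : ℕ) ^ 15 ≤ 244 ^ 15 * 3 := by norm_num
      calc 245 ^ 15 * (3 * u + 4) ^ 15 ≤ (244 ^ 15 * 3) * (3 * u + 4) ^ 15 :=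
            Nat.mul_le_mul_right _ this
        _ = 244 ^ 15 * (3 * (3 * u + 4) ^ 15) := by ring
    have h4 : (3 * (u + 1) + 4) ^ 15 ≤ 3 * (3 * u + 4) ^ 15 :=
      Nat.le_of_mul_le_mul_left h3 (by norm_num)
    have h5 : u + 1 - 7 = (u - 7) + 1 := by omega
    rw [h5, pow_succ]
    calc 2 ^ 60 * (3 * (u + 1) + 4) ^ 15 ≤ 2 ^ 60 * (3 * (3 * u + 4) ^ 15) :=
          Nat.mul_le_mul_left _ h4
      _ = (2 ^ 60 * (3 * u + 4) ^ 15) * 3 := by ring
      _ < 3 ^ (u - 7) * 3 := Nat.mul_lt_mul_of_pos_right ih (by norm_num)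

lemma numThree_base : 2 ^ 60 * 247 ^ 15 < (228).choose 74 := by
  rw [Nat.choose_eq_factorial_div_factorial (by norm_num)]
  decide +kernel

theorem cost_three (m k : ℕ) (hm : 4 ≤ m) (hk1 : 3 ^ m ≤ k) (hk2 : k ≤ 3 ^ m + 3) :
    ∀ s ≤ 3, cost 3 (3 ^ (m + 1) + 3) < (3 ^ (m + 1) + 3 - 2 * s - 3 * (3 + 1)).choose
      (k - s - (3 + 1)) := by
  intro s hs
  rcases Nat.lt_or_ge 4 m with h5 | h5
  · have hu : 243 ≤ 3 ^ m := by
      calc 243 = 3 ^ 5 := by norm_num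
        _ ≤ 3 ^ m := Nat.pow_le_pow_right (by norm_num) h5
    rw [pow_succ]
    generalize 3 ^ m = u at *
    have h1 : cost 3 (u * 3 + 3) ≤ 2 ^ 60 * (3 * u + 4) ^ 15 := by
      have := numThree_cost (u * 3 + 3)
      have e : u * 3 + 3 + 1 = 3 * u + 4 := by ring
      rwa [e] at this
    have h2 := numThree_poly u hu
    have h3 : 3 ^ (u - 7) ≤ (u * 3 + 3 - 2 * s - 3 * (3 + 1)).choose (u - 7) :=
      numTwo_pow_le_choose _ _ (by omega)
    have h4 : (u * 3 + 3 - 2 * s - 3 * (3 + 1)).choose (u - 7) ≤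
        (u * 3 + 3 - 2 * s - 3 * (3 + 1)).choose (k - s - (3 + 1)) :=
      numTwo_choose_mono _ _ _ (by omega) (by omega)
    exact (h1.trans_lt h2).trans_le (h3.trans h4)
  · have hm4 : m = 4 := by omega
    subst hm4
    norm_num at hk1 hk2 ⊢
    have h1 : cost 3 246 ≤ 2 ^ 60 * 247 ^ 15 := numThree_cost 246
    have h3 : (228).choose 74 ≤ (246 - 2 * s - 12).choose 74 :=
      Nat.choose_le_choose 74 (by omega)
    have h4 : (246 - 2 * s - 12).choose 74 ≤ (246 - 2 * s - 12).choose (k - s - 4) :=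
      numTwo_choose_mono _ _ _ (by omega) (by omega)
    exact (h1.trans_lt numThree_base).trans_le (h3.trans h4)

end Pool.Agent.LS3
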