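import Pool.Agent.Lib.MP_2c0b9b_co.Defs

/-!
# Null functions are short combinations of pods
-/

set_option autoImplicit false

open Finset

namespace Pool.Agent.LS3

namespace PodAux

variable {α : Type*} [DecidableEq α]

/-- Null functions on `(X, s)`. -/
def Null (s : ℕ) (X : Finset α) (d : Finset α → ℤ) : Prop :=
  ∀ R ⊆ X, R.card < s → ∑ U ∈ (powersetCard s X).filter (fun U => R ⊆ U), d U = 0

/-- A null function vanishes on small sets. -/
theorem Null.zero {s : ℕ} {X : Finset α} {d : Finset α → ℤ} (h : Null s X d)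
    (hX : X.card < 2 * s) {T : Finset α} (hT : T ∈ powersetCard s X) : d T = 0 := by
  obtain ⟨hTX, hTs⟩ := mem_powersetCard.1 hT
  have h1 : ∑ U ∈ powersetCard s X, d U * ∑ R ∈ (T ∩ U).powerset, (-1 : ℤ) ^ R.card = 0 := by
    refine sum_eq_zero fun U hU => ?_
    obtain ⟨hUX, hUs⟩ := mem_powersetCard.1 hU
    rw [sum_powerset_neg_one_pow_card, if_neg, mul_zero]
    intro h0
    have h2 : (T ∪ U).card = T.card + U.card := by
      rw [card_union_of_disjoint (disjoint_iff_inter_eq_empty.2 h0)]
    have h3 := card_le_card (union_subset hTX hUX)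
    omega
  have h2 : ∑ U ∈ powersetCard s X, d U * ∑ R ∈ (T ∩ U).powerset, (-1 : ℤ) ^ R.card =
      ∑ R ∈ T.powerset, (-1 : ℤ) ^ R.card *
        ∑ U ∈ (powersetCard s X).filter (fun U => R ⊆ U), d U := by
    simp_rw [mul_sum, sum_filter]
    rw [sum_comm' (s := powersetCard s X) (t := fun U => (T ∩ U).powerset)
      (t' := T.powerset) (s' := fun R => (powersetCard s X).filter (fun U => R ⊆ U))]
    · refine sum_congr rfl fun R _ => ?_
      rw [sum_filter]
      refine sum_congr rfl fun U _ => ?_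
      split_ifs
      · ring
      · simp
    · intro U R
      simp only [mem_powerset, mem_filter, subset_inter_iff]
      tauto
  rw [h1] at h2
  rw [sum_eq_single T] at h2
  · have h3 : (powersetCard s X).filter (fun U => T ⊆ U) = {T} := by
      ext U
      simp only [mem_filter, mem_singleton]
      constructor
      · rintro ⟨hU, hTU⟩
        exact (eq_of_subset_of_card_le hTU (by rw [(mem_powersetCard.1 hU).2, hTs])).symm
      · rintro rfl
        exact ⟨hT, Subset.rfl⟩
    rw [h3, sum_singleton] at h2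
    have h4 : ((-1 : ℤ) ^ T.card) ≠ 0 := by positivity
    exact (mul_eq_zero.1 h2.symm).resolve_left h4
  · intro R hR hRT
    rw [mem_powerset] at hR
    rw [h R (hR.trans hTX) ?_, mul_zero]
    rw [← hTs]
    exact card_lt_card (hR.ssubset_of_ne hRT)
  · intro hc
    exact absurd (mem_powerset.2 Subset.rfl) hc

/-! ### Transversals and pods -/

section
variable {s : ℕ} {p : (Fin s → α) × (Fin s → α)}

theorem oct_inj1 (h : Oct p) {i j : Fin s} (hij : p.1 i = p.1 j) : i = j :=
  Sum.inl_injective (h (a₁ := Sum.inl i) (a₂ := Sum.inl j) hij)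

theorem oct_inj2 (h : Oct p) {i j : Fin s} (hij : p.2 i = p.2 j) : i = j :=
  Sum.inr_injective (h (a₁ := Sum.inr i) (a₂ := Sum.inr j) hij)

theorem oct_ne (h : Oct p) {i j : Fin s} : p.1 i ≠ p.2 j := by
  intro hij
  have := h (a₁ := Sum.inl i) (a₂ := Sum.inr j) hij
  exact Sum.inl_ne_inr this

theorem tr_inj (h : Oct p) (J : Finset (Fin s)) :
    Function.Injective (fun i => if i ∈ J then p.2 i else p.1 i) := by
  intro i j hij
  simp only at hij
  split_ifs at hij
  · exact oct_inj2 h hij
  · exact absurd hij.symm (oct_ne h)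
  · exact absurd hij (oct_ne h)
  · exact oct_inj1 h hij

theorem card_tr (h : Oct p) (J : Finset (Fin s)) : (tr p J).card = s := by
  unfold tr
  rw [card_image_of_injective _ (tr_inj h J), card_univ, Fintype.card_fin]

theorem tr_mem {X : Finset α} (h : Oct p) (hX : ∀ i, p.1 i ∈ X ∧ p.2 i ∈ X)
    (J : Finset (Fin s)) : tr p J ∈ powersetCard s X := by
  rw [mem_powersetCard]
  refine ⟨?_, card_tr h J⟩
  intro x hx
  unfold tr at hx
  rw [mem_image] at hx
  obtain ⟨i, -, rfl⟩ := hx
  split_ifs
  · exact (hX i).2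
  · exact (hX i).1

theorem mem_tr {J : Finset (Fin s)} {x : α} :
    x ∈ tr p J ↔ ∃ i, (i ∈ J ∧ p.2 i = x) ∨ (i ∉ J ∧ p.1 i = x) := by
  unfold tr
  rw [mem_image]
  constructor
  · rintro ⟨i, -, h⟩
    refine ⟨i, ?_⟩
    split_ifs at h with h1
    · exact Or.inl ⟨h1, h⟩
    · exact Or.inr ⟨h1, h⟩
  · rintro ⟨i, ⟨h1, h2⟩ | ⟨h1, h2⟩⟩
    · exact ⟨i, mem_univ _, by rw [if_pos h1, h2]⟩
    · exact ⟨i, mem_univ _, by rw [if_neg h1, h2]⟩

/-- Pods are null. -/
theorem pod_null {X : Finset α} (h : Oct p) (hX : ∀ i, p.1 i ∈ X ∧ p.2 i ∈ X) :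
    Null s X (pod p) := by
  intro R _ hR
  -- a pair that misses `R`
  obtain ⟨i0, h1, h2⟩ : ∃ i0, p.1 i0 ∉ R ∧ p.2 i0 ∉ R := by
    by_contra hc
    push Not at hc
    have h3 : ∀ i, ∃ x ∈ R, x = p.1 i ∨ x = p.2 i := by
      intro i
      by_cases hi : p.1 i ∈ R
      · exact ⟨_, hi, Or.inl rfl⟩
      · exact ⟨_, hc i hi, Or.inr rfl⟩
    choose f hf hf' using h3
    have hinj : Function.Injective f := by
      intro i j hij
      rcases hf' i with h4 | h4 <;> rcases hf' j with h5 | h5
      · exact oct_inj1 h (by rw [← h4, ← h5, hij])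
      · exact absurd (by rw [← h4, ← h5, hij]) (oct_ne h (i := i) (j := j))
      · exact absurd (by rw [← h4, ← h5, hij]) (oct_ne h (i := j) (j := i))
      · exact oct_inj2 h (by rw [← h4, ← h5, hij])
    have h6 := card_le_card_of_injOn (s := (univ : Finset (Fin s))) (t := R) f
      (fun i _ => hf i) (fun i _ j _ hij => hinj hij)
    rw [card_univ, Fintype.card_fin] at h6
    omega
  have h3 : ∑ U ∈ (powersetCard s X).filter (fun U => R ⊆ U), pod p U =
      ∑ J : Finset (Fin s), if R ⊆ tr p J then (-1 : ℤ) ^ J.card else 0 := by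
    unfold pod
    rw [sum_comm]
    refine sum_congr rfl fun J _ => ?_
    rw [sum_ite_eq ((powersetCard s X).filter (fun U => R ⊆ U)) (tr p J)
      (fun _ => (-1 : ℤ) ^ J.card)]
    simp only [mem_filter, tr_mem h hX J, true_and]
  rw [h3]
  refine sum_involution (fun J _ => symmDiff J {i0}) ?_ ?_ ?_ ?_
  · intro J _
    have h4 : R ⊆ tr p (symmDiff J {i0}) ↔ R ⊆ tr p J := by
      have key : ∀ J J' : Finset (Fin s), (∀ i, i ≠ i0 → (i ∈ J ↔ i ∈ J')) → R ⊆ tr p J →
          R ⊆ tr p J' := by
        intro J J' hJ hR x hx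
        obtain ⟨i, hi⟩ := mem_tr.1 (hR hx)
        have hi0 : i ≠ i0 := by
          rintro rfl
          rcases hi with ⟨-, rfl⟩ | ⟨-, rfl⟩
          · exact h2 hx
          · exact h1 hx
        rw [mem_tr]
        refine ⟨i, ?_⟩
        rw [← hJ i hi0]
        exact hi
      have hs : ∀ i, i ≠ i0 → (i ∈ symmDiff J {i0} ↔ i ∈ J) := by
        intro i hi
        rw [mem_symmDiff, mem_singleton]
        tauto
      exact ⟨key _ _ hs, key _ _ fun i hi => (hs i hi).symm⟩
    simp only [h4]
    split_ifs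
    · by_cases hi : i0 ∈ J
      · have h5 : symmDiff J {i0} = J.erase i0 := by
          ext i
          rw [mem_symmDiff, mem_singleton, mem_erase]
          constructor
          · rintro (⟨h6, h7⟩ | ⟨h6, h7⟩)
            · exact ⟨h7, h6⟩
            · exact absurd (h6 ▸ hi) h7
          · rintro ⟨h6, h7⟩
            exact Or.inl ⟨h7, h6⟩
        rw [h5, card_erase_of_mem hi]
        obtain ⟨k, hk⟩ : ∃ k, J.card = k + 1 := ⟨J.card - 1, by
          have := card_pos.2 ⟨i0, hi⟩
          omega⟩
        rw [hk, Nat.add_sub_cancel, pow_succ]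
        ring
      · have h5 : symmDiff J {i0} = insert i0 J := by
          ext i
          rw [mem_symmDiff, mem_singleton, mem_insert]
          constructor
          · rintro (⟨h6, h7⟩ | ⟨h6, h7⟩)
            · exact Or.inr h6
            · exact Or.inl h6
          · rintro (h6 | h6)
            · exact Or.inr ⟨h6, h6 ▸ hi⟩
            · refine Or.inl ⟨h6, ?_⟩
              rintro rfl
              exact hi h6
        rw [h5, card_insert_of_notMem hi, pow_succ]
        ring
    · simp
  · intro J _ _ hc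
    have : i0 ∈ symmDiff J {i0} ↔ i0 ∈ J := by rw [hc]
    rw [mem_symmDiff, mem_singleton] at this
    tauto
  · intro J _
    exact mem_univ _
  · intro J _
    exact symmDiff_symmDiff_cancel_right _ _

theorem pod_ne {T : Finset α} (h : pod p T ≠ 0) : ∃ J, tr p J = T := by
  by_contra hc
  push Not at hc
  apply h
  unfold pod
  refine sum_eq_zero fun J _ => ?_
  rw [if_neg (hc J)]

theorem pod_norm (X : Finset α) : ∑ T ∈ powersetCard s X, |pod p T| ≤ 2 ^ s := by
  calc ∑ T ∈ powersetCard s X, |pod p T|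
      ≤ ∑ T ∈ powersetCard s X, ∑ J : Finset (Fin s), if tr p J = T then (1 : ℤ) else 0 := by
        refine sum_le_sum fun T _ => ?_
        unfold pod
        refine (abs_sum_le_sum_abs _ _).trans (sum_le_sum fun J _ => ?_)
        split_ifs
        · rw [abs_pow, abs_neg, abs_one, one_pow]
        · rw [abs_zero]
    _ = ∑ J : Finset (Fin s), ∑ T ∈ powersetCard s X, if tr p J = T then (1 : ℤ) else 0 :=
        sum_comm
    _ ≤ ∑ _J : Finset (Fin s), (1 : ℤ) := by
        refine sum_le_sum fun J _ => ?_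
        rw [sum_ite_eq (powersetCard s X) (tr p J) (fun _ => (1 : ℤ))]
        split_ifs <;> norm_num
    _ = 2 ^ s := by
        rw [sum_const, card_univ, Fintype.card_finset, Fintype.card_fin]
        simp

end

/-! ### Extension of octahedra -/

theorem ext_exists {m j : ℕ} {X Q A : Finset α} {O : (Fin m → α) × (Fin m → α)} (hQX : Q ⊆ X)
    (hA : A ∈ powersetCard j (X \ Q)) (hO : Oct O) (hOQ : ∀ i, O.1 i ∈ Q ∧ O.2 i ∈ Q)
    (hQ : 2 * m + j ≤ Q.card) :
    ∃ p : (Fin (m + j) → α) × (Fin (m + j) → α), Oct p ∧ (∀ i, p.1 i ∈ X ∧ p.2 i ∈ X) ∧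
      (∀ T, pod p T ≠ 0 → T \ Q ⊆ A) ∧ (∀ U ⊆ Q, pod p (A ∪ U) = pod O U) := by
  obtain ⟨hAX, hAj⟩ := mem_powersetCard.1 hA
  have hAQ : ∀ x ∈ A, x ∉ Q := fun x hx => (mem_sdiff.1 (hAX hx)).2
  -- enumeration of `A`
  let eA : Fin j ≃ A := (A.equivFinOfCardEq hAj).symm
  let a : Fin j → α := fun i => (eA i : α)
  have ha : Function.Injective a := fun i i' h => eA.injective (Subtype.ext h)
  have haA : ∀ i, a i ∈ A := fun i => (eA i).2
  have haS : ∀ x ∈ A, ∃ i, a i = x := fun x hx => ⟨eA.symm ⟨x, hx⟩, by simp [a]⟩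
  -- the points of `O`
  let P : Finset α := univ.image (Sum.elim O.1 O.2)
  have hPc : P.card ≤ 2 * m := by
    refine card_image_le.trans ?_
    rw [card_univ, Fintype.card_sum, Fintype.card_fin]
    omega
  have hQP : j ≤ (Q \ P).card := by
    have := le_card_sdiff P Q
    omega
  obtain ⟨B, hB, hBj⟩ := exists_subset_card_eq hQP
  let eB : Fin j ≃ B := (B.equivFinOfCardEq hBj).symm
  let r : Fin j → α := fun i => (eB i : α)
  have hr : Function.Injective r := fun i i' h => eB.injective (Subtype.ext h)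
  have hrB : ∀ i, r i ∈ Q \ P := fun i => hB (eB i).2
  have hrQ : ∀ i, r i ∈ Q := fun i => (mem_sdiff.1 (hrB i)).1
  have hP1 : ∀ i, O.1 i ∈ P := fun i => mem_image.2 ⟨Sum.inl i, mem_univ _, rfl⟩
  have hP2 : ∀ i, O.2 i ∈ P := fun i => mem_image.2 ⟨Sum.inr i, mem_univ _, rfl⟩
  have hrP : ∀ i, r i ∉ P := fun i => (mem_sdiff.1 (hrB i)).2
  let p : (Fin (m + j) → α) × (Fin (m + j) → α) := (Fin.append O.1 a, Fin.append O.2 r)
  have p1l : ∀ i, p.1 (Fin.castAdd j i) = O.1 i := fun i => Fin.append_left _ _ i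
  have p1r : ∀ i, p.1 (Fin.natAdd m i) = a i := fun i => Fin.append_right _ _ i
  have p2l : ∀ i, p.2 (Fin.castAdd j i) = O.2 i := fun i => Fin.append_left _ _ i
  have p2r : ∀ i, p.2 (Fin.natAdd m i) = r i := fun i => Fin.append_right _ _ i
  have hp : Oct p := by
    have hd : ∀ i k, O.1 i ≠ a k := fun i k h => hAQ _ (haA k) (h ▸ (hOQ i).1)
    have hd2 : ∀ i k, O.2 i ≠ a k := fun i k h => hAQ _ (haA k) (h ▸ (hOQ i).2)
    have hd3 : ∀ i k, O.1 i ≠ r k := fun i k h => hrP k (h ▸ hP1 i)
    have hd4 : ∀ i k, O.2 i ≠ r k := fun i k h => hrP k (h ▸ hP2 i)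
    have hd5 : ∀ i k, a i ≠ r k := fun i k h => hAQ _ (haA i) (h ▸ hrQ k)
    intro u v huv
    rcases u with u | u <;> rcases v with v | v <;> simp only [Sum.elim_inl, Sum.elim_inr] at huv
    · congr 1
      induction u using Fin.addCases with
      | left u =>
        induction v using Fin.addCases with
        | left v => rw [p1l, p1l] at huv; rw [oct_inj1 hO huv]
        | right v => rw [p1l, p1r] at huv; exact absurd huv (hd _ _)
      | right u =>
        induction v using Fin.addCases with
        | left v => rw [p1l, p1r] at huv; exact absurd huv.symm (hd _ _)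
        | right v => rw [p1r, p1r] at huv; rw [ha huv]
    · exfalso
      induction u using Fin.addCases with
      | left u =>
        induction v using Fin.addCases with
        | left v => rw [p1l, p2l] at huv; exact oct_ne hO huv
        | right v => rw [p1l, p2r] at huv; exact hd3 _ _ huv
      | right u =>
        induction v using Fin.addCases with
        | left v => rw [p1r, p2l] at huv; exact hd2 _ _ huv.symm
        | right v => rw [p1r, p2r] at huv; exact hd5 _ _ huv
    · exfalso
      induction u using Fin.addCases with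
      | left u =>
        induction v using Fin.addCases with
        | left v => rw [p2l, p1l] at huv; exact oct_ne hO huv.symm
        | right v => rw [p2l, p1r] at huv; exact hd2 _ _ huv
      | right u =>
        induction v using Fin.addCases with
        | left v => rw [p2r, p1l] at huv; exact hd3 _ _ huv.symm
        | right v => rw [p2r, p1r] at huv; exact hd5 _ _ huv.symm
    · congr 1
      induction u using Fin.addCases with
      | left u =>
        induction v using Fin.addCases with
        | left v => rw [p2l, p2l] at huv; rw [oct_inj2 hO huv]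
        | right v => rw [p2l, p2r] at huv; exact absurd huv (hd4 _ _)
      | right u =>
        induction v using Fin.addCases with
        | left v => rw [p2l, p2r] at huv; exact absurd huv.symm (hd4 _ _)
        | right v => rw [p2r, p2r] at huv; rw [hr huv]
  refine ⟨p, hp, ?_, ?_, ?_⟩
  · intro i
    induction i using Fin.addCases with
    | left i => rw [p1l, p2l]; exact ⟨hQX (hOQ i).1, hQX (hOQ i).2⟩
    | right i => rw [p1r, p2r]; exact ⟨(mem_sdiff.1 (hAX (haA i))).1, hQX (hrQ i)⟩
  · intro T hT x hx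
    obtain ⟨J, rfl⟩ := pod_ne hT
    obtain ⟨hx1, hx2⟩ := mem_sdiff.1 hx
    obtain ⟨i, hi⟩ := mem_tr.1 hx1
    induction i using Fin.addCases with
    | left i =>
      rw [p1l, p2l] at hi
      rcases hi with ⟨-, rfl⟩ | ⟨-, rfl⟩
      · exact absurd (hOQ i).2 hx2
      · exact absurd (hOQ i).1 hx2
    | right i =>
      rw [p1r, p2r] at hi
      rcases hi with ⟨-, rfl⟩ | ⟨-, rfl⟩
      · exact absurd (hrQ i) hx2
      · exact haA i
  · intro U hU
    -- only sets `J` in the first part contribute
    have hAU : Disjoint A U := by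
      rw [disjoint_left]
      intro x hx hx'
      exact hAQ x hx (hU hx')
    let em : Finset (Fin m) ↪ Finset (Fin (m + j)) :=
      ⟨fun J => J.map (Fin.castAddEmb j), map_injective _⟩
    have hmap : ∀ J : Finset (Fin m), tr p (J.map (Fin.castAddEmb j)) = A ∪ tr O J := by
      intro J
      ext x
      rw [mem_tr, mem_union, mem_tr]
      constructor
      · rintro ⟨i, hi⟩
        induction i using Fin.addCases with
        | left i =>
          have hm : Fin.castAdd j i ∈ J.map (Fin.castAddEmb j) ↔ i ∈ J :=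
            mem_map' (Fin.castAddEmb j) (a := i)
          rw [p1l, p2l, hm] at hi
          exact Or.inr ⟨i, hi⟩
        | right i =>
          rw [p1r, p2r] at hi
          rcases hi with ⟨h1, -⟩ | ⟨-, rfl⟩
          · exfalso
            rw [mem_map] at h1
            obtain ⟨k, -, hk⟩ := h1
            rw [Fin.castAddEmb_apply, Fin.ext_iff] at hk
            simp only [Fin.val_castAdd, Fin.val_natAdd] at hk
            have := k.2
            omega
          · exact Or.inl (haA i)
      · rintro (hx | ⟨i, hi⟩)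
        · obtain ⟨i, rfl⟩ := haS x hx
          refine ⟨Fin.natAdd m i, Or.inr ⟨?_, p1r i⟩⟩
          intro h1
          rw [mem_map] at h1
          obtain ⟨k, -, hk⟩ := h1
          rw [Fin.castAddEmb_apply, Fin.ext_iff] at hk
          simp only [Fin.val_castAdd, Fin.val_natAdd] at hk
          have := k.2
          omega
        · refine ⟨Fin.castAdd j i, ?_⟩
          rw [p1l, p2l]
          have : Fin.castAdd j i ∈ J.map (Fin.castAddEmb j) ↔ i ∈ J :=
            mem_map' (Fin.castAddEmb j) (a := i)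
          rw [this]
          exact hi
    have hzero : ∀ J : Finset (Fin (m + j)), tr p J = A ∪ U → J ∈ univ.map em := by
      intro J hJ
      have h1 : ∀ i, Fin.natAdd m i ∉ J := by
        intro i hi
        have h2 : a i ∈ tr p J := by rw [hJ]; exact mem_union_left _ (haA i)
        obtain ⟨k, hk⟩ := mem_tr.1 h2
        induction k using Fin.addCases with
        | left k =>
          rw [p1l, p2l] at hk
          rcases hk with ⟨-, hk⟩ | ⟨-, hk⟩
          · exact hAQ _ (haA i) (hk ▸ (hOQ k).2)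
          · exact hAQ _ (haA i) (hk ▸ (hOQ k).1)
        | right k =>
          rw [p1r, p2r] at hk
          rcases hk with ⟨-, hk⟩ | ⟨hk', hk⟩
          · exact hAQ _ (haA i) (hk ▸ hrQ k)
          · exact hk' (ha hk ▸ hi)
      rw [mem_map]
      refine ⟨univ.filter (fun i => Fin.castAdd j i ∈ J), mem_univ _, ?_⟩
      change (univ.filter (fun i => Fin.castAdd j i ∈ J)).map (Fin.castAddEmb j) = J
      ext k
      rw [mem_map]
      induction k using Fin.addCases with
      | left k =>
        constructor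
        · rintro ⟨i, hi, hik⟩
          rw [mem_filter] at hi
          rw [← hik]
          exact hi.2
        · intro hk
          exact ⟨k, mem_filter.2 ⟨mem_univ _, hk⟩, rfl⟩
      | right k =>
        constructor
        · rintro ⟨i, hi, hik⟩
          rw [mem_filter] at hi
          rw [← hik]
          exact hi.2
        · intro hk
          exact absurd hk (h1 k)
    unfold pod
    rw [← sum_subset (subset_univ (univ.map em)) (fun J _ hJ => by
      rw [if_neg fun h => hJ (hzero J h)]), sum_map]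
    refine sum_congr rfl fun J _ => ?_
    change (if tr p (J.map (Fin.castAddEmb j)) = A ∪ U then
      (-1 : ℤ) ^ (J.map (Fin.castAddEmb j)).card else 0) = _
    rw [hmap, card_map]
    have hAO : Disjoint A (tr O J) := by
      rw [disjoint_left]
      intro x hx hx'
      exact hAQ x hx ((mem_powersetCard.1 (tr_mem hO hOQ J)).1 hx')
    have hiff : A ∪ tr O J = A ∪ U ↔ tr O J = U := by
      constructor
      · intro h
        have h1 : (A ∪ tr O J) \ A = (A ∪ U) \ A := by rw [h]
        rwa [union_sdiff_cancel_left hAO, union_sdiff_cancel_left hAU] at h1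
      · rintro rfl
        rfl
    exact if_congr hiff rfl rfl

/-! ### Representations -/

section
variable [Fintype α]

/-- `d` is a combination of pods with total weight at most `M`. -/
def Rep (s : ℕ) (X : Finset α) (d : Finset α → ℤ) (M : ℤ) : Prop :=
  ∃ c : (Fin s → α) × (Fin s → α) → ℤ,
    (∀ p, c p ≠ 0 → Oct p ∧ ∀ i, p.1 i ∈ X ∧ p.2 i ∈ X) ∧
    (∀ U ∈ powersetCard s X, d U = ∑ p, c p * pod p U) ∧ ∑ p, |c p| ≤ M

theorem Rep.congr {s : ℕ} {X : Finset α} {d d' : Finset α → ℤ} {M M' : ℤ} (h : Rep s X d M)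
    (hd : ∀ U ∈ powersetCard s X, d' U = d U) (hM : M ≤ M') : Rep s X d' M' := by
  obtain ⟨c, h1, h2, h3⟩ := h
  exact ⟨c, h1, fun U hU => (hd U hU).trans (h2 U hU), h3.trans hM⟩

theorem Rep.zero (s : ℕ) (X : Finset α) : Rep s X (fun _ => 0) 0 := by
  refine ⟨fun _ => 0, fun p h => absurd rfl h, fun U _ => ?_, ?_⟩
  · simp
  · simp

theorem Rep.add {s : ℕ} {X : Finset α} {d d' : Finset α → ℤ} {M M' : ℤ} (h : Rep s X d M)
    (h' : Rep s X d' M') : Rep s X (fun U => d U + d' U) (M + M') := by
  obtain ⟨c, h1, h2, h3⟩ := h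
  obtain ⟨c', h1', h2', h3'⟩ := h'
  refine ⟨fun p => c p + c' p, fun p hp => ?_, fun U hU => ?_, ?_⟩
  · by_cases hc : c p = 0
    · refine h1' p fun hc' => hp ?_
      simp only [hc, hc', add_zero]
    · exact h1 p hc
  · simp only
    rw [h2 U hU, h2' U hU, ← sum_add_distrib]
    exact sum_congr rfl fun p _ => by ring
  · refine le_trans ?_ (add_le_add h3 h3')
    rw [← sum_add_distrib]
    exact sum_le_sum fun p _ => abs_add_le _ _

theorem Rep.single {s : ℕ} {X : Finset α} {p : (Fin s → α) × (Fin s → α)} (m : ℤ)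
    (hp : m ≠ 0 → Oct p ∧ ∀ i, p.1 i ∈ X ∧ p.2 i ∈ X) :
    Rep s X (fun U => m * pod p U) |m| := by
  refine ⟨fun q => if q = p then m else 0, fun q hq => ?_, fun U hU => ?_, ?_⟩
  · by_cases h : q = p
    · subst h
      simp only [if_true] at hq
      exact hp hq
    · simp only [if_neg h] at hq
      exact absurd rfl hq
  · simp only
    rw [sum_eq_single p]
    · rw [if_pos rfl]
    · intro q _ hq
      rw [if_neg hq, zero_mul]
    · intro h
      exact absurd (mem_univ _) h
  · simp only
    rw [sum_eq_single p]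
    · rw [if_pos rfl]
    · intro q _ hq
      rw [if_neg hq, abs_zero]
    · intro h
      exact absurd (mem_univ _) h

theorem Rep.sum {ι : Type*} {s : ℕ} {X : Finset α} (I : Finset ι) {d : ι → Finset α → ℤ}
    {M : ι → ℤ} (h : ∀ i ∈ I, Rep s X (d i) (M i)) :
    Rep s X (fun U => ∑ i ∈ I, d i U) (∑ i ∈ I, M i) := by
  classical
  induction I using Finset.induction_on with
  | empty => simpa using Rep.zero s X
  | insert i I hi ih =>
    have h1 := (h i (mem_insert_self i I)).add (ih fun k hk => h k (mem_insert_of_mem hk))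
    refine h1.congr (fun U _ => ?_) (le_of_eq ?_)
    · rw [sum_insert hi]
    · rw [sum_insert hi]

/-- Combinations of pods are null. -/
theorem Rep.null {s : ℕ} {X : Finset α} {d : Finset α → ℤ} {M : ℤ} (h : Rep s X d M) :
    Null s X d := by
  obtain ⟨c, h1, h2, -⟩ := h
  intro R hR hRs
  have h3 : ∑ U ∈ (powersetCard s X).filter (fun U => R ⊆ U), d U =
      ∑ U ∈ (powersetCard s X).filter (fun U => R ⊆ U), ∑ p, c p * pod p U :=
    sum_congr rfl fun U hU => h2 U (mem_filter.1 hU).1
  rw [h3, sum_comm]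
  refine sum_eq_zero fun p _ => ?_
  rw [← mul_sum]
  by_cases hc : c p = 0
  · rw [hc, zero_mul]
  · rw [pod_null (h1 p hc).1 (h1 p hc).2 R hR hRs, mul_zero]

theorem Rep.norm {s : ℕ} {X : Finset α} {d : Finset α → ℤ} {M : ℤ} (h : Rep s X d M) :
    ∑ U ∈ powersetCard s X, |d U| ≤ 2 ^ s * M := by
  obtain ⟨c, h1, h2, h3⟩ := h
  calc ∑ U ∈ powersetCard s X, |d U|
      = ∑ U ∈ powersetCard s X, |∑ p, c p * pod p U| :=
        sum_congr rfl fun U hU => by rw [h2 U hU]
    _ ≤ ∑ U ∈ powersetCard s X, ∑ p, |c p| * |pod p U| :=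
        sum_le_sum fun U _ => (abs_sum_le_sum_abs _ _).trans
          (sum_le_sum fun p _ => le_of_eq (abs_mul _ _))
    _ = ∑ p, |c p| * ∑ U ∈ powersetCard s X, |pod p U| := by
        rw [sum_comm]
        exact sum_congr rfl fun p _ => by rw [mul_sum]
    _ ≤ ∑ p, |c p| * 2 ^ s :=
        sum_le_sum fun p _ => mul_le_mul_of_nonneg_left (pod_norm X) (abs_nonneg _)
    _ = 2 ^ s * ∑ p, |c p| := by rw [← sum_mul, mul_comm]
    _ ≤ 2 ^ s * M := mul_le_mul_of_nonneg_left h3 (by positivity)

theorem K_pos (s : ℕ) : 1 ≤ K s := by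
  cases s with
  | zero => exact le_rfl
  | succ s =>
    unfold K
    exact Nat.one_le_pow _ _ (by omega)

theorem K_mono : Monotone K := by
  refine monotone_nat_of_le_succ fun s => ?_
  conv_rhs => unfold K
  calc K s ≤ 1 + 2 ^ (s + 1) * K s := by
        have : 1 * K s ≤ 2 ^ (s + 1) * K s := Nat.mul_le_mul_right _ Nat.one_le_two_pow
        omega
    _ = (1 + 2 ^ (s + 1) * K s) ^ 1 := (pow_one _).symm
    _ ≤ (1 + 2 ^ (s + 1) * K s) ^ (s + 1) := Nat.pow_le_pow_right (by omega) (by omega)

/-- The statement for one order. -/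
def St (α : Type*) [DecidableEq α] [Fintype α] (s : ℕ) : Prop :=
  ∀ (X : Finset α) (d : Finset α → ℤ), Null s X d →
    Rep s X d (K s * ∑ U ∈ powersetCard s X, |d U|)

theorem union_parts {j : ℕ} {X Q A U : Finset α} (hA : A ∈ powersetCard j (X \ Q)) (hU : U ⊆ Q) :
    (A ∪ U) \ Q = A ∧ (A ∪ U) ∩ Q = U := by
  have hAQ : ∀ x ∈ A, x ∉ Q := fun x hx => (mem_sdiff.1 ((mem_powersetCard.1 hA).1 hx)).2
  constructor
  · ext x
    rw [mem_sdiff, mem_union]
    constructor
    · rintro ⟨h1 | h1, h2⟩
      · exact h1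
      · exact absurd (hU h1) h2
    · intro h
      exact ⟨Or.inl h, hAQ x h⟩
  · ext x
    rw [mem_inter, mem_union]
    constructor
    · rintro ⟨h1 | h1, h2⟩
      · exact absurd h2 (hAQ x h1)
      · exact h1
    · intro h
      exact ⟨Or.inr h, hU h⟩

theorem union_mem {m j : ℕ} {X Q A U : Finset α} (hQX : Q ⊆ X) (hA : A ∈ powersetCard j (X \ Q))
    (hU : U ∈ powersetCard m Q) : A ∪ U ∈ powersetCard (m + j) X := by
  obtain ⟨hAX, hAj⟩ := mem_powersetCard.1 hA
  obtain ⟨hUQ, hUm⟩ := mem_powersetCard.1 hU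
  rw [mem_powersetCard]
  refine ⟨union_subset (hAX.trans sdiff_subset) (hUQ.trans hQX), ?_⟩
  rw [card_union_of_disjoint, hAj, hUm, add_comm]
  rw [disjoint_left]
  exact fun x hx hx' => (mem_sdiff.1 (hAX hx)).2 (hUQ hx')

theorem parts_mem {m j : ℕ} {X Q T : Finset α} (hT : T ∈ powersetCard (m + j) X)
    (hj : (T \ Q).card = j) :
    T \ Q ∈ powersetCard j (X \ Q) ∧ T ∩ Q ∈ powersetCard m Q ∧ (T \ Q) ∪ (T ∩ Q) = T := by
  obtain ⟨hTX, hTc⟩ := mem_powersetCard.1 hT
  refine ⟨mem_powersetCard.2 ⟨sdiff_subset_sdiff hTX Subset.rfl, hj⟩,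
    mem_powersetCard.2 ⟨inter_subset_right, ?_⟩, sdiff_union_inter T Q⟩
  have := card_sdiff_add_card_inter T Q
  omega

/-- One step: remove the part of `d` on the sets with exactly `j` points outside of `Q`. -/
theorem step {m j : ℕ} (IH : St α m) {X Q : Finset α} (hQX : Q ⊆ X) (hQ : 2 * m + j ≤ Q.card)
    {d : Finset α → ℤ} (hd : Null (m + j) X d)
    (hsup : ∀ T ∈ powersetCard (m + j) X, j < (T \ Q).card → d T = 0) :
    ∃ e : Finset α → ℤ, Rep (m + j) X e (K m * ∑ U ∈ powersetCard (m + j) X, |d U|) ∧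
      ∀ T ∈ powersetCard (m + j) X, j ≤ (T \ Q).card → d T = e T := by
  classical
  -- the functions `d_A`
  have hnull : ∀ A ∈ powersetCard j (X \ Q), Null m Q (fun U => d (A ∪ U)) := by
    intro A hA R hR hRm
    obtain ⟨hAX, hAj⟩ := mem_powersetCard.1 hA
    have hdis : Disjoint A R := by
      rw [disjoint_left]
      exact fun x hx hx' => (mem_sdiff.1 (hAX hx)).2 (hR hx')
    rw [← hd (A ∪ R) (union_subset (hAX.trans sdiff_subset) (hR.trans hQX)) (by
      rw [card_union_of_disjoint hdis]; omega)]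
    refine sum_bij_ne_zero (fun U _ _ => A ∪ U) ?_ ?_ ?_ ?_
    · intro U hU _
      obtain ⟨hU1, hU2⟩ := mem_filter.1 hU
      rw [mem_filter]
      exact ⟨union_mem hQX hA hU1, union_subset_union Subset.rfl hU2⟩
    · intro U hU _ V hV _ hUV
      have h1 := (union_parts hA (mem_powersetCard.1 (mem_filter.1 hU).1).1).2
      have h2 := (union_parts hA (mem_powersetCard.1 (mem_filter.1 hV).1).1).2
      rw [← h1, ← h2]
      exact congrArg (· ∩ Q) hUV
    · intro T hT hT0
      obtain ⟨hT1, hT2⟩ := mem_filter.1 hT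
      have h1 : A ⊆ T \ Q := by
        intro x hx
        rw [mem_sdiff]
        exact ⟨hT2 (mem_union_left _ hx), (mem_sdiff.1 (hAX hx)).2⟩
      have h2 : (T \ Q).card ≤ j := by
        by_contra hc
        exact hT0 (hsup T hT1 (by omega))
      have h3 : A = T \ Q := eq_of_subset_of_card_le h1 (by omega)
      obtain ⟨-, h4, h5⟩ := parts_mem hT1 (Q := Q) (by rw [← h3]; exact hAj)
      have h6 : A ∪ T ∩ Q = T := by rw [h3]; exact h5
      refine ⟨T ∩ Q, mem_filter.2 ⟨h4, ?_⟩, ?_, h6⟩
      · intro x hx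
        exact mem_inter.2 ⟨hT2 (mem_union_right _ hx), hR hx⟩
      · simp only [h6]
        exact hT0
    · intro U hU _
      rfl
  -- the parts of `e`
  have hA : ∀ A ∈ powersetCard j (X \ Q), ∃ eA : Finset α → ℤ,
      Rep (m + j) X eA (K m * ∑ U ∈ powersetCard m Q, |d (A ∪ U)|) ∧
      (∀ T, eA T ≠ 0 → T \ Q ⊆ A) ∧ (∀ U ∈ powersetCard m Q, eA (A ∪ U) = d (A ∪ U)) := by
    intro A hA
    obtain ⟨c, h1, h2, h3⟩ := IH Q _ (hnull A hA)
    by_cases hex : ∃ O, c O ≠ 0
    · obtain ⟨O0, hO0⟩ := hex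
      obtain ⟨p0, -⟩ := ext_exists hQX hA (h1 O0 hO0).1 (h1 O0 hO0).2 hQ
      have hp : ∀ O : (Fin m → α) × (Fin m → α), ∃ p : (Fin (m + j) → α) × (Fin (m + j) → α),
          c O ≠ 0 → (Oct p ∧ ∀ i, p.1 i ∈ X ∧ p.2 i ∈ X) ∧
            (∀ T, pod p T ≠ 0 → T \ Q ⊆ A) ∧ (∀ U ⊆ Q, pod p (A ∪ U) = pod O U) := by
        intro O
        by_cases hc : c O = 0
        · exact ⟨p0, fun h => absurd hc h⟩
        · obtain ⟨p, q1, q2, q3, q4⟩ := ext_exists hQX hA (h1 O hc).1 (h1 O hc).2 hQ
          exact ⟨p, fun _ => ⟨⟨q1, q2⟩, q3, q4⟩⟩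
      choose p hp using hp
      refine ⟨fun T => ∑ O, c O * pod (p O) T, ?_, ?_, ?_⟩
      · exact (Rep.sum univ (fun O _ => Rep.single (c O) fun h => (hp O h).1)).congr
          (fun U _ => rfl) h3
      · intro T hT
        obtain ⟨O, -, hO⟩ := exists_ne_zero_of_sum_ne_zero hT
        exact (hp O (left_ne_zero_of_mul hO)).2.1 T (right_ne_zero_of_mul hO)
      · intro U hU
        have h4 := h2 U hU
        simp only at h4
        rw [h4]
        refine sum_congr rfl fun O _ => ?_
        by_cases hc : c O = 0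
        · rw [hc, zero_mul, zero_mul]
        · rw [(hp O hc).2.2 U (mem_powersetCard.1 hU).1]
    · push Not at hex
      refine ⟨fun _ => 0, (Rep.zero (m + j) X).congr (fun U _ => rfl) ?_, ?_, ?_⟩
      · exact mul_nonneg (by positivity) (sum_nonneg fun _ _ => abs_nonneg _)
      · intro T hT
        exact absurd rfl hT
      · intro U hU
        have h4 := h2 U hU
        simp only at h4
        rw [h4]
        exact (sum_eq_zero fun O _ => by rw [hex O, zero_mul]).symm
  choose! eA hA1 hA2 hA3 using hA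
  refine ⟨fun T => ∑ A ∈ powersetCard j (X \ Q), eA A T, ?_, ?_⟩
  · refine (Rep.sum (powersetCard j (X \ Q)) hA1).congr (fun U _ => rfl) ?_
    rw [← mul_sum]
    refine mul_le_mul_of_nonneg_left ?_ (by positivity)
    rw [← sum_product (powersetCard j (X \ Q)) (powersetCard m Q)
      (fun x => |d (x.1 ∪ x.2)|)]
    have hinj : Set.InjOn (fun x : Finset α × Finset α => x.1 ∪ x.2)
        ((powersetCard j (X \ Q) ×ˢ powersetCard m Q : Finset (Finset α × Finset α)) :
          Set (Finset α × Finset α)) := by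
      intro x hx y hy hxy
      rw [mem_coe, mem_product] at hx hy
      have h1 := union_parts hx.1 (mem_powersetCard.1 hx.2).1
      have h2 := union_parts hy.1 (mem_powersetCard.1 hy.2).1
      simp only at hxy
      rw [hxy] at h1
      exact Prod.ext (h1.1.symm.trans h2.1) (h1.2.symm.trans h2.2)
    rw [← sum_image (f := fun T => |d T|) hinj]
    refine sum_le_sum_of_subset_of_nonneg ?_ fun _ _ _ => abs_nonneg _
    intro T hT
    obtain ⟨x, hx, rfl⟩ := mem_image.1 hT
    rw [mem_product] at hx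
    exact union_mem hQX hx.1 hx.2
  · intro T hT hTj
    simp only
    rcases eq_or_lt_of_le hTj with h | h
    · obtain ⟨q1, q2, q3⟩ := parts_mem hT (Q := Q) h.symm
      rw [sum_eq_single (T \ Q)]
      · have := hA3 _ q1 _ q2
        rw [q3] at this
        exact this.symm
      · intro A hA hne
        by_contra hc
        have h1 := hA2 A hA T hc
        exact hne (eq_of_subset_of_card_le h1
          (by rw [(mem_powersetCard.1 hA).2]; omega)).symm
      · intro hc
        exact absurd q1 hc
    · rw [hsup T hT h]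
      refine (sum_eq_zero fun A hA => ?_).symm
      by_contra hc
      have h1 := card_le_card (hA2 A hA T hc)
      rw [(mem_powersetCard.1 hA).2] at h1
      omega

/-- The constants of the iteration. -/
def Mj (k L : ℤ) (j : ℕ) : ℤ := k * ∑ i ∈ range j, L ^ i

theorem Mj_succ (k L : ℤ) (j : ℕ) : Mj k L (j + 1) = k + L * Mj k L j := by
  unfold Mj
  rw [geom_sum_succ]
  ring

theorem Mj_nonneg {k L : ℤ} (hk : 0 ≤ k) (hL : 0 ≤ L) (j : ℕ) : 0 ≤ Mj k L j :=
  mul_nonneg hk (sum_nonneg fun _ _ => pow_nonneg hL _)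

theorem claim {s : ℕ} (IH : ∀ m < s, St α m) {X Q : Finset α} (hQX : Q ⊆ X)
    (hQ : Q.card = 2 * s - 1) (hs : 1 ≤ s) (j : ℕ) (hj : j ≤ s) : ∀ d : Finset α → ℤ,
    Null s X d → (∀ T ∈ powersetCard s X, j < (T \ Q).card → d T = 0) →
    Rep s X d (Mj (K (s - 1)) (1 + 2 ^ s * K (s - 1)) j * ∑ U ∈ powersetCard s X, |d U|) := by
  induction j with
  | zero =>
    intro d hd hsup
    have h1 : Null s Q d := by
      intro R hR hRs
      rw [← hd R (hR.trans hQX) hRs]
      refine sum_subset (filter_subset_filter _ (powersetCard_mono hQX)) fun T hT hT' => ?_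
      obtain ⟨h2, h3⟩ := mem_filter.1 hT
      refine hsup T h2 (card_pos.2 ?_)
      rw [nonempty_iff_ne_empty]
      intro h4
      rw [sdiff_eq_empty_iff_subset] at h4
      exact hT' (mem_filter.2 ⟨mem_powersetCard.2 ⟨h4, (mem_powersetCard.1 h2).2⟩, h3⟩)
    refine (Rep.zero s X).congr (fun T hT => ?_) ?_
    · by_cases h2 : T ⊆ Q
      · exact h1.zero (by omega) (mem_powersetCard.2 ⟨h2, (mem_powersetCard.1 hT).2⟩)
      · refine hsup T hT (card_pos.2 ?_)
        rw [nonempty_iff_ne_empty]
        intro h4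
        exact h2 (sdiff_eq_empty_iff_subset.1 h4)
    · unfold Mj
      simp
  | succ j ihj =>
    intro d hd hsup
    have hKm : (K (s - (j + 1)) : ℤ) ≤ K (s - 1) := by exact_mod_cast K_mono (by omega)
    obtain ⟨m, hm⟩ : ∃ m, s = m + (j + 1) := ⟨s - (j + 1), by omega⟩
    have hm' : s - (j + 1) = m := by omega
    rw [hm'] at hKm
    have hstep : ∃ e : Finset α → ℤ, Rep s X e (K m * ∑ U ∈ powersetCard s X, |d U|) ∧
        ∀ T ∈ powersetCard s X, j + 1 ≤ (T \ Q).card → d T = e T := by
      have h1 := IH m (by omega)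
      have h2 : 2 * m + (j + 1) ≤ Q.card := by omega
      clear ihj IH hKm hm' hQ
      subst hm
      exact step h1 hQX h2 hd hsup
    obtain ⟨e, he1, he2⟩ := hstep
    have hn : Null s X (fun U => d U - e U) := by
      intro R hR hRs
      rw [sum_sub_distrib, hd R hR hRs, he1.null R hR hRs, sub_zero]
    have h3 := ihj (by omega) _ hn (fun T hT hTj => by
      rw [he2 T hT hTj, sub_self])
    refine (he1.add h3).congr (fun U _ => by ring) ?_
    have hd0 : 0 ≤ ∑ U ∈ powersetCard s X, |d U| := sum_nonneg fun _ _ => abs_nonneg _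
    have hk0 : (0 : ℤ) ≤ K (s - 1) := by positivity
    have hL0 : (0 : ℤ) ≤ 1 + 2 ^ s * K (s - 1) := by positivity
    have h4 : ∑ U ∈ powersetCard s X, |d U - e U| ≤
        (1 + 2 ^ s * K (s - 1)) * ∑ U ∈ powersetCard s X, |d U| := by
      calc ∑ U ∈ powersetCard s X, |d U - e U|
          ≤ ∑ U ∈ powersetCard s X, (|d U| + |e U|) := sum_le_sum fun U _ => abs_sub _ _
        _ = ∑ U ∈ powersetCard s X, |d U| + ∑ U ∈ powersetCard s X, |e U| := sum_add_distrib
        _ ≤ ∑ U ∈ powersetCard s X, |d U| +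
            2 ^ s * (K m * ∑ U ∈ powersetCard s X, |d U|) := by
          have := he1.norm
          linarith
        _ ≤ ∑ U ∈ powersetCard s X, |d U| +
            2 ^ s * (K (s - 1) * ∑ U ∈ powersetCard s X, |d U|) := by
          have := mul_le_mul_of_nonneg_left (mul_le_mul_of_nonneg_right hKm hd0)
            (by positivity : (0 : ℤ) ≤ 2 ^ s)
          linarith
        _ = _ := by ring
    rw [Mj_succ]
    have h5 := mul_le_mul_of_nonneg_left h4 (Mj_nonneg hk0 hL0 j)
    have h6 := mul_le_mul_of_nonneg_right hKm hd0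
    calc _ ≤ (K (s - 1) : ℤ) * ∑ U ∈ powersetCard s X, |d U| +
          Mj (K (s - 1)) (1 + 2 ^ s * K (s - 1)) j *
            ((1 + 2 ^ s * K (s - 1)) * ∑ U ∈ powersetCard s X, |d U|) := add_le_add h6 h5
      _ = _ := by ring

theorem Mj_le {k : ℤ} (hk : 0 ≤ k) (s j : ℕ) :
    Mj k (1 + 2 ^ s * k) j ≤ (1 + 2 ^ s * k) ^ j := by
  have h1 : ∀ j : ℕ, 2 ^ s * Mj k (1 + 2 ^ s * k) j = (1 + 2 ^ s * k) ^ j - 1 := by
    intro j
    induction j with
    | zero => simp [Mj]
    | succ j ih =>
      rw [Mj_succ, mul_add, mul_left_comm, ih]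
      ring
  have h2 := h1 j
  have h3 := Mj_nonneg hk (L := 1 + 2 ^ s * k) (by positivity) j
  have h4 : (1 : ℤ) ≤ 2 ^ s := one_le_pow₀ (by norm_num)
  nlinarith

theorem St_all (s : ℕ) : St α s := by
  induction s using Nat.strong_induction_on with
  | _ s IH =>
    intro X d hd
    rcases Nat.eq_zero_or_pos s with rfl | hs
    · -- order zero
      let p : (Fin 0 → α) × (Fin 0 → α) := (Fin.elim0, Fin.elim0)
      have hp : Oct p := by
        intro u
        rcases u with u | u <;> exact u.elim0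
      have hpod : pod p ∅ = 1 := by
        unfold pod
        rw [Fintype.sum_unique]
        have h1 : tr p (default : Finset (Fin 0)) = ∅ := by
          unfold tr
          rfl
        rw [if_pos h1]
        rfl
      refine (Rep.single (X := X) (p := p) (d ∅) fun _ => ⟨hp, fun i => i.elim0⟩).congr
        (fun U hU => ?_) ?_
      · rw [powersetCard_zero, mem_singleton] at hU
        subst hU
        rw [hpod, mul_one]
      · rw [powersetCard_zero, sum_singleton]
        unfold K
        simp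
    · by_cases hX : X.card < 2 * s
      · refine (Rep.zero s X).congr (fun T hT => hd.zero hX hT) ?_
        exact mul_nonneg (by positivity) (sum_nonneg fun _ _ => abs_nonneg _)
      · obtain ⟨Q, hQX, hQ⟩ := exists_subset_card_eq (s := X) (n := 2 * s - 1) (by omega)
        refine (claim IH hQX hQ hs s le_rfl d hd (fun T hT hTj => ?_)).congr (fun _ _ => rfl) ?_
        · exfalso
          have h1 := card_le_card (sdiff_subset (s := T) (t := Q))
          rw [(mem_powersetCard.1 hT).2] at h1
          omega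
        · refine mul_le_mul_of_nonneg_right ?_ (sum_nonneg fun _ _ => abs_nonneg _)
          refine (Mj_le (by positivity) s s).trans ?_
          obtain ⟨t, rfl⟩ : ∃ t, s = t + 1 := ⟨s - 1, by omega⟩
          rw [Nat.add_sub_cancel, show K (t + 1) = (1 + 2 ^ (t + 1) * K t) ^ (t + 1) from rfl]
          push_cast
          exact le_rfl

end

end PodAux

theorem pods {α : Type*} [DecidableEq α] [Fintype α] (s : ℕ) (X : Finset α) (d : Finset α → ℤ)
    (hd : ∀ R ⊆ X, R.card < s → ∑ U ∈ (powersetCard s X).filter (fun U => R ⊆ U), d U = 0) :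
    ∃ c : (Fin s → α) × (Fin s → α) → ℤ,
      (∀ p, c p ≠ 0 → Oct p ∧ ∀ i, p.1 i ∈ X ∧ p.2 i ∈ X) ∧
      (∀ U ∈ powersetCard s X, d U = ∑ p, c p * pod p U) ∧
      ∑ p, |c p| ≤ K s * ∑ U ∈ powersetCard s X, |d U| :=
  PodAux.St_all s X d hd

end Pool.Agent.LS3
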